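import Mathlib

/-!
Quadratic relations given by coefficient matrices, and two equivalent forms of the statement that
all words of a given length vanish in the quadratic algebra.
-/

namespace Pool.Agent.Lib.MP_f6e06e_al

universe u

section ev

variable {K : Type u} [Field K] {W : Type} [Fintype W] {A : Type*} [Ring A] [Algebra K A]

/-- the value of the quadratic form `q` at the family `V` -/
def ev (q : W → W → K) (V : W → A) : A := ∑ a, ∑ b, q a b • (V a * V b)

/-- the value of the quadratic form `q` at the family `V`, with `g` inserted in the middle -/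
def gap (q : W → W → K) (V : W → A) (g : A) : A := ∑ a, ∑ b, q a b • (V a * g * V b)

theorem gap_add (q : W → W → K) (V : W → A) (g h : A) :
    gap q V (g + h) = gap q V g + gap q V h := by
  simp only [gap, mul_add, add_mul, smul_add, Finset.sum_add_distrib]

theorem gap_smul (q : W → W → K) (V : W → A) (c : K) (g : A) :
    gap q V (c • g) = c • gap q V g := by
  simp only [gap, mul_smul_comm, smul_mul_assoc, Finset.smul_sum, smul_comm c]

theorem gap_sub (q : W → W → K) (V : W → A) (g h : A) :
    gap q V (g - h) = gap q V g - gap q V h := by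
  simp only [gap, mul_sub, sub_mul, smul_sub, Finset.sum_sub_distrib]

theorem mul_gap_mul (q : W → W → K) (V : W → A) (g P Q : A) :
    P * gap q V g * Q = ∑ a, ∑ b, q a b • (P * V a * g * V b * Q) := by
  simp only [gap, Finset.mul_sum, Finset.sum_mul, mul_smul_comm, smul_mul_assoc, mul_assoc]

theorem mul_ev_mul (q : W → W → K) (V : W → A) (P Q : A) :
    P * ev q V * Q = ∑ a, ∑ b, q a b • (P * V a * V b * Q) := by
  simp only [ev, Finset.mul_sum, Finset.sum_mul, mul_smul_comm, smul_mul_assoc, mul_assoc]

end ev

section nil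

variable {K : Type u} [Field K] {W J : Type} [Fintype W]

/-- all words of length `N` vanish in every algebra with the given relations -/
def Nil1 (ρ : J → W → W → K) (r : W → W → K) (N : ℕ) : Prop :=
  ∀ (A : Type u) [Ring A] [Algebra K A] (V : W → A), (∀ j, ev (ρ j) V = 0) → ev r V = 0 →
    ∀ l : List W, l.length = N → (l.map V).prod = 0

/-- the same in terms of functions on words -/
def Nil2 (ρ : J → W → W → K) (r : W → W → K) (N : ℕ) : Prop :=
  ∀ (E : Type u) [AddCommGroup E] [Module K E] (f : List W → E),
    (∀ j u₁ u₂, u₁.length + u₂.length + 2 = N →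
      ∑ a, ∑ b, ρ j a b • f (u₁ ++ a :: b :: u₂) = 0) →
    (∀ u₁ u₂, u₁.length + u₂.length + 2 = N →
      ∑ a, ∑ b, r a b • f (u₁ ++ a :: b :: u₂) = 0) →
    ∀ l : List W, l.length = N → f l = 0

/-- the module of functions on words compatible with the relations -/
def compat (ρ : J → W → W → K) (r : W → W → K) (E : Type u) [AddCommGroup E] [Module K E] :
    Submodule K (List W → E) where
  carrier := {g | (∀ j u₁ u₂, ∑ a, ∑ b, ρ j a b • g (u₁ ++ a :: b :: u₂) = 0) ∧
    ∀ u₁ u₂, ∑ a, ∑ b, r a b • g (u₁ ++ a :: b :: u₂) = 0}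
  add_mem' := by
    rintro g h ⟨hg1, hg2⟩ ⟨hh1, hh2⟩
    refine ⟨fun j u₁ u₂ => ?_, fun u₁ u₂ => ?_⟩
    · simp only [Pi.add_apply, smul_add, Finset.sum_add_distrib, hg1, hh1, add_zero]
    · simp only [Pi.add_apply, smul_add, Finset.sum_add_distrib, hg2, hh2, add_zero]
  zero_mem' := by
    refine ⟨fun j u₁ u₂ => ?_, fun u₁ u₂ => ?_⟩ <;> simp
  smul_mem' := by
    rintro c g ⟨hg1, hg2⟩
    refine ⟨fun j u₁ u₂ => ?_, fun u₁ u₂ => ?_⟩
    · simp only [Pi.smul_apply, smul_comm _ c, ← Finset.smul_sum, hg1, smul_zero]
    · simp only [Pi.smul_apply, smul_comm _ c, ← Finset.smul_sum, hg2, smul_zero]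

/-- right shift -/
def shiftOp (ρ : J → W → W → K) (r : W → W → K) (E : Type u) [AddCommGroup E] [Module K E]
    (a : W) : Module.End K (compat ρ r E) :=
  (LinearMap.funLeft K E (fun u : List W => u ++ [a])).restrict (by
    rintro g ⟨hg1, hg2⟩
    refine ⟨fun j u₁ u₂ => ?_, fun u₁ u₂ => ?_⟩
    · have := hg1 j u₁ (u₂ ++ [a])
      simpa [LinearMap.funLeft_apply] using this
    · have := hg2 u₁ (u₂ ++ [a])
      simpa [LinearMap.funLeft_apply] using this)

theorem shiftOp_apply (ρ : J → W → W → K) (r : W → W → K) (E : Type u) [AddCommGroup E]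
    [Module K E] (a : W) (g : compat ρ r E) (u : List W) :
    (shiftOp ρ r E a g : List W → E) u = (g : List W → E) (u ++ [a]) := rfl

theorem shiftOp_prod (ρ : J → W → W → K) (r : W → W → K) (E : Type u) [AddCommGroup E]
    [Module K E] (l : List W) : ∀ (g : compat ρ r E) (u : List W),
    ((l.map (shiftOp ρ r E)).prod g : List W → E) u = (g : List W → E) (u ++ l) := by
  induction l with
  | nil => intro g u; simp
  | cons a l ih =>
    intro g u
    rw [List.map_cons, List.prod_cons, Module.End.mul_apply, shiftOp_apply, ih]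
    simp

theorem compat_sum (ρ : J → W → W → K) (r : W → W → K) (E : Type u) [AddCommGroup E]
    [Module K E] (q : W → W → K) (g : compat ρ r E) (u : List W) :
    (ev q (shiftOp ρ r E) g : List W → E) u =
      ∑ a, ∑ b, q a b • (g : List W → E) (u ++ a :: b :: []) := by
  simp only [ev, LinearMap.sum_apply, LinearMap.smul_apply, Module.End.mul_apply,
    Submodule.coe_sum, Submodule.coe_smul, Finset.sum_apply, Pi.smul_apply, shiftOp_apply,
    List.append_assoc, List.cons_append, List.nil_append]

theorem Nil1.nil2 {ρ : J → W → W → K} {r : W → W → K} {N : ℕ} (h : Nil1 ρ r N) :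
    Nil2 ρ r N := by
  classical
  intro E _ _ f hρ hr l hl
  have hmem : (fun u : List W => if u.length = N then f u else 0) ∈ compat ρ r E := by
    refine ⟨fun j u₁ u₂ => ?_, fun u₁ u₂ => ?_⟩
    · by_cases hN : u₁.length + u₂.length + 2 = N
      · have := hρ j u₁ u₂ hN
        have h2 : ∀ a b : W, (u₁ ++ a :: b :: u₂).length = N := by
          intro a b; simp; omega
        simpa [h2] using this
      · have h2 : ∀ a b : W, (u₁ ++ a :: b :: u₂).length ≠ N := by
          intro a b; simp; omega
        simp only [if_neg (h2 _ _), smul_zero, Finset.sum_const_zero]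
    · by_cases hN : u₁.length + u₂.length + 2 = N
      · have := hr u₁ u₂ hN
        have h2 : ∀ a b : W, (u₁ ++ a :: b :: u₂).length = N := by
          intro a b; simp; omega
        simpa [h2] using this
      · have h2 : ∀ a b : W, (u₁ ++ a :: b :: u₂).length ≠ N := by
          intro a b; simp; omega
        simp only [if_neg (h2 _ _), smul_zero, Finset.sum_const_zero]
  have key := h (Module.End K (compat ρ r E)) (shiftOp ρ r E) (by
    intro j
    ext g u
    rw [compat_sum]
    exact g.2.1 j u []) (by
    ext g u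
    rw [compat_sum]
    exact g.2.2 u []) l hl
  have h3 := shiftOp_prod ρ r E l ⟨_, hmem⟩ []
  rw [key] at h3
  simpa [hl] using h3.symm

end nil

end Pool.Agent.Lib.MP_f6e06e_al
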