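import Mathlib
import Pool.Agent.Lib.MP_f6e06e_al.Basic

/-!
Coefficient matrices of the new relations, and the passage from nilpotency to finite dimension.
-/

namespace Pool.Agent.Lib.MP_f6e06e_al

universe u

section forms

variable {K : Type u} [Field K] {W : Type} [Fintype W]

/-- extension by zero of a quadratic form -/
def ext0 (q : W → W → K) : (W ⊕ Bool) → (W ⊕ Bool) → K
  | Sum.inl a, Sum.inl b => q a b
  | _, _ => 0

/-- the monomial `s t` -/
noncomputable def mono (K : Type u) [Field K] (s t : W ⊕ Bool) :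
    (W ⊕ Bool) → (W ⊕ Bool) → K := by
  classical exact fun s' t' => if s' = s ∧ t' = t then 1 else 0

variable {A : Type*} [Ring A] [Algebra K A]

theorem ev_ext0 (q : W → W → K) (V : W ⊕ Bool → A) :
    ev (ext0 q) V = ev q (fun a => V (Sum.inl a)) := by
  simp [ev, ext0, Fintype.sum_sum_type]

theorem ev_mono (s t : W ⊕ Bool) (V : W ⊕ Bool → A) :
    ev (mono K s t) V = V s * V t := by
  classical
  simp only [ev, mono, ite_and, ite_smul, one_smul, zero_smul]
  rw [Finset.sum_eq_single s]
  · simp
  · intro b _ hb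
    simp [hb]
  · simp

theorem ev_add (p q : (W ⊕ Bool) → (W ⊕ Bool) → K) (V : W ⊕ Bool → A) :
    ev (p + q) V = ev p V + ev q V := by
  simp only [ev, Pi.add_apply, add_smul, Finset.sum_add_distrib]

theorem ev_sub (p q : (W ⊕ Bool) → (W ⊕ Bool) → K) (V : W ⊕ Bool → A) :
    ev (p - q) V = ev p V - ev q V := by
  simp only [ev, Pi.sub_apply, sub_smul, Finset.sum_sub_distrib]

theorem ev_smul (c : K) (q : (W ⊕ Bool) → (W ⊕ Bool) → K) (V : W ⊕ Bool → A) :
    ev (c • q) V = c • ev q V := by
  simp only [ev, Pi.smul_apply, smul_assoc, Finset.smul_sum]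

end forms

section final

variable {K : Type u} [Field K]

/-- there is a nilpotent quadratic algebra with `n` generators and `m + 1` relations -/
def Good (K : Type u) [Field K] (n m : ℕ) : Prop :=
  ∃ (W J : Type) (_ : Fintype W) (_ : Fintype J) (ρ : J → W → W → K) (r : W → W → K) (N : ℕ),
    Fintype.card W = n ∧ Fintype.card J = m ∧ Nil1 ρ r N

theorem good_zero : Good K 0 0 := by
  refine ⟨Empty, Empty, inferInstance, inferInstance, fun j => j.elim, 0, 1, rfl, rfl, ?_⟩
  intro A _ _ V _ _ l hl
  match l, hl with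
  | a :: l, _ => exact a.elim

theorem good_one : Good K 1 0 := by
  refine ⟨Unit, Empty, inferInstance, inferInstance, fun j => j.elim, fun _ _ => 1, 2, rfl, rfl,
    ?_⟩
  intro A _ _ V _ hr l hl
  match l, hl with
  | [(), ()], _ => simpa [ev] using hr

section fd

variable {n : ℕ}

theorem finite_of_words (rel : FreeAlgebra K (Fin n) → FreeAlgebra K (Fin n) → Prop) (N : ℕ)
    (h : ∀ l : List (Fin n), l.length = N →
      (l.map (fun i => RingQuot.mkAlgHom K rel (FreeAlgebra.ι K i))).prod = 0) :
    FiniteDimensional K (RingQuot rel) := by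
  set V : Fin n → RingQuot rel := fun i => RingQuot.mkAlgHom K rel (FreeAlgebra.ι K i) with hV
  set S : Set (RingQuot rel) := (fun l : List (Fin n) => (l.map V).prod) '' {l | l.length ≤ N}
    with hS
  have hfin : S.Finite := (List.finite_length_le (Fin n) N).image _
  have hmul : ∀ x : FreeAlgebra K (Fin n), ∀ s ∈ Submodule.span K S,
      RingQuot.mkAlgHom K rel x * s ∈ Submodule.span K S := by
    intro x
    induction x using FreeAlgebra.induction with
    | grade0 c =>
      intro s hs
      rw [AlgHom.commutes, ← Algebra.smul_def]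
      exact Submodule.smul_mem _ _ hs
    | grade1 i =>
      intro s hs
      induction hs using Submodule.span_induction with
      | mem s hs =>
        obtain ⟨l, hl, rfl⟩ := hs
        by_cases h1 : l.length = N
        · have := h l h1
          simp only [this, mul_zero, zero_mem]
        · refine Submodule.subset_span ⟨i :: l, ?_, ?_⟩
          · simp only [Set.mem_ofPred_eq, List.length_cons] at hl ⊢; omega
          · simp [hV]
      | zero => simp
      | add a b _ _ ha hb => rw [mul_add]; exact add_mem ha hb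
      | smul c a _ ha => rw [mul_smul_comm]; exact Submodule.smul_mem _ _ ha
    | mul a b ha hb =>
      intro s hs
      rw [map_mul, mul_assoc]
      exact ha _ (hb _ hs)
    | add a b ha hb =>
      intro s hs
      rw [map_add, add_mul]
      exact add_mem (ha _ hs) (hb _ hs)
  have htop : Submodule.span K S = ⊤ := by
    rw [eq_top_iff]
    rintro x -
    obtain ⟨y, rfl⟩ := RingQuot.mkAlgHom_surjective K rel x
    have := hmul y 1 (Submodule.subset_span ⟨[], by simp, by simp⟩)
    simpa using this
  exact Module.finite_def.2 ⟨hfin.toFinset, by rw [Set.Finite.coe_toFinset, htop]⟩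

end fd

theorem Good.exists_finite {n m : ℕ} (h : Good K n m) (d : ℕ) (hd : m < d) :
    ∃ q : Fin d → Fin n → Fin n → K,
      FiniteDimensional K (RingQuot (fun a b : FreeAlgebra K (Fin n) =>
        (∃ k, a = ∑ i, ∑ j, q k i j • (FreeAlgebra.ι K i * FreeAlgebra.ι K j)) ∧ b = 0)) := by
  classical
  obtain ⟨W, J, _, _, ρ, r, N, hW, hJ, hN⟩ := h
  let e : W ≃ Fin n := Fintype.equivFinOfCardEq hW
  have hcard : Fintype.card (Option J) ≤ Fintype.card (Fin d) := by
    rw [Fintype.card_option, hJ, Fintype.card_fin]; omega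
  obtain ⟨emb⟩ := Function.Embedding.nonempty_of_card_le hcard
  let q0 : Option J → Fin n → Fin n → K :=
    fun o i j => (o.elim r ρ) (e.symm i) (e.symm j)
  let q : Fin d → Fin n → Fin n → K := Function.extend emb q0 0
  have hq : ∀ o, q (emb o) = q0 o := fun o => emb.injective.extend_apply q0 0 o
  refine ⟨q, ?_⟩
  set rel : FreeAlgebra K (Fin n) → FreeAlgebra K (Fin n) → Prop := fun a b =>
        (∃ k, a = ∑ i, ∑ j, q k i j • (FreeAlgebra.ι K i * FreeAlgebra.ι K j)) ∧ b = 0 with hrel
  refine finite_of_words rel N ?_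
  intro l hl
  have hev : ∀ o : Option J, ev (o.elim r ρ)
      (fun a => RingQuot.mkAlgHom K rel (FreeAlgebra.ι K (e a))) = 0 := by
    intro o
    have h1 : rel (∑ i, ∑ j, q (emb o) i j • (FreeAlgebra.ι K i * FreeAlgebra.ι K j)) 0 :=
      ⟨⟨emb o, rfl⟩, rfl⟩
    have h2 := RingQuot.mkAlgHom_rel K h1
    rw [map_zero, hq] at h2
    simp only [map_sum, map_smul, map_mul] at h2
    rw [ev, ← h2]
    rw [← Equiv.sum_comp e]
    refine Finset.sum_congr rfl fun a _ => ?_
    rw [← Equiv.sum_comp e]
    refine Finset.sum_congr rfl fun b _ => ?_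
    simp [q0]
  have := hN (RingQuot rel) (fun a => RingQuot.mkAlgHom K rel (FreeAlgebra.ι K (e a)))
    (fun j => hev (some j)) (hev none) (l.map e.symm) (by simpa using hl)
  simpa [Function.comp_def] using this

end final

end Pool.Agent.Lib.MP_f6e06e_al
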