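import Mathlib
import Pool.Agent.Lib.MP_f6e06e_al.Basic

/-!
Nilpotent quadratic algebras with `n` generators and `d` relations (no distinguished relation).
-/

namespace Pool.Agent.Lib.MP_f6e06e_al

universe u

/-- all words of length `N` vanish in every algebra with the relations `q j` -/
def NilQ {K : Type u} [Field K] {W J : Type} [Fintype W] (q : J → W → W → K) (N : ℕ) : Prop :=
  ∀ (A : Type u) [Ring A] [Algebra K A] (V : W → A), (∀ j, ev (q j) V = 0) →
    ∀ l : List W, l.length = N → (l.map V).prod = 0

/-- there is a nilpotent quadratic algebra with `n` generators and `d` relations -/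
def GoodD (K : Type u) [Field K] (n d : ℕ) : Prop :=
  ∃ (W J : Type) (_ : Fintype W) (_ : Fintype J) (q : J → W → W → K) (N : ℕ),
    Fintype.card W = n ∧ Fintype.card J = d ∧ NilQ q N

end Pool.Agent.Lib.MP_f6e06e_al
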