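import Mathlib
import Pool.Agent.Lib.MP_f6e06e_al.NilD

/-!
Reduction of words with many letters from `W`, when gaps between such letters may be moved out.
The letters are `inl a` (`a : W`) and `inr b` (`b : β`).
-/

namespace Pool.Agent.Lib.MP_f6e06e_al

universe u

section fill

variable {W β : Type}

/-- `fillB hs z u`: the word `h₁ u₁ h₂ u₂ … h_k u_k z` -/
def fillB : List (List β) → List (W ⊕ β) → List W → List (W ⊕ β)
  | h :: hs, z, v :: u => h.map Sum.inr ++ Sum.inl v :: fillB hs z u
  | _, z, _ => z

@[simp] theorem fillB_cons (h : List β) (hs : List (List β)) (z : List (W ⊕ β)) (v : W)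
    (u : List W) : fillB (h :: hs) z (v :: u) = h.map Sum.inr ++ Sum.inl v :: fillB hs z u := rfl

@[simp] theorem fillB_nil (z : List (W ⊕ β)) (u : List W) : fillB [] z u = z := by
  cases u <;> rfl

theorem fillB_append (z : List (W ⊕ β)) : ∀ (u₁ : List W) (hs₁ : List (List β)),
    hs₁.length = u₁.length → ∀ (hs₂ : List (List β)) (u₂ : List W),
    fillB (hs₁ ++ hs₂) z (u₁ ++ u₂) = fillB hs₁ [] u₁ ++ fillB hs₂ z u₂
  | [], [], _, hs₂, u₂ => by simp
  | [], _ :: _, h, _, _ => by simp at h
  | _ :: _, [], h, _, _ => by simp at h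
  | v :: u₁, h :: hs₁, hlen, hs₂, u₂ => by
    have := fillB_append z u₁ hs₁ (by simpa using hlen) hs₂ u₂
    simp [this]

/-- the number of letters of `W` in a word -/
def cntB (l : List (W ⊕ β)) : ℕ := l.countP Sum.isLeft

@[simp] theorem cntB_nil : cntB ([] : List (W ⊕ β)) = 0 := rfl

@[simp] theorem cntB_append (l₁ l₂ : List (W ⊕ β)) : cntB (l₁ ++ l₂) = cntB l₁ + cntB l₂ := by
  simp [cntB]

@[simp] theorem cntB_inl (a : W) (l : List (W ⊕ β)) : cntB (Sum.inl a :: l) = cntB l + 1 := by
  simp [cntB, List.countP_cons]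

@[simp] theorem cntB_inr (b : β) (l : List (W ⊕ β)) : cntB (Sum.inr b :: l) = cntB l := by
  simp [cntB]

@[simp] theorem cntB_map_inr (h : List β) : cntB (h.map (Sum.inr : β → W ⊕ β)) = 0 := by
  induction h with
  | nil => rfl
  | cons b h ih => simp [ih]

theorem exists_fillB : ∀ (N : ℕ) (l : List (W ⊕ β)), N ≤ cntB l →
    ∃ (hs : List (List β)) (z : List (W ⊕ β)) (u : List W),
      hs.length = N ∧ u.length = N ∧ l = fillB hs z u
  | 0, l, _ => ⟨[], l, [], rfl, rfl, by simp⟩
  | N + 1, [], h => by simp at h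
  | N + 1, Sum.inl a :: l, h => by
    obtain ⟨hs, z, u, h1, h2, h3⟩ := exists_fillB N l (by simpa using h)
    exact ⟨[] :: hs, z, a :: u, by simp [h1], by simp [h2], by simp [h3]⟩
  | N + 1, Sum.inr b :: l, h => by
    obtain ⟨hs, z, u, h1, h2, h3⟩ := exists_fillB (N + 1) l (by simpa using h)
    match hs, u, h1, h2 with
    | h0 :: hs, v :: u, h1, h2 =>
      exact ⟨(b :: h0) :: hs, z, v :: u, by simpa using h1, by simpa using h2, by simp [h3]⟩

theorem length_fillB (z : List (W ⊕ β)) : ∀ (u : List W) (hs : List (List β)),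
    hs.length = u.length →
    (fillB hs z u).length = (hs.map List.length).sum + u.length + z.length
  | [], [], _ => by simp
  | [], _ :: _, h => by simp at h
  | _ :: _, [], h => by simp at h
  | v :: u, h :: hs, hlen => by
    have := length_fillB z u hs (by simpa using hlen)
    simp [this]; omega

theorem cntB_fillB (z : List (W ⊕ β)) : ∀ (u : List W) (hs : List (List β)),
    hs.length = u.length → cntB (fillB hs z u) = u.length + cntB z
  | [], [], _ => by simp
  | [], _ :: _, h => by simp at h
  | _ :: _, [], h => by simp at h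
  | v :: u, h :: hs, hlen => by
    have := cntB_fillB z u hs (by simpa using hlen)
    simp [this]; omega

end fill

section words

variable {K : Type u} [Field K] {W J β ι : Type} {A : Type u} [Ring A] [Algebra K A]

/-- value of a word -/
def wval (V : β → A) (l : List β) : A := (l.map V).prod

@[simp] theorem wval_nil (V : β → A) : wval V [] = 1 := rfl

@[simp] theorem wval_cons (V : β → A) (s : β) (l : List β) :
    wval V (s :: l) = V s * wval V l := by simp [wval]

@[simp] theorem wval_append (V : β → A) (l₁ l₂ : List β) :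
    wval V (l₁ ++ l₂) = wval V l₁ * wval V l₂ := by simp [wval]

@[simp] theorem wval_map {γ : Type} (V : β → A) (f : γ → β) (l : List γ) :
    wval V (l.map f) = wval (fun c => V (f c)) l := by
  simp [wval, Function.comp_def]

/-- span of the words of length `L` with less than `k` letters of `W` -/
def lowerB (K : Type u) [Field K] [Algebra K A] (V : W ⊕ β → A) (L k : ℕ) : Submodule K A :=
  Submodule.span K {p | ∃ l : List (W ⊕ β), l.length = L ∧ cntB l < k ∧ wval V l = p}

/-- functional form: relations `ρ j` and `r k` (`k : ι`) -/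
def Nil3 [Fintype W] (ρ : J → W → W → K) (r : ι → W → W → K) (N : ℕ) : Prop :=
  ∀ (E : Type u) [AddCommGroup E] [Module K E] (f : List W → E),
    (∀ j u₁ u₂, u₁.length + u₂.length + 2 = N →
      ∑ a, ∑ b, ρ j a b • f (u₁ ++ a :: b :: u₂) = 0) →
    (∀ k u₁ u₂, u₁.length + u₂.length + 2 = N →
      ∑ a, ∑ b, r k a b • f (u₁ ++ a :: b :: u₂) = 0) →
    ∀ l : List W, l.length = N → f l = 0

theorem NilQ.nil3 [Fintype W] {ρ : J → W → W → K} {r : ι → W → W → K} {N : ℕ}
    (h : NilQ (Sum.elim ρ r) N) : Nil3 ρ r N := by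
  intro E _ _ f hρ hr l hl
  have h1 : Nil1 (Sum.elim ρ r) (0 : W → W → K) N := fun A _ _ V hV _ l hl => h A V hV l hl
  refine h1.nil2 E f ?_ ?_ l hl
  · rintro (j | k) u₁ u₂ hu
    · exact hρ j u₁ u₂ hu
    · exact hr k u₁ u₂ hu
  · intro u₁ u₂ _
    simp

/-- One reduction step.  `hgap`: insertion of a word `h` in the letters of `β` inside a relation
gives zero, or, for the special relations `r k`, a combination of words in `β` of the right
length. -/
theorem mem_lowerB_of_le [Fintype W] {ρ : J → W → W → K} {r : ι → W → W → K} {N : ℕ}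
    (hN : Nil3 ρ r N) (V : W ⊕ β → A)
    (hρ : ∀ j (h : List β), gap (ρ j) (fun a => V (Sum.inl a)) (wval V (h.map Sum.inr)) = 0)
    (hr : ∀ k (h : List β), gap (r k) (fun a => V (Sum.inl a)) (wval V (h.map Sum.inr)) ∈
      Submodule.span K {p | ∃ g : List β, g.length = h.length + 2 ∧
        wval V (g.map Sum.inr) = p})
    (l : List (W ⊕ β)) (hl : N ≤ cntB l) (L k : ℕ) (hL : l.length = L) (hk : cntB l = k) :
    wval V l ∈ lowerB K V L k := by
  obtain ⟨hs, z, u, h1, h2, rfl⟩ := exists_fillB N l hl
  rw [length_fillB z u hs (by omega)] at hL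
  rw [cntB_fillB z u hs (by omega)] at hk
  have key := hN (A ⧸ lowerB K V L k) (fun u => (lowerB K V L k).mkQ (wval V (fillB hs z u)))
    (by
      intro j u₁ u₂ hu
      obtain ⟨hs₁, h, h', hs₂, rfl, hl1, hl2⟩ : ∃ hs₁ h h' hs₂, hs = hs₁ ++ h :: h' :: hs₂ ∧
          hs₁.length = u₁.length ∧ hs₂.length = u₂.length := by
        have e1 : hs = hs.take u₁.length ++ hs.drop u₁.length := (List.take_append_drop _ _).symm
        have e2 : (hs.drop u₁.length).length = u₂.length + 2 := by
          rw [List.length_drop]; omega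
        match hd : hs.drop u₁.length, e2 with
        | h :: h' :: hs₂, e2 =>
          rw [hd] at e1
          refine ⟨hs.take u₁.length, h, h', hs₂, e1, ?_, by simpa using e2⟩
          rw [List.length_take]; omega
      have e3 : ∀ a b : W, wval V (fillB (hs₁ ++ h :: h' :: hs₂) z (u₁ ++ a :: b :: u₂)) =
          (wval V (fillB hs₁ [] u₁) * wval V (h.map Sum.inr)) * V (Sum.inl a) *
            wval V (h'.map Sum.inr) * V (Sum.inl b) * wval V (fillB hs₂ z u₂) := by
        intro a b
        rw [fillB_append _ _ _ hl1]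
        simp only [fillB_cons, wval_append, wval_cons, mul_assoc]
      simp only [e3, ← map_smul, ← map_sum]
      rw [← mul_gap_mul (ρ j) (fun a => V (Sum.inl a)), hρ]
      simp)
    (by
      intro k' u₁ u₂ hu
      obtain ⟨hs₁, h, h', hs₂, rfl, hl1, hl2⟩ : ∃ hs₁ h h' hs₂, hs = hs₁ ++ h :: h' :: hs₂ ∧
          hs₁.length = u₁.length ∧ hs₂.length = u₂.length := by
        have e1 : hs = hs.take u₁.length ++ hs.drop u₁.length := (List.take_append_drop _ _).symm
        have e2 : (hs.drop u₁.length).length = u₂.length + 2 := by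
          rw [List.length_drop]; omega
        match hd : hs.drop u₁.length, e2 with
        | h :: h' :: hs₂, e2 =>
          rw [hd] at e1
          refine ⟨hs.take u₁.length, h, h', hs₂, e1, ?_, by simpa using e2⟩
          rw [List.length_take]; omega
      have e3 : ∀ a b : W, wval V (fillB (hs₁ ++ h :: h' :: hs₂) z (u₁ ++ a :: b :: u₂)) =
          (wval V (fillB hs₁ [] u₁) * wval V (h.map Sum.inr)) * V (Sum.inl a) *
            wval V (h'.map Sum.inr) * V (Sum.inl b) * wval V (fillB hs₂ z u₂) := by
        intro a b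
        rw [fillB_append _ _ _ hl1]
        simp only [fillB_cons, wval_append, wval_cons, mul_assoc]
      simp only [e3, ← map_smul, ← map_sum]
      rw [← mul_gap_mul (r k') (fun a => V (Sum.inl a)), Submodule.mkQ_apply,
        Submodule.Quotient.mk_eq_zero]
      have h4 := hr k' h'
      generalize gap (r k') (fun a => V (Sum.inl a)) (wval V (List.map Sum.inr h')) = G at h4 ⊢
      induction h4 using Submodule.span_induction with
      | mem p hp =>
        obtain ⟨g, hg, rfl⟩ := hp
        refine Submodule.subset_span ⟨fillB hs₁ [] u₁ ++ h.map Sum.inr ++ g.map Sum.inr ++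
          fillB hs₂ z u₂, ?_, ?_, ?_⟩
        · have t1 := length_fillB (W := W) [] u₁ hs₁ hl1
          have t2 := length_fillB (W := W) z u₂ hs₂ hl2
          simp only [List.length_append, List.length_map, t1, t2, hg, List.length_nil]
          simp only [List.map_append, List.map_cons, List.sum_append, List.sum_cons] at hL
          omega
        · have t1 := cntB_fillB (W := W) [] u₁ hs₁ hl1
          have t2 := cntB_fillB (W := W) z u₂ hs₂ hl2
          simp only [cntB_append, cntB_map_inr, t1, t2, cntB_nil]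
          omega
        · simp only [wval_append, mul_assoc]
      | zero => simp
      | add x y _ _ hx hy => simpa [mul_add, add_mul] using add_mem hx hy
      | smul c x _ hx => simpa [mul_smul_comm, smul_mul_assoc] using Submodule.smul_mem _ c hx)
    u h2
  rwa [Submodule.mkQ_apply, Submodule.Quotient.mk_eq_zero] at key

theorem lowerB_le [Fintype W] {ρ : J → W → W → K} {r : ι → W → W → K} {N : ℕ}
    (hN : Nil3 ρ r N) (V : W ⊕ β → A)
    (hρ : ∀ j (h : List β), gap (ρ j) (fun a => V (Sum.inl a)) (wval V (h.map Sum.inr)) = 0)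
    (hr : ∀ k (h : List β), gap (r k) (fun a => V (Sum.inl a)) (wval V (h.map Sum.inr)) ∈
      Submodule.span K {p | ∃ g : List β, g.length = h.length + 2 ∧
        wval V (g.map Sum.inr) = p})
    (L : ℕ) : ∀ m, lowerB K V L (N + m) ≤ lowerB K V L N
  | 0 => le_rfl
  | m + 1 => by
    refine le_trans ?_ (lowerB_le hN V hρ hr L m)
    rw [lowerB, Submodule.span_le]
    rintro p ⟨l, hl, hc, rfl⟩
    by_cases hcc : cntB l < N + m
    · exact Submodule.subset_span ⟨l, hl, hcc, rfl⟩
    · exact mem_lowerB_of_le hN V hρ hr l (by omega) L (N + m) hl (by omega)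

theorem split_runB : ∀ (l : List (W ⊕ β)), (∃ h : List β, l = h.map Sum.inr) ∨
    ∃ (h : List β) (a : W) (l' : List (W ⊕ β)), l = h.map Sum.inr ++ Sum.inl a :: l'
  | [] => Or.inl ⟨[], rfl⟩
  | Sum.inl a :: l => Or.inr ⟨[], a, l, rfl⟩
  | Sum.inr b :: l => by
    rcases split_runB l with ⟨h, rfl⟩ | ⟨h, a, l', rfl⟩
    · exact Or.inl ⟨b :: h, rfl⟩
    · exact Or.inr ⟨b :: h, a, l', rfl⟩

/-- a word with few letters of `W` and large length vanishes -/
theorem wval_eq_zero (V : W ⊕ β → A) (L₀ : ℕ)
    (h0 : ∀ h : List β, L₀ ≤ h.length → wval V (h.map Sum.inr) = 0) :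
    ∀ (k : ℕ) (l : List (W ⊕ β)), cntB l < k → k * L₀ + k ≤ l.length → wval V l = 0
  | 0, l, hl, _ => by omega
  | k + 1, l, hl, hlen => by
    rcases split_runB l with ⟨h, rfl⟩ | ⟨h, a, l', rfl⟩
    · refine h0 h ?_
      rw [List.length_map] at hlen
      nlinarith [Nat.zero_le (k * L₀)]
    · by_cases hh : L₀ ≤ h.length
      · rw [wval_append, h0 h hh, zero_mul]
      · have : wval V l' = 0 := by
          refine wval_eq_zero V L₀ h0 k l' ?_ ?_
          · simp at hl; omega
          · simp only [List.length_append, List.length_map, List.length_cons] at hlen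
            have : (k + 1) * L₀ = k * L₀ + L₀ := by ring
            omega
        rw [wval_append, wval_cons, this, mul_zero, mul_zero]

/-- all long words vanish, if the long words in the letters of `β` vanish -/
theorem wval_eq_zero_of_length [Fintype W] {ρ : J → W → W → K} {r : ι → W → W → K} {N : ℕ}
    (hN : Nil3 ρ r N) (V : W ⊕ β → A) (L₀ : ℕ)
    (h0 : ∀ h : List β, L₀ ≤ h.length → wval V (h.map Sum.inr) = 0)
    (hρ : ∀ j (h : List β), gap (ρ j) (fun a => V (Sum.inl a)) (wval V (h.map Sum.inr)) = 0)
    (hr : ∀ k (h : List β), gap (r k) (fun a => V (Sum.inl a)) (wval V (h.map Sum.inr)) ∈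
      Submodule.span K {p | ∃ g : List β, g.length = h.length + 2 ∧
        wval V (g.map Sum.inr) = p})
    (l : List (W ⊕ β)) (hl : N * L₀ + N ≤ l.length) : wval V l = 0 := by
  have hmem : wval V l ∈ lowerB K V l.length N := by
    have := lowerB_le (K := K) hN V hρ hr l.length (cntB l + 1)
    exact this (Submodule.subset_span ⟨l, rfl, by omega, rfl⟩)
  have hzero : lowerB K V l.length N = ⊥ := by
    rw [lowerB, Submodule.span_eq_bot]
    rintro p ⟨l', h1, h2, rfl⟩
    exact wval_eq_zero V L₀ h0 N l' h2 (by omega)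
  rw [hzero] at hmem
  simpa using hmem

end words

end Pool.Agent.Lib.MP_f6e06e_al
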