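import Mathlib
import Pool.Agent.Lib.MP_f6e06e_al.WordsB

/-!
The step from `n` to `n + 4` generators, which modifies two relations `r 0`, `r 1`.
New letters `x_i`, `y_i` (`i = 0, 1`), new relations `x_i v = v y_i`, `x_i (y_j - ∑ c j s x_s) = 0`
and `r k + q k (y) = 0`.
-/

namespace Pool.Agent.Lib.MP_f6e06e_al

universe u

section step

variable {K : Type u} [Field K] {W J : Type} [Fintype W] {A : Type u} [Ring A] [Algebra K A]

/-- the relations of the new algebra, in terms of elements of an algebra -/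
structure StepRel2 (ρ : J → W → W → K) (r q : Fin 2 → _ → _ → K) (c : Fin 2 → Fin 2 → K)
    (V : W → A) (X Y : Fin 2 → A) : Prop where
  hρ : ∀ j, ev (ρ j) V = 0
  hr : ∀ k, ev (r k) V = - ev (q k) Y
  hX : ∀ i a, X i * V a = V a * Y i
  hXY : ∀ i j, X i * Y j = X i * ∑ s, c j s • X s

variable {ρ : J → W → W → K} {r : Fin 2 → W → W → K} {q : Fin 2 → Fin 2 → Fin 2 → K}
  {c : Fin 2 → Fin 2 → K} {V : W → A} {X Y : Fin 2 → A}

omit [Fintype W] in
theorem wval_X_mul_V (hX : ∀ i a, X i * V a = V a * Y i) (a : W) : ∀ I : List (Fin 2),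
    wval X I * V a = V a * wval Y I
  | [] => by simp
  | i :: I => by
    rw [wval_cons, wval_cons, mul_assoc, wval_X_mul_V hX a I, ← mul_assoc, hX, mul_assoc]

theorem gap_wval (hX : ∀ i a, X i * V a = V a * Y i) (p : W → W → K) (I I' : List (Fin 2)) :
    gap p V (wval Y I * wval X I') = wval X I * ev p V * wval Y I' := by
  rw [mul_ev_mul, gap]
  refine Finset.sum_congr rfl fun a _ => Finset.sum_congr rfl fun b _ => ?_
  congr 1
  rw [← mul_assoc (V a), ← wval_X_mul_V hX]
  simp only [mul_assoc]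
  rw [wval_X_mul_V hX b I']

/-- the linear forms `∑ c j s x_s` -/
def ZZ (c : Fin 2 → Fin 2 → K) (X : Fin 2 → A) (j : Fin 2) : A := ∑ s, c j s • X s

theorem X_mul_wval_Y (hXY : ∀ i j, X i * Y j = X i * ∑ s, c j s • X s) :
    ∀ (I : List (Fin 2)) (i : Fin 2), X i * wval Y I = X i * wval (ZZ c X) I
  | [], i => by simp
  | j :: I, i => by
    rw [wval_cons, wval_cons, ← mul_assoc, hXY, ← mul_assoc]
    simp only [ZZ, Finset.mul_sum, Finset.sum_mul, mul_smul_comm, smul_mul_assoc, mul_assoc]
    refine Finset.sum_congr rfl fun s _ => ?_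
    rw [X_mul_wval_Y hXY I s]

theorem X_mul_wval_Y_mul_w (hXY : ∀ i j, X i * Y j = X i * ∑ s, c j s • X s) (j' : Fin 2) :
    ∀ (I : List (Fin 2)) (i : Fin 2), X i * wval Y I * (Y j' - ZZ c X j') = 0
  | [], i => by rw [wval_nil, mul_one, mul_sub, hXY, ZZ, sub_self]
  | j :: I, i => by
    rw [wval_cons, ← mul_assoc, hXY]
    simp only [Finset.mul_sum, Finset.sum_mul, mul_smul_comm, smul_mul_assoc, mul_assoc]
    refine Finset.sum_eq_zero fun s _ => ?_
    have := X_mul_wval_Y_mul_w hXY j' I s
    rw [mul_assoc] at this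
    rw [this]
    simp

/-- the product `∏ x_i x_I v w_j` -/
def bigB (c : Fin 2 → Fin 2 → K) (V : W → A) (X Y : Fin 2 → A)
    (l : List ((Fin 2 × List (Fin 2) × Fin 2) × W)) : A :=
  (l.map (fun p => X p.1.1 * wval X p.1.2.1 * V p.2 * (Y p.1.2.2 - ZZ c X p.1.2.2))).prod

omit [Fintype W] in
@[simp] theorem bigB_nil : bigB c V X Y [] = 1 := rfl

omit [Fintype W] in
theorem bigB_append (l₁ l₂ : List ((Fin 2 × List (Fin 2) × Fin 2) × W)) :
    bigB c V X Y (l₁ ++ l₂) = bigB c V X Y l₁ * bigB c V X Y l₂ := by simp [bigB]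

omit [Fintype W] in
theorem bigB_cons (p : (Fin 2 × List (Fin 2) × Fin 2) × W)
    (l : List ((Fin 2 × List (Fin 2) × Fin 2) × W)) :
    bigB c V X Y (p :: l) = X p.1.1 * wval X p.1.2.1 * V p.2 * (Y p.1.2.2 - ZZ c X p.1.2.2) *
      bigB c V X Y l := by simp [bigB]

theorem gap_w_wval (h : StepRel2 ρ r q c V X Y) (p : W → W → K) (j : Fin 2) (I : List (Fin 2)) :
    gap p V ((Y j - ZZ c X j) * wval X I) =
      X j * ev p V * wval Y I - ev p V * (ZZ c Y j * wval Y I) := by
  have e : (Y j - ZZ c X j) * wval X I = wval Y [j] * wval X I -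
      ∑ s, c j s • (wval Y [] * wval X (s :: I)) := by
    rw [sub_mul, ZZ, Finset.sum_mul]
    simp
  have e2 : gap p V (∑ s, c j s • (wval Y [] * wval X (s :: I))) =
      ∑ s, c j s • gap p V (wval Y [] * wval X (s :: I)) := by
    rw [Fin.sum_univ_two, Fin.sum_univ_two, gap_add, gap_smul, gap_smul]
  have e3 : ∀ s, gap p V (wval Y [] * wval X (s :: I)) = ev p V * (Y s * wval Y I) := by
    intro s
    rw [gap_wval h.hX]
    simp
  rw [e, gap_sub, e2, gap_wval h.hX]
  simp only [e3]
  simp only [wval_cons, wval_nil, mul_one, ZZ, Finset.sum_mul,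
    Finset.mul_sum, mul_smul_comm, smul_mul_assoc]

omit [Fintype W] in
theorem ev_mul_wval (p : Fin 2 → Fin 2 → K) (Y : Fin 2 → A) (I : List (Fin 2)) :
    ev p Y * wval Y I = ∑ a, ∑ b, p a b • wval Y (a :: b :: I) := by
  have := mul_ev_mul p Y 1 (wval Y I)
  rw [one_mul] at this
  rw [this]
  refine Finset.sum_congr rfl fun a _ => Finset.sum_congr rfl fun b _ => ?_
  simp [mul_assoc]

theorem X_mul_gap_w_mul_w (h : StepRel2 ρ r q c V X Y) (k i j j' : Fin 2) (I : List (Fin 2)) :
    X i * gap (r k) V ((Y j - ZZ c X j) * wval X I) * (Y j' - ZZ c X j') = 0 := by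
  rw [gap_w_wval h, h.hr]
  have e1 : ∀ I' : List (Fin 2), ∀ i, X i * (ev (q k) Y * wval Y I') * (Y j' - ZZ c X j') = 0 := by
    intro I' i
    rw [ev_mul_wval]
    simp only [Finset.mul_sum, Finset.sum_mul, mul_smul_comm, smul_mul_assoc,
      X_mul_wval_Y_mul_w h.hXY, smul_zero, Finset.sum_const_zero]
  have e2 : ZZ c Y j * wval Y I = ∑ s, c j s • wval Y (s :: I) := by
    rw [ZZ, Finset.sum_mul]
    simp only [smul_mul_assoc, wval_cons]
  rw [e2]
  simp only [mul_neg, neg_mul, mul_sub, sub_mul, Finset.mul_sum, Finset.sum_mul, mul_smul_comm,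
    smul_mul_assoc]
  have e3 : ∀ s, X i * (ev (q k) Y * wval Y (s :: I)) * Y j' -
      X i * (ev (q k) Y * wval Y (s :: I)) * ZZ c X j' = 0 := by
    intro s
    rw [← mul_sub]; exact e1 (s :: I) i
  have e4 : X i * (X j * ev (q k) Y * wval Y I) * Y j' -
      X i * (X j * ev (q k) Y * wval Y I) * ZZ c X j' = 0 := by
    rw [← mul_sub]
    have := e1 I j
    calc X i * (X j * ev (q k) Y * wval Y I) * (Y j' - ZZ c X j')
        = X i * (X j * (ev (q k) Y * wval Y I) * (Y j' - ZZ c X j')) := by simp only [mul_assoc]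
      _ = 0 := by rw [this, mul_zero]
  rw [Fin.sum_univ_two, Fin.sum_univ_two]
  have e50 := e3 0
  have e51 := e3 1
  rw [sub_eq_zero] at e50 e51 e4
  rw [e50, e51, e4]
  abel

/-- the first vanishing statement -/
theorem bigB_eq_zero (h : StepRel2 ρ r q c V X Y) {N : ℕ} (hN : Nil3 ρ r N)
    (l : List ((Fin 2 × List (Fin 2) × Fin 2) × W)) (hl : l.length = N) :
    bigB c V X Y l = 0 := by
  have key := hN A (fun u => bigB c V X Y ((l.map Prod.fst).zip u)) ?_ ?_ (l.map Prod.snd)
    (by simpa using hl)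
  · have e : (l.map Prod.fst).zip (l.map Prod.snd) = l := by
      rw [List.zip_map', List.map_id']
    rw [e] at key
    exact key
  · intro j u₁ u₂ hu
    obtain ⟨hs₁, g, g', hs₂, hd, hl1, hl2⟩ : ∃ hs₁ h h' hs₂, l.map Prod.fst = hs₁ ++ h :: h' :: hs₂ ∧
          hs₁.length = u₁.length ∧ hs₂.length = u₂.length := by
      have e1 : l.map Prod.fst = (l.map Prod.fst).take u₁.length ++ (l.map Prod.fst).drop u₁.length :=
        (List.take_append_drop _ _).symm
      have e2 : ((l.map Prod.fst).drop u₁.length).length = u₂.length + 2 := by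
        rw [List.length_drop, List.length_map]; omega
      match hd : (l.map Prod.fst).drop u₁.length, e2 with
      | h :: h' :: hs₂, e2 =>
        rw [hd] at e1
        refine ⟨(l.map Prod.fst).take u₁.length, h, h', hs₂, e1, ?_, by simpa using e2⟩
        rw [List.length_take, List.length_map]; omega
    have e : ∀ a b : W, bigB c V X Y ((l.map Prod.fst).zip (u₁ ++ a :: b :: u₂)) =
        (bigB c V X Y (hs₁.zip u₁) * (X g.1 * wval X g.2.1)) * V a *
          ((Y g.2.2 - ZZ c X g.2.2) * wval X (g'.1 :: g'.2.1)) * V b *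
          ((Y g'.2.2 - ZZ c X g'.2.2) * bigB c V X Y (hs₂.zip u₂)) := by
      intro a b
      rw [hd, List.zip_append hl1, bigB_append, List.zip_cons_cons, List.zip_cons_cons,
        bigB_cons, bigB_cons]
      simp only [mul_assoc, wval_cons]
    simp only [e]
    rw [← mul_gap_mul, gap_w_wval h, h.hρ]
    simp
  · intro k u₁ u₂ hu
    obtain ⟨hs₁, g, g', hs₂, hd, hl1, hl2⟩ : ∃ hs₁ h h' hs₂, l.map Prod.fst = hs₁ ++ h :: h' :: hs₂ ∧
          hs₁.length = u₁.length ∧ hs₂.length = u₂.length := by
      have e1 : l.map Prod.fst = (l.map Prod.fst).take u₁.length ++ (l.map Prod.fst).drop u₁.length :=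
        (List.take_append_drop _ _).symm
      have e2 : ((l.map Prod.fst).drop u₁.length).length = u₂.length + 2 := by
        rw [List.length_drop, List.length_map]; omega
      match hd : (l.map Prod.fst).drop u₁.length, e2 with
      | h :: h' :: hs₂, e2 =>
        rw [hd] at e1
        refine ⟨(l.map Prod.fst).take u₁.length, h, h', hs₂, e1, ?_, by simpa using e2⟩
        rw [List.length_take, List.length_map]; omega
    have e : ∀ a b : W, bigB c V X Y ((l.map Prod.fst).zip (u₁ ++ a :: b :: u₂)) =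
        (bigB c V X Y (hs₁.zip u₁) * (X g.1 * wval X g.2.1)) * V a *
          ((Y g.2.2 - ZZ c X g.2.2) * wval X (g'.1 :: g'.2.1)) * V b *
          ((Y g'.2.2 - ZZ c X g'.2.2) * bigB c V X Y (hs₂.zip u₂)) := by
      intro a b
      rw [hd, List.zip_append hl1, bigB_append, List.zip_cons_cons, List.zip_cons_cons,
        bigB_cons, bigB_cons]
      simp only [mul_assoc, wval_cons]
    simp only [e]
    rw [← mul_gap_mul]
    obtain ⟨z, i, hz⟩ : ∃ (z : A) (i : Fin 2), X g.1 * wval X g.2.1 = z * X i := by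
      rcases List.eq_nil_or_concat g.2.1 with h0 | ⟨l', a, h0⟩
      · exact ⟨1, g.1, by simp [h0]⟩
      · exact ⟨X g.1 * wval X l', a, by simp [h0, mul_assoc]⟩
    rw [hz]
    have h5 := X_mul_gap_w_mul_w h k i g.2.2 g'.2.2 (g'.1 :: g'.2.1)
    calc bigB c V X Y (hs₁.zip u₁) * (z * X i) *
          gap (r k) V ((Y g.2.2 - ZZ c X g.2.2) * wval X (g'.1 :: g'.2.1)) *
          ((Y g'.2.2 - ZZ c X g'.2.2) * bigB c V X Y (hs₂.zip u₂))
        = bigB c V X Y (hs₁.zip u₁) * z * (X i *
          gap (r k) V ((Y g.2.2 - ZZ c X g.2.2) * wval X (g'.1 :: g'.2.1)) *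
          (Y g'.2.2 - ZZ c X g'.2.2)) * bigB c V X Y (hs₂.zip u₂) := by simp only [mul_assoc]
      _ = 0 := by rw [h5]; simp

/-- `K⟨x₀,x₁⟩` modulo `q k (c x) (c c x) j - x j q k (c x)` is nilpotent -/
def CubNil (q : Fin 2 → Fin 2 → Fin 2 → K) (c : Fin 2 → Fin 2 → K) (L : ℕ) : Prop :=
  ∀ (A : Type u) [Ring A] [Algebra K A] (X : Fin 2 → A),
    (∀ k j, ev (q k) (ZZ c X) * ZZ c (ZZ c X) j = X j * ev (q k) (ZZ c X)) →
    ∀ l : List (Fin 2), l.length = L → wval X l = 0

/-- the vectors on which the relations hold -/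
def goodVec (q : Fin 2 → Fin 2 → Fin 2 → K) (c : Fin 2 → Fin 2 → K) (M : Type u)
    [AddCommGroup M] [Module K M] (S : Fin 2 → Module.End K M) : Submodule K M where
  carrier := {g | ∀ k j v, ((ev (q k) (ZZ c S) * ZZ c (ZZ c S) j) * wval S v) g =
    ((S j * ev (q k) (ZZ c S)) * wval S v) g}
  add_mem' := by
    intro g h hg hh k j v
    rw [map_add, map_add, hg, hh]
  zero_mem' := by
    intro k j v
    rw [map_zero, map_zero]
  smul_mem' := by
    intro a g hg k j v
    rw [map_smul, map_smul, hg]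

theorem CubNil.apply {q : Fin 2 → Fin 2 → Fin 2 → K} {c : Fin 2 → Fin 2 → K} {L : ℕ}
    (h : CubNil q c L) (M : Type u)
    [AddCommGroup M] [Module K M] (S : Fin 2 → Module.End K M) (g : M)
    (hg : g ∈ goodVec q c M S) (l : List (Fin 2)) (hl : l.length = L) : wval S l g = 0 := by
  have hst : ∀ j, ∀ g ∈ goodVec q c M S, S j g ∈ goodVec q c M S := by
    intro j g hg k j' v
    have := hg k j' (v ++ [j])
    rw [wval_append, wval_cons, wval_nil, mul_one] at this
    simpa only [Module.End.mul_apply] using this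
  let S' : Fin 2 → Module.End K (goodVec q c M S) := fun j => (S j).restrict (hst j)
  have hS' : ∀ j (x : goodVec q c M S), ((S' j x : goodVec q c M S) : M) = S j x := fun j x => rfl
  have key := h (Module.End K (goodVec q c M S)) S' (by
    intro k j
    ext x
    have := x.2 k j []
    rw [wval_nil, mul_one, mul_one] at this
    simpa only [ev, ZZ, LinearMap.sum_apply, LinearMap.smul_apply, Module.End.mul_apply,
      Submodule.coe_sum, Submodule.coe_smul, hS', map_sum, map_smul] using this) l hl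
  have h3 : ∀ l : List (Fin 2), ∀ x : goodVec q c M S,
      ((wval S' l x : goodVec q c M S) : M) = wval S l x := by
    intro l
    induction l with
    | nil => intro x; simp
    | cons a l ih =>
      intro x
      rw [wval_cons, wval_cons, Module.End.mul_apply, Module.End.mul_apply, hS', ih]
  have h4 := h3 l ⟨g, hg⟩
  rw [key] at h4
  simpa using h4.symm

/-- shift of functions on words -/
def shiftR (K : Type u) [Field K] (A : Type u) [Ring A] [Algebra K A] (j : Fin 2) :
    Module.End K (List (Fin 2) → A) := LinearMap.funLeft K A (fun I => I ++ [j])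

/-- `z ↦ (I ↦ P x_I z)` -/
def Psi (K : Type u) [Field K] {A : Type u} [Ring A] [Algebra K A] (P : A) (X : Fin 2 → A) :
    A →ₗ[K] (List (Fin 2) → A) :=
  LinearMap.pi (fun I => LinearMap.mulLeft K (P * wval X I))

theorem Psi_apply (P : A) (X : Fin 2 → A) (z : A) (I : List (Fin 2)) :
    Psi K P X z I = P * wval X I * z := rfl

theorem shiftR_Psi (P : A) (X : Fin 2 → A) (z : A) (j : Fin 2) :
    shiftR K A j (Psi K P X z) = Psi K P X (X j * z) := by
  funext I
  simp [shiftR, LinearMap.funLeft_apply, Psi_apply, mul_assoc]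

theorem wval_shiftR_Psi (P : A) (X : Fin 2 → A) (z : A) (l : List (Fin 2)) :
    wval (shiftR K A) l (Psi K P X z) = Psi K P X (wval X l * z) := by
  induction l with
  | nil => simp
  | cons j l ih => rw [wval_cons, Module.End.mul_apply, ih, shiftR_Psi, wval_cons, mul_assoc]

theorem CubNil.sandwich {L : ℕ} (h : CubNil q c L) (P Q : A)
    (X : Fin 2 → A) (hPQ : ∀ k j I v, P * wval X I * (ev (q k) (ZZ c X) * ZZ c (ZZ c X) j -
      X j * ev (q k) (ZZ c X)) * wval X v * Q = 0) (l : List (Fin 2)) (hl : l.length = L) :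
    P * wval X l * Q = 0 := by
  have key := h.apply (List (Fin 2) → A) (shiftR K A) (Psi K P X Q) (by
    intro k j v
    rw [Module.End.mul_apply _ (wval (shiftR K A) v),
      Module.End.mul_apply _ (wval (shiftR K A) v), wval_shiftR_Psi]
    have e1 : ∀ z, (ev (q k) (ZZ c (shiftR K A)) * ZZ c (ZZ c (shiftR K A)) j) (Psi K P X z) =
        Psi K P X (ev (q k) (ZZ c X) * ZZ c (ZZ c X) j * z) := by
      intro z
      simp only [ev, ZZ, LinearMap.sum_apply, LinearMap.smul_apply, Module.End.mul_apply,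
        shiftR_Psi, map_sum, map_smul, Finset.sum_mul, Finset.mul_sum, smul_mul_assoc,
        mul_smul_comm, mul_assoc]
    have e2 : ∀ z, (shiftR K A j * ev (q k) (ZZ c (shiftR K A))) (Psi K P X z) =
        Psi K P X (X j * ev (q k) (ZZ c X) * z) := by
      intro z
      simp only [ev, ZZ, LinearMap.sum_apply, LinearMap.smul_apply, Module.End.mul_apply,
        shiftR_Psi, map_sum, map_smul, Finset.sum_mul, Finset.mul_sum, smul_mul_assoc,
        mul_smul_comm, mul_assoc]
    rw [e1, e2]
    funext I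
    have := hPQ k j I v
    rw [Psi_apply, Psi_apply, ← sub_eq_zero, ← mul_sub, ← sub_mul]
    simpa only [mul_assoc] using this) l hl
  rw [wval_shiftR_Psi] at key
  have := congrFun key []
  simpa [Psi_apply, mul_assoc] using this

theorem wval_X_of_wval_Z {c' : Fin 2 → Fin 2 → K} (X : Fin 2 → A)
    (hc : ∀ j, X j = ∑ s, c' j s • ZZ c X s) : ∀ (M : ℕ) (P : A),
    (∀ I : List (Fin 2), I.length = M → P * wval (ZZ c X) I = 0) →
    ∀ I : List (Fin 2), I.length = M → P * wval X I = 0
  | 0, P, h, I, hI => by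
    rw [List.length_eq_zero_iff] at hI
    subst hI
    simpa using h [] rfl
  | M + 1, P, h, [], hI => by simp at hI
  | M + 1, P, h, i :: I, hI => by
    rw [wval_cons, ← mul_assoc]
    refine wval_X_of_wval_Z X hc M (P * X i) ?_ I (by simpa using hI)
    intro I' hI'
    have e : P * X i = ∑ s, c' i s • (P * ZZ c X s) := by
      conv_lhs => rw [hc i]
      simp only [Finset.mul_sum, mul_smul_comm]
    rw [e, Finset.sum_mul]
    refine Finset.sum_eq_zero fun s _ => ?_
    have := h (s :: I') (by simp [hI'])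
    rw [wval_cons, ← mul_assoc] at this
    rw [smul_mul_assoc, this, smul_zero]

theorem X_mul_poly (hXY : ∀ i j, X i * Y j = X i * ∑ s, c j s • X s) (p : Fin 2 → Fin 2 → K)
    (i : Fin 2) (I : List (Fin 2)) :
    X i * (ev p Y * wval Y I) = X i * (ev p (ZZ c X) * wval (ZZ c X) I) := by
  rw [ev_mul_wval, ev_mul_wval]
  simp only [Finset.mul_sum, mul_smul_comm, X_mul_wval_Y hXY]

theorem bigB_step (h : StepRel2 ρ r q c V X Y) {c' : Fin 2 → Fin 2 → K}
    (hc : ∀ j, X j = ∑ s, c' j s • ZZ c X s) {L : ℕ} (hL : CubNil q c L) (m M : ℕ)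
    (hm : ∀ l : List ((Fin 2 × List (Fin 2) × Fin 2) × W), l.length = m + 1 →
      ∀ I : List (Fin 2), M ≤ I.length → bigB c V X Y l * wval X I = 0)
    (l : List ((Fin 2 × List (Fin 2) × Fin 2) × W)) (hl : l.length = m)
    (I : List (Fin 2)) (hI : M + L + 1 ≤ I.length) : bigB c V X Y l * wval X I = 0 := by
  obtain ⟨i, I1, I2, hIe, hI1⟩ : ∃ i I1 I2, I = i :: (I1 ++ I2) ∧ I1.length = L := by
    match I, hI with
    | i :: I, hI =>
      refine ⟨i, I.take L, I.drop L, by rw [List.take_append_drop], ?_⟩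
      rw [List.length_take]
      simp only [List.length_cons] at hI
      omega
  have hI2 : M ≤ I2.length := by
    rw [hIe, List.length_cons, List.length_append] at hI
    omega
  have e0 : bigB c V X Y l * wval X I = (bigB c V X Y l * X i) * wval X I1 * wval X I2 := by
    rw [hIe, wval_cons, wval_append]
    simp only [mul_assoc]
  rw [e0]
  refine hL.sandwich _ _ X ?_ I1 hI1
  intro k j I' v
  -- the vanishing of the gap
  have e1 : ∀ κ : List (Fin 2), M ≤ κ.length → ∀ a b : W,
      (bigB c V X Y l * (X i * wval X I')) * V a * ((Y j - ZZ c X j) * wval X κ) * V b * 1 = 0 := by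
    intro κ hκ a b
    have := hm (l ++ [((i, I', j), a)]) (by simp [hl]) κ hκ
    rw [bigB_append, bigB_cons, bigB_nil, mul_one] at this
    have e : (bigB c V X Y l * (X i * wval X I')) * V a * ((Y j - ZZ c X j) * wval X κ) =
        bigB c V X Y l * (X i * wval X I' * V a * (Y j - ZZ c X j)) * wval X κ := by
      simp only [mul_assoc]
    rw [e, this]
    simp
  have e2 : ∀ κ : List (Fin 2), M ≤ κ.length →
      (bigB c V X Y l * (X i * wval X I')) *
        gap (r k) V ((Y j - ZZ c X j) * wval X κ) = 0 := by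
    intro κ hκ
    have := mul_gap_mul (r k) V ((Y j - ZZ c X j) * wval X κ)
      (bigB c V X Y l * (X i * wval X I')) 1
    simpa only [e1 κ hκ, smul_zero, Finset.sum_const_zero, mul_one] using this
  obtain ⟨z, i', hz⟩ : ∃ (z : A) (i' : Fin 2), X i * wval X I' = z * X i' := by
    rcases List.eq_nil_or_concat I' with h0 | ⟨l', a, h0⟩
    · exact ⟨1, i, by simp [h0]⟩
    · exact ⟨X i * wval X l', a, by simp [h0, mul_assoc]⟩
  have e3 : ∀ κ : List (Fin 2), M ≤ κ.length →
      (bigB c V X Y l * (X i * wval X I')) *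
        (ev (q k) (ZZ c X) * ZZ c (ZZ c X) j - X j * ev (q k) (ZZ c X)) *
          wval (ZZ c X) κ = 0 := by
    intro κ hκ
    have h5 := e2 κ hκ
    rw [gap_w_wval h, h.hr] at h5
    have e2' : ZZ c Y j * wval Y κ = ∑ s, c j s • wval Y (s :: κ) := by
      rw [ZZ, Finset.sum_mul]
      simp only [smul_mul_assoc, wval_cons]
    have e6 : X i' * (X j * -ev (q k) Y * wval Y κ - -ev (q k) Y * (ZZ c Y j * wval Y κ)) =
        X i' * ((ev (q k) (ZZ c X) * ZZ c (ZZ c X) j - X j * ev (q k) (ZZ c X)) *
          wval (ZZ c X) κ) := by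
      have h7 : X i' * (ev (q k) Y * (ZZ c Y j * wval Y κ)) =
          X i' * (ev (q k) (ZZ c X) * (ZZ c (ZZ c X) j * wval (ZZ c X) κ)) := by
        have e8 : ZZ c (ZZ c X) j * wval (ZZ c X) κ =
            ∑ s, c j s • wval (ZZ c X) (s :: κ) := by
          rw [ZZ, Finset.sum_mul]
          simp only [smul_mul_assoc, wval_cons]
        rw [e2', e8]
        simp only [Finset.mul_sum, mul_smul_comm, X_mul_poly h.hXY]
      have h8 : X i' * (X j * (ev (q k) Y * wval Y κ)) =
          X i' * (X j * (ev (q k) (ZZ c X) * wval (ZZ c X) κ)) := by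
        rw [X_mul_poly h.hXY]
      calc X i' * (X j * -ev (q k) Y * wval Y κ - -ev (q k) Y * (ZZ c Y j * wval Y κ))
          = X i' * (ev (q k) Y * (ZZ c Y j * wval Y κ)) -
              X i' * (X j * (ev (q k) Y * wval Y κ)) := by
            simp only [mul_neg, neg_mul, mul_sub, mul_assoc]
            abel
        _ = _ := by
            rw [h7, h8]
            simp only [mul_sub, sub_mul, mul_assoc]
    rw [hz] at h5 ⊢
    calc bigB c V X Y l * (z * X i') *
          (ev (q k) (ZZ c X) * ZZ c (ZZ c X) j - X j * ev (q k) (ZZ c X)) * wval (ZZ c X) κ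
        = bigB c V X Y l * z * (X i' *
          ((ev (q k) (ZZ c X) * ZZ c (ZZ c X) j - X j * ev (q k) (ZZ c X)) *
            wval (ZZ c X) κ)) := by simp only [mul_assoc]
      _ = bigB c V X Y l * z * (X i' *
          (X j * -ev (q k) Y * wval Y κ - -ev (q k) Y * (ZZ c Y j * wval Y κ))) := by rw [e6]
      _ = bigB c V X Y l * (z * X i') *
          (X j * -ev (q k) Y * wval Y κ - -ev (q k) Y * (ZZ c Y j * wval Y κ)) := by
            simp only [mul_assoc]
      _ = 0 := h5
  have e4 := wval_X_of_wval_Z (c := c) (c' := c') X hc (v ++ I2).length _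
    (fun κ hκ => e3 κ (by rw [hκ, List.length_append]; omega)) (v ++ I2) rfl
  rw [wval_append] at e4
  simpa only [mul_assoc] using e4

theorem wval_X_eq_zero (h : StepRel2 ρ r q c V X Y) {c' : Fin 2 → Fin 2 → K}
    (hc : ∀ j, X j = ∑ s, c' j s • ZZ c X s) {L : ℕ} (hL : CubNil q c L) {N : ℕ}
    (hN : Nil3 ρ r N) (I : List (Fin 2)) (hI : N * (L + 1) ≤ I.length) : wval X I = 0 := by
  have key : ∀ m, m ≤ N → ∀ l : List ((Fin 2 × List (Fin 2) × Fin 2) × W), l.length = N - m →
      ∀ I : List (Fin 2), m * (L + 1) ≤ I.length → bigB c V X Y l * wval X I = 0 := by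
    intro m
    induction m with
    | zero =>
      intro _ l hl I _
      rw [bigB_eq_zero h hN l (by omega), zero_mul]
    | succ m ih =>
      intro hm l hl I hI
      refine bigB_step h hc hL (N - (m + 1)) (m * (L + 1))
        (fun l' hl' I' hI' => ih (by omega) l' (by omega) I' hI') l hl I ?_
      have e : (m + 1) * (L + 1) = m * (L + 1) + L + 1 := by ring
      omega
  have := key N le_rfl [] (by simp) I hI
  simpa using this

theorem wval_Y_eq_zero (h : StepRel2 ρ r q c V X Y) {L' : ℕ}
    (hq : Nil3 (Empty.elim : Empty → Fin 2 → Fin 2 → K) q L') (M : ℕ)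
    (hM : ∀ I : List (Fin 2), M ≤ I.length → wval X I = 0) (I : List (Fin 2))
    (hI : L' + M ≤ I.length) : wval Y I = 0 := by
  have e1 : ∀ I : List (Fin 2), M ≤ I.length → ∀ k, ev (q k) Y * wval Y I = 0 := by
    intro I hI k
    have e1 : ∀ a : W, V a * wval Y I = 0 := by
      intro a
      rw [← wval_X_mul_V h.hX, hM I hI, zero_mul]
    have e2 : ev (r k) V * wval Y I = 0 := by
      have := mul_ev_mul (r k) V 1 (wval Y I)
      rw [one_mul] at this
      rw [this]
      simp only [mul_assoc, e1, mul_zero, smul_zero, Finset.sum_const_zero]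
    rwa [h.hr, neg_mul, neg_eq_zero] at e2
  have e2 : I = I.take L' ++ I.drop L' := (List.take_append_drop _ _).symm
  have key := hq A (fun u => wval Y u * wval Y (I.drop L')) (fun j => j.elim) (by
    intro k u₁ u₂ _
    have e3 : ∀ a b, wval Y (u₁ ++ a :: b :: u₂) * wval Y (I.drop L') =
        wval Y u₁ * Y a * Y b * wval Y (u₂ ++ I.drop L') := by
      intro a b
      simp only [wval_append, wval_cons, mul_assoc]
    simp only [e3]
    rw [← mul_ev_mul, mul_assoc, e1 (u₂ ++ I.drop L') (by
      rw [List.length_append, List.length_drop]; omega), mul_zero]) (I.take L') (by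
      rw [List.length_take]; omega)
  rw [e2, wval_append]
  exact key

/-- the letters `x_i` (`inl i`) and `y_i` (`inr i`) -/
theorem wval_mem_span (hXY : ∀ i j, X i * Y j = X i * ∑ s, c j s • X s) :
    ∀ g : List (Fin 2 ⊕ Fin 2), wval (Sum.elim X Y) g ∈
      Submodule.span K {p | ∃ I I' : List (Fin 2), I.length + I'.length = g.length ∧
        wval Y I * wval X I' = p}
  | [] => Submodule.subset_span ⟨[], [], rfl, by simp⟩
  | Sum.inr i :: g => by
    have h := wval_mem_span hXY g
    rw [wval_cons, Sum.elim_inr]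
    generalize wval (Sum.elim X Y) g = G at h ⊢
    induction h using Submodule.span_induction with
    | mem p hp =>
      obtain ⟨I, I', h1, rfl⟩ := hp
      exact Submodule.subset_span ⟨i :: I, I', by simp; omega, by simp [mul_assoc]⟩
    | zero => simp
    | add a b _ _ ha hb => rw [mul_add]; exact add_mem ha hb
    | smul a b _ hb => rw [mul_smul_comm]; exact Submodule.smul_mem _ _ hb
  | Sum.inl i :: g => by
    have h := wval_mem_span hXY g
    rw [wval_cons, Sum.elim_inl]
    generalize wval (Sum.elim X Y) g = G at h ⊢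
    induction h using Submodule.span_induction with
    | mem p hp =>
      obtain ⟨I, I', h1, rfl⟩ := hp
      have h2 : ∀ (I : List (Fin 2)) (i : Fin 2) (Q : List (Fin 2)),
          X i * (wval (ZZ c X) I * wval X Q) ∈
          Submodule.span K {p | ∃ I' : List (Fin 2), I'.length = I.length + Q.length + 1 ∧
            wval X I' = p} := by
        intro I
        induction I with
        | nil => intro i Q; exact Submodule.subset_span ⟨i :: Q, by simp, by simp⟩
        | cons j I ih =>
          intro i Q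
          have e : X i * (wval (ZZ c X) (j :: I) * wval X Q) =
              ∑ s, c j s • (X i * (X s * (wval (ZZ c X) I * wval X Q))) := by
            rw [wval_cons]
            simp only [ZZ, Finset.sum_mul, Finset.mul_sum, smul_mul_assoc, mul_smul_comm,
              mul_assoc]
          rw [e]
          refine Submodule.sum_mem _ fun s _ => Submodule.smul_mem _ _ ?_
          have h3 := ih s Q
          generalize X s * (wval (ZZ c X) I * wval X Q) = G at h3 ⊢
          induction h3 using Submodule.span_induction with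
          | mem p hp =>
            obtain ⟨I', h1, rfl⟩ := hp
            exact Submodule.subset_span ⟨i :: I', by simp; omega, by simp⟩
          | zero => simp
          | add a b _ _ ha hb => rw [mul_add]; exact add_mem ha hb
          | smul a b _ hb => rw [mul_smul_comm]; exact Submodule.smul_mem _ _ hb
      rw [← mul_assoc, X_mul_wval_Y hXY, mul_assoc]
      refine Submodule.span_mono ?_ (h2 I i I')
      rintro p ⟨I'', h3, rfl⟩
      exact ⟨[], I'', by simp; omega, by simp⟩
    | zero => simp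
    | add a b _ _ ha hb => rw [mul_add]; exact add_mem ha hb
    | smul a b _ hb => rw [mul_smul_comm]; exact Submodule.smul_mem _ _ hb

theorem gap_mem_span (h : StepRel2 ρ r q c V X Y) (k : Fin 2) (g : List (Fin 2 ⊕ Fin 2)) :
    gap (r k) V (wval (Sum.elim X Y) g) ∈
      Submodule.span K {p | ∃ g' : List (Fin 2 ⊕ Fin 2), g'.length = g.length + 2 ∧
        wval (Sum.elim X Y) g' = p} := by
  have h1 := wval_mem_span h.hXY g
  generalize wval (Sum.elim X Y) g = G at h1
  induction h1 using Submodule.span_induction with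
  | mem p hp =>
    obtain ⟨I, I', h2, rfl⟩ := hp
    rw [gap_wval h.hX, h.hr, mul_neg, neg_mul, mul_assoc, ev_mul_wval]
    refine Submodule.neg_mem _ ?_
    simp only [Finset.mul_sum, mul_smul_comm]
    refine Submodule.sum_mem _ fun a _ => Submodule.sum_mem _ fun b _ =>
      Submodule.smul_mem _ _ ?_
    refine Submodule.subset_span ⟨I.map Sum.inl ++ (a :: b :: I').map Sum.inr, ?_, ?_⟩
    · simp; omega
    · rw [wval_append, wval_map, wval_map]
      rfl
  | zero => simp [gap]
  | add a b _ _ ha hb => rw [gap_add]; exact add_mem ha hb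
  | smul a b _ hb => rw [gap_smul]; exact Submodule.smul_mem _ _ hb

theorem gap_rho (h : StepRel2 ρ r q c V X Y) (j : J) (g : List (Fin 2 ⊕ Fin 2)) :
    gap (ρ j) V (wval (Sum.elim X Y) g) = 0 := by
  have h1 := wval_mem_span h.hXY g
  generalize wval (Sum.elim X Y) g = G at h1
  induction h1 using Submodule.span_induction with
  | mem p hp =>
    obtain ⟨I, I', h2, rfl⟩ := hp
    rw [gap_wval h.hX, h.hρ]
    simp
  | zero => simp [gap]
  | add a b _ _ ha hb => rw [gap_add, ha, hb, add_zero]
  | smul a b _ hb => rw [gap_smul, hb, smul_zero]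

theorem words_vanish2 (h : StepRel2 ρ r q c V X Y) {c' : Fin 2 → Fin 2 → K}
    (hc : ∀ j, X j = ∑ s, c' j s • ZZ c X s) {L : ℕ} (hL : CubNil q c L) {L' : ℕ}
    (hq : Nil3 (Empty.elim : Empty → Fin 2 → Fin 2 → K) q L') {N : ℕ}
    (hN : Nil3 ρ r N) (l : List (W ⊕ (Fin 2 ⊕ Fin 2)))
    (hl : N * (L' + 2 * (N * (L + 1))) + N ≤ l.length) :
    wval (Sum.elim V (Sum.elim X Y)) l = 0 := by
  have hX0 := fun I hI => wval_X_eq_zero h hc hL hN I hI
  have hY0 := fun I hI => wval_Y_eq_zero h hq _ hX0 I hI
  refine wval_eq_zero_of_length (K := K) hN _ (L' + 2 * (N * (L + 1))) ?_ ?_ ?_ l hl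
  · intro g hg
    rw [wval_map]
    have h1 := wval_mem_span h.hXY g
    have e : wval (fun c => Sum.elim V (Sum.elim X Y) (Sum.inr c)) g =
      wval (Sum.elim X Y) g := rfl
    rw [e]
    generalize wval (Sum.elim X Y) g = G at h1
    induction h1 using Submodule.span_induction with
    | mem p hp =>
      obtain ⟨I, I', h2, rfl⟩ := hp
      by_cases h3 : L' + N * (L + 1) ≤ I.length
      · rw [hY0 I h3, zero_mul]
      · rw [hX0 I' (by omega), mul_zero]
    | zero => rfl
    | add a b _ _ ha hb => rw [ha, hb, add_zero]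
    | smul a b _ hb => rw [hb, smul_zero]
  · intro j g
    rw [wval_map]
    exact gap_rho h j g
  · intro k g
    rw [wval_map]
    have := gap_mem_span h k g
    refine Submodule.span_mono ?_ this
    rintro p ⟨g', h1, rfl⟩
    exact ⟨g', h1, by rw [wval_map]; rfl⟩

end step

end Pool.Agent.Lib.MP_f6e06e_al
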