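import Mathlib
import Pool.Agent.Lib.MP_f6e06e_al.StepTwo

/-!
From a nilpotent quadratic algebra with `n` generators and `d ≥ 2` relations to one with `n + 4`
generators and `d + 2 n + 4` relations.
-/

namespace Pool.Agent.Lib.MP_f6e06e_al

universe u

section forms

variable {K : Type u} [Field K] {W β γ : Type} [Fintype W] [Fintype β] [Fintype γ]

/-- extension by zero of a quadratic form -/
def extB (β : Type) (q : W → W → K) : (W ⊕ β) → (W ⊕ β) → K
  | Sum.inl a, Sum.inl b => q a b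
  | _, _ => 0

/-- the monomial `s t` -/
noncomputable def monoB (K : Type u) [Field K] (s t : γ) : γ → γ → K := by
  classical exact fun s' t' => if s' = s ∧ t' = t then 1 else 0

variable {A : Type*} [Ring A] [Algebra K A]

theorem ev_extB (q : W → W → K) (V : W ⊕ β → A) :
    ev (extB β q) V = ev q (fun a => V (Sum.inl a)) := by
  simp [ev, extB, Fintype.sum_sum_type]

theorem ev_monoB (s t : γ) (V : γ → A) :
    ev (monoB K s t) V = V s * V t := by
  classical
  simp only [ev, monoB, ite_and, ite_smul, one_smul, zero_smul]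
  rw [Finset.sum_eq_single s]
  · simp
  · intro b _ hb
    simp [hb]
  · simp

theorem ev_addB (p q : γ → γ → K) (V : γ → A) :
    ev (p + q) V = ev p V + ev q V := by
  simp only [ev, Pi.add_apply, add_smul, Finset.sum_add_distrib]

theorem ev_subB (p q : γ → γ → K) (V : γ → A) :
    ev (p - q) V = ev p V - ev q V := by
  simp only [ev, Pi.sub_apply, sub_smul, Finset.sum_sub_distrib]

theorem ev_smulB (c : K) (q : γ → γ → K) (V : γ → A) :
    ev (c • q) V = c • ev q V := by
  simp only [ev, Pi.smul_apply, smul_assoc, Finset.smul_sum]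

end forms

section step

variable {K : Type u} [Field K]

/-- the relations of the new algebra -/
noncomputable def newRel {W J : Type} [Fintype W] (ρ : J → W → W → K) (r : Fin 2 → W → W → K)
    (q : Fin 2 → Fin 2 → Fin 2 → K) (c : Fin 2 → Fin 2 → K) :
    (J ⊕ ((Fin 2 × W) ⊕ (Fin 2 × Fin 2))) ⊕ Fin 2 →
      (W ⊕ (Fin 2 ⊕ Fin 2)) → (W ⊕ (Fin 2 ⊕ Fin 2)) → K
  | Sum.inl (Sum.inl j) => extB _ (ρ j)
  | Sum.inl (Sum.inr (Sum.inl (i, a))) =>
      monoB K (Sum.inr (Sum.inl i)) (Sum.inl a) - monoB K (Sum.inl a) (Sum.inr (Sum.inr i))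
  | Sum.inl (Sum.inr (Sum.inr (i, j))) =>
      monoB K (Sum.inr (Sum.inl i)) (Sum.inr (Sum.inr j)) -
        (c j 0 • monoB K (Sum.inr (Sum.inl i)) (Sum.inr (Sum.inl 0)) +
          c j 1 • monoB K (Sum.inr (Sum.inl i)) (Sum.inr (Sum.inl 1)))
  | Sum.inr k => extB _ (r k) +
      ((q k 0 0 • monoB K (Sum.inr (Sum.inr 0)) (Sum.inr (Sum.inr 0)) +
        q k 0 1 • monoB K (Sum.inr (Sum.inr 0)) (Sum.inr (Sum.inr 1))) +
      (q k 1 0 • monoB K (Sum.inr (Sum.inr 1)) (Sum.inr (Sum.inr 0)) +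
        q k 1 1 • monoB K (Sum.inr (Sum.inr 1)) (Sum.inr (Sum.inr 1))))

theorem GoodD.step {q : Fin 2 → Fin 2 → Fin 2 → K} {c c' : Fin 2 → Fin 2 → K}
    (hcc : ∀ j t, ∑ s, c' j s * c s t = if j = t then 1 else 0) {L L' : ℕ}
    (hL : CubNil q c L) (hq : Nil3 (Empty.elim : Empty → Fin 2 → Fin 2 → K) q L')
    {n m : ℕ} (h : GoodD K n (m + 2)) : GoodD K (n + 4) (m + 2 + 2 * n + 4) := by
  classical
  obtain ⟨W, J, _, _, p, N, hW, hJ, hN⟩ := h
  let e : J ≃ Fin m ⊕ Fin 2 := Fintype.equivOfCardEq (by simp [hJ])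
  set ρ : Fin m → W → W → K := fun j => p (e.symm (Sum.inl j)) with hρd
  set r : Fin 2 → W → W → K := fun k => p (e.symm (Sum.inr k)) with hrd
  have hN2 : NilQ (Sum.elim ρ r) N := by
    intro A _ _ V hV l hl
    refine hN A V ?_ l hl
    intro j
    have := hV (e j)
    rcases hj : e j with j' | k
    · rw [hj] at this
      have e2 : j = e.symm (Sum.inl j') := by rw [← hj, Equiv.symm_apply_apply]
      rw [e2]; exact this
    · rw [hj] at this
      have e2 : j = e.symm (Sum.inr k) := by rw [← hj, Equiv.symm_apply_apply]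
      rw [e2]; exact this
  refine ⟨W ⊕ (Fin 2 ⊕ Fin 2), (Fin m ⊕ ((Fin 2 × W) ⊕ (Fin 2 × Fin 2))) ⊕ Fin 2, inferInstance,
    inferInstance, newRel ρ r q c, N * (L' + 2 * (N * (L + 1))) + N, ?_, ?_, ?_⟩
  · simp [hW]
  · simp [hW]; omega
  · intro A _ _ V hV l hl
    have hrel : StepRel2 ρ r q c (fun a => V (Sum.inl a)) (fun i => V (Sum.inr (Sum.inl i)))
        (fun i => V (Sum.inr (Sum.inr i))) := by
      refine ⟨fun j => ?_, fun k => ?_, fun i a => ?_, fun i j => ?_⟩
      · have := hV (Sum.inl (Sum.inl j))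
        rwa [newRel, ev_extB] at this
      · have := hV (Sum.inr k)
        rw [newRel, ev_addB, ev_extB] at this
        rw [eq_neg_of_add_eq_zero_left this]
        simp only [ev_addB, ev_smulB, ev_monoB]
        simp only [ev, Fin.sum_univ_two]
      · have := hV (Sum.inl (Sum.inr (Sum.inl (i, a))))
        rw [newRel, ev_subB, ev_monoB, ev_monoB] at this
        exact sub_eq_zero.1 this
      · have := hV (Sum.inl (Sum.inr (Sum.inr (i, j))))
        rw [newRel, ev_subB, ev_monoB, ev_addB, ev_smulB, ev_smulB, ev_monoB, ev_monoB] at this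
        rw [sub_eq_zero.1 this]
        simp [Fin.sum_univ_two, mul_add]
    have hc : ∀ j, (fun i => V (Sum.inr (Sum.inl i))) j =
        ∑ s, c' j s • ZZ c (fun i => V (Sum.inr (Sum.inl i))) s := by
      intro j
      have e3 : ∑ s, c' j s • ZZ c (fun i => V (Sum.inr (Sum.inl i))) s =
          ∑ t, (∑ s, c' j s * c s t) • V (Sum.inr (Sum.inl t)) := by
        simp only [ZZ, Finset.smul_sum, smul_smul, Finset.sum_smul]
        rw [Finset.sum_comm]
      rw [e3]
      simp [hcc]
    have h1 := words_vanish2 hrel hc hL hq hN2.nil3 l (by omega)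
    have h2 : (Sum.elim (fun a => V (Sum.inl a)) (Sum.elim (fun i => V (Sum.inr (Sum.inl i)))
        (fun i => V (Sum.inr (Sum.inr i)))) : W ⊕ (Fin 2 ⊕ Fin 2) → A) = V := by
      funext s
      rcases s with a | (i | i) <;> rfl
    rw [h2] at h1
    exact h1

end step

end Pool.Agent.Lib.MP_f6e06e_al
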