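import Mathlib

/-!
Certificates for words of small length in four algebras with two generators (characteristic 2, 3).
-/

set_option linter.unusedVariables false

namespace Pool.Agent.Lib.MP_f6e06e_al

theorem q2_000 {A : Type*} [Ring A] {x y : A} (hp : (2 : A) = 0)
    (h1 : x * y + y * x + y * y = 0)
    (h2 : x * x + x * y = 0) :
    x * x * x = 0 := by
  linear_combination (norm := noncomm_ring) h2 * (x) + h2 * (y) + x * h1 + (- x * y * x - x * x * y - x * y * y) * hp

theorem q2_001 {A : Type*} [Ring A] {x y : A} (hp : (2 : A) = 0)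
    (h1 : x * y + y * x + y * y = 0)
    (h2 : x * x + x * y = 0) :
    x * x * y = 0 := by
  linear_combination (norm := noncomm_ring) x * h1 + h2 * (y) + x * h2 + h2 * (x) + (- x * y * x - x * y * y - x * x * y - x * x * x) * hp

theorem q2_010 {A : Type*} [Ring A] {x y : A} (hp : (2 : A) = 0)
    (h1 : x * y + y * x + y * y = 0)
    (h2 : x * x + x * y = 0) :
    x * y * x = 0 := by
  linear_combination (norm := noncomm_ring) h2 * (y) + x * h1 + (- x * x * y - x * y * y) * hp

theorem q2_011 {A : Type*} [Ring A] {x y : A} (hp : (2 : A) = 0)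
    (h1 : x * y + y * x + y * y = 0)
    (h2 : x * x + x * y = 0) :
    x * y * y = 0 := by
  linear_combination (norm := noncomm_ring) x * h2 + h2 * (x) + x * h1 + (- x * x * x - x * x * y - x * y * x) * hp

theorem q2_100 {A : Type*} [Ring A] {x y : A} (hp : (2 : A) = 0)
    (h1 : x * y + y * x + y * y = 0)
    (h2 : x * x + x * y = 0) :
    y * x * x = 0 := by
  linear_combination (norm := noncomm_ring) h2 * (y) + h1 * (x) + x * h2 + h2 * (x) + h1 * (y) + y * h1 + (- x * x * y - x * y * y - x * y * x - y * y * x - x * x * x - y * x * y - y * y * y) * hp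

theorem q2_101 {A : Type*} [Ring A] {x y : A} (hp : (2 : A) = 0)
    (h1 : x * y + y * x + y * y = 0)
    (h2 : x * x + x * y = 0) :
    y * x * y = 0 := by
  linear_combination (norm := noncomm_ring) y * h1 + x * h2 + h2 * (x) + h1 * (y) + y * h2 + h2 * (y) + h1 * (x) + (- y * y * x - y * y * y - x * x * x - x * x * y - x * y * x - x * y * y - y * x * y - y * x * x) * hp

theorem q2_110 {A : Type*} [Ring A] {x y : A} (hp : (2 : A) = 0)
    (h1 : x * y + y * x + y * y = 0)
    (h2 : x * x + x * y = 0) :
    y * y * x = 0 := by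
  linear_combination (norm := noncomm_ring) x * h2 + h2 * (x) + x * h1 + h1 * (y) + y * h1 + (- x * x * x - x * x * y - x * y * x - x * y * y - y * x * y - y * y * y) * hp

theorem q2_111 {A : Type*} [Ring A] {x y : A} (hp : (2 : A) = 0)
    (h1 : x * y + y * x + y * y = 0)
    (h2 : x * x + x * y = 0) :
    y * y * y = 0 := by
  linear_combination (norm := noncomm_ring) y * h2 + h2 * (y) + x * h1 + h1 * (x) + y * h1 + (- y * x * x - y * x * y - x * x * y - x * y * y - x * y * x - y * y * x) * hp

theorem q3_000 {A : Type*} [Ring A] {x y : A} (hp : (3 : A) = 0)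
    (h1 : -(x * y) - y * x + y * y = 0)
    (h2 : x * x - x * y + y * x = 0) :
    x * x * x = 0 := by
  linear_combination (norm := noncomm_ring) - h2 * (x) - h1 * (x) + x * h1 - y * h1 - x * h2 + h1 * (y) + (x * x * x) * hp

theorem q3_001 {A : Type*} [Ring A] {x y : A} (hp : (3 : A) = 0)
    (h1 : -(x * y) - y * x + y * y = 0)
    (h2 : x * x - x * y + y * x = 0) :
    x * x * y = 0 := by
  linear_combination (norm := noncomm_ring) x * h1 - h1 * (x) - h1 * (y) - h2 * (y) + y * h1 - y * h2 + (x * x * y - x * y * y + y * y * x) * hp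

theorem q3_010 {A : Type*} [Ring A] {x y : A} (hp : (3 : A) = 0)
    (h1 : -(x * y) - y * x + y * y = 0)
    (h2 : x * x - x * y + y * x = 0) :
    x * y * x = 0 := by
  linear_combination (norm := noncomm_ring) - h2 * (y) - y * h1 - y * h2 - x * h2 + h2 * (x) + h1 * (y) + (x * y * x) * hp

theorem q3_011 {A : Type*} [Ring A] {x y : A} (hp : (3 : A) = 0)
    (h1 : -(x * y) - y * x + y * y = 0)
    (h2 : x * x - x * y + y * x = 0) :
    x * y * y = 0 := by
  linear_combination (norm := noncomm_ring) y * h2 + h2 * (y) - x * h1 - h1 * (x) - x * h2 + h2 * (x) + (x * y * y - y * x * x - x * x * y) * hp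

theorem q3_100 {A : Type*} [Ring A] {x y : A} (hp : (3 : A) = 0)
    (h1 : -(x * y) - y * x + y * y = 0)
    (h2 : x * x - x * y + y * x = 0) :
    y * x * x = 0 := by
  linear_combination (norm := noncomm_ring) - h2 * (y) - x * h1 + h1 * (x) - y * h2 + (y * x * x) * hp

theorem q3_101 {A : Type*} [Ring A] {x y : A} (hp : (3 : A) = 0)
    (h1 : -(x * y) - y * x + y * y = 0)
    (h2 : x * x - x * y + y * x = 0) :
    y * x * y = 0 := by
  linear_combination (norm := noncomm_ring) - y * h1 - y * h2 + x * h1 - x * h2 + h2 * (x) + h1 * (y) + (x * y * x) * hp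

theorem q3_110 {A : Type*} [Ring A] {x y : A} (hp : (3 : A) = 0)
    (h1 : -(x * y) - y * x + y * y = 0)
    (h2 : x * x - x * y + y * x = 0) :
    y * y * x = 0 := by
  linear_combination (norm := noncomm_ring) y * h2 + h2 * (y) - x * h1 - h1 * (x) - y * h1 - x * h2 + h2 * (x) + h1 * (y) + (- y * x * x - x * x * y + x * y * y) * hp

theorem q3_111 {A : Type*} [Ring A] {x y : A} (hp : (3 : A) = 0)
    (h1 : -(x * y) - y * x + y * y = 0)
    (h2 : x * x - x * y + y * x = 0) :
    y * y * y = 0 := by
  linear_combination (norm := noncomm_ring) x * h2 - h2 * (x) - h1 * (y) + h2 * (y) - h1 * (x) - y * h1 + (y * y * y - x * y * x - y * x * y) * hp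

theorem c2_0000 {A : Type*} [Ring A] {x y : A} (hp : (2 : A) = 0)
    (h00 : (x * x + y * y) * (x + y) = x * (x * x + y * y))
    (h01 : (x * x + y * y) * x = y * (x * x + y * y))
    (h10 : (y * x) * (x + y) = x * (y * x))
    (h11 : (y * x) * x = y * (y * x)) :
    x * x * x * x = x * x * x * y := by
  linear_combination (norm := noncomm_ring) h01 * (x) + y * h01 + h01 * (y) + h11 * (y) + (y * y * y * y - x * x * x * y) * hp

theorem c2_0001 {A : Type*} [Ring A] {x y : A} (hp : (2 : A) = 0)
    (h00 : (x * x + y * y) * (x + y) = x * (x * x + y * y))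
    (h01 : (x * x + y * y) * x = y * (x * x + y * y))
    (h10 : (y * x) * (x + y) = x * (y * x))
    (h11 : (y * x) * x = y * (y * x)) :
    x * x * x * y = x * x * x * y := by
  linear_combination (norm := noncomm_ring) (0 : A) * hp

theorem c2_0010 {A : Type*} [Ring A] {x y : A} (hp : (2 : A) = 0)
    (h00 : (x * x + y * y) * (x + y) = x * (x * x + y * y))
    (h01 : (x * x + y * y) * x = y * (x * x + y * y))
    (h10 : (y * x) * (x + y) = x * (y * x))
    (h11 : (y * x) * x = y * (y * x)) :
    x * x * y * x = y * x * x * y := by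
  linear_combination (norm := noncomm_ring) y * h00 + y * h10 + x * h10 + h10 * (y) + h10 * (x) + y * h01 + h11 * (y) + (x * x * y * x - 2 * (y * x * x * y) - y * y * y * x - y * x * x * x) * hp

theorem c2_0011 {A : Type*} [Ring A] {x y : A} (hp : (2 : A) = 0)
    (h00 : (x * x + y * y) * (x + y) = x * (x * x + y * y))
    (h01 : (x * x + y * y) * x = y * (x * x + y * y))
    (h10 : (y * x) * (x + y) = x * (y * x))
    (h11 : (y * x) * x = y * (y * x)) :
    x * x * y * y = y * x * x * y := by
  linear_combination (norm := noncomm_ring) h10 * (x) + x * h01 + h01 * (x) + h01 * (y) + x * h00 + y * h01 + y * h10 + h11 * (x) + (x * x * y * y + x * y * x * x - x * x * x * x - x * y * y * x - x * x * x * y - y * y * x * y + y * y * y * y - y * x * x * x) * hp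

theorem c2_0100 {A : Type*} [Ring A] {x y : A} (hp : (2 : A) = 0)
    (h00 : (x * x + y * y) * (x + y) = x * (x * x + y * y))
    (h01 : (x * x + y * y) * x = y * (x * x + y * y))
    (h10 : (y * x) * (x + y) = x * (y * x))
    (h11 : (y * x) * x = y * (y * x)) :
    x * y * x * x = y * x * x * y := by
  linear_combination (norm := noncomm_ring) h10 * (x) + y * h10 + h11 * (y) + h11 * (x) + (x * y * x * x - y * x * x * x - y * x * x * y) * hp

theorem c2_0101 {A : Type*} [Ring A] {x y : A} (hp : (2 : A) = 0)
    (h00 : (x * x + y * y) * (x + y) = x * (x * x + y * y))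
    (h01 : (x * x + y * y) * x = y * (x * x + y * y))
    (h10 : (y * x) * (x + y) = x * (y * x))
    (h11 : (y * x) * x = y * (y * x)) :
    x * y * x * y = 0 := by
  linear_combination (norm := noncomm_ring) h10 * (y) + y * h00 + h11 * (x) + y * h01 + (x * y * x * y - y * x * x * y - y * y * y * x - y * x * x * x + y * y * x * x) * hp

theorem c2_0110 {A : Type*} [Ring A] {x y : A} (hp : (2 : A) = 0)
    (h00 : (x * x + y * y) * (x + y) = x * (x * x + y * y))
    (h01 : (x * x + y * y) * x = y * (x * x + y * y))
    (h10 : (y * x) * (x + y) = x * (y * x))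
    (h11 : (y * x) * x = y * (y * x)) :
    x * y * y * x = y * x * x * y := by
  linear_combination (norm := noncomm_ring) h01 * (y) + x * h00 + h00 * (y) + (- x * x * x * y - y * y * x * y) * hp

theorem c2_0111 {A : Type*} [Ring A] {x y : A} (hp : (2 : A) = 0)
    (h00 : (x * x + y * y) * (x + y) = x * (x * x + y * y))
    (h01 : (x * x + y * y) * x = y * (x * x + y * y))
    (h10 : (y * x) * (x + y) = x * (y * x))
    (h11 : (y * x) * x = y * (y * x)) :
    x * y * y * y = x * x * x * y := by
  linear_combination (norm := noncomm_ring) h10 * (x) + x * h01 + h01 * (x) + x * h00 + h00 * (y) + y * h01 + y * h10 + h11 * (x) + (x * y * y * y + x * y * x * x - x * x * x * x - x * y * y * x - x * x * x * y - y * y * x * y - y * x * x * x) * hp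

theorem c2_1000 {A : Type*} [Ring A] {x y : A} (hp : (2 : A) = 0)
    (h00 : (x * x + y * y) * (x + y) = x * (x * x + y * y))
    (h01 : (x * x + y * y) * x = y * (x * x + y * y))
    (h10 : (y * x) * (x + y) = x * (y * x))
    (h11 : (y * x) * x = y * (y * x)) :
    y * x * x * x = x * x * x * y := by
  linear_combination (norm := noncomm_ring) y * h00 + y * h10 + x * h10 + h00 * (x) + h10 * (y) + h10 * (x) + x * h00 + h00 * (y) + (- y * x * x * y - y * y * y * x - y * y * y * y - y * y * x * x - y * y * x * y - x * x * x * y) * hp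

theorem c2_1001 {A : Type*} [Ring A] {x y : A} (hp : (2 : A) = 0)
    (h00 : (x * x + y * y) * (x + y) = x * (x * x + y * y))
    (h01 : (x * x + y * y) * x = y * (x * x + y * y))
    (h10 : (y * x) * (x + y) = x * (y * x))
    (h11 : (y * x) * x = y * (y * x)) :
    y * x * x * y = y * x * x * y := by
  linear_combination (norm := noncomm_ring) (0 : A) * hp

theorem c2_1010 {A : Type*} [Ring A] {x y : A} (hp : (2 : A) = 0)
    (h00 : (x * x + y * y) * (x + y) = x * (x * x + y * y))
    (h01 : (x * x + y * y) * x = y * (x * x + y * y))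
    (h10 : (y * x) * (x + y) = x * (y * x))
    (h11 : (y * x) * x = y * (y * x)) :
    y * x * y * x = y * x * x * y + x * x * x * y := by
  linear_combination (norm := noncomm_ring) x * h10 + h00 * (x) + h10 * (y) + h10 * (x) + x * h00 + h00 * (y) + h11 * (y) + y * h00 + h11 * (x) + (- y * y * y * x - 2 * (y * x * x * y) - y * x * x * x - x * x * x * y - y * y * y * y) * hp

theorem c2_1011 {A : Type*} [Ring A] {x y : A} (hp : (2 : A) = 0)
    (h00 : (x * x + y * y) * (x + y) = x * (x * x + y * y))
    (h01 : (x * x + y * y) * x = y * (x * x + y * y))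
    (h10 : (y * x) * (x + y) = x * (y * x))
    (h11 : (y * x) * x = y * (y * x)) :
    y * x * y * y = y * x * x * y := by
  linear_combination (norm := noncomm_ring) y * h01 + y * h00 + h11 * (x) + (y * x * y * y - y * x * x * x - y * y * y * x + y * y * x * x - y * x * x * y) * hp

theorem c2_1100 {A : Type*} [Ring A] {x y : A} (hp : (2 : A) = 0)
    (h00 : (x * x + y * y) * (x + y) = x * (x * x + y * y))
    (h01 : (x * x + y * y) * x = y * (x * x + y * y))
    (h10 : (y * x) * (x + y) = x * (y * x))
    (h11 : (y * x) * x = y * (y * x)) :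
    y * y * x * x = x * x * x * y := by
  linear_combination (norm := noncomm_ring) y * h00 + y * h10 + x * h10 + h00 * (x) + h10 * (y) + h10 * (x) + x * h00 + h00 * (y) + h11 * (x) + (- y * x * x * y - y * y * y * x - y * y * y * y - y * y * x * y - y * x * x * x - x * x * x * y) * hp

theorem c2_1101 {A : Type*} [Ring A] {x y : A} (hp : (2 : A) = 0)
    (h00 : (x * x + y * y) * (x + y) = x * (x * x + y * y))
    (h01 : (x * x + y * y) * x = y * (x * x + y * y))
    (h10 : (y * x) * (x + y) = x * (y * x))
    (h11 : (y * x) * x = y * (y * x)) :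
    y * y * x * y = y * x * x * y := by
  linear_combination (norm := noncomm_ring) h11 * (y) + (y * y * x * y - y * x * x * y) * hp

theorem c2_1110 {A : Type*} [Ring A] {x y : A} (hp : (2 : A) = 0)
    (h00 : (x * x + y * y) * (x + y) = x * (x * x + y * y))
    (h01 : (x * x + y * y) * x = y * (x * x + y * y))
    (h10 : (y * x) * (x + y) = x * (y * x))
    (h11 : (y * x) * x = y * (y * x)) :
    y * y * y * x = x * x * x * y := by
  linear_combination (norm := noncomm_ring) h11 * (x) + y * h01 + h01 * (y) + h11 * (y) + (- y * x * x * x + y * y * x * x + y * y * y * y - x * x * x * y) * hp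

theorem c2_1111 {A : Type*} [Ring A] {x y : A} (hp : (2 : A) = 0)
    (h00 : (x * x + y * y) * (x + y) = x * (x * x + y * y))
    (h01 : (x * x + y * y) * x = y * (x * x + y * y))
    (h10 : (y * x) * (x + y) = x * (y * x))
    (h11 : (y * x) * x = y * (y * x)) :
    y * y * y * y = x * x * x * y := by
  linear_combination (norm := noncomm_ring) h01 * (y) + h11 * (y) + (y * y * y * y - x * x * x * y) * hp

theorem c2_00001 {A : Type*} [Ring A] {x y : A} (hp : (2 : A) = 0)
    (h00 : (x * x + y * y) * (x + y) = x * (x * x + y * y))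
    (h01 : (x * x + y * y) * x = y * (x * x + y * y))
    (h10 : (y * x) * (x + y) = x * (y * x))
    (h11 : (y * x) * x = y * (y * x)) :
    x * x * x * x * y = 0 := by
  linear_combination (norm := noncomm_ring) x * h00 * (y) + h00 * (y * x) + h01 * (x * y) + y * h10 * (y) + h10 * (x * y) + h01 * (y * y) + h00 * (y * y) + h00 * (x * x) + h01 * (y * x) + x * h00 * (x) + y * y * h01 + y * y * h00 + x * h10 * (y) + h00 * (x * y) + h10 * (x * x) + y * x * h01 + x * h10 * (x) + h10 * (y * x) + h10 * (y * y) + (- x * x * x * y * y - y * y * x * y * x - 2 * (y * y * x * x * y) - y * y * x * y * y - y * y * x * x * x - x * x * x * y * x - y * y * y * y * x - y * x * x * x * x - y * x * y * y * x) * hp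

theorem c2_10001 {A : Type*} [Ring A] {x y : A} (hp : (2 : A) = 0)
    (h00 : (x * x + y * y) * (x + y) = x * (x * x + y * y))
    (h01 : (x * x + y * y) * x = y * (x * x + y * y))
    (h10 : (y * x) * (x + y) = x * (y * x))
    (h11 : (y * x) * x = y * (y * x)) :
    y * x * x * x * y = 0 := by
  linear_combination (norm := noncomm_ring) y * x * h00 + y * h00 * (y) + y * h01 * (y) + y * y * h00 + x * h10 * (y) + h00 * (x * y) + x * y * h00 + x * h00 * (y) + h00 * (y * x) + h01 * (y * x) + x * h00 * (x) + h00 * (y * y) + x * y * h01 + h01 * (x * x) + y * h01 * (x) + h01 * (x * y) + x * h10 * (x) + h10 * (y * x) + x * x * h00 + x * x * h01 + (- y * x * y * y * x - y * y * y * x * y - y * y * y * y * y - x * y * x * x * y - y * y * x * x * y - y * y * x * y * x - x * x * x * y * x - x * y * y * y * x - x * y * x * x * x - x * x * x * x * x - x * x * x * x * y + x * x * y * x * x - x * x * y * y * x) * hp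

theorem c2_01001 {A : Type*} [Ring A] {x y : A} (hp : (2 : A) = 0)
    (h00 : (x * x + y * y) * (x + y) = x * (x * x + y * y))
    (h01 : (x * x + y * y) * x = y * (x * x + y * y))
    (h10 : (y * x) * (x + y) = x * (y * x))
    (h11 : (y * x) * x = y * (y * x)) :
    x * y * x * x * y = 0 := by
  linear_combination (norm := noncomm_ring) x * y * h00 + x * h01 * (y) + x * x * h00 + h00 * (y * x) + h01 * (y * y) + h00 * (y * y) + x * y * h01 + x * h01 * (x) + h01 * (x * x) + y * h01 * (x) + y * h01 * (y) + h01 * (y * x) + y * y * h00 + h10 * (y * y) + h10 * (x * x) + y * x * h01 + x * x * h10 + y * h10 * (y) + h10 * (x * y) + h00 * (x * y) + x * h10 * (x) + h10 * (y * x) + (x * y * x * y * y - x * x * x * x * y + x * y * x * x * y - x * x * y * y * x - x * x * y * y * y - y * y * x * y * x - y * y * x * y * y + x * y * y * y * y - x * x * x * x * x - y * x * x * x * y - y * y * y * x * y - y * x * x * x * x - y * x * y * y * x - x * x * y * x * y - y * y * x * x * y) * hp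

theorem c2_11001 {A : Type*} [Ring A] {x y : A} (hp : (2 : A) = 0)
    (h00 : (x * x + y * y) * (x + y) = x * (x * x + y * y))
    (h01 : (x * x + y * y) * x = y * (x * x + y * y))
    (h10 : (y * x) * (x + y) = x * (y * x))
    (h11 : (y * x) * x = y * (y * x)) :
    y * y * x * x * y = 0 := by
  linear_combination (norm := noncomm_ring) x * h10 * (y) + h00 * (y * x) + h01 * (y * x) + h00 * (y * y) + x * y * h01 + h10 * (y * y) + h01 * (x * x) + y * h01 * (x) + x * x * h10 + x * x * h01 + y * x * h00 + y * h10 * (y) + h10 * (x * y) + h00 * (x * x) + y * y * h01 + x * h10 * (x) + h10 * (y * x) + (- x * x * y * y * x - y * y * x * y * x - y * y * x * y * y + x * y * y * y * y - x * y * x * x * x + x * y * y * x * x - y * x * y * y * y - x * x * x * x * x - y * x * x * x * y - y * x * y * y * x - y * y * x * x * x) * hp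

theorem c3_0000 {A : Type*} [Ring A] {x y : A} (hp : (3 : A) = 0)
    (h00 : (x * x - y * y) * (x + y) = x * (x * x - y * y))
    (h01 : (x * x - y * y) * (x - y) = y * (x * x - y * y))
    (h10 : (x * y - y * x + y * y) * (x + y) = x * (x * y - y * x + y * y))
    (h11 : (x * y - y * x + y * y) * (x - y) = y * (x * y - y * x + y * y)) :
    x * x * x * x = 0 := by
  linear_combination (norm := noncomm_ring) h01 * (x) - h01 * (y) + x * h00 - h00 * (y) - y * h01 + y * h11 - h10 * (x) - y * h00 + h11 * (y) + h10 * (y) - h11 * (x) - y * h10 + (- 2 * (y * y * y * x) - 2 * (y * y * x * y) + 2 * (y * y * y * y) + x * y * y * y + y * x * y * y + y * y * x * x + x * y * x * x - x * y * x * y) * hp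

theorem c3_0001 {A : Type*} [Ring A] {x y : A} (hp : (3 : A) = 0)
    (h00 : (x * x - y * y) * (x + y) = x * (x * x - y * y))
    (h01 : (x * x - y * y) * (x - y) = y * (x * x - y * y))
    (h10 : (x * y - y * x + y * y) * (x + y) = x * (x * y - y * x + y * y))
    (h11 : (x * y - y * x + y * y) * (x - y) = y * (x * y - y * x + y * y)) :
    x * x * x * y = 0 := by
  linear_combination (norm := noncomm_ring) - x * h00 + h01 * (y) - x * h10 - h00 * (x) + h10 * (y) - y * h01 + y * h00 - h11 * (x) + (x * x * y * y + x * x * y * x - x * y * x * y - y * y * y * x) * hp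

theorem c3_0010 {A : Type*} [Ring A] {x y : A} (hp : (3 : A) = 0)
    (h00 : (x * x - y * y) * (x + y) = x * (x * x - y * y))
    (h01 : (x * x - y * y) * (x - y) = y * (x * x - y * y))
    (h10 : (x * y - y * x + y * y) * (x + y) = x * (x * y - y * x + y * y))
    (h11 : (x * y - y * x + y * y) * (x - y) = y * (x * y - y * x + y * y)) :
    x * x * y * x = 0 := by
  linear_combination (norm := noncomm_ring) h00 * (x) + h00 * (y) + x * h01 - h01 * (x) - x * h11 - x * h10 - h10 * (y) + h10 * (x) + y * h11 + h11 * (y) + (- x * x * y * y + 2 * (y * y * y * y) - x * y * y * y + x * y * y * x + x * x * y * x - x * y * x * x) * hp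

theorem c3_0011 {A : Type*} [Ring A] {x y : A} (hp : (3 : A) = 0)
    (h00 : (x * x - y * y) * (x + y) = x * (x * x - y * y))
    (h01 : (x * x - y * y) * (x - y) = y * (x * x - y * y))
    (h10 : (x * y - y * x + y * y) * (x + y) = x * (x * y - y * x + y * y))
    (h11 : (x * y - y * x + y * y) * (x - y) = y * (x * y - y * x + y * y)) :
    x * x * y * y = 0 := by
  linear_combination (norm := noncomm_ring) - x * h10 - x * h00 + h00 * (x) - x * h01 + h01 * (x) - h10 * (y) - h01 * (y) + y * h01 - y * h00 + h11 * (y) - h11 * (x) - y * h10 + h10 * (x) + (x * x * y * x - x * y * x * x + y * y * x * x - x * y * y * x + x * y * y * y - y * y * y * x - y * y * x * y + y * y * y * y + y * x * y * x) * hp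

theorem c3_0100 {A : Type*} [Ring A] {x y : A} (hp : (3 : A) = 0)
    (h00 : (x * x - y * y) * (x + y) = x * (x * x - y * y))
    (h01 : (x * x - y * y) * (x - y) = y * (x * x - y * y))
    (h10 : (x * y - y * x + y * y) * (x + y) = x * (x * y - y * x + y * y))
    (h11 : (x * y - y * x + y * y) * (x - y) = y * (x * y - y * x + y * y)) :
    x * y * x * x = 0 := by
  linear_combination (norm := noncomm_ring) - x * h00 + h00 * (x) - h00 * (y) + y * h00 - h11 * (x) + h01 * (y) + h10 * (x) + y * h11 + (- x * y * y * x + x * x * y * y + y * y * x * x - y * y * y * x) * hp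

theorem c3_0101 {A : Type*} [Ring A] {x y : A} (hp : (3 : A) = 0)
    (h00 : (x * x - y * y) * (x + y) = x * (x * x - y * y))
    (h01 : (x * x - y * y) * (x - y) = y * (x * x - y * y))
    (h10 : (x * y - y * x + y * y) * (x + y) = x * (x * y - y * x + y * y))
    (h11 : (x * y - y * x + y * y) * (x - y) = y * (x * y - y * x + y * y)) :
    x * y * x * y = 0 := by
  linear_combination (norm := noncomm_ring) - x * h10 - x * h00 - h00 * (x) + x * h01 - h01 * (x) + h01 * (y) + y * h01 + y * h00 + x * h11 + y * h11 - h10 * (x) - y * h10 + (x * x * y * y + y * y * y * x - y * x * x * x + x * y * x * x) * hp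

theorem c3_0110 {A : Type*} [Ring A] {x y : A} (hp : (3 : A) = 0)
    (h00 : (x * x - y * y) * (x + y) = x * (x * x - y * y))
    (h01 : (x * x - y * y) * (x - y) = y * (x * x - y * y))
    (h10 : (x * y - y * x + y * y) * (x + y) = x * (x * y - y * x + y * y))
    (h11 : (x * y - y * x + y * y) * (x - y) = y * (x * y - y * x + y * y)) :
    x * y * y * x = 0 := by
  linear_combination (norm := noncomm_ring) x * h00 + h00 * (y) - x * h01 + h01 * (x) + h00 * (x) - h11 * (y) - x * h11 - x * h10 + y * h01 + (- x * x * x * y - x * x * y * y + y * y * x * y - y * y * y * y - x * y * x * x + y * y * x * x + x * x * y * x + x * y * y * x) * hp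

theorem c3_0111 {A : Type*} [Ring A] {x y : A} (hp : (3 : A) = 0)
    (h00 : (x * x - y * y) * (x + y) = x * (x * x - y * y))
    (h01 : (x * x - y * y) * (x - y) = y * (x * x - y * y))
    (h10 : (x * y - y * x + y * y) * (x + y) = x * (x * y - y * x + y * y))
    (h11 : (x * y - y * x + y * y) * (x - y) = y * (x * y - y * x + y * y)) :
    x * y * y * y = 0 := by
  linear_combination (norm := noncomm_ring) - x * h10 - x * h00 - h00 * (x) - y * h01 - h11 * (y) + h11 * (x) + x * h11 - y * h10 + h10 * (x) - h00 * (y) + (x * x * y * x - x * y * x * x + x * x * y * y - 2 * (y * y * x * x) + y * x * x * x - y * x * x * y + x * y * y * y + y * x * y * x) * hp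

theorem c3_1000 {A : Type*} [Ring A] {x y : A} (hp : (3 : A) = 0)
    (h00 : (x * x - y * y) * (x + y) = x * (x * x - y * y))
    (h01 : (x * x - y * y) * (x - y) = y * (x * x - y * y))
    (h10 : (x * y - y * x + y * y) * (x + y) = x * (x * y - y * x + y * y))
    (h11 : (x * y - y * x + y * y) * (x - y) = y * (x * y - y * x + y * y)) :
    y * x * x * x = 0 := by
  linear_combination (norm := noncomm_ring) y * h01 - y * h00 - h11 * (x) - x * h01 + h01 * (x) + h00 * (x) - h00 * (y) - h01 * (y) - y * h10 - y * h11 + (- y * y * y * y + y * y * x * x - x * y * y * x + x * y * y * y - y * y * x * y + y * x * y * x) * hp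

theorem c3_1001 {A : Type*} [Ring A] {x y : A} (hp : (3 : A) = 0)
    (h00 : (x * x - y * y) * (x + y) = x * (x * x - y * y))
    (h01 : (x * x - y * y) * (x - y) = y * (x * x - y * y))
    (h10 : (x * y - y * x + y * y) * (x + y) = x * (x * y - y * x + y * y))
    (h11 : (x * y - y * x + y * y) * (x - y) = y * (x * y - y * x + y * y)) :
    y * x * x * y = 0 := by
  linear_combination (norm := noncomm_ring) - x * h01 + h01 * (x) + h00 * (x) - h00 * (y) - h01 * (y) - h11 * (y) - x * h11 - x * h00 - x * h10 + y * h01 + (- x * y * x * x + y * y * x * x - y * y * y * y + x * x * y * x) * hp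

theorem c3_1010 {A : Type*} [Ring A] {x y : A} (hp : (3 : A) = 0)
    (h00 : (x * x - y * y) * (x + y) = x * (x * x - y * y))
    (h01 : (x * x - y * y) * (x - y) = y * (x * x - y * y))
    (h10 : (x * y - y * x + y * y) * (x + y) = x * (x * y - y * x + y * y))
    (h11 : (x * y - y * x + y * y) * (x - y) = y * (x * y - y * x + y * y)) :
    y * x * y * x = 0 := by
  linear_combination (norm := noncomm_ring) h10 * (x) + h00 * (x) - h11 * (x) - h11 * (y) - x * h11 - x * h00 - x * h10 + y * h10 + (- x * y * x * x + y * y * x * x - y * y * y * x - x * y * y * y + y * y * x * y - y * y * y * y + x * x * y * x) * hp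

theorem c3_1011 {A : Type*} [Ring A] {x y : A} (hp : (3 : A) = 0)
    (h00 : (x * x - y * y) * (x + y) = x * (x * x - y * y))
    (h01 : (x * x - y * y) * (x - y) = y * (x * x - y * y))
    (h10 : (x * y - y * x + y * y) * (x + y) = x * (x * y - y * x + y * y))
    (h11 : (x * y - y * x + y * y) * (x - y) = y * (x * y - y * x + y * y)) :
    y * x * y * y = 0 := by
  linear_combination (norm := noncomm_ring) h11 * (x) - h00 * (x) - h00 * (y) - y * h00 - h10 * (y) + x * h11 + x * h00 + x * h10 - h10 * (x) - y * h11 + (- y * y * x * x - y * y * y * y + x * y * y * y + x * y * x * y - x * x * y * x + x * y * x * x + y * y * y * x) * hp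

theorem c3_1100 {A : Type*} [Ring A] {x y : A} (hp : (3 : A) = 0)
    (h00 : (x * x - y * y) * (x + y) = x * (x * x - y * y))
    (h01 : (x * x - y * y) * (x - y) = y * (x * x - y * y))
    (h10 : (x * y - y * x + y * y) * (x + y) = x * (x * y - y * x + y * y))
    (h11 : (x * y - y * x + y * y) * (x - y) = y * (x * y - y * x + y * y)) :
    y * y * x * x = 0 := by
  linear_combination (norm := noncomm_ring) - h11 * (y) + h10 * (y) + y * h00 + h11 * (x) + x * h01 - h01 * (x) + h01 * (y) + x * h11 + x * h00 + x * h10 + y * h01 - y * h10 + h10 * (x) - h00 * (y) + (- y * y * x * x - 2 * (y * y * y * y) + x * x * y * y + 2 * (y * y * y * x) - x * x * y * x + y * x * y * x) * hp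

theorem c3_1101 {A : Type*} [Ring A] {x y : A} (hp : (3 : A) = 0)
    (h00 : (x * x - y * y) * (x + y) = x * (x * x - y * y))
    (h01 : (x * x - y * y) * (x - y) = y * (x * x - y * y))
    (h10 : (x * y - y * x + y * y) * (x + y) = x * (x * y - y * x + y * y))
    (h11 : (x * y - y * x + y * y) * (x - y) = y * (x * y - y * x + y * y)) :
    y * y * x * y = 0 := by
  linear_combination (norm := noncomm_ring) x * h11 + h00 * (x) - x * h01 + h01 * (x) + x * h00 - h01 * (y) + x * h10 + h10 * (y) - y * h01 - y * h10 - y * h11 - h11 * (y) + h11 * (x) + (- x * x * y * x - x * y * y * x + x * y * y * y + y * y * y * x + y * x * x * x - y * x * x * y + y * x * y * x - y * y * x * x) * hp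

theorem c3_1110 {A : Type*} [Ring A] {x y : A} (hp : (3 : A) = 0)
    (h00 : (x * x - y * y) * (x + y) = x * (x * x - y * y))
    (h01 : (x * x - y * y) * (x - y) = y * (x * x - y * y))
    (h10 : (x * y - y * x + y * y) * (x + y) = x * (x * y - y * x + y * y))
    (h11 : (x * y - y * x + y * y) * (x - y) = y * (x * y - y * x + y * y)) :
    y * y * y * x = 0 := by
  linear_combination (norm := noncomm_ring) y * h10 + h00 * (x) - x * h01 + h01 * (x) - h01 * (y) + y * h11 - y * h00 + h11 * (y) + h10 * (y) - h11 * (x) + (- y * x * y * x + 2 * (y * y * x * x) + y * y * y * y - 2 * (y * y * y * x) - x * y * y * x + x * y * y * y + y * x * y * y + y * x * x * y - x * y * x * y - y * y * x * y) * hp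

theorem c3_1111 {A : Type*} [Ring A] {x y : A} (hp : (3 : A) = 0)
    (h00 : (x * x - y * y) * (x + y) = x * (x * x - y * y))
    (h01 : (x * x - y * y) * (x - y) = y * (x * x - y * y))
    (h10 : (x * y - y * x + y * y) * (x + y) = x * (x * y - y * x + y * y))
    (h11 : (x * y - y * x + y * y) * (x - y) = y * (x * y - y * x + y * y)) :
    y * y * y * y = 0 := by
  linear_combination (norm := noncomm_ring) y * h11 - h10 * (x) - h00 * (x) + h00 * (y) + y * h01 - y * h00 + h11 * (y) + h10 * (y) - h11 * (x) - y * h10 + (y * y * y * y + y * x * y * y + y * y * x * x - y * y * y * x + x * y * x * x - y * x * x * x - y * y * x * y + y * x * x * y - x * y * x * y) * hp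

end Pool.Agent.Lib.MP_f6e06e_al
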