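import Mathlib
import Pool.Agent.Lib.MP_f6e06e_al.GoodTwo
import Pool.Agent.Lib.MP_f6e06e_al.TwoCert

/-!
The data for the step from `n` to `n + 4` generators in characteristic 2 and 3.
-/

set_option linter.unusedSimpArgs false

namespace Pool.Agent.Lib.MP_f6e06e_al

universe u

variable {K : Type u} [Field K]

/-- the matrix `c` -/
def c0 (K : Type u) [Field K] : Fin 2 → Fin 2 → K := ![![0, 1], ![1, 1]]

/-- its inverse -/
def c0' (K : Type u) [Field K] : Fin 2 → Fin 2 → K := ![![-1, 1], ![1, 0]]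

/-- the quadratic forms in characteristic 2 -/
def q20 (K : Type u) [Field K] : Fin 2 → Fin 2 → Fin 2 → K :=
  ![![![0, 1], ![1, 1]], ![![1, 1], ![0, 0]]]

/-- the quadratic forms in characteristic 3 -/
def q30 (K : Type u) [Field K] : Fin 2 → Fin 2 → Fin 2 → K :=
  ![![![0, -1], ![-1, 1]], ![![1, -1], ![1, 0]]]

theorem c0_inv (j t : Fin 2) : ∑ s, c0' K j s * c0 K s t = if j = t then 1 else 0 := by
  fin_cases j <;> fin_cases t <;> simp [c0, c0', Fin.sum_univ_two]

theorem algebra_zero {A : Type u} [Ring A] [Algebra K A] (p : ℕ) (h : (p : K) = 0) :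
    (p : A) = 0 := by
  have := congrArg (algebraMap K A) h
  simpa using this

theorem q20_nil (h : (2 : K) = 0) :
    Nil3 (Empty.elim : Empty → Fin 2 → Fin 2 → K) (q20 K) 3 := by
  apply NilQ.nil3
  intro A _ _ V hV l hl
  have hp : (2 : A) = 0 := by
    have := algebra_zero (K := K) (A := A) 2 (by exact_mod_cast h)
    exact_mod_cast this
  have h1 := hV (Sum.inr 0)
  have h2 := hV (Sum.inr 1)
  simp only [ev, q20, Sum.elim_inr, Fin.sum_univ_two, Matrix.cons_val_zero, Matrix.cons_val_one,
    zero_smul, one_smul, zero_add, add_zero] at h1 h2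
  have h1' : V 0 * V 1 + V 1 * V 0 + V 1 * V 1 = 0 := by rw [← h1]; abel
  match l, hl with
  | [a, b, c], _ =>
    have e : (List.map V [a, b, c]).prod = V a * V b * V c := by simp [mul_assoc]
    rw [e]
    fin_cases a <;> fin_cases b <;> fin_cases c
    · exact q2_000 hp h1' h2
    · exact q2_001 hp h1' h2
    · exact q2_010 hp h1' h2
    · exact q2_011 hp h1' h2
    · exact q2_100 hp h1' h2
    · exact q2_101 hp h1' h2
    · exact q2_110 hp h1' h2
    · exact q2_111 hp h1' h2

theorem q30_nil (h : (3 : K) = 0) :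
    Nil3 (Empty.elim : Empty → Fin 2 → Fin 2 → K) (q30 K) 3 := by
  apply NilQ.nil3
  intro A _ _ V hV l hl
  have hp : (3 : A) = 0 := by
    have := algebra_zero (K := K) (A := A) 3 (by exact_mod_cast h)
    exact_mod_cast this
  have h1 := hV (Sum.inr 0)
  have h2 := hV (Sum.inr 1)
  simp only [ev, q30, Sum.elim_inr, Fin.sum_univ_two, Matrix.cons_val_zero, Matrix.cons_val_one,
    zero_smul, one_smul, zero_add, add_zero, neg_smul] at h1 h2
  have h1' : -(V 0 * V 1) - V 1 * V 0 + V 1 * V 1 = 0 := by rw [← h1]; abel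
  have h2' : V 0 * V 0 - V 0 * V 1 + V 1 * V 0 = 0 := by rw [← h2]; abel
  match l, hl with
  | [a, b, c], _ =>
    have e : (List.map V [a, b, c]).prod = V a * V b * V c := by simp [mul_assoc]
    rw [e]
    fin_cases a <;> fin_cases b <;> fin_cases c
    · exact q3_000 hp h1' h2'
    · exact q3_001 hp h1' h2'
    · exact q3_010 hp h1' h2'
    · exact q3_011 hp h1' h2'
    · exact q3_100 hp h1' h2'
    · exact q3_101 hp h1' h2'
    · exact q3_110 hp h1' h2'
    · exact q3_111 hp h1' h2'

theorem cub30_nil (h : (3 : K) = 0) : CubNil (q30 K) (c0 K) 4 := by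
  intro A _ _ X hX l hl
  have hp : (3 : A) = 0 := by
    have := algebra_zero (K := K) (A := A) 3 (by exact_mod_cast h)
    exact_mod_cast this
  have g00 := hX 0 0
  have g01 := hX 0 1
  have g10 := hX 1 0
  have g11 := hX 1 1
  simp only [ev, q30, c0, ZZ, Fin.sum_univ_two, Matrix.cons_val_zero,
    Matrix.cons_val_one, zero_smul, one_smul, zero_add, add_zero, neg_smul] at g00 g01 g10 g11
  have h00 : (X 0 * X 0 - X 1 * X 1) * (X 0 + X 1) = X 0 * (X 0 * X 0 - X 1 * X 1) := by
    linear_combination (norm := noncomm_ring) g00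
  have h01 : (X 0 * X 0 - X 1 * X 1) * (X 0 - X 1) = X 1 * (X 0 * X 0 - X 1 * X 1) := by
    linear_combination (norm := noncomm_ring) g01 - (X 0 * X 0 - X 1 * X 1) * X 1 * hp
  have h10 : (X 0 * X 1 - X 1 * X 0 + X 1 * X 1) * (X 0 + X 1) =
      X 0 * (X 0 * X 1 - X 1 * X 0 + X 1 * X 1) := by
    linear_combination (norm := noncomm_ring) g10
  have h11 : (X 0 * X 1 - X 1 * X 0 + X 1 * X 1) * (X 0 - X 1) =
      X 1 * (X 0 * X 1 - X 1 * X 0 + X 1 * X 1) := by
    linear_combination (norm := noncomm_ring) g11 -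
      (X 0 * X 1 - X 1 * X 0 + X 1 * X 1) * X 1 * hp
  match l, hl with
  | [a, b, c, d], _ =>
    have e : wval X [a, b, c, d] = X a * X b * X c * X d := by simp [mul_assoc]
    rw [e]
    fin_cases a <;> fin_cases b <;> fin_cases c <;> fin_cases d
    · exact c3_0000 hp h00 h01 h10 h11
    · exact c3_0001 hp h00 h01 h10 h11
    · exact c3_0010 hp h00 h01 h10 h11
    · exact c3_0011 hp h00 h01 h10 h11
    · exact c3_0100 hp h00 h01 h10 h11
    · exact c3_0101 hp h00 h01 h10 h11
    · exact c3_0110 hp h00 h01 h10 h11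
    · exact c3_0111 hp h00 h01 h10 h11
    · exact c3_1000 hp h00 h01 h10 h11
    · exact c3_1001 hp h00 h01 h10 h11
    · exact c3_1010 hp h00 h01 h10 h11
    · exact c3_1011 hp h00 h01 h10 h11
    · exact c3_1100 hp h00 h01 h10 h11
    · exact c3_1101 hp h00 h01 h10 h11
    · exact c3_1110 hp h00 h01 h10 h11
    · exact c3_1111 hp h00 h01 h10 h11

theorem cub20_nil (h : (2 : K) = 0) : CubNil (q20 K) (c0 K) 5 := by
  intro A _ _ X hX l hl
  have hp : (2 : A) = 0 := by
    have := algebra_zero (K := K) (A := A) 2 (by exact_mod_cast h)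
    exact_mod_cast this
  have g00 := hX 0 0
  have g01 := hX 0 1
  have g10 := hX 1 0
  have g11 := hX 1 1
  simp only [ev, q20, c0, ZZ, Fin.sum_univ_two, Matrix.cons_val_zero,
    Matrix.cons_val_one, zero_smul, one_smul, zero_add, add_zero] at g00 g01 g10 g11
  have h00 : (X 0 * X 0 + X 1 * X 1) * (X 0 + X 1) = X 0 * (X 0 * X 0 + X 1 * X 1) := by
    linear_combination (norm := noncomm_ring) g00 -
      (X 0 * X 1 + X 1 * X 0 + X 1 * X 1) * (X 0 + X 1) * hp +
      X 0 * (X 0 * X 1 + X 1 * X 0 + X 1 * X 1) * hp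
  have h01 : (X 0 * X 0 + X 1 * X 1) * X 0 = X 1 * (X 0 * X 0 + X 1 * X 1) := by
    linear_combination (norm := noncomm_ring) g01 -
      (X 0 * X 1 + X 1 * X 0 + X 1 * X 1) * (X 0 + 2 * X 1) * hp -
      (X 0 * X 0 + X 1 * X 1) * X 1 * hp +
      X 1 * (X 0 * X 1 + X 1 * X 0 + X 1 * X 1) * hp
  have h10 : (X 1 * X 0) * (X 0 + X 1) = X 0 * (X 1 * X 0) := by
    linear_combination (norm := noncomm_ring) g10 - X 1 * X 1 * (X 0 + X 1) * hp +
      X 0 * X 1 * X 1 * hp
  have h11 : (X 1 * X 0) * X 0 = X 1 * (X 1 * X 0) := by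
    linear_combination (norm := noncomm_ring) g11 - X 1 * X 1 * (X 0 + 2 * X 1) * hp -
      X 1 * X 0 * X 1 * hp + X 1 * X 1 * X 1 * hp
  match l, hl with
  | [i, a, b, c, d], _ =>
    have e : wval X [i, a, b, c, d] = X i * (X a * X b * X c * X d) := by simp [mul_assoc]
    rw [e]
    have n1 : X i * (X 0 * X 0 * X 0 * X 1) = 0 := by
      fin_cases i
      · exact (by simp [mul_assoc] : _ = _).trans (c2_00001 hp h00 h01 h10 h11)
      · exact (by simp [mul_assoc] : _ = _).trans (c2_10001 hp h00 h01 h10 h11)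
    have n2 : X i * (X 1 * X 0 * X 0 * X 1) = 0 := by
      fin_cases i
      · exact (by simp [mul_assoc] : _ = _).trans (c2_01001 hp h00 h01 h10 h11)
      · exact (by simp [mul_assoc] : _ = _).trans (c2_11001 hp h00 h01 h10 h11)
    fin_cases a <;> fin_cases b <;> fin_cases c <;> fin_cases d
    · exact (congrArg (X i * ·) (c2_0000 hp h00 h01 h10 h11)).trans
        (by simp only [mul_add, n1, n2, mul_zero, add_zero])
    · exact (congrArg (X i * ·) (c2_0001 hp h00 h01 h10 h11)).trans
        (by simp only [mul_add, n1, n2, mul_zero, add_zero])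
    · exact (congrArg (X i * ·) (c2_0010 hp h00 h01 h10 h11)).trans
        (by simp only [mul_add, n1, n2, mul_zero, add_zero])
    · exact (congrArg (X i * ·) (c2_0011 hp h00 h01 h10 h11)).trans
        (by simp only [mul_add, n1, n2, mul_zero, add_zero])
    · exact (congrArg (X i * ·) (c2_0100 hp h00 h01 h10 h11)).trans
        (by simp only [mul_add, n1, n2, mul_zero, add_zero])
    · exact (congrArg (X i * ·) (c2_0101 hp h00 h01 h10 h11)).trans
        (by simp only [mul_add, n1, n2, mul_zero, add_zero])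
    · exact (congrArg (X i * ·) (c2_0110 hp h00 h01 h10 h11)).trans
        (by simp only [mul_add, n1, n2, mul_zero, add_zero])
    · exact (congrArg (X i * ·) (c2_0111 hp h00 h01 h10 h11)).trans
        (by simp only [mul_add, n1, n2, mul_zero, add_zero])
    · exact (congrArg (X i * ·) (c2_1000 hp h00 h01 h10 h11)).trans
        (by simp only [mul_add, n1, n2, mul_zero, add_zero])
    · exact (congrArg (X i * ·) (c2_1001 hp h00 h01 h10 h11)).trans
        (by simp only [mul_add, n1, n2, mul_zero, add_zero])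
    · exact (congrArg (X i * ·) (c2_1010 hp h00 h01 h10 h11)).trans
        (by simp only [mul_add, n1, n2, mul_zero, add_zero])
    · exact (congrArg (X i * ·) (c2_1011 hp h00 h01 h10 h11)).trans
        (by simp only [mul_add, n1, n2, mul_zero, add_zero])
    · exact (congrArg (X i * ·) (c2_1100 hp h00 h01 h10 h11)).trans
        (by simp only [mul_add, n1, n2, mul_zero, add_zero])
    · exact (congrArg (X i * ·) (c2_1101 hp h00 h01 h10 h11)).trans
        (by simp only [mul_add, n1, n2, mul_zero, add_zero])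
    · exact (congrArg (X i * ·) (c2_1110 hp h00 h01 h10 h11)).trans
        (by simp only [mul_add, n1, n2, mul_zero, add_zero])
    · exact (congrArg (X i * ·) (c2_1111 hp h00 h01 h10 h11)).trans
        (by simp only [mul_add, n1, n2, mul_zero, add_zero])

theorem GoodD.step_two (h : (2 : K) = 0) {n m : ℕ} (hn : GoodD K n (m + 2)) :
    GoodD K (n + 4) (m + 2 + 2 * n + 4) :=
  hn.step c0_inv (cub20_nil h) (q20_nil h)

theorem GoodD.step_three (h : (3 : K) = 0) {n m : ℕ} (hn : GoodD K n (m + 2)) :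
    GoodD K (n + 4) (m + 2 + 2 * n + 4) :=
  hn.step c0_inv (cub30_nil h) (q30_nil h)

end Pool.Agent.Lib.MP_f6e06e_al
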