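import Mathlib
import Pool.Agent.Lib.MP_f6e06e_al.TwoData
import Pool.Agent.Lib.MP_f6e06e_al.Forms

/-!
From `GoodD` for small `n` to all `n`, and from `GoodD` to finite dimension.
-/

namespace Pool.Agent.Lib.MP_f6e06e_al

universe u

variable {K : Type u} [Field K]

theorem NilQ.nil1 {W J J' : Type} [Fintype W] {q : J → W → W → K} {N : ℕ} (h : NilQ q N)
    (e : J ≃ Option J') : Nil1 (fun j => q (e.symm (some j))) (q (e.symm none)) N := by
  intro A _ _ V hV hV0 l hl
  refine h A V (fun j => ?_) l hl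
  rcases hj : e j with _ | j'
  · rw [← hV0, ← hj, Equiv.symm_apply_apply]
  · have e2 : j = e.symm (some j') := by rw [← hj, Equiv.symm_apply_apply]
    rw [e2]
    exact hV j'

theorem GoodD.good {n m : ℕ} (h : GoodD K n (m + 1)) : Good K n m := by
  obtain ⟨W, J, _, _, q, N, hW, hJ, hN⟩ := h
  let e : J ≃ Option (Fin m) := Fintype.equivOfCardEq (by simp [hJ])
  exact ⟨W, Fin m, inferInstance, inferInstance, _, _, N, hW, by simp, hN.nil1 e⟩

theorem Good.goodD {n m : ℕ} (h : Good K n m) : GoodD K n (m + 1) := by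
  obtain ⟨W, J, _, _, ρ, r, N, hW, hJ, hN⟩ := h
  refine ⟨W, Option J, inferInstance, inferInstance, fun o => o.elim r ρ, N, hW,
    by simp [hJ], ?_⟩
  intro A _ _ V hV l hl
  exact hN A V (fun j => hV (some j)) (hV none) l hl

theorem goodD_zero : GoodD K 0 1 := good_zero.goodD

theorem goodD_one : GoodD K 1 1 := good_one.goodD

/-- over every field: `K⟨x, y⟩ / (x y, x² + y²)` -/
theorem goodD_two : GoodD K 2 2 := by
  refine ⟨Fin 2, Fin 2, inferInstance, inferInstance,
    ![![![0, 1], ![0, 0]], ![![1, 0], ![0, 1]]], 3, by simp, by simp, ?_⟩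
  intro A _ _ V hV l hl
  have h1 := hV 0
  have h2 := hV 1
  simp only [ev, Fin.sum_univ_two, Matrix.cons_val_zero, Matrix.cons_val_one,
    zero_smul, one_smul, zero_add, add_zero] at h1 h2
  match l, hl with
  | [a, b, c], _ =>
    have e : (List.map V [a, b, c]).prod = V a * V b * V c := by simp [mul_assoc]
    rw [e]
    fin_cases a <;> fin_cases b <;> fin_cases c
    · show V 0 * V 0 * V 0 = 0
      linear_combination (norm := noncomm_ring) V 0 * h2 - h1 * V 1
    · show V 0 * V 0 * V 1 = 0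
      linear_combination (norm := noncomm_ring) V 0 * h1
    · show V 0 * V 1 * V 0 = 0
      linear_combination (norm := noncomm_ring) h1 * V 0
    · show V 0 * V 1 * V 1 = 0
      linear_combination (norm := noncomm_ring) h1 * V 1
    · show V 1 * V 0 * V 0 = 0
      linear_combination (norm := noncomm_ring) V 1 * h2 - h2 * V 1 + V 0 * h1
    · show V 1 * V 0 * V 1 = 0
      linear_combination (norm := noncomm_ring) V 1 * h1
    · show V 1 * V 1 * V 0 = 0
      linear_combination (norm := noncomm_ring) h2 * V 0 - V 0 * h2 + h1 * V 1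
    · show V 1 * V 1 * V 1 = 0
      linear_combination (norm := noncomm_ring) h2 * V 1 - V 0 * h1

/-- if there is a recursion step and there are good algebras for `n = 3, 4, 5`, then there are
good algebras for all `n` -/
theorem goodD_all (step : ∀ n m : ℕ, GoodD K n (m + 2) → GoodD K (n + 4) (m + 2 + 2 * n + 4))
    (h3 : GoodD K 3 3) (h4 : GoodD K 4 5) (h5 : GoodD K 5 7) :
    ∀ n : ℕ, GoodD K n (n ^ 2 / 4 + 1)
  | 0 => goodD_zero
  | 1 => goodD_one
  | 2 => goodD_two
  | 3 => h3
  | 4 => h4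
  | 5 => h5
  | n + 6 => by
    have ih := goodD_all step h3 h4 h5 (n + 2)
    have e0 : (n + 2) ^ 2 / 4 + 1 = (n ^ 2 / 4 + n) + 2 := by
      have : (n + 2) ^ 2 = n ^ 2 + (n + 1) * 4 := by ring
      rw [this, Nat.add_mul_div_right _ _ (by norm_num)]
      ring
    rw [e0] at ih
    have h := step (n + 2) (n ^ 2 / 4 + n) ih
    have e : (n + 6) ^ 2 / 4 + 1 = n ^ 2 / 4 + n + 2 + 2 * (n + 2) + 4 := by
      have : (n + 6) ^ 2 = n ^ 2 + (3 * n + 9) * 4 := by ring
      rw [this, Nat.add_mul_div_right _ _ (by norm_num)]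
      ring
    rw [e]
    exact h

end Pool.Agent.Lib.MP_f6e06e_al
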