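import Pool.Agent.Lib.MP_f6e06e_al.Check

/-!
Certificates over `ZMod 3` (machine generated, checked by the kernel).
-/

namespace Pool.Agent.Lib.MP_f6e06e_al

/-- polynomials -/
def ca3S : List Pl := [
  [(1,[0,0]),(2,[0,1])],
  [(1,[1,1])],
  [(1,[0,1,0])]]

/-- combinations -/
def ca3C : List (List Cb) := [
  [(2,[],0,[0]),(1,[0],0,[]),(1,[],0,[1]),(1,[0],1,[])]]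

theorem ca3_ok : chk 3 ca3S 2 ca3C = true := by decide +kernel

/-- levels -/
def ca3L : List (List Wd × List (Pl × List Cb)) := [
  ([[0],[1]],
    []),
  ([[1,0],[0,1]],
    [([(1,[0,0]),(2,[0,1])],[(1,[],0,[])]),
    ([(1,[1,1])],[(1,[],1,[])])]),
  ([[1,0,1]],
    [([(1,[0,1,0])],[(1,[],2,[])]),
    ([(1,[1,1,0])],[(1,[],1,[0])]),
    ([(1,[0,0,1])],[(1,[],0,[1]),(1,[0],1,[])])]),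
  ([],
    [([(1,[0,1,0,1])],[(1,[],2,[1])]),
    ([(1,[1,1,0,1])],[(1,[],1,[0,1])])])]

theorem ca3_lv : nilChk 3 ca3S 2 [[]] ca3L = true := by decide +kernel

/-- polynomials -/
def cb3S : List Pl := [
  [(1,[0,0])],
  [(2,[0,2]),(1,[1,1])],
  [(2,[0,1]),(2,[1,2]),(2,[2,0]),(1,[2,2])],
  [(1,[0,2]),(2,[1,1])],
  [(1,[0,1,1])],
  [(1,[0,1,2]),(1,[1,1,0]),(2,[1,1,2])],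
  [(1,[0,1,0]),(2,[1,0,1]),(1,[1,1,0]),(1,[1,1,2]),(1,[2,0,1]),(2,[2,1,1]),(1,[2,1,2])],
  [(1,[0,1,0,1]),(2,[1,1,0,1]),(1,[1,1,1,1]),(2,[1,1,1,2])],
  [(1,[1,1,1,0]),(1,[1,1,1,2]),(1,[1,1,2,0]),(1,[1,1,2,1]),(1,[2,1,0,1]),(2,[2,1,1,0]),(2,[2,1,1,1]),(1,[2,1,1,2]),(1,[2,1,2,0]),(1,[2,1,2,1])],
  [(2,[1,1,0,1]),(2,[1,1,1,1]),(1,[1,1,1,2]),(1,[1,1,2,1]),(2,[2,1,1,1]),(1,[2,1,2,1])],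
  [(1,[1,1,1,0,1]),(2,[1,1,1,1,0]),(1,[1,1,1,1,2]),(1,[1,1,1,2,0])],
  [(2,[1,1,1,1,1]),(1,[1,1,1,2,1])],
  [(1,[1,1,0,1,0]),(2,[1,1,1,1,0]),(2,[1,1,1,1,1]),(1,[1,1,1,1,2]),(1,[2,1,0,1,0]),(2,[2,1,1,0,1]),(1,[2,1,1,1,0]),(1,[2,1,1,1,2])],
  [(2,[1,1,1,1,0]),(1,[1,1,1,1,1]),(2,[1,1,1,1,2]),(1,[2,1,1,0,1]),(2,[2,1,1,1,0]),(2,[2,1,1,1,2]),(1,[2,1,1,2,0])],
  [(2,[1,1,1,0,1]),(1,[1,1,1,1,2]),(2,[2,1,1,0,1]),(1,[2,1,1,1,1]),(2,[2,1,1,1,2]),(1,[2,1,1,2,1])],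
  [(1,[1,1,1,0,1,0]),(2,[1,1,1,1,0,1]),(1,[1,1,1,1,1,0]),(1,[1,1,1,1,1,2])],
  [(1,[1,1,1,1,0,1]),(1,[1,1,1,1,1,1])],
  [(1,[1,1,1,1,1,2])],
  [(2,[1,1,1,1,1,0]),(2,[1,1,1,1,1,1]),(1,[2,1,1,1,0,1]),(1,[2,1,1,1,1,0]),(2,[2,1,1,1,1,1])],
  [(2,[1,1,1,1,1,0]),(1,[1,1,1,1,1,1]),(1,[2,1,1,1,1,0]),(2,[2,1,1,1,1,1]),(1,[2,1,1,1,1,2])],
  [(2,[1,1,1,1,1,0]),(2,[1,1,1,1,1,1]),(1,[2,1,1,0,1,0]),(2,[2,1,1,1,1,1])],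
  [(2,[1,1,1,1,1,1,0]),(1,[1,1,1,1,1,1,1]),(1,[2,1,1,1,1,1,0]),(2,[2,1,1,1,1,1,1])],
  [(1,[1,1,1,1,1,1,1])],
  [(1,[1,1,1,1,1,1,0])],
  [(1,[2,1,1,1,1,1,1])]]

/-- combinations -/
def cb3C : List (List Cb) := [
  [(2,[],1,[])],
  [(1,[],0,[2]),(2,[0],3,[])],
  [(1,[],3,[2]),(2,[0],2,[]),(2,[],3,[0]),(2,[],0,[1])],
  [(1,[],2,[2]),(2,[2],2,[]),(2,[],2,[0]),(1,[2],3,[]),(2,[2],0,[]),(1,[],5,[]),(1,[1],2,[])],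
  [(1,[],5,[2]),(2,[0,1],2,[]),(2,[],5,[0]),(2,[],4,[2]),(1,[1,1],2,[]),(2,[1,1],3,[]),(1,[1,1],0,[])],
  [(2,[],2,[0,1]),(1,[2],6,[]),(2,[],2,[1,2]),(1,[],2,[1,1]),(2,[2],0,[1]),(2,[],6,[2]),(2,[],6,[0]),(1,[],6,[1]),(1,[2,1],2,[]),(1,[0,1],3,[]),(1,[0,1],0,[]),(1,[],7,[]),(2,[],4,[2]),(2,[],4,[1]),(2,[1],6,[]),(2,[1],5,[]),(1,[1],4,[]),(1,[1,1],2,[]),(1,[1,1],3,[]),(1,[1,1],0,[])],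
  [(1,[],6,[1]),(2,[2],4,[]),(2,[],7,[]),(1,[1],4,[])],
  [(2,[],5,[0,1]),(1,[0,1],6,[]),(2,[],5,[1,2]),(1,[],5,[1,1]),(2,[],7,[0]),(1,[],4,[0,1]),(2,[],4,[1,2]),(2,[],4,[1,0]),(2,[1,1],6,[]),(1,[1,1],0,[1]),(1,[1,1],5,[]),(2,[1,1],4,[])],
  [(2,[],7,[1]),(1,[0,1],4,[]),(2,[1,1],4,[])],
  [(2,[],6,[0,1]),(1,[2],7,[]),(1,[2,1],6,[]),(2,[],9,[2]),(1,[],9,[1]),(1,[0,1],0,[1]),(2,[1],7,[]),(1,[1,1],6,[]),(1,[1,1],0,[1]),(2,[1,1],5,[]),(1,[1,1],4,[]),(1,[1,1,1],2,[]),(1,[],10,[]),(2,[],11,[])],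
  [(1,[],8,[0]),(2,[2,1,2],0,[]),(2,[],9,[0]),(2,[],12,[]),(1,[2,1,1],0,[]),(2,[1,1,2],0,[]),(2,[1,1,1],0,[])],
  [(2,[],2,[1,2,0]),(1,[2],8,[]),(2,[],2,[1,2,1]),(2,[],2,[1,0,1]),(2,[],2,[1,1,2]),(1,[],2,[1,1,0]),(1,[],2,[1,1,1]),(2,[],6,[2,0]),(2,[],6,[2,1]),(2,[],6,[0,1]),(2,[],6,[1,2]),(1,[],6,[1,0]),(1,[],6,[1,1]),(1,[2,1],2,[0]),(1,[2,1],2,[1]),(1,[2,1,2],0,[]),(2,[2,1],6,[]),(2,[],9,[2]),(2,[],9,[0]),(1,[],9,[1]),(2,[],12,[]),(1,[2,1],4,[]),(2,[],13,[]),(1,[0,1],3,[0]),(1,[0,1],3,[1]),(1,[0,1],0,[1]),(1,[0,1],5,[]),(2,[],7,[0]),(2,[0,1],4,[]),(2,[],4,[2,0]),(2,[],4,[2,1]),(2,[],4,[0,1]),(1,[],4,[1,0]),(2,[],4,[1,1]),(2,[1],8,[]),(2,[1],5,[0]),(2,[1],5,[1]),(2,[1],7,[]),(2,[1],4,[2]),(1,[1],4,[0]),(1,[1],4,[1]),(1,[1,1],2,[0]),(1,[1,1],2,[1]),(1,[1,1,2],0,[]),(2,[1,1],6,[]),(1,[1,1],3,[0]),(1,[1,1],3,[1]),(1,[1,1],0,[1]),(1,[1,1],4,[]),(1,[1,1,1],2,[]),(2,[],10,[]),(1,[1,1,1],0,[])],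
  [(1,[],7,[0,1]),(2,[0,1],7,[]),(2,[],4,[1,0,1]),(2,[],4,[1,1,2]),(1,[],4,[1,1,1]),(1,[1,1],7,[]),(1,[1,1,1],6,[]),(2,[],11,[2]),(1,[],11,[1])],
  [(1,[],5,[1,2,0]),(2,[0,1],8,[]),(1,[],5,[1,2,1]),(1,[],5,[1,0,1]),(1,[],5,[1,1,2]),(2,[],5,[1,1,0]),(2,[],5,[1,1,1]),(1,[],4,[1,2,0]),(1,[],4,[1,2,1]),(1,[],4,[1,1,2]),(1,[],4,[1,1,0]),(1,[1,1],8,[]),(2,[1,1],5,[0]),(2,[1,1],5,[1]),(2,[1,1],7,[]),(2,[1,1],4,[2]),(1,[1,1],4,[0]),(1,[1,1],4,[1]),(1,[1],10,[]),(1,[1],11,[]),(1,[1,1,1,1],0,[])],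
  [(1,[],5,[1,2,1]),(2,[0,1],9,[]),(2,[],5,[1,1,1]),(1,[],4,[1,2,1]),(2,[],4,[1,0,1]),(1,[],4,[1,1,2]),(2,[],4,[1,1,1]),(1,[1,1],9,[]),(2,[1,1],5,[1]),(1,[1,1],4,[1]),(1,[1],11,[]),(2,[],16,[])],
  [(1,[],9,[2,0]),(2,[2,1],8,[]),(1,[],9,[2,1]),(1,[],9,[0,1]),(1,[],9,[1,2]),(2,[],9,[1,0]),(2,[],9,[1,1]),(2,[2],10,[]),(2,[2],11,[]),(2,[1,1],8,[]),(1,[1,1],5,[0]),(1,[1,1],5,[1]),(1,[1,1],7,[]),(1,[1,1],4,[2]),(2,[1,1],4,[0]),(2,[1,1],4,[1]),(2,[1,1,1],2,[0]),(2,[1,1,1],2,[1]),(2,[1,1,1,2],0,[]),(1,[1,1,1],6,[]),(1,[],11,[2]),(1,[],11,[0]),(2,[],11,[1]),(1,[],15,[]),(2,[1,1,1],4,[]),(2,[1],10,[]),(2,[1],11,[]),(2,[1,1,1,1],0,[]),(1,[],16,[])],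
  [(2,[],9,[2,1]),(1,[2,1],9,[]),(1,[],9,[1,1]),(1,[2],11,[]),(1,[],18,[]),(1,[1,1],9,[]),(2,[1,1],5,[1]),(1,[1,1],4,[1]),(1,[1,1,1],2,[1]),(1,[1,1,1],6,[]),(2,[],11,[2]),(2,[],15,[]),(1,[1,1,1],4,[]),(1,[1],11,[]),(2,[],16,[]),(1,[],17,[])],
  [(2,[],12,[0]),(1,[2,1,0,1],0,[]),(1,[2],10,[]),(1,[2,1,1,1],0,[]),(2,[],18,[]),(2,[],19,[]),(1,[1,1,0,1],0,[]),(1,[1],10,[]),(2,[1,1,1,1],0,[]),(2,[],16,[]),(2,[],17,[])],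
  [(1,[],8,[1,0,1]),(2,[2,1,2],7,[]),(1,[],9,[1,0,1]),(2,[],9,[1,1,2]),(1,[],9,[1,1,1]),(2,[2,1],4,[0,1]),(2,[],14,[0,1]),(2,[2,1,1,1],6,[]),(1,[2],11,[2]),(2,[2],11,[1]),(1,[],18,[0]),(2,[2,1,1,1,1],0,[]),(2,[2],16,[]),(1,[2],17,[]),(2,[1,1],6,[0,1]),(1,[1,1,2,1],6,[]),(2,[1,1],9,[2]),(1,[1,1],9,[1]),(2,[1,1],12,[]),(1,[1,1,0,1],0,[1]),(1,[1,1],4,[0,1]),(2,[1,1],4,[1,2]),(1,[1,1],4,[1,1]),(1,[],11,[0,1]),(1,[],11,[1,2]),(2,[],11,[1,1]),(2,[1,1,1,1],6,[]),(2,[1],11,[2]),(1,[1],11,[1]),(1,[1,1,1,1],0,[1]),(2,[1,1,1,1],5,[]),(2,[],16,[0]),(1,[1,1,1,1],4,[]),(1,[1,1,1,1,1],2,[]),(1,[1,1],10,[]),(2,[1,1],11,[]),(1,[1,1,1,1,1],0,[]),(1,[1],16,[]),(2,[1],17,[])],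
  [(1,[],10,[1,1]),(2,[1,1,1,2],4,[]),(2,[1,1,1],4,[1]),(2,[1],11,[1]),(1,[1,1,1,1],4,[])],
  [(2,[],6,[1,1,2,0]),(1,[2,0],10,[]),(2,[],6,[1,1,0,1]),(2,[],6,[1,1,1,2]),(1,[],6,[1,1,1,0]),(1,[],9,[1,2,0]),(1,[],9,[1,0,1]),(1,[],9,[1,1,2]),(2,[],9,[1,1,0]),(1,[0,1],4,[2,0]),(1,[0,1],4,[0,1]),(1,[0,1],4,[1,2]),(2,[0,1],4,[1,0]),(2,[1],4,[1,2,0]),(2,[1],4,[1,0,1]),(2,[1],4,[1,1,2]),(1,[1],4,[1,1,0]),(2,[1,1],4,[2,0]),(2,[1,1],4,[0,1]),(2,[1,1],4,[1,2]),(1,[1,1],4,[1,0]),(2,[1,1,1],8,[]),(1,[1,1,1],9,[]),(2,[1,1],10,[]),(2,[1],17,[]),(1,[],22,[])],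
  [(1,[],12,[1,1]),(2,[2,1,0,1],4,[]),(1,[2,1,1],4,[1]),(2,[2],11,[1]),(2,[2,1,1,1],4,[]),(2,[1,1,0,1],4,[]),(2,[1],11,[1]),(1,[1,1,1,1],4,[])]]

theorem cb3_ok : chk 3 cb3S 3 cb3C = true := by decide +kernel

/-- levels -/
def cb3L : List (List Wd × List (Pl × List Cb)) := [
  ([[0],[1],[2]],
    []),
  ([[1,0],[2,0],[0,1],[1,1],[2,1],[1,2]],
    [([(1,[0,0])],[(1,[],0,[])]),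
    ([(1,[0,2]),(2,[1,1])],[(1,[],3,[])]),
    ([(1,[2,2]),(2,[2,0]),(2,[0,1]),(2,[1,2])],[(1,[],2,[])])]),
  ([[0,1,0],[1,1,0],[2,1,0],[1,2,0],[1,0,1],[1,1,1],[2,1,1],[1,2,1],[1,1,2],[2,1,2]],
    [([(1,[0,2,0]),(2,[1,1,0])],[(1,[],3,[0])]),
    ([(1,[2,2,0]),(2,[0,1,0]),(2,[1,2,0])],[(1,[],2,[0]),(1,[2],0,[])]),
    ([(1,[0,0,1])],[(1,[],0,[1])]),
    ([(1,[2,0,1]),(1,[2,1,2]),(2,[2,1,1]),(1,[0,1,0]),(2,[1,0,1]),(1,[1,1,2]),(1,[1,1,0])],[(1,[],6,[])]),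
    ([(1,[0,1,1])],[(1,[],4,[])]),
    ([(1,[0,2,1]),(2,[1,1,1])],[(1,[],3,[1])]),
    ([(1,[2,2,1]),(1,[2,1,2]),(2,[2,1,1]),(1,[0,1,0]),(2,[1,2,1]),(2,[1,0,1]),(1,[1,1,2]),(1,[1,1,0])],[(1,[],2,[1]),(1,[],6,[]),(1,[],4,[])]),
    ([(1,[0,1,2]),(2,[1,1,2]),(1,[1,1,0])],[(1,[],5,[])])]),
  ([[1,0,1,0],[1,1,1,0],[2,1,1,0],[1,2,1,0],[1,1,2,0],[1,1,0,1],[2,1,0,1],[1,1,1,1],[2,1,1,1],[1,2,1,1],[1,1,2,1],[1,1,1,2],[2,1,1,2],[1,2,1,2]],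
    [([(1,[0,0,1,0])],[(1,[],0,[1,0])]),
    ([(1,[2,0,1,0]),(2,[2,1,0,1]),(2,[2,1,1,2]),(2,[1,0,1,0]),(2,[1,1,0,1]),(2,[1,1,1,0]),(2,[1,1,1,1])],[(1,[],6,[0]),(2,[],8,[]),(1,[],9,[]),(2,[0,1],0,[]),(2,[1,1],0,[])]),
    ([(1,[0,1,1,0])],[(1,[],4,[0])]),
    ([(1,[0,2,1,0]),(2,[1,1,1,0])],[(1,[],3,[1,0])]),
    ([(1,[2,2,1,0]),(2,[2,1,0,1]),(2,[2,1,1,2]),(2,[1,2,1,0]),(2,[1,0,1,0]),(2,[1,1,0,1]),(2,[1,1,1,0]),(2,[1,1,1,1])],[(1,[],2,[1,0]),(1,[],6,[0]),(2,[],8,[]),(1,[],9,[]),(2,[0,1],0,[]),(1,[],4,[0]),(2,[1,1],0,[])]),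
    ([(1,[0,1,2,0]),(2,[1,1,2,0])],[(1,[],5,[0]),(2,[1,1],0,[])]),
    ([(1,[2,1,2,0]),(1,[2,1,0,1]),(1,[2,1,1,2]),(2,[2,1,1,0]),(1,[1,1,2,0]),(1,[1,1,0,1]),(1,[1,1,1,0]),(1,[1,1,1,1])],[(1,[],8,[]),(2,[],9,[])]),
    ([(1,[0,1,0,1]),(2,[1,1,0,1]),(2,[1,1,1,2]),(1,[1,1,1,1])],[(1,[],7,[])]),
    ([(1,[0,1,1,1])],[(1,[],4,[1])]),
    ([(1,[0,2,1,1]),(2,[1,1,1,1])],[(1,[],3,[1,1])]),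
    ([(1,[2,2,1,1]),(2,[1,2,1,1])],[(1,[],2,[1,1]),(1,[],6,[1]),(2,[],9,[]),(2,[],7,[]),(1,[],4,[1]),(1,[1],4,[])]),
    ([(1,[0,1,2,1]),(2,[1,1,2,1]),(1,[1,1,0,1])],[(1,[],5,[1])]),
    ([(1,[2,1,2,1]),(2,[2,1,1,1]),(1,[1,1,2,1]),(2,[1,1,0,1]),(1,[1,1,1,2]),(2,[1,1,1,1])],[(1,[],9,[])]),
    ([(1,[0,1,1,2])],[(1,[],4,[2])]),
    ([(1,[0,2,1,2]),(2,[1,1,1,2])],[(1,[],3,[1,2])]),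
    ([(1,[2,2,1,2]),(2,[2,1,1,2]),(1,[2,1,1,0]),(2,[1,2,1,2])],[(1,[],2,[1,2]),(1,[],6,[2]),(2,[2,1],2,[]),(2,[],8,[]),(1,[],9,[]),(2,[0,1],3,[]),(1,[],4,[2]),(2,[],4,[1]),(1,[1],5,[]),(2,[1,1],2,[]),(2,[1,1],3,[])])]),
  ([[1,1,0,1,0],[1,1,1,1,0],[2,1,1,1,0],[1,2,1,1,0],[1,1,2,1,0],[1,1,1,0,1],[2,1,1,0,1],[1,2,1,0,1],[1,1,1,1,1],[2,1,1,1,1],[1,2,1,1,1],[1,1,2,1,1],[1,1,1,1,2],[2,1,1,1,2],[1,2,1,1,2],[1,1,2,1,2]],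
    [([(1,[0,1,0,1,0]),(2,[1,1,0,1,0]),(1,[1,1,1,0,1]),(1,[1,1,1,1,2])],[(1,[],7,[0]),(1,[],10,[])]),
    ([(1,[2,1,0,1,0]),(2,[2,1,1,0,1]),(1,[2,1,1,1,2]),(1,[2,1,1,1,0]),(1,[1,1,0,1,0]),(1,[1,1,1,1,2]),(2,[1,1,1,1,0]),(2,[1,1,1,1,1])],[(1,[],12,[])]),
    ([(1,[0,1,1,1,0])],[(1,[],4,[1,0])]),
    ([(1,[0,2,1,1,0]),(2,[1,1,1,1,0])],[(1,[],3,[1,1,0])]),
    ([(1,[2,2,1,1,0]),(2,[1,2,1,1,0])],[(1,[],2,[1,1,0]),(1,[],6,[1,0]),(2,[],9,[0]),(2,[],7,[0]),(1,[],4,[1,0]),(1,[1],4,[0])]),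
    ([(1,[0,1,2,1,0]),(2,[1,1,2,1,0]),(1,[1,1,0,1,0])],[(1,[],5,[1,0])]),
    ([(1,[2,1,2,1,0]),(2,[2,1,1,1,0]),(1,[1,1,2,1,0]),(2,[1,1,0,1,0]),(2,[1,1,1,0,1]),(2,[1,1,1,1,2])],[(1,[],9,[0]),(2,[],10,[])]),
    ([(1,[0,1,1,2,0])],[(1,[],4,[2,0])]),
    ([(1,[1,1,1,2,0]),(1,[1,1,1,0,1]),(1,[1,1,1,1,2]),(2,[1,1,1,1,0])],[(1,[],10,[])]),
    ([(1,[2,1,1,2,0]),(1,[2,1,1,0,1]),(2,[2,1,1,1,2]),(2,[2,1,1,1,0]),(2,[1,1,1,1,2]),(2,[1,1,1,1,0]),(1,[1,1,1,1,1])],[(1,[],13,[])]),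
    ([(1,[0,1,1,0,1])],[(1,[],4,[0,1])]),
    ([(1,[0,2,1,0,1]),(2,[1,1,1,0,1])],[(1,[],3,[1,0,1])]),
    ([(1,[2,2,1,0,1]),(2,[2,1,1,0,1]),(2,[2,1,1,1,2]),(1,[2,1,1,1,1]),(2,[1,2,1,0,1])],[(1,[],2,[1,0,1]),(1,[],6,[0,1]),(2,[2,1],6,[]),(1,[],9,[2]),(2,[],9,[1]),(1,[],12,[]),(2,[0,1],0,[1]),(1,[],4,[0,1]),(1,[1],7,[]),(2,[1,1],6,[]),(2,[1,1],0,[1]),(1,[1,1],5,[]),(2,[1,1],4,[]),(2,[1,1,1],2,[]),(2,[],10,[]),(1,[],11,[])]),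
    ([(1,[0,1,1,1,1])],[(1,[],4,[1,1])]),
    ([(1,[0,2,1,1,1]),(2,[1,1,1,1,1])],[(1,[],3,[1,1,1])]),
    ([(1,[2,2,1,1,1]),(2,[1,2,1,1,1])],[(1,[],2,[1,1,1]),(1,[],6,[1,1]),(2,[],9,[1]),(2,[0,1],4,[]),(1,[],4,[1,1]),(1,[1],4,[1]),(1,[1,1],4,[]),(1,[],11,[])]),
    ([(1,[0,1,2,1,1]),(2,[1,1,2,1,1])],[(1,[],5,[1,1]),(2,[1,1],4,[])]),
    ([(1,[2,1,2,1,1]),(2,[2,1,1,1,1]),(1,[1,1,2,1,1])],[(1,[],9,[1]),(1,[1,1],4,[]),(2,[],11,[])]),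
    ([(1,[0,1,1,2,1])],[(1,[],4,[2,1])]),
    ([(1,[1,1,1,2,1]),(2,[1,1,1,1,1])],[(1,[],11,[])]),
    ([(1,[2,1,1,2,1]),(2,[2,1,1,0,1]),(2,[2,1,1,1,2]),(1,[2,1,1,1,1]),(2,[1,1,1,0,1]),(1,[1,1,1,1,2])],[(1,[],14,[])]),
    ([(1,[0,1,1,1,2])],[(1,[],4,[1,2])]),
    ([(1,[0,2,1,1,2]),(2,[1,1,1,1,2])],[(1,[],3,[1,1,2])]),
    ([(1,[2,2,1,1,2]),(2,[1,2,1,1,2])],[(1,[],2,[1,1,2]),(1,[],6,[1,2]),(2,[],9,[2]),(2,[0,1],5,[]),(1,[],4,[1,0]),(1,[1],4,[2]),(1,[1,1],5,[]),(1,[1,1,1],2,[]),(1,[],10,[])]),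
    ([(1,[0,1,2,1,2]),(2,[1,1,2,1,2]),(1,[1,1,1,1,2]),(2,[1,1,1,1,0])],[(1,[],5,[1,2]),(2,[1,1],5,[])]),
    ([(1,[2,1,2,1,2]),(2,[2,1,1,1,2]),(1,[1,1,2,1,2]),(1,[1,1,1,1,2]),(2,[1,1,1,1,0])],[(1,[],9,[2]),(1,[1,1],5,[]),(2,[1,1,1],2,[]),(2,[],10,[])])]),
  ([[1,1,1,1,1,0],[2,1,1,1,1,0],[1,2,1,1,1,0],[1,1,2,1,1,0],[1,2,1,1,0,1],[1,1,2,1,0,1],[1,1,1,1,1,1],[2,1,1,1,1,1],[1,2,1,1,1,1],[1,1,2,1,1,1],[1,2,1,1,1,2],[1,1,2,1,1,2]],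
    [([(1,[0,1,1,0,1,0])],[(1,[],4,[0,1,0])]),
    ([(1,[1,1,1,0,1,0]),(1,[1,1,1,1,1,0]),(1,[1,1,1,1,1,1])],[(1,[],15,[]),(1,[],16,[]),(2,[],17,[])]),
    ([(1,[2,1,1,0,1,0]),(2,[2,1,1,1,1,1]),(2,[1,1,1,1,1,0]),(2,[1,1,1,1,1,1])],[(1,[],20,[])]),
    ([(1,[0,1,1,1,1,0])],[(1,[],4,[1,1,0])]),
    ([(1,[0,2,1,1,1,0]),(2,[1,1,1,1,1,0])],[(1,[],3,[1,1,1,0])]),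
    ([(1,[2,2,1,1,1,0]),(2,[1,2,1,1,1,0])],[(1,[],2,[1,1,1,0]),(1,[],6,[1,1,0]),(2,[],9,[1,0]),(2,[0,1],4,[0]),(1,[],4,[1,1,0]),(1,[1],4,[1,0]),(1,[1,1],4,[0]),(1,[],11,[0])]),
    ([(1,[0,1,2,1,1,0]),(2,[1,1,2,1,1,0])],[(1,[],5,[1,1,0]),(2,[1,1],4,[0])]),
    ([(1,[2,1,2,1,1,0]),(2,[2,1,1,1,1,0]),(1,[1,1,2,1,1,0])],[(1,[],9,[1,0]),(1,[1,1],4,[0]),(2,[],11,[0])]),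
    ([(1,[0,1,1,2,1,0])],[(1,[],4,[2,1,0])]),
    ([(1,[1,1,1,2,1,0]),(2,[1,1,1,1,1,0])],[(1,[],11,[0])]),
    ([(1,[2,1,1,2,1,0]),(1,[2,1,1,1,1,0]),(1,[2,1,1,1,1,1]),(1,[1,1,1,1,1,1])],[(1,[],14,[0]),(1,[],20,[]),(1,[2],10,[]),(2,[],18,[]),(2,[],19,[]),(1,[],15,[]),(2,[1],10,[]),(2,[],16,[])]),
    ([(1,[0,1,1,1,0,1])],[(1,[],4,[1,0,1])]),
    ([(1,[1,1,1,1,0,1]),(1,[1,1,1,1,1,1])],[(1,[],16,[])]),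
    ([(1,[2,1,1,1,0,1]),(1,[2,1,1,1,1,0]),(2,[2,1,1,1,1,1]),(2,[1,1,1,1,1,0]),(2,[1,1,1,1,1,1])],[(1,[],18,[])]),
    ([(1,[0,2,1,1,0,1]),(1,[1,1,1,1,1,1])],[(1,[],3,[1,1,0,1]),(1,[],16,[])]),
    ([(1,[2,2,1,1,0,1]),(2,[1,2,1,1,0,1])],[(1,[],2,[1,1,0,1]),(1,[],6,[1,0,1]),(2,[],9,[0,1]),(2,[],7,[0,1]),(1,[],4,[1,0,1]),(1,[1],4,[0,1])]),
    ([(1,[0,1,2,1,0,1]),(2,[1,1,2,1,0,1]),(1,[1,1,1,1,1,1])],[(1,[],5,[1,0,1]),(2,[1,1],7,[]),(2,[],16,[]),(2,[],17,[])]),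
    ([(1,[2,1,2,1,0,1]),(1,[2,1,1,1,1,0]),(2,[2,1,1,1,1,1]),(1,[1,1,2,1,0,1]),(2,[1,1,1,1,1,0])],[(1,[],9,[0,1]),(1,[],18,[]),(1,[1,1],7,[]),(2,[1,1,1],6,[]),(1,[],11,[2]),(2,[],11,[1]),(1,[],15,[]),(2,[],16,[]),(2,[],17,[])]),
    ([(1,[0,1,1,1,1,1])],[(1,[],4,[1,1,1])]),
    ([(1,[0,2,1,1,1,1]),(2,[1,1,1,1,1,1])],[(1,[],3,[1,1,1,1])]),
    ([(1,[2,2,1,1,1,1]),(2,[1,2,1,1,1,1])],[(1,[],2,[1,1,1,1]),(1,[],6,[1,1,1]),(2,[],9,[1,1]),(2,[0,1],4,[1]),(1,[],4,[1,1,1]),(1,[1],4,[1,1]),(1,[1,1],4,[1]),(1,[],11,[1])]),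
    ([(1,[0,1,2,1,1,1]),(2,[1,1,2,1,1,1])],[(1,[],5,[1,1,1]),(2,[1,1],4,[1])]),
    ([(1,[2,1,2,1,1,1]),(2,[2,1,1,1,1,1]),(1,[1,1,2,1,1,1])],[(1,[],9,[1,1]),(1,[1,1],4,[1]),(2,[],11,[1])]),
    ([(1,[0,1,1,2,1,1])],[(1,[],4,[2,1,1])]),
    ([(1,[1,1,1,2,1,1]),(2,[1,1,1,1,1,1])],[(1,[],11,[1])]),
    ([(1,[2,1,1,2,1,1]),(1,[1,1,1,1,1,1])],[(1,[],14,[1]),(1,[2,1,1],4,[]),(1,[2],11,[]),(1,[1,1,1],4,[]),(2,[1],11,[])]),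
    ([(1,[0,1,1,1,1,2])],[(1,[],4,[1,1,2])]),
    ([(1,[1,1,1,1,1,2])],[(1,[],17,[])]),
    ([(1,[2,1,1,1,1,2]),(1,[2,1,1,1,1,0]),(2,[2,1,1,1,1,1]),(2,[1,1,1,1,1,0]),(1,[1,1,1,1,1,1])],[(1,[],19,[])]),
    ([(1,[0,2,1,1,1,2])],[(1,[],3,[1,1,1,2]),(1,[],17,[])]),
    ([(1,[2,2,1,1,1,2]),(2,[1,2,1,1,1,2])],[(1,[],2,[1,1,1,2]),(1,[],6,[1,1,2]),(2,[],9,[1,2]),(2,[0,1],4,[2]),(1,[],4,[1,1,2]),(1,[1],4,[1,2]),(1,[1,1],4,[2]),(1,[],11,[2])]),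
    ([(1,[0,1,2,1,1,2]),(2,[1,1,2,1,1,2])],[(1,[],5,[1,1,2]),(2,[1,1],4,[2])]),
    ([(1,[2,1,2,1,1,2]),(1,[2,1,1,1,1,0]),(2,[2,1,1,1,1,1]),(1,[1,1,2,1,1,2]),(2,[1,1,1,1,1,0]),(1,[1,1,1,1,1,1])],[(1,[],9,[1,2]),(1,[],19,[]),(1,[1,1],4,[2]),(2,[],11,[2])]),
    ([(1,[0,1,1,2,1,2])],[(1,[],4,[2,1,2])]),
    ([(1,[1,1,1,2,1,2])],[(1,[],11,[2]),(1,[],17,[])]),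
    ([(1,[2,1,1,2,1,2]),(2,[1,1,1,1,1,0])],[(1,[],14,[2]),(1,[2,1,1],5,[]),(1,[2,1,1,1],2,[]),(1,[2],10,[]),(1,[1,1,1],5,[]),(2,[1,1,1,1],2,[]),(2,[1],10,[]),(1,[],17,[])])]),
  ([[1,2,1,1,1,1,0],[1,1,2,1,1,1,0],[1,1,2,1,1,0,1],[1,2,1,1,1,1,1],[1,1,2,1,1,1,1],[1,1,2,1,1,1,2]],
    [([(1,[0,1,1,1,1,1,0])],[(1,[],4,[1,1,1,0])]),
    ([(1,[1,1,1,1,1,1,0])],[(1,[],23,[])]),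
    ([(1,[2,1,1,1,1,1,0])],[(1,[],21,[]),(1,[],24,[]),(1,[],23,[]),(2,[],22,[])]),
    ([(1,[0,2,1,1,1,1,0])],[(1,[],3,[1,1,1,1,0]),(1,[],23,[])]),
    ([(1,[2,2,1,1,1,1,0]),(2,[1,2,1,1,1,1,0])],[(1,[],2,[1,1,1,1,0]),(1,[],6,[1,1,1,0]),(2,[],9,[1,1,0]),(2,[0,1],4,[1,0]),(1,[],4,[1,1,1,0]),(1,[1],4,[1,1,0]),(1,[1,1],4,[1,0]),(1,[],11,[1,0])]),
    ([(1,[0,1,2,1,1,1,0]),(2,[1,1,2,1,1,1,0])],[(1,[],5,[1,1,1,0]),(2,[1,1],4,[1,0])]),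
    ([(1,[2,1,2,1,1,1,0]),(1,[1,1,2,1,1,1,0])],[(1,[],9,[1,1,0]),(1,[],21,[]),(1,[],24,[]),(1,[1,1],4,[1,0]),(2,[],11,[1,0]),(1,[],23,[]),(2,[],22,[])]),
    ([(1,[0,1,1,2,1,1,0])],[(1,[],4,[2,1,1,0])]),
    ([(1,[1,1,1,2,1,1,0])],[(1,[],11,[1,0]),(1,[],23,[])]),
    ([(1,[2,1,1,2,1,1,0])],[(1,[],14,[1,0]),(1,[2,1,1],4,[0]),(1,[2],11,[0]),(1,[1,1,1],4,[0]),(2,[1],11,[0]),(2,[],23,[])]),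
    ([(1,[0,1,2,1,1,0,1]),(2,[1,1,2,1,1,0,1])],[(1,[],5,[1,1,0,1]),(2,[1,1],4,[0,1])]),
    ([(1,[2,1,2,1,1,0,1]),(1,[1,1,2,1,1,0,1])],[(1,[],9,[1,0,1]),(1,[2],16,[]),(2,[],24,[]),(1,[1,1],4,[0,1]),(2,[],11,[0,1])]),
    ([(1,[0,1,1,2,1,0,1])],[(1,[],4,[2,1,0,1])]),
    ([(1,[1,1,1,2,1,0,1])],[(1,[],11,[0,1]),(1,[1],16,[]),(2,[],22,[])]),
    ([(1,[2,1,1,2,1,0,1])],[(1,[],14,[0,1]),(1,[2,1,1],7,[]),(1,[2,1,1,1],6,[]),(2,[2],11,[2]),(1,[2],11,[1]),(2,[],18,[0]),(1,[2,1,1,1,1],0,[]),(1,[2],16,[]),(2,[2],17,[]),(1,[],21,[]),(1,[1,1,1],7,[]),(2,[1,1,1,1],6,[]),(1,[1],11,[2]),(2,[1],11,[1]),(1,[],16,[0]),(2,[1,1,1,1,1],0,[])]),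
    ([(1,[0,1,1,1,1,1,1])],[(1,[],4,[1,1,1,1])]),
    ([(1,[1,1,1,1,1,1,1])],[(1,[],22,[])]),
    ([(1,[2,1,1,1,1,1,1])],[(1,[],24,[])]),
    ([(1,[0,2,1,1,1,1,1])],[(1,[],3,[1,1,1,1,1]),(1,[],22,[])]),
    ([(1,[2,2,1,1,1,1,1]),(2,[1,2,1,1,1,1,1])],[(1,[],2,[1,1,1,1,1]),(1,[],6,[1,1,1,1]),(2,[],9,[1,1,1]),(2,[0,1],4,[1,1]),(1,[],4,[1,1,1,1]),(1,[1],4,[1,1,1]),(1,[1,1],4,[1,1]),(1,[],11,[1,1])]),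
    ([(1,[0,1,2,1,1,1,1]),(2,[1,1,2,1,1,1,1])],[(1,[],5,[1,1,1,1]),(2,[1,1],4,[1,1])]),
    ([(1,[2,1,2,1,1,1,1]),(1,[1,1,2,1,1,1,1])],[(1,[],9,[1,1,1]),(1,[],24,[]),(1,[1,1],4,[1,1]),(2,[],11,[1,1])]),
    ([(1,[0,1,1,2,1,1,1])],[(1,[],4,[2,1,1,1])]),
    ([(1,[1,1,1,2,1,1,1])],[(1,[],11,[1,1]),(1,[],22,[])]),
    ([(1,[2,1,1,2,1,1,1])],[(1,[],14,[1,1]),(1,[2,1,1],4,[1]),(1,[2],11,[1]),(1,[1,1,1],4,[1]),(2,[1],11,[1]),(2,[],22,[])]),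
    ([(1,[0,1,2,1,1,1,2]),(2,[1,1,2,1,1,1,2])],[(1,[],5,[1,1,1,2]),(2,[1,1],4,[1,2])]),
    ([(1,[2,1,2,1,1,1,2]),(1,[1,1,2,1,1,1,2])],[(1,[],9,[1,1,2]),(1,[2],17,[]),(1,[1,1],4,[1,2]),(2,[],11,[1,2])]),
    ([(1,[0,1,1,2,1,1,2])],[(1,[],4,[2,1,1,2])]),
    ([(1,[1,1,1,2,1,1,2])],[(1,[],11,[1,2]),(1,[1],17,[])]),
    ([(1,[2,1,1,2,1,1,2])],[(1,[],14,[1,2]),(1,[2,1,1],4,[2]),(1,[2],11,[2]),(1,[1,1,1],4,[2]),(2,[1],11,[2]),(2,[1],17,[])])]),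
  ([[1,1,2,1,1,1,1,0],[1,1,2,1,1,1,1,1]],
    [([(1,[0,1,2,1,1,1,1,0]),(2,[1,1,2,1,1,1,1,0])],[(1,[],5,[1,1,1,1,0]),(2,[1,1],4,[1,1,0])]),
    ([(1,[2,1,2,1,1,1,1,0]),(1,[1,1,2,1,1,1,1,0])],[(1,[],9,[1,1,1,0]),(1,[],24,[0]),(1,[1,1],4,[1,1,0]),(2,[],11,[1,1,0])]),
    ([(1,[0,1,1,2,1,1,1,0])],[(1,[],4,[2,1,1,1,0])]),
    ([(1,[1,1,1,2,1,1,1,0])],[(1,[],11,[1,1,0]),(1,[],22,[0])]),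
    ([(1,[2,1,1,2,1,1,1,0])],[(1,[],14,[1,1,0]),(1,[2,1,1],4,[1,0]),(1,[2],11,[1,0]),(1,[1,1,1],4,[1,0]),(2,[1],11,[1,0]),(2,[],22,[0])]),
    ([(1,[0,1,1,2,1,1,0,1])],[(1,[],4,[2,1,1,0,1])]),
    ([(1,[1,1,1,2,1,1,0,1])],[(1,[],11,[1,0,1]),(1,[1,1],16,[]),(2,[],22,[1])]),
    ([(1,[2,1,1,2,1,1,0,1])],[(1,[],14,[1,0,1]),(1,[2,1,1],4,[0,1]),(1,[2],11,[0,1]),(1,[1,1,1],4,[0,1]),(2,[1],11,[0,1]),(2,[1,1],16,[]),(1,[],22,[1])]),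
    ([(1,[0,1,2,1,1,1,1,1]),(2,[1,1,2,1,1,1,1,1])],[(1,[],5,[1,1,1,1,1]),(2,[1,1],4,[1,1,1])]),
    ([(1,[2,1,2,1,1,1,1,1]),(1,[1,1,2,1,1,1,1,1])],[(1,[],9,[1,1,1,1]),(1,[],24,[1]),(1,[1,1],4,[1,1,1]),(2,[],11,[1,1,1])]),
    ([(1,[0,1,1,2,1,1,1,1])],[(1,[],4,[2,1,1,1,1])]),
    ([(1,[1,1,1,2,1,1,1,1])],[(1,[],11,[1,1,1]),(1,[],22,[1])]),
    ([(1,[2,1,1,2,1,1,1,1])],[(1,[],14,[1,1,1]),(1,[2,1,1],4,[1,1]),(1,[2],11,[1,1]),(1,[1,1,1],4,[1,1]),(2,[1],11,[1,1]),(2,[],22,[1])]),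
    ([(1,[0,1,1,2,1,1,1,2])],[(1,[],4,[2,1,1,1,2])]),
    ([(1,[1,1,1,2,1,1,1,2])],[(1,[],11,[1,1,2]),(1,[1,1],17,[])]),
    ([(1,[2,1,1,2,1,1,1,2])],[(1,[],14,[1,1,2]),(1,[2,1,1],4,[1,2]),(1,[2],11,[1,2]),(1,[1,1,1],4,[1,2]),(2,[1],11,[1,2]),(2,[1,1],17,[])])]),
  ([],
    [([(1,[0,1,1,2,1,1,1,1,0])],[(1,[],4,[2,1,1,1,1,0])]),
    ([(1,[1,1,1,2,1,1,1,1,0])],[(1,[],11,[1,1,1,0]),(1,[],22,[1,0])]),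
    ([(1,[2,1,1,2,1,1,1,1,0])],[(1,[],14,[1,1,1,0]),(1,[2,1,1],4,[1,1,0]),(1,[2],11,[1,1,0]),(1,[1,1,1],4,[1,1,0]),(2,[1],11,[1,1,0]),(2,[],22,[1,0])]),
    ([(1,[0,1,1,2,1,1,1,1,1])],[(1,[],4,[2,1,1,1,1,1])]),
    ([(1,[1,1,1,2,1,1,1,1,1])],[(1,[],11,[1,1,1,1]),(1,[],22,[1,1])]),
    ([(1,[2,1,1,2,1,1,1,1,1])],[(1,[],14,[1,1,1,1]),(1,[2,1,1],4,[1,1,1]),(1,[2],11,[1,1,1]),(1,[1,1,1],4,[1,1,1]),(2,[1],11,[1,1,1]),(2,[],22,[1,1])])])]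

theorem cb3_lv : nilChk 3 cb3S 3 [[]] cb3L = true := by decide +kernel

/-- polynomials -/
def cc3S : List Pl := [
  [(1,[0,1]),(1,[1,1]),(1,[2,2])],
  [(1,[0,2]),(2,[2,1])],
  [(1,[0,0]),(1,[0,1]),(2,[1,0])],
  [(2,[0,2]),(1,[2,1])],
  [(1,[0,1,2]),(1,[1,0,2]),(2,[1,1,2]),(1,[2,0,1])],
  [(1,[0,1,1]),(1,[1,1,1]),(1,[2,0,2])],
  [(1,[0,1,0]),(2,[0,1,1]),(1,[1,1,0])],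
  [(1,[0,1,1,1]),(1,[1,0,1,1]),(2,[1,1,0,1]),(1,[1,1,1,1])],
  [(1,[1,0,1,2]),(2,[1,1,0,2]),(1,[1,1,1,2])],
  [(1,[1,0,1,1]),(2,[1,1,0,1]),(1,[1,1,1,0]),(1,[1,1,1,1])],
  [(1,[0,1,1,0,1]),(2,[1,1,1,0,1]),(2,[1,1,1,1,0])],
  [(1,[1,1,1,0,1]),(1,[1,1,1,1,0]),(1,[1,1,1,1,1])],
  [(1,[1,1,1,1,0]),(2,[1,1,1,1,1])],
  [(1,[1,1,1,1,1])],
  [(1,[0,0,0,0,0,0])],
  [(1,[1,0,0,0,0,0])],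
  [(1,[1,1,0,0,0,0])],
  [(1,[1,1,1,0,0,0])],
  [(1,[1,1,1,1,0,0])],
  [(1,[1,1,1,1,1,0])],
  [(1,[1,1,1,1,1,1])]]

/-- combinations -/
def cc3C : List (List Cb) := [
  [(2,[],1,[])],
  [(2,[],0,[2]),(1,[2],0,[]),(2,[],3,[1]),(2,[0],3,[]),(2,[],2,[2])],
  [(1,[],0,[1]),(2,[2],3,[])],
  [(2,[],2,[0]),(1,[0],2,[]),(2,[],2,[1]),(2,[1],2,[])],
  [(1,[],0,[0,1]),(2,[2],4,[]),(1,[],4,[2]),(1,[],3,[0,2]),(2,[],3,[1,2]),(1,[0],5,[]),(2,[0],3,[2]),(2,[],2,[2,2]),(2,[],2,[1,1]),(2,[],6,[1]),(1,[1,0],0,[]),(2,[1],2,[1]),(1,[1,1],0,[])],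
  [(1,[],5,[2]),(2,[2,0],0,[]),(1,[2],2,[1]),(1,[],3,[0,1]),(1,[0],4,[]),(2,[],2,[1,2]),(2,[],6,[2])],
  [(1,[],6,[0]),(2,[0,1],2,[]),(1,[],6,[1]),(1,[],7,[]),(2,[1,1],2,[])],
  [(1,[],5,[0,1]),(2,[2,0],4,[]),(1,[2],2,[1,2]),(1,[],4,[0,2]),(1,[],4,[1,2]),(1,[],3,[0,1,2]),(1,[0],4,[2]),(2,[],2,[1,2,2]),(2,[0,1],5,[]),(2,[0,1],3,[2]),(1,[0,1,0],0,[]),(2,[0,1],2,[1]),(1,[],6,[1,1]),(2,[0,1,1],0,[]),(2,[1,0],5,[]),(2,[1,0],3,[2]),(2,[1],2,[2,2]),(1,[1],2,[1,1]),(1,[1,1],5,[]),(1,[1,1],3,[2]),(2,[1],9,[])],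
  [(1,[],2,[1,1,1]),(2,[0],7,[]),(1,[],6,[1,1]),(2,[],10,[]),(1,[],7,[1])],
  [(1,[],8,[2]),(2,[1,0,1],0,[]),(1,[1],6,[1]),(2,[],9,[1]),(1,[1,1,0],0,[]),(2,[1,1],2,[1]),(2,[1],9,[]),(2,[1,1,1],0,[]),(2,[],11,[])],
  [(2,[],6,[1,1]),(1,[0],9,[]),(1,[],10,[]),(2,[],7,[0]),(1,[],7,[1]),(1,[],9,[0]),(2,[],9,[1]),(1,[1],9,[]),(2,[1,1,1],2,[]),(1,[],11,[]),(1,[],12,[])],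
  [(1,[],2,[0,0,0,0]),(2,[0,1],2,[0,0]),(1,[0,1,0,1],2,[]),(2,[],6,[1,0,1]),(1,[],6,[1,1,0]),(2,[0,1,1],2,[0]),(1,[0,1,1],6,[]),(1,[0,1],9,[]),(2,[0,1,1,1],2,[]),(1,[],7,[0,1]),(1,[],7,[1,0]),(2,[],7,[1,1]),(1,[1],2,[0,0,0]),(2,[1,0,1],2,[0]),(1,[1],6,[1,0]),(2,[1,0,1,1],2,[]),(2,[],9,[1,0]),(1,[],9,[1,1]),(1,[1,1],2,[0,0]),(2,[1,1,0,1],2,[]),(1,[1],9,[0]),(1,[1,1,1],2,[0]),(2,[1,1],9,[]),(1,[],12,[1]),(2,[],13,[1])],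
  [(1,[1],2,[0,0,0]),(2,[1,0,1],2,[0]),(1,[1],6,[1,0]),(2,[1,0,1,1],2,[]),(1,[],9,[0,1]),(1,[1,1],2,[0,0]),(2,[1,1,0,1],2,[]),(2,[1,1],6,[1]),(2,[1],9,[0]),(2,[1],9,[1]),(1,[1,1,1],2,[0]),(2,[1,1,1],2,[1]),(2,[1,1,1,1],2,[]),(1,[],12,[1]),(2,[],13,[1])],
  [(1,[1,1],2,[0,0]),(2,[1,1,0,1],2,[]),(1,[1,1],6,[1]),(2,[1],9,[0]),(1,[1],9,[1]),(1,[1,1,1],2,[0]),(1,[1,1,1],6,[]),(2,[1,1],9,[]),(2,[1,1,1,1],2,[]),(1,[],12,[1]),(1,[],13,[1])],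
  [(1,[1,1,1],2,[0]),(2,[1,1,1],6,[]),(2,[1,1],9,[]),(1,[1,1,1,1],2,[]),(1,[],12,[1]),(2,[],13,[1])],
  [(1,[1,1,1,1],2,[]),(2,[],12,[1]),(1,[],13,[0]),(2,[],13,[1])],
  [(1,[],13,[0])],
  [(1,[],13,[1])]]

theorem cc3_ok : chk 3 cc3S 3 cc3C = true := by decide +kernel

/-- polynomials -/
def cd3S : List Pl := [
  [(1,[2,2]),(2,[2,3])],
  [(2,[]),(1,[0,1]),(1,[1,1]),(1,[3,3])],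
  [(2,[]),(1,[0,2]),(2,[2,1])],
  [(1,[0,3]),(2,[3,1])],
  [(1,[0,0]),(1,[0,1]),(2,[1,0])],
  [(1,[]),(1,[0,0]),(2,[1,0]),(2,[1,1]),(2,[3,3])],
  [(1,[2,3,2]),(2,[2,3,3])],
  [(1,[2]),(1,[2,1,2]),(2,[2,1,3]),(2,[3])],
  [(1,[0]),(2,[1]),(1,[1,1,1]),(1,[1,3,3]),(2,[3,1,3])],
  [(2,[0]),(1,[1,1,2]),(1,[1,2,1]),(2,[2]),(2,[2,1,1]),(1,[3,3,2])],
  [(1,[1,1,3]),(1,[1,3,1]),(2,[3]),(2,[3,1,1]),(1,[3,3,3])],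
  [(1,[1,3,3]),(2,[3,1,3]),(1,[3,3,0]),(2,[3,3,1])],
  [(1,[2,3,3,2]),(2,[2,3,3,3])],
  [(1,[2,1,3,2]),(2,[2,3,1,3]),(1,[2,3,3,0]),(2,[2,3,3,1]),(1,[3,2]),(2,[3,3])],
  [(1,[2,3,1,2]),(2,[2,3,1,3])],
  [(1,[]),(1,[1,2]),(2,[1,3]),(1,[2,0]),(2,[2,1]),(1,[3,1])],
  [(1,[2,3,0]),(1,[3])],
  [(1,[1,3,0]),(1,[2]),(2,[2,1,1]),(2,[3]),(2,[3,1,0]),(1,[3,1,1]),(2,[3,3,2]),(1,[3,3,3])],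
  [(1,[2,3]),(1,[2,3,3,0])],
  [(1,[1,3,2]),(2,[3,1,3]),(1,[3,2,0]),(2,[3,2,1]),(1,[3,3,0])],
  [(1,[2,3]),(1,[3,2]),(2,[3,3])],
  [(1,[3,3,2]),(2,[3,3,3])],
  [(2,[3]),(1,[3,2,0]),(2,[3,3,0])],
  [(2,[3,2]),(1,[3,3]),(1,[3,3,3,0])],
  [(1,[0]),(1,[1]),(2,[2]),(1,[2,1,0]),(1,[3,1,1]),(1,[3,3,3])],
  [(1,[3,3,3])],
  [(1,[3,2]),(2,[3,3])],
  [(1,[3])],
  [(2,[2]),(1,[2,1,1])],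
  [(2,[]),(1,[1,0]),(1,[1,1])],
  [(1,[0]),(1,[1]),(2,[2])],
  [(2,[]),(1,[2,1])],
  [(1,[1]),(2,[2])],
  [(1,[])]]

/-- combinations -/
def cd3C : List (List Cb) := [
  [(1,[],4,[]),(2,[],1,[])],
  [(2,[],0,[2]),(1,[2],0,[]),(1,[],0,[3])],
  [(2,[],2,[2]),(1,[0],0,[]),(1,[],2,[3])],
  [(1,[],5,[1]),(2,[0],1,[]),(1,[],1,[1]),(1,[],3,[3]),(1,[1],1,[])],
  [(2,[],5,[2]),(1,[0],2,[]),(1,[],2,[1]),(2,[1],2,[])],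
  [(2,[],5,[3]),(1,[0],3,[]),(1,[],3,[1]),(2,[1],3,[])],
  [(1,[],5,[0]),(2,[0],5,[]),(2,[],1,[0]),(2,[],1,[1]),(2,[],3,[3]),(1,[1],5,[]),(2,[],8,[])],
  [(2,[],6,[2]),(1,[2,3],0,[]),(1,[],6,[3])],
  [(2,[],2,[3,2]),(1,[0],6,[]),(1,[],2,[3,3]),(1,[2],11,[])],
  [(2,[],0,[1,2]),(1,[2],7,[]),(1,[],0,[1,3]),(2,[],0,[])],
  [(2,[],2,[1,2]),(1,[0],7,[]),(1,[],2,[1,3]),(2,[2],9,[]),(1,[2],10,[]),(1,[],7,[1]),(2,[],0,[1,1]),(1,[],12,[]),(2,[],2,[]),(1,[],3,[]),(2,[],0,[])],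
  [(2,[],7,[]),(1,[2],15,[]),(2,[],0,[0]),(1,[],0,[1])],
  [(2,[],9,[]),(1,[1],15,[]),(1,[],10,[]),(2,[],15,[0]),(2,[],15,[1]),(1,[2],5,[]),(1,[2],1,[])],
  [(2,[],14,[]),(1,[2,3],15,[]),(2,[],6,[0]),(1,[],6,[1])],
  [(2,[],15,[2]),(1,[1],0,[]),(1,[],15,[3]),(1,[],11,[]),(1,[2],2,[]),(2,[2],3,[]),(2,[2],15,[]),(1,[],0,[0]),(1,[],16,[]),(1,[3],15,[])],
  [(1,[],13,[]),(2,[2],19,[]),(1,[],6,[0]),(2,[],6,[1]),(1,[],18,[])],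
  [(1,[],6,[]),(2,[],20,[2]),(1,[],20,[3]),(1,[3],0,[])],
  [(2,[],16,[]),(1,[],20,[0])],
  [(1,[],18,[]),(2,[],20,[3,0]),(1,[3],20,[0]),(2,[],21,[0]),(2,[],20,[])],
  [(2,[],1,[2]),(1,[0],15,[]),(1,[],1,[3]),(2,[],2,[0]),(1,[],2,[1]),(2,[],3,[1]),(1,[1],15,[]),(2,[],15,[0]),(1,[],15,[1]),(2,[],17,[]),(1,[2],5,[]),(2,[2],1,[]),(2,[],20,[3]),(1,[3],20,[]),(2,[],21,[])],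
  [(2,[],0,[3]),(1,[2],20,[]),(2,[],20,[2]),(1,[3],0,[]),(1,[3],20,[]),(1,[],21,[])],
  [(2,[],23,[]),(1,[],25,[0])],
  [(2,[],22,[]),(1,[],26,[0])],
  [(2,[],17,[]),(1,[1],27,[0]),(2,[],27,[1,0]),(1,[],27,[1,1]),(2,[],27,[3,2]),(1,[],27,[3,3]),(2,[],27,[])],
  [(2,[],1,[1,1]),(1,[0],8,[]),(2,[0,1],27,[3]),(1,[0],27,[1,3]),(1,[],8,[1]),(2,[1],27,[3,1]),(1,[],27,[1,3,1]),(1,[],27,[3,1,1]),(2,[],5,[]),(2,[],27,[3])],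
  [(1,[],24,[]),(2,[2],29,[]),(1,[],28,[]),(2,[],27,[1,1]),(2,[],27,[3,3])],
  [(1,[],1,[]),(2,[],30,[1]),(2,[],27,[3])],
  [(1,[],28,[]),(2,[],31,[1])],
  [(1,[],15,[]),(2,[],32,[2]),(1,[],32,[3]),(2,[2],30,[]),(2,[2],32,[]),(1,[2],27,[]),(2,[],27,[1])]]

theorem cd3_ok : chk 3 cd3S 5 cd3C = true := by decide +kernel

/-- polynomials -/
def ce3S : List Pl := [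
  [(1,[0,1]),(1,[1,1]),(1,[2,2])],
  [(2,[2,4]),(1,[3,3])],
  [(2,[]),(2,[2,3]),(2,[3,4]),(2,[4,2]),(1,[4,4])],
  [(2,[]),(1,[0,2]),(2,[2,1])],
  [(2,[]),(1,[0,3]),(2,[3,1])],
  [(1,[0,4]),(2,[4,1])],
  [(1,[0,0]),(1,[0,1]),(2,[1,0])],
  [(1,[]),(2,[0,2]),(1,[2,1])],
  [(1,[]),(2,[0,3]),(1,[3,1])],
  [(2,[0,4]),(1,[4,1])],
  [(2,[0]),(1,[0,1,2]),(2,[1]),(1,[1,0,2]),(2,[1,1,2]),(1,[2,0,1])],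
  [(1,[0,1,1]),(1,[1,1,1]),(2,[2]),(1,[2,0,2])],
  [(2,[2,4,3]),(1,[3,2,4])],
  [(2,[2,0,4]),(2,[3]),(1,[3,0,3])],
  [(1,[0,1,3]),(1,[0,1,4]),(2,[1,0,4]),(1,[1,1,3]),(1,[2,3,2]),(1,[2,3,4]),(2,[2,4,2]),(2,[3]),(2,[3,2,3]),(2,[4,0,1]),(1,[4,2,3]),(2,[4,2,4]),(1,[4,3,4])],
  [(2,[1]),(1,[2]),(2,[2,0,3]),(2,[3,0,4]),(1,[4]),(2,[4,0,2]),(1,[4,0,4])],
  [(1,[0,1,0]),(2,[0,1,1]),(1,[1,1,0])],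
  [(2,[]),(1,[0,1,1,1]),(2,[0,2]),(1,[1,0,1,1]),(2,[1,1,0,1]),(1,[1,1,1,1]),(1,[1,2]),(1,[2,0])],
  [(2,[0,1]),(2,[1,0]),(1,[1,0,1,2]),(1,[1,1]),(2,[1,1,0,2]),(1,[1,1,1,2])],
  [(1,[0,1,2,3]),(2,[0,1,3,2]),(2,[0,1,3,4]),(1,[0,1,4,2]),(2,[0,2,0,4]),(1,[0,3]),(2,[0,4]),(1,[1,0,2,4]),(1,[1,1,2,3]),(1,[1,1,2,4]),(2,[1,1,3,2]),(2,[1,1,3,4]),(1,[1,1,4,2]),(1,[1,3]),(1,[1,4]),(2,[2,3]),(2,[2,3,2,3]),(2,[2,4,0,1]),(1,[2,4,2,3]),(2,[2,4,2,4]),(1,[2,4,3,2]),(2,[3,0,1,3]),(1,[3,2]),(1,[3,2,3,4])],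
  [(2,[]),(1,[0,1,2,4]),(1,[0,3]),(1,[0,4]),(1,[1,0,2,4]),(2,[1,1,2,4]),(2,[1,4]),(1,[3,0]),(1,[3,0,1,3])],
  [(2,[0,1,2,3]),(1,[0,1,3,2]),(2,[0,1,4,3]),(2,[0,2]),(1,[0,2,0,3]),(1,[0,2,0,4]),(2,[0,4]),(2,[1,0]),(1,[1,0,2,4]),(2,[1,0,3,4]),(2,[1,1]),(2,[1,1,2,3]),(1,[1,1,2,4]),(1,[1,1,3,2]),(2,[1,1,3,4]),(2,[1,1,4,3]),(1,[1,4]),(2,[2,0]),(1,[2,3,0,1]),(1,[2,4,0,1]),(1,[2,4,2,3]),(1,[2,4,2,4]),(1,[2,4,3,2]),(1,[3,0]),(2,[3,2]),(1,[3,2,3,2]),(2,[3,4]),(1,[4,0,1,2]),(2,[4,0,1,4]),(2,[4,2,3,2]),(1,[4,2,3,4]),(1,[4,2,4,2]),(1,[4,3]),(1,[4,3,2,3])],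
  [(1,[]),(2,[0,1]),(1,[0,1,2,3]),(1,[0,3]),(2,[0,4]),(1,[1,0,2,3]),(1,[1,1]),(2,[1,1,2,3]),(2,[1,3]),(2,[2,0]),(2,[3,0,1,4]),(2,[4,0]),(2,[4,0,1,2]),(1,[4,0,1,4])],
  [(2,[]),(2,[0,2]),(1,[1,0,1,1]),(2,[1,1,0,1]),(1,[1,1,1,0]),(1,[1,1,1,1]),(1,[1,2]),(1,[2,0])],
  [(1,[0,1,1,2]),(1,[0,1,2,0]),(1,[1,0]),(1,[1,1]),(1,[1,1,0,2]),(1,[1,1,1,2]),(1,[1,1,2,0])],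
  [(1,[0]),(1,[0,1,1,0,1]),(2,[0,1,2]),(1,[0,2,0]),(2,[1,0,2]),(2,[1,1,1,0,1]),(2,[1,1,1,1,0]),(2,[1,2,0])],
  [(2,[0]),(2,[0,1,2]),(1,[0,2,0]),(2,[1]),(1,[1,0,2]),(1,[1,1,1,0,1]),(1,[1,1,1,1,0]),(1,[1,1,1,1,1]),(1,[1,1,2]),(1,[1,2,0])],
  [(1,[0,1,1]),(1,[0,1,1,0,2]),(2,[1,0,1]),(2,[1,1,0]),(2,[1,1,1,0,2])],
  [(2,[0]),(2,[0,2,0]),(1,[1,1,1,1,0]),(2,[1,1,1,1,1]),(1,[1,1,2]),(1,[1,2,0])],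
  [(2,[0,1,1,3,2]),(1,[0,1,2]),(2,[0,1,3]),(1,[0,1,3,0,2]),(2,[0,3,0]),(1,[0,3,0,1,2]),(2,[1]),(2,[1,0,1,3,2]),(1,[1,0,2]),(1,[1,0,3]),(2,[1,0,3,0,2]),(2,[1,1,0,3,2]),(2,[1,1,2]),(2,[3,0,1])],
  [(2,[0,1,1]),(2,[1,1,0]),(1,[1,1,1]),(1,[1,1,1,1,2])],
  [(2,[0,1,1]),(1,[0,1,1,2,0]),(1,[1,1,0]),(2,[1,1,0,2,0]),(1,[1,1,1,0,2]),(2,[1,1,1,2,0])],
  [(1,[0]),(2,[0,2,0]),(1,[1]),(1,[1,0,2]),(1,[1,1,1,1,1]),(2,[1,2,0])],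
  [(1,[0,1,1]),(1,[1,0,1]),(1,[1,1,0]),(1,[1,1,0,2,0]),(1,[1,1,1,0,2]),(2,[1,1,1,2,0])],
  [(2,[1,0,1]),(2,[1,1,0]),(1,[1,1,1,2,0])],
  [(2,[0,1]),(1,[0,1,1,2]),(1,[1,0,2,0]),(1,[1,1]),(1,[1,1,1,2])],
  [(1,[0,1,1]),(2,[1,0,1]),(1,[1,1,0]),(1,[1,1,1,0,2])],
  [(1,[0]),(1,[0,2,0]),(1,[1]),(2,[1,0,2]),(1,[1,1,2]),(1,[1,2,0])],
  [(1,[0,1,1]),(1,[1,0,1]),(1,[1,1,0])],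
  [(2,[]),(2,[0,2]),(1,[1,1,0,1]),(1,[1,1,1,1]),(1,[1,2]),(1,[2,0])],
  [(1,[0]),(1,[0,1,2]),(1,[1]),(2,[1,0,2]),(1,[1,1,2])],
  [(1,[0,1]),(2,[1,0])],
  [(2,[1]),(2,[1,1,2]),(1,[1,2,0])],
  [(1,[0]),(1,[1]),(1,[1,1,2])],
  [(2,[]),(1,[0,3]),(1,[3,0])],
  [(1,[0,2,4]),(1,[2,0,4])],
  [(2,[]),(1,[0,2]),(2,[0,4]),(2,[1,1]),(1,[1,4]),(1,[2,0]),(1,[4,0])],
  [(1,[0]),(2,[0,2,3]),(1,[0,3,4]),(1,[1]),(2,[1,1,0]),(1,[1,1,1]),(2,[1,1,4]),(1,[1,2,3]),(1,[1,3,4]),(2,[2]),(1,[2,0,3]),(2,[4])],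
  [(1,[0]),(1,[1])],
  [(1,[1,1])],
  [(1,[4])],
  [(1,[]),(1,[2,3])],
  [(2,[2]),(1,[3])],
  [(1,[])]]

/-- combinations -/
def ce3C : List (List Cb) := [
  [(2,[],3,[])],
  [(2,[],4,[])],
  [(2,[],5,[])],
  [(2,[],0,[2]),(1,[2],0,[]),(2,[],7,[1]),(2,[0],7,[]),(2,[],6,[2])],
  [(1,[],0,[1]),(2,[2],7,[])],
  [(1,[],1,[3]),(2,[3],1,[])],
  [(1,[],1,[1]),(2,[3],8,[]),(1,[2],9,[])],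
  [(1,[],2,[4]),(2,[4],2,[]),(2,[],2,[2]),(2,[4],0,[]),(1,[],9,[1]),(1,[3],2,[]),(1,[],1,[4]),(1,[2],2,[]),(1,[],0,[3]),(1,[0],9,[]),(1,[],6,[4])],
  [(1,[],2,[1]),(2,[4],9,[]),(1,[4],7,[]),(1,[3],9,[]),(1,[2],8,[])],
  [(2,[],6,[0]),(1,[0],6,[]),(2,[],6,[1]),(2,[1],6,[])],
  [(1,[],0,[0,1]),(2,[2],10,[]),(1,[],10,[2]),(1,[],7,[0,2]),(2,[],7,[1,2]),(1,[0],11,[]),(2,[0],7,[2]),(2,[],6,[2,2]),(2,[],6,[1,1]),(2,[],16,[1]),(1,[1,0],0,[]),(2,[1],6,[1]),(1,[1,1],0,[]),(2,[],7,[])],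
  [(1,[],11,[2]),(2,[2,0],0,[]),(1,[2],6,[1]),(1,[],7,[0,1]),(1,[0],10,[]),(2,[],6,[1,2]),(2,[],16,[2]),(1,[],0,[]),(1,[],6,[])],
  [(1,[],12,[4]),(2,[3,2],2,[]),(2,[],12,[2]),(2,[3],0,[3]),(1,[],8,[1,3]),(1,[2],14,[]),(1,[],0,[4,2]),(2,[],0,[3,4]),(2,[],0,[3,2]),(2,[],10,[4]),(2,[],10,[3]),(1,[],7,[0,4]),(2,[],7,[1,3]),(1,[0],8,[3]),(2,[0],7,[3]),(1,[],6,[3,3]),(2,[],6,[2,3]),(2,[0,1],1,[]),(1,[1,0],1,[])],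
  [(2,[],13,[1]),(1,[3,0],8,[]),(1,[3],6,[3]),(1,[],8,[0,3]),(2,[2,0],9,[]),(2,[2],6,[4]),(1,[],10,[4]),(2,[],7,[0,4]),(1,[0],13,[]),(2,[],8,[])],
  [(1,[],14,[4]),(2,[4,3],2,[]),(2,[],14,[2]),(2,[4],1,[4]),(1,[],19,[]),(1,[],20,[]),(2,[2,4],0,[]),(1,[2],9,[1]),(2,[2,3],2,[]),(2,[2],1,[4]),(2,[2],12,[]),(1,[2,3],0,[]),(2,[2],8,[1]),(2,[],0,[4,4]),(2,[],0,[4,3]),(1,[2,0],9,[]),(2,[2,0],8,[]),(1,[2],6,[4]),(2,[2],6,[3]),(2,[],10,[4]),(1,[],10,[3]),(1,[],7,[0,4]),(2,[],7,[0,3]),(1,[1,0],2,[]),(1,[1,1],2,[]),(1,[],7,[])],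
  [(2,[],2,[3,4]),(1,[4],14,[]),(1,[],2,[2,4]),(2,[],2,[2,3]),(1,[],2,[0,1]),(1,[],21,[]),(1,[4],0,[4]),(2,[4],0,[3]),(1,[4],10,[]),(1,[],9,[0,4]),(2,[],9,[0,2]),(2,[],9,[1,4]),(1,[],9,[1,2]),(2,[3],14,[]),(2,[],1,[2,3]),(2,[],12,[2]),(1,[],19,[]),(2,[],20,[]),(2,[],8,[0,4]),(1,[],8,[1,3]),(2,[2],1,[4]),(1,[2],12,[]),(2,[],0,[4,4]),(1,[],0,[4,3]),(1,[0],15,[]),(2,[0],9,[4]),(1,[0],9,[2]),(1,[0],8,[3]),(2,[],6,[4,4]),(1,[],6,[4,2]),(1,[],6,[3,3]),(2,[0,1],2,[]),(2,[0,1],1,[]),(2,[1,0],2,[]),(1,[1,0],1,[]),(1,[1,1],2,[]),(1,[],9,[]),(2,[],1,[])],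
  [(1,[],16,[0]),(2,[0,1],6,[]),(1,[],16,[1]),(1,[],17,[]),(2,[1,1],6,[])],
  [(2,[],10,[0]),(1,[2],16,[]),(1,[],10,[1]),(2,[],7,[1,0]),(2,[0],7,[0]),(2,[],6,[2,0]),(2,[0,1],7,[]),(2,[],16,[2]),(2,[1,0],7,[]),(2,[1],6,[2]),(1,[],18,[]),(1,[1,1],7,[])],
  [(1,[],11,[0,1]),(2,[2,0],10,[]),(1,[2],6,[1,2]),(1,[],10,[0,2]),(1,[],10,[1,2]),(1,[],7,[0,1,2]),(1,[0],10,[2]),(2,[],6,[1,2,2]),(2,[0,1],11,[]),(2,[0,1],7,[2]),(1,[0,1,0],0,[]),(2,[0,1],6,[1]),(1,[],16,[1,1]),(2,[0,1,1],0,[]),(2,[1,0],11,[]),(2,[1,0],7,[2]),(2,[1],6,[2,2]),(1,[1],6,[1,1]),(1,[1,1],11,[]),(1,[1,1],7,[2]),(2,[1],23,[]),(2,[2],6,[]),(1,[],10,[]),(2,[],7,[0]),(2,[],6,[2])],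
  [(1,[],6,[1,1,1]),(2,[0],17,[]),(1,[],16,[1,1]),(2,[],25,[]),(1,[],17,[1]),(2,[],10,[]),(1,[0],7,[]),(2,[1],7,[])],
  [(2,[],10,[1,1]),(1,[2],17,[]),(2,[],7,[0,1,1]),(1,[],7,[1,0,1]),(2,[],7,[1,1,1]),(2,[0],10,[1]),(1,[0],7,[0,1]),(2,[0],7,[1,1]),(1,[],6,[2,0,1]),(2,[],6,[2,1,1]),(1,[],6,[1,2,1]),(2,[0,1],10,[]),(2,[0,1],7,[1]),(1,[],16,[1,2]),(1,[0,1,1],7,[]),(1,[1,0],10,[]),(2,[1],6,[1,2]),(1,[1,0,1],7,[]),(2,[],23,[2]),(2,[1,1],7,[1]),(2,[1,1,0],7,[]),(2,[1,1],6,[2]),(1,[1],18,[]),(2,[],0,[0]),(2,[],11,[]),(2,[],7,[2]),(1,[0],0,[]),(1,[1],0,[]),(1,[1],6,[])],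
  [(1,[],18,[2]),(2,[1,0,1],0,[]),(1,[1],16,[1]),(2,[],23,[1]),(1,[1,1,0],0,[]),(2,[1,1],6,[1]),(2,[1],23,[]),(2,[1,1,1],0,[]),(2,[],26,[]),(1,[],10,[]),(2,[0],7,[]),(2,[],6,[2]),(1,[1],7,[])],
  [(2,[],8,[0,1,2]),(1,[3],18,[]),(1,[],8,[1,0,2]),(2,[],8,[1,1,2]),(1,[0],8,[0,2]),(2,[0],8,[1,2]),(1,[],6,[3,0,2]),(2,[],6,[3,1,2]),(1,[0,1],8,[2]),(1,[],16,[3,2]),(2,[1,0],8,[2]),(2,[1],6,[3,2]),(1,[],8,[0]),(2,[],8,[1]),(2,[0],8,[]),(2,[],6,[3]),(2,[],6,[2])],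
  [(2,[],16,[1,2]),(1,[0],18,[]),(1,[],27,[]),(1,[],17,[2]),(2,[],23,[2]),(1,[1],18,[]),(1,[],6,[1]),(1,[],16,[])],
  [(1,[],7,[0,1,1]),(2,[2],23,[]),(2,[],7,[1,0,1]),(1,[],7,[1,1,0]),(1,[],7,[1,1,1]),(1,[0],10,[1]),(2,[0],7,[0,1]),(1,[0],7,[1,0]),(1,[0],7,[1,1]),(2,[],6,[2,0,1]),(1,[],6,[2,1,0]),(1,[],6,[2,1,1]),(2,[],6,[1,2,1]),(1,[0,1],10,[]),(2,[0,1],7,[0]),(2,[0,1],7,[1]),(2,[],16,[2,0]),(1,[0,1,0],7,[]),(1,[0,1],6,[2]),(1,[],16,[1,2]),(2,[0,1,1],7,[]),(2,[],27,[]),(2,[],17,[2]),(2,[1,0],10,[]),(1,[1,0],7,[0]),(1,[1,0],7,[1]),(1,[1],6,[2,0]),(1,[1],6,[2,1]),(1,[1],6,[1,2]),(2,[],18,[0]),(1,[1,0,1],7,[]),(2,[1],16,[2]),(1,[],23,[2]),(1,[1,1,0],7,[]),(1,[1,1],6,[2]),(2,[1],18,[]),(1,[],30,[]),(1,[],0,[0]),(2,[],11,[]),(1,[],7,[2]),(1,[0],0,[]),(1,[],6,[1]),(1,[],16,[])],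
  [(2,[],16,[1,1]),(1,[0],23,[]),(1,[],25,[]),(2,[],17,[0]),(1,[],17,[1]),(1,[],23,[0]),(2,[],23,[1]),(1,[1],23,[]),(2,[1,1,1],6,[]),(1,[],26,[]),(1,[],28,[]),(1,[],6,[2])],
  [(2,[],6,[1,2,0]),(1,[0],24,[]),(2,[],6,[1,1,2]),(2,[],27,[]),(2,[],18,[0]),(2,[],23,[2]),(2,[1],18,[]),(2,[],30,[]),(1,[],11,[]),(2,[0],0,[]),(1,[],6,[1]),(1,[],16,[]),(1,[1],0,[]),(2,[1],6,[])],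
  [(2,[],18,[0]),(1,[1],24,[]),(2,[],23,[2]),(2,[],33,[]),(2,[1],18,[]),(1,[],30,[]),(1,[],11,[]),(2,[0],0,[]),(1,[],6,[1]),(2,[],16,[]),(1,[1],0,[]),(2,[1],6,[])],
  [(1,[],16,[1,1,1]),(2,[0,1],17,[]),(1,[0,1],23,[]),(2,[],17,[1,0]),(1,[],17,[1,1]),(1,[],23,[1,0]),(2,[],23,[1,1]),(2,[1],23,[1]),(2,[1,1,1],16,[]),(2,[1,1],23,[]),(2,[],32,[0]),(2,[],32,[1]),(2,[0,2],6,[]),(2,[0],7,[0]),(2,[],6,[2,0]),(1,[],24,[]),(2,[1,2],6,[]),(1,[1],10,[]),(2,[1],7,[0]),(2,[],18,[]),(1,[1,1],7,[]),(2,[],6,[])],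
  [(2,[],31,[]),(1,[],35,[0]),(2,[1,0,2],6,[]),(1,[1,0],10,[]),(2,[1,0],7,[0]),(2,[1],6,[2,0]),(2,[1],6,[1,2]),(1,[],18,[0]),(2,[1],16,[2]),(1,[],23,[2]),(2,[],33,[]),(2,[],34,[]),(2,[],30,[]),(2,[],11,[]),(1,[0],0,[]),(2,[],6,[1]),(2,[],16,[]),(2,[1],0,[])],
  [(2,[],35,[2]),(1,[0,1,1],0,[]),(2,[],25,[]),(2,[],17,[1]),(1,[1,0],11,[]),(2,[1],6,[1,1]),(1,[],23,[1]),(2,[1],23,[]),(1,[1,1,1],0,[]),(2,[],26,[]),(1,[],28,[]),(2,[],32,[])],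
  [(1,[],33,[]),(2,[1,1],37,[]),(2,[],34,[]),(1,[],36,[]),(1,[],30,[])],
  [(1,[],17,[]),(2,[],38,[1])],
  [(2,[],25,[]),(1,[],38,[0,1]),(2,[1],16,[1]),(2,[1],38,[1]),(2,[1,1],6,[1]),(2,[1,1],38,[]),(1,[1],39,[]),(2,[],32,[])],
  [(2,[],18,[]),(1,[1],40,[])],
  [(2,[],10,[]),(1,[2],41,[]),(1,[],7,[0]),(1,[],37,[]),(1,[],41,[2])],
  [(1,[],40,[]),(2,[],41,[2])],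
  [(1,[],20,[]),(2,[3],41,[3]),(2,[],8,[0,3]),(2,[0],13,[]),(2,[],37,[4]),(2,[],41,[2,4]),(1,[],42,[4])],
  [(2,[],13,[]),(1,[],44,[3]),(2,[0],1,[])],
  [(2,[],22,[]),(1,[4],41,[4]),(2,[4],41,[2]),(1,[],9,[0,4]),(2,[],9,[0,2]),(2,[],44,[1,4]),(1,[0],15,[]),(1,[0],44,[4]),(1,[0],8,[4]),(1,[],37,[3]),(1,[],41,[2,3]),(2,[],42,[3])],
  [(2,[],15,[]),(1,[],46,[4]),(2,[],46,[2]),(2,[],44,[4]),(2,[],45,[]),(1,[],11,[]),(1,[0],2,[]),(1,[0],0,[]),(2,[],6,[1]),(2,[],41,[1]),(2,[1],2,[]),(1,[1],41,[]),(2,[],43,[])],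
  [(2,[],29,[]),(1,[0],44,[1,2]),(2,[],6,[3,1,2]),(1,[],41,[3,0,2]),(1,[],41,[3,1,2]),(2,[],41,[1,3,2]),(1,[1],41,[3,2]),(2,[],44,[1]),(2,[0],44,[]),(1,[0],8,[]),(2,[],6,[3]),(2,[],41,[2]),(2,[],43,[])],
  [(1,[],6,[]),(2,[],48,[0]),(2,[],48,[1]),(2,[1],48,[])],
  [(1,[],45,[]),(2,[2],48,[4]),(1,[],7,[4])],
  [(2,[],2,[]),(1,[],50,[4]),(2,[],50,[2]),(2,[3],50,[])],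
  [(1,[],47,[]),(2,[2],48,[3]),(1,[],7,[3]),(2,[],48,[3,4]),(2,[],48,[2,3]),(1,[1,1],50,[]),(1,[1,1],48,[]),(1,[],49,[1]),(1,[],50,[]),(2,[],48,[])],
  [(1,[],51,[]),(2,[2],52,[]),(2,[],0,[]),(1,[],48,[1])]]

theorem ce3_ok : chk 3 ce3S 7 ce3C = true := by decide +kernel

end Pool.Agent.Lib.MP_f6e06e_al
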