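import Pool.Agent.Lib.MP_f6e06e_al.Check

/-!
Certificates over `ZMod 2` (machine generated, checked by the kernel).
-/

namespace Pool.Agent.Lib.MP_f6e06e_al

/-- polynomials -/
def ca2S : List Pl := [
  [(1,[0,0]),(1,[0,1])],
  [(1,[1,1])],
  [(1,[0,1,0])]]

/-- combinations -/
def ca2C : List (List Cb) := [
  [(1,[],0,[0]),(1,[0],0,[]),(1,[],0,[1]),(1,[0],1,[])]]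

theorem ca2_ok : chk 2 ca2S 2 ca2C = true := by decide +kernel

/-- levels -/
def ca2L : List (List Wd × List (Pl × List Cb)) := [
  ([[0],[1]],
    []),
  ([[1,0],[0,1]],
    [([(1,[0,0]),(1,[0,1])],[(1,[],0,[])]),
    ([(1,[1,1])],[(1,[],1,[])])]),
  ([[1,0,1]],
    [([(1,[0,1,0])],[(1,[],2,[])]),
    ([(1,[1,1,0])],[(1,[],1,[0])]),
    ([(1,[0,0,1])],[(1,[],0,[1]),(1,[0],1,[])])]),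
  ([],
    [([(1,[0,1,0,1])],[(1,[],2,[1])]),
    ([(1,[1,1,0,1])],[(1,[],1,[0,1])])])]

theorem ca2_lv : nilChk 2 ca2S 2 [[]] ca2L = true := by decide +kernel

/-- polynomials -/
def cb2S : List Pl := [
  [(1,[0,0])],
  [(1,[0,2]),(1,[1,1])],
  [(1,[0,1]),(1,[1,2]),(1,[2,0]),(1,[2,2])],
  [(1,[0,1,1])],
  [(1,[0,1,2]),(1,[1,1,0]),(1,[1,1,2])],
  [(1,[0,1,0]),(1,[1,0,1]),(1,[1,1,0]),(1,[2,0,1]),(1,[2,1,1]),(1,[2,1,2])],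
  [(1,[0,1,0,1]),(1,[1,1,0,1]),(1,[1,1,1,1]),(1,[1,1,1,2])],
  [(1,[1,1,1,1]),(1,[1,1,1,2]),(1,[2,1,1,1]),(1,[2,1,2,1])],
  [(1,[1,1,1,0]),(1,[1,1,1,1]),(1,[1,1,1,2]),(1,[2,1,0,1]),(1,[2,1,1,0]),(1,[2,1,1,2]),(1,[2,1,2,0])],
  [(1,[1,1,1,0,1]),(1,[1,1,1,1,0]),(1,[1,1,1,1,2]),(1,[1,1,1,2,0])],
  [(1,[1,1,1,1,1]),(1,[1,1,1,2,1])],
  [(1,[1,1,1,0,1]),(1,[1,1,1,1,0]),(1,[1,1,1,1,1]),(1,[2,1,0,1,0]),(1,[2,1,1,0,1]),(1,[2,1,1,1,0])],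
  [(1,[1,1,1,1,0]),(1,[1,1,1,1,1]),(1,[1,1,1,1,2]),(1,[2,1,1,0,1]),(1,[2,1,1,1,0]),(1,[2,1,1,2,0])],
  [(1,[1,1,1,1,1]),(1,[1,1,1,1,2]),(1,[2,1,1,0,1]),(1,[2,1,1,1,1]),(1,[2,1,1,1,2]),(1,[2,1,1,2,1])],
  [(1,[1,1,1,0,1,0]),(1,[1,1,1,1,0,1]),(1,[1,1,1,1,1,0])],
  [(1,[1,1,1,1,0,1]),(1,[1,1,1,1,1,2])],
  [(1,[1,1,1,1,1,1]),(1,[1,1,1,1,1,2]),(1,[2,1,1,1,1,1]),(1,[2,1,1,1,1,2])],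
  [(1,[1,1,1,1,1,2])],
  [(1,[1,1,1,1,1,0]),(1,[2,1,1,1,1,0])],
  [(1,[2,1,1,0,1,0])],
  [(1,[1,1,1,1,1,1,1])],
  [(1,[1,1,1,1,1,1,0])],
  [(1,[2,1,1,1,1,1,0])],
  [(1,[2,1,1,1,1,1,1])]]

/-- combinations -/
def cb2C : List (List Cb) := [
  [(1,[],0,[2]),(1,[0],1,[])],
  [(1,[],1,[2]),(1,[0],2,[]),(1,[],1,[0]),(1,[],0,[1])],
  [(1,[],2,[2]),(1,[2],2,[]),(1,[],2,[0]),(1,[2],1,[]),(1,[2],0,[]),(1,[],4,[]),(1,[1],2,[])],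
  [(1,[],4,[2]),(1,[0,1],2,[]),(1,[],4,[0]),(1,[],3,[2]),(1,[1,1],2,[]),(1,[1,1],1,[]),(1,[1,1],0,[])],
  [(1,[],2,[0,1]),(1,[2],5,[]),(1,[],2,[1,2]),(1,[],2,[1,1]),(1,[2],0,[1]),(1,[],5,[2]),(1,[],5,[0]),(1,[],5,[1]),(1,[2,1],2,[]),(1,[0,1],1,[]),(1,[0,1],0,[]),(1,[],3,[2]),(1,[1],5,[]),(1,[1],4,[]),(1,[1],3,[]),(1,[1,1],1,[]),(1,[1,1],0,[])],
  [(1,[],5,[2]),(1,[2],4,[]),(1,[2,1],2,[]),(1,[0,1],1,[]),(1,[],3,[1]),(1,[1],4,[]),(1,[1,1],1,[])],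
  [(1,[],4,[0,1]),(1,[0,1],5,[]),(1,[],4,[1,2]),(1,[],4,[1,1]),(1,[],6,[0]),(1,[],3,[0,1]),(1,[],3,[1,0]),(1,[1,1],5,[]),(1,[1,1],0,[1]),(1,[1,1],4,[]),(1,[1,1],3,[])],
  [(1,[],6,[1]),(1,[0,1],3,[]),(1,[1,1],3,[])],
  [(1,[],5,[0,1]),(1,[2],6,[]),(1,[2,1],5,[]),(1,[],7,[2]),(1,[],7,[1]),(1,[0,1],0,[1]),(1,[1],6,[]),(1,[1,1],0,[1]),(1,[1,1,1],2,[]),(1,[],9,[]),(1,[],10,[])],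
  [(1,[],8,[0]),(1,[2,1,2],0,[]),(1,[],11,[]),(1,[2,1,1],0,[]),(1,[],9,[]),(1,[1,1,1],0,[])],
  [(1,[],8,[1]),(1,[2,1],5,[]),(1,[],7,[2]),(1,[],7,[1]),(1,[],11,[]),(1,[2,1],3,[]),(1,[1,1,1],2,[]),(1,[],9,[])],
  [(1,[],6,[0,1]),(1,[0,1],6,[]),(1,[],3,[1,0,1]),(1,[],3,[1,1,2]),(1,[],3,[1,1,1]),(1,[1,1],6,[]),(1,[1,1,1],5,[]),(1,[],10,[2]),(1,[],10,[1])],
  [(1,[],4,[1,2,1]),(1,[0,1],7,[]),(1,[],4,[1,1,1]),(1,[],3,[1,1,2]),(1,[],3,[1,1,1]),(1,[1,1],7,[]),(1,[1,1],4,[1]),(1,[1,1],3,[1]),(1,[1],10,[])],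
  [(1,[],7,[2,1]),(1,[2,1],7,[]),(1,[],7,[1,1]),(1,[2],10,[]),(1,[1,1,1],2,[1]),(1,[1,1,1],5,[]),(1,[],10,[2]),(1,[],14,[]),(1,[1,1,1],3,[])],
  [(1,[],4,[1,2,0]),(1,[0,1],8,[]),(1,[],4,[1,0,1]),(1,[],4,[1,1,2]),(1,[],4,[1,1,0]),(1,[],3,[1,1,2]),(1,[],3,[1,1,0]),(1,[],3,[1,1,1]),(1,[1,1],8,[]),(1,[1,1],4,[0]),(1,[1,1],6,[]),(1,[1,1],3,[2]),(1,[1,1],3,[0]),(1,[1],9,[]),(1,[1,1,1,1],0,[])],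
  [(1,[],7,[2,0]),(1,[2,1],8,[]),(1,[],7,[0,1]),(1,[],7,[1,2]),(1,[],7,[1,0]),(1,[2],9,[]),(1,[],16,[]),(1,[1,1,1],2,[0]),(1,[1,1,1,2],0,[]),(1,[1,1,1],5,[]),(1,[],10,[0]),(1,[],10,[1])],
  [(1,[],11,[0]),(1,[2,1,0,1],0,[]),(1,[2,1,1,1],0,[]),(1,[],14,[]),(1,[1,1,1,1],0,[]),(1,[],15,[]),(1,[],17,[])],
  [(1,[],9,[1,1]),(1,[1,1,1,2],3,[]),(1,[1,1,1],3,[1]),(1,[1],10,[1]),(1,[1,1,1,1],3,[])],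
  [(1,[],5,[1,1,2,0]),(1,[2,0],9,[]),(1,[],5,[1,1,0,1]),(1,[],5,[1,1,1,2]),(1,[],5,[1,1,1,0]),(1,[],7,[1,2,0]),(1,[],7,[1,0,1]),(1,[],7,[1,1,2]),(1,[],7,[1,1,0]),(1,[0,1],3,[2,0]),(1,[0,1],3,[0,1]),(1,[0,1],3,[1,2]),(1,[0,1],3,[1,0]),(1,[1],3,[1,2,0]),(1,[1],3,[1,0,1]),(1,[1],3,[1,1,2]),(1,[1],3,[1,1,0]),(1,[1,1],3,[2,0]),(1,[1,1],3,[0,1]),(1,[1,1],3,[1,2]),(1,[1,1],3,[1,0]),(1,[1,1,1],8,[]),(1,[1,1],9,[]),(1,[1],17,[]),(1,[],20,[])],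
  [(1,[],11,[1,2]),(1,[2,1,0,1],4,[]),(1,[2,1],3,[1,2]),(1,[2,1],3,[1,0]),(1,[2,1,1],3,[2]),(1,[2,1,1,1],4,[]),(1,[2],17,[]),(1,[1,1,1],3,[2]),(1,[1,1,1,1],4,[]),(1,[],21,[])],
  [(1,[],7,[0,1,0]),(1,[2,1],11,[]),(1,[],7,[1,0,1]),(1,[],7,[1,1,0]),(1,[2],14,[]),(1,[],18,[1]),(1,[],22,[]),(1,[1,1,1],5,[0]),(1,[1,1,1],8,[]),(1,[],10,[1,2]),(1,[],10,[1,0]),(1,[1,1,1,0,1],0,[]),(1,[1,1,1,1,1],0,[]),(1,[],21,[]),(1,[],20,[])]]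

theorem cb2_ok : chk 2 cb2S 3 cb2C = true := by decide +kernel

/-- levels -/
def cb2L : List (List Wd × List (Pl × List Cb)) := [
  ([[0],[1],[2]],
    []),
  ([[1,0],[2,0],[0,1],[1,1],[2,1],[1,2]],
    [([(1,[0,0])],[(1,[],0,[])]),
    ([(1,[0,2]),(1,[1,1])],[(1,[],1,[])]),
    ([(1,[2,2]),(1,[2,0]),(1,[0,1]),(1,[1,2])],[(1,[],2,[])])]),
  ([[0,1,0],[1,1,0],[2,1,0],[1,2,0],[1,0,1],[1,1,1],[2,1,1],[1,2,1],[1,1,2],[2,1,2]],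
    [([(1,[0,2,0]),(1,[1,1,0])],[(1,[],1,[0])]),
    ([(1,[2,2,0]),(1,[0,1,0]),(1,[1,2,0])],[(1,[],2,[0]),(1,[2],0,[])]),
    ([(1,[0,0,1])],[(1,[],0,[1])]),
    ([(1,[2,0,1]),(1,[2,1,2]),(1,[2,1,1]),(1,[0,1,0]),(1,[1,0,1]),(1,[1,1,0])],[(1,[],5,[])]),
    ([(1,[0,1,1])],[(1,[],3,[])]),
    ([(1,[0,2,1]),(1,[1,1,1])],[(1,[],1,[1])]),
    ([(1,[2,2,1]),(1,[2,1,2]),(1,[2,1,1]),(1,[0,1,0]),(1,[1,2,1]),(1,[1,0,1]),(1,[1,1,0])],[(1,[],2,[1]),(1,[],5,[]),(1,[],3,[])]),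
    ([(1,[0,1,2]),(1,[1,1,2]),(1,[1,1,0])],[(1,[],4,[])])]),
  ([[1,0,1,0],[1,1,1,0],[2,1,1,0],[1,2,1,0],[1,1,2,0],[1,1,0,1],[2,1,0,1],[1,1,1,1],[2,1,1,1],[1,2,1,1],[1,1,2,1],[1,1,1,2],[2,1,1,2],[1,2,1,2]],
    [([(1,[0,0,1,0])],[(1,[],0,[1,0])]),
    ([(1,[2,0,1,0]),(1,[2,1,0,1]),(1,[2,1,1,2]),(1,[1,0,1,0]),(1,[1,1,1,2]),(1,[1,1,1,0]),(1,[1,1,1,1])],[(1,[],5,[0]),(1,[],8,[]),(1,[0,1],0,[]),(1,[1,1],0,[])]),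
    ([(1,[0,1,1,0])],[(1,[],3,[0])]),
    ([(1,[0,2,1,0]),(1,[1,1,1,0])],[(1,[],1,[1,0])]),
    ([(1,[2,2,1,0]),(1,[2,1,0,1]),(1,[2,1,1,2]),(1,[1,2,1,0]),(1,[1,0,1,0]),(1,[1,1,1,2]),(1,[1,1,1,0]),(1,[1,1,1,1])],[(1,[],2,[1,0]),(1,[],5,[0]),(1,[],8,[]),(1,[0,1],0,[]),(1,[],3,[0]),(1,[1,1],0,[])]),
    ([(1,[0,1,2,0]),(1,[1,1,2,0])],[(1,[],4,[0]),(1,[1,1],0,[])]),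
    ([(1,[2,1,2,0]),(1,[2,1,0,1]),(1,[2,1,1,2]),(1,[2,1,1,0]),(1,[1,1,1,2]),(1,[1,1,1,0]),(1,[1,1,1,1])],[(1,[],8,[])]),
    ([(1,[0,1,0,1]),(1,[1,1,0,1]),(1,[1,1,1,2]),(1,[1,1,1,1])],[(1,[],6,[])]),
    ([(1,[0,1,1,1])],[(1,[],3,[1])]),
    ([(1,[0,2,1,1]),(1,[1,1,1,1])],[(1,[],1,[1,1])]),
    ([(1,[2,2,1,1]),(1,[1,2,1,1])],[(1,[],2,[1,1]),(1,[],5,[1]),(1,[],7,[]),(1,[],6,[]),(1,[],3,[1]),(1,[1],3,[])]),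
    ([(1,[0,1,2,1]),(1,[1,1,2,1]),(1,[1,1,0,1])],[(1,[],4,[1])]),
    ([(1,[2,1,2,1]),(1,[2,1,1,1]),(1,[1,1,1,2]),(1,[1,1,1,1])],[(1,[],7,[])]),
    ([(1,[0,1,1,2])],[(1,[],3,[2])]),
    ([(1,[0,2,1,2]),(1,[1,1,1,2])],[(1,[],1,[1,2])]),
    ([(1,[2,2,1,2]),(1,[2,1,1,2]),(1,[2,1,1,0]),(1,[1,2,1,2])],[(1,[],2,[1,2]),(1,[],5,[2]),(1,[2,1],2,[]),(1,[],8,[]),(1,[0,1],1,[]),(1,[],3,[2]),(1,[],3,[1]),(1,[1],4,[]),(1,[1,1],1,[])])]),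
  ([[1,1,0,1,0],[1,1,1,1,0],[2,1,1,1,0],[1,2,1,1,0],[1,1,2,1,0],[1,1,1,0,1],[2,1,1,0,1],[1,2,1,0,1],[1,1,1,1,1],[2,1,1,1,1],[1,2,1,1,1],[1,1,2,1,1],[1,1,1,1,2],[2,1,1,1,2],[1,2,1,1,2],[1,1,2,1,2]],
    [([(1,[0,1,0,1,0]),(1,[1,1,0,1,0]),(1,[1,1,1,0,1]),(1,[1,1,1,1,2])],[(1,[],6,[0]),(1,[],9,[])]),
    ([(1,[2,1,0,1,0]),(1,[2,1,1,0,1]),(1,[2,1,1,1,0]),(1,[1,1,1,0,1]),(1,[1,1,1,1,0]),(1,[1,1,1,1,1])],[(1,[],11,[])]),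
    ([(1,[0,1,1,1,0])],[(1,[],3,[1,0])]),
    ([(1,[0,2,1,1,0]),(1,[1,1,1,1,0])],[(1,[],1,[1,1,0])]),
    ([(1,[2,2,1,1,0]),(1,[1,2,1,1,0])],[(1,[],2,[1,1,0]),(1,[],5,[1,0]),(1,[],7,[0]),(1,[],6,[0]),(1,[],3,[1,0]),(1,[1],3,[0])]),
    ([(1,[0,1,2,1,0]),(1,[1,1,2,1,0]),(1,[1,1,0,1,0])],[(1,[],4,[1,0])]),
    ([(1,[2,1,2,1,0]),(1,[2,1,1,1,0]),(1,[1,1,1,0,1]),(1,[1,1,1,1,2])],[(1,[],7,[0]),(1,[],9,[])]),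
    ([(1,[0,1,1,2,0])],[(1,[],3,[2,0])]),
    ([(1,[1,1,1,2,0]),(1,[1,1,1,0,1]),(1,[1,1,1,1,2]),(1,[1,1,1,1,0])],[(1,[],9,[])]),
    ([(1,[2,1,1,2,0]),(1,[2,1,1,0,1]),(1,[2,1,1,1,0]),(1,[1,1,1,1,2]),(1,[1,1,1,1,0]),(1,[1,1,1,1,1])],[(1,[],12,[])]),
    ([(1,[0,1,1,0,1])],[(1,[],3,[0,1])]),
    ([(1,[0,2,1,0,1]),(1,[1,1,1,0,1])],[(1,[],1,[1,0,1])]),
    ([(1,[2,2,1,0,1]),(1,[2,1,1,0,1]),(1,[2,1,1,1,2]),(1,[2,1,1,1,1]),(1,[1,2,1,0,1])],[(1,[],2,[1,0,1]),(1,[],5,[0,1]),(1,[2,1],5,[]),(1,[],7,[2]),(1,[],7,[1]),(1,[],11,[]),(1,[0,1],0,[1]),(1,[],3,[0,1]),(1,[1],6,[]),(1,[1,1],0,[1]),(1,[1,1,1],2,[]),(1,[],9,[]),(1,[],10,[])]),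
    ([(1,[0,1,1,1,1])],[(1,[],3,[1,1])]),
    ([(1,[0,2,1,1,1]),(1,[1,1,1,1,1])],[(1,[],1,[1,1,1])]),
    ([(1,[2,2,1,1,1]),(1,[1,2,1,1,1])],[(1,[],2,[1,1,1]),(1,[],5,[1,1]),(1,[],7,[1]),(1,[0,1],3,[]),(1,[],3,[1,1]),(1,[1],3,[1]),(1,[1,1],3,[]),(1,[],10,[])]),
    ([(1,[0,1,2,1,1]),(1,[1,1,2,1,1])],[(1,[],4,[1,1]),(1,[1,1],3,[])]),
    ([(1,[2,1,2,1,1]),(1,[2,1,1,1,1])],[(1,[],7,[1]),(1,[],10,[])]),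
    ([(1,[0,1,1,2,1])],[(1,[],3,[2,1])]),
    ([(1,[1,1,1,2,1]),(1,[1,1,1,1,1])],[(1,[],10,[])]),
    ([(1,[2,1,1,2,1]),(1,[2,1,1,0,1]),(1,[2,1,1,1,2]),(1,[2,1,1,1,1]),(1,[1,1,1,1,2]),(1,[1,1,1,1,1])],[(1,[],13,[])]),
    ([(1,[0,1,1,1,2])],[(1,[],3,[1,2])]),
    ([(1,[0,2,1,1,2]),(1,[1,1,1,1,2])],[(1,[],1,[1,1,2])]),
    ([(1,[2,2,1,1,2]),(1,[1,2,1,1,2])],[(1,[],2,[1,1,2]),(1,[],5,[1,2]),(1,[],7,[2]),(1,[0,1],4,[]),(1,[],3,[1,0]),(1,[1],3,[2]),(1,[1,1],4,[]),(1,[1,1,1],2,[]),(1,[],9,[])]),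
    ([(1,[0,1,2,1,2]),(1,[1,1,2,1,2]),(1,[1,1,1,1,2]),(1,[1,1,1,1,0])],[(1,[],4,[1,2]),(1,[1,1],4,[])]),
    ([(1,[2,1,2,1,2]),(1,[2,1,1,1,2]),(1,[1,1,1,1,2]),(1,[1,1,1,1,0])],[(1,[],7,[2]),(1,[1,1,1],2,[]),(1,[],9,[])])]),
  ([[1,1,1,1,1,0],[1,2,1,1,1,0],[1,1,2,1,1,0],[2,1,1,1,0,1],[1,2,1,1,0,1],[1,1,2,1,0,1],[1,1,1,1,1,1],[2,1,1,1,1,1],[1,2,1,1,1,1],[1,1,2,1,1,1],[1,2,1,1,1,2],[1,1,2,1,1,2]],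
    [([(1,[0,1,1,0,1,0])],[(1,[],3,[0,1,0])]),
    ([(1,[1,1,1,0,1,0]),(1,[1,1,1,1,1,0])],[(1,[],14,[]),(1,[],15,[]),(1,[],17,[])]),
    ([(1,[2,1,1,0,1,0])],[(1,[],19,[])]),
    ([(1,[0,1,1,1,1,0])],[(1,[],3,[1,1,0])]),
    ([(1,[2,1,1,1,1,0]),(1,[1,1,1,1,1,0])],[(1,[],18,[])]),
    ([(1,[0,2,1,1,1,0]),(1,[1,1,1,1,1,0])],[(1,[],1,[1,1,1,0])]),
    ([(1,[2,2,1,1,1,0]),(1,[1,2,1,1,1,0])],[(1,[],2,[1,1,1,0]),(1,[],5,[1,1,0]),(1,[],7,[1,0]),(1,[0,1],3,[0]),(1,[],3,[1,1,0]),(1,[1],3,[1,0]),(1,[1,1],3,[0]),(1,[],10,[0])]),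
    ([(1,[0,1,2,1,1,0]),(1,[1,1,2,1,1,0])],[(1,[],4,[1,1,0]),(1,[1,1],3,[0])]),
    ([(1,[2,1,2,1,1,0]),(1,[1,1,1,1,1,0])],[(1,[],7,[1,0]),(1,[],18,[]),(1,[],10,[0])]),
    ([(1,[0,1,1,2,1,0])],[(1,[],3,[2,1,0])]),
    ([(1,[1,1,1,2,1,0]),(1,[1,1,1,1,1,0])],[(1,[],10,[0])]),
    ([(1,[2,1,1,2,1,0]),(1,[2,1,1,1,0,1]),(1,[2,1,1,1,1,1]),(1,[1,1,1,1,1,1])],[(1,[],13,[0]),(1,[],19,[]),(1,[2],9,[]),(1,[],16,[]),(1,[1],9,[]),(1,[],15,[]),(1,[],17,[])]),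
    ([(1,[0,1,1,1,0,1])],[(1,[],3,[1,0,1])]),
    ([(1,[1,1,1,1,0,1])],[(1,[],15,[]),(1,[],17,[])]),
    ([(1,[0,2,1,1,0,1])],[(1,[],1,[1,1,0,1]),(1,[],15,[]),(1,[],17,[])]),
    ([(1,[2,2,1,1,0,1]),(1,[1,2,1,1,0,1])],[(1,[],2,[1,1,0,1]),(1,[],5,[1,0,1]),(1,[],7,[0,1]),(1,[],6,[0,1]),(1,[],3,[1,0,1]),(1,[1],3,[0,1])]),
    ([(1,[0,1,2,1,0,1]),(1,[1,1,2,1,0,1]),(1,[1,1,1,1,1,1])],[(1,[],4,[1,0,1]),(1,[1,1],6,[]),(1,[],15,[])]),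
    ([(1,[2,1,2,1,0,1]),(1,[2,1,1,1,0,1]),(1,[1,1,1,1,1,1])],[(1,[],7,[0,1]),(1,[1,1,1],5,[]),(1,[],10,[2]),(1,[],10,[1]),(1,[],14,[]),(1,[],15,[])]),
    ([(1,[0,1,1,1,1,1])],[(1,[],3,[1,1,1])]),
    ([(1,[0,2,1,1,1,1]),(1,[1,1,1,1,1,1])],[(1,[],1,[1,1,1,1])]),
    ([(1,[2,2,1,1,1,1]),(1,[1,2,1,1,1,1])],[(1,[],2,[1,1,1,1]),(1,[],5,[1,1,1]),(1,[],7,[1,1]),(1,[0,1],3,[1]),(1,[],3,[1,1,1]),(1,[1],3,[1,1]),(1,[1,1],3,[1]),(1,[],10,[1])]),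
    ([(1,[0,1,2,1,1,1]),(1,[1,1,2,1,1,1])],[(1,[],4,[1,1,1]),(1,[1,1],3,[1])]),
    ([(1,[2,1,2,1,1,1]),(1,[2,1,1,1,1,1])],[(1,[],7,[1,1]),(1,[],10,[1])]),
    ([(1,[0,1,1,2,1,1])],[(1,[],3,[2,1,1])]),
    ([(1,[1,1,1,2,1,1]),(1,[1,1,1,1,1,1])],[(1,[],10,[1])]),
    ([(1,[2,1,1,2,1,1])],[(1,[],13,[1]),(1,[2,1,1],3,[]),(1,[2],10,[]),(1,[1],10,[])]),
    ([(1,[0,1,1,1,1,2])],[(1,[],3,[1,1,2])]),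
    ([(1,[1,1,1,1,1,2])],[(1,[],17,[])]),
    ([(1,[2,1,1,1,1,2]),(1,[2,1,1,1,1,1]),(1,[1,1,1,1,1,1])],[(1,[],16,[]),(1,[],17,[])]),
    ([(1,[0,2,1,1,1,2])],[(1,[],1,[1,1,1,2]),(1,[],17,[])]),
    ([(1,[2,2,1,1,1,2]),(1,[1,2,1,1,1,2])],[(1,[],2,[1,1,1,2]),(1,[],5,[1,1,2]),(1,[],7,[1,2]),(1,[0,1],3,[2]),(1,[],3,[1,1,2]),(1,[1],3,[1,2]),(1,[1,1],3,[2]),(1,[],10,[2])]),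
    ([(1,[0,1,2,1,1,2]),(1,[1,1,2,1,1,2])],[(1,[],4,[1,1,2]),(1,[1,1],3,[2])]),
    ([(1,[2,1,2,1,1,2]),(1,[2,1,1,1,1,1]),(1,[1,1,1,1,1,1])],[(1,[],7,[1,2]),(1,[],16,[]),(1,[],10,[2]),(1,[],17,[])]),
    ([(1,[0,1,1,2,1,2])],[(1,[],3,[2,1,2])]),
    ([(1,[1,1,1,2,1,2])],[(1,[],10,[2]),(1,[],17,[])]),
    ([(1,[2,1,1,2,1,2]),(1,[1,1,1,1,1,0])],[(1,[],13,[2]),(1,[2,1,1],4,[]),(1,[2,1,1,1],2,[]),(1,[2],9,[]),(1,[1,1,1,1],2,[]),(1,[1],9,[]),(1,[],17,[])])]),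
  ([[1,1,2,1,1,1,0],[1,2,1,1,1,0,1],[1,1,2,1,1,0,1],[1,2,1,1,1,1,1],[1,1,2,1,1,1,1],[1,1,2,1,1,1,2]],
    [([(1,[0,1,1,1,1,1,0])],[(1,[],3,[1,1,1,0])]),
    ([(1,[1,1,1,1,1,1,0])],[(1,[],21,[])]),
    ([(1,[2,1,1,1,1,1,0])],[(1,[],22,[])]),
    ([(1,[0,1,2,1,1,1,0]),(1,[1,1,2,1,1,1,0])],[(1,[],4,[1,1,1,0]),(1,[1,1],3,[1,0])]),
    ([(1,[2,1,2,1,1,1,0])],[(1,[],7,[1,1,0]),(1,[],22,[]),(1,[],10,[1,0])]),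
    ([(1,[0,1,1,2,1,1,0])],[(1,[],3,[2,1,1,0])]),
    ([(1,[1,1,1,2,1,1,0])],[(1,[],10,[1,0]),(1,[],21,[])]),
    ([(1,[2,1,1,2,1,1,0])],[(1,[],13,[1,0]),(1,[2,1,1],3,[0]),(1,[2],10,[0]),(1,[1],10,[0])]),
    ([(1,[0,2,1,1,1,0,1])],[(1,[],1,[1,1,1,0,1]),(1,[1],15,[]),(1,[1],17,[])]),
    ([(1,[2,2,1,1,1,0,1]),(1,[1,2,1,1,1,0,1])],[(1,[],2,[1,1,1,0,1]),(1,[],5,[1,1,0,1]),(1,[],7,[1,0,1]),(1,[0,1],3,[0,1]),(1,[],3,[1,1,0,1]),(1,[1],3,[1,0,1]),(1,[1,1],3,[0,1]),(1,[],10,[0,1])]),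
    ([(1,[0,1,2,1,1,0,1]),(1,[1,1,2,1,1,0,1])],[(1,[],4,[1,1,0,1]),(1,[1,1],3,[0,1])]),
    ([(1,[2,1,2,1,1,0,1])],[(1,[],7,[1,0,1]),(1,[],18,[1]),(1,[],10,[0,1]),(1,[1],15,[]),(1,[1],17,[])]),
    ([(1,[0,1,1,2,1,0,1])],[(1,[],3,[2,1,0,1])]),
    ([(1,[1,1,1,2,1,0,1])],[(1,[],10,[0,1]),(1,[1],15,[]),(1,[1],17,[])]),
    ([(1,[2,1,1,2,1,0,1])],[(1,[],13,[0,1]),(1,[2,1,1],6,[]),(1,[2,1,1,1],5,[]),(1,[2],10,[2]),(1,[2],10,[1]),(1,[2],14,[]),(1,[1,1,1,1],5,[]),(1,[1],10,[2]),(1,[1],10,[1]),(1,[],15,[0]),(1,[1,1],9,[]),(1,[1],15,[]),(1,[1],17,[]),(1,[],20,[])]),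
    ([(1,[0,1,1,1,1,1,1])],[(1,[],3,[1,1,1,1])]),
    ([(1,[1,1,1,1,1,1,1])],[(1,[],20,[])]),
    ([(1,[2,1,1,1,1,1,1])],[(1,[],23,[])]),
    ([(1,[0,2,1,1,1,1,1])],[(1,[],1,[1,1,1,1,1]),(1,[],20,[])]),
    ([(1,[2,2,1,1,1,1,1]),(1,[1,2,1,1,1,1,1])],[(1,[],2,[1,1,1,1,1]),(1,[],5,[1,1,1,1]),(1,[],7,[1,1,1]),(1,[0,1],3,[1,1]),(1,[],3,[1,1,1,1]),(1,[1],3,[1,1,1]),(1,[1,1],3,[1,1]),(1,[],10,[1,1])]),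
    ([(1,[0,1,2,1,1,1,1]),(1,[1,1,2,1,1,1,1])],[(1,[],4,[1,1,1,1]),(1,[1,1],3,[1,1])]),
    ([(1,[2,1,2,1,1,1,1])],[(1,[],7,[1,1,1]),(1,[],23,[]),(1,[],10,[1,1])]),
    ([(1,[0,1,1,2,1,1,1])],[(1,[],3,[2,1,1,1])]),
    ([(1,[1,1,1,2,1,1,1])],[(1,[],10,[1,1]),(1,[],20,[])]),
    ([(1,[2,1,1,2,1,1,1])],[(1,[],13,[1,1]),(1,[2,1,1],3,[1]),(1,[2],10,[1]),(1,[1],10,[1])]),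
    ([(1,[0,1,2,1,1,1,2]),(1,[1,1,2,1,1,1,2])],[(1,[],4,[1,1,1,2]),(1,[1,1],3,[1,2])]),
    ([(1,[2,1,2,1,1,1,2])],[(1,[],7,[1,1,2]),(1,[2],17,[]),(1,[],10,[1,2])]),
    ([(1,[0,1,1,2,1,1,2])],[(1,[],3,[2,1,1,2])]),
    ([(1,[1,1,1,2,1,1,2])],[(1,[],10,[1,2]),(1,[1],17,[])]),
    ([(1,[2,1,1,2,1,1,2])],[(1,[],13,[1,2]),(1,[2,1,1],3,[2]),(1,[2],10,[2]),(1,[1],10,[2])])]),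
  ([[1,1,2,1,1,1,0,1],[1,1,2,1,1,1,1,1]],
    [([(1,[0,1,1,2,1,1,1,0])],[(1,[],3,[2,1,1,1,0])]),
    ([(1,[1,1,1,2,1,1,1,0])],[(1,[],10,[1,1,0]),(1,[],20,[0])]),
    ([(1,[2,1,1,2,1,1,1,0])],[(1,[],13,[1,1,0]),(1,[2,1,1],3,[1,0]),(1,[2],10,[1,0]),(1,[1],10,[1,0])]),
    ([(1,[0,1,2,1,1,1,0,1]),(1,[1,1,2,1,1,1,0,1])],[(1,[],4,[1,1,1,0,1]),(1,[1,1],3,[1,0,1])]),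
    ([(1,[2,1,2,1,1,1,0,1])],[(1,[],7,[1,1,0,1]),(1,[2,1],15,[]),(1,[2,1],17,[]),(1,[],10,[1,0,1])]),
    ([(1,[0,1,1,2,1,1,0,1])],[(1,[],3,[2,1,1,0,1])]),
    ([(1,[1,1,1,2,1,1,0,1])],[(1,[],10,[1,0,1]),(1,[1,1],15,[]),(1,[1,1],17,[])]),
    ([(1,[2,1,1,2,1,1,0,1])],[(1,[],13,[1,0,1]),(1,[2,1,1],3,[0,1]),(1,[2],10,[0,1]),(1,[1],10,[0,1])]),
    ([(1,[0,1,2,1,1,1,1,1]),(1,[1,1,2,1,1,1,1,1])],[(1,[],4,[1,1,1,1,1]),(1,[1,1],3,[1,1,1])]),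
    ([(1,[2,1,2,1,1,1,1,1])],[(1,[],7,[1,1,1,1]),(1,[],23,[1]),(1,[],10,[1,1,1])]),
    ([(1,[0,1,1,2,1,1,1,1])],[(1,[],3,[2,1,1,1,1])]),
    ([(1,[1,1,1,2,1,1,1,1])],[(1,[],10,[1,1,1]),(1,[],20,[1])]),
    ([(1,[2,1,1,2,1,1,1,1])],[(1,[],13,[1,1,1]),(1,[2,1,1],3,[1,1]),(1,[2],10,[1,1]),(1,[1],10,[1,1])]),
    ([(1,[0,1,1,2,1,1,1,2])],[(1,[],3,[2,1,1,1,2])]),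
    ([(1,[1,1,1,2,1,1,1,2])],[(1,[],10,[1,1,2]),(1,[1,1],17,[])]),
    ([(1,[2,1,1,2,1,1,1,2])],[(1,[],13,[1,1,2]),(1,[2,1,1],3,[1,2]),(1,[2],10,[1,2]),(1,[1],10,[1,2])])]),
  ([],
    [([(1,[0,1,1,2,1,1,1,0,1])],[(1,[],3,[2,1,1,1,0,1])]),
    ([(1,[1,1,1,2,1,1,1,0,1])],[(1,[],10,[1,1,0,1]),(1,[1,1,1],15,[]),(1,[1,1,1],17,[])]),
    ([(1,[2,1,1,2,1,1,1,0,1])],[(1,[],13,[1,1,0,1]),(1,[2,1,1],3,[1,0,1]),(1,[2],10,[1,0,1]),(1,[1],10,[1,0,1])]),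
    ([(1,[0,1,1,2,1,1,1,1,1])],[(1,[],3,[2,1,1,1,1,1])]),
    ([(1,[1,1,1,2,1,1,1,1,1])],[(1,[],10,[1,1,1,1]),(1,[],20,[1,1])]),
    ([(1,[2,1,1,2,1,1,1,1,1])],[(1,[],13,[1,1,1,1]),(1,[2,1,1],3,[1,1,1]),(1,[2],10,[1,1,1]),(1,[1],10,[1,1,1])])])]

theorem cb2_lv : nilChk 2 cb2S 3 [[]] cb2L = true := by decide +kernel

/-- polynomials -/
def cc2S : List Pl := [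
  [(1,[0,1]),(1,[1,1]),(1,[2,2])],
  [(1,[0,2]),(1,[2,1])],
  [(1,[0,0]),(1,[0,1]),(1,[1,0])],
  [(1,[1,0,2]),(1,[1,1,2]),(1,[2,0,1])],
  [(1,[0,1,1]),(1,[1,1,1]),(1,[2,0,2])],
  [(1,[0,1,1]),(1,[1,1,0])],
  [(1,[1,1,0,1]),(1,[1,1,1,0])],
  [(1,[0,1,0,2]),(1,[1,1,1,2])],
  [(1,[1,0,1,0,1]),(1,[1,1,1,1,1])],
  [(1,[1,1,1,1,0]),(1,[1,1,1,1,1])],
  [(1,[1,1,1,1,1,1])],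
  [(1,[0,0,0,0,0,0])],
  [(1,[1,0,0,0,0,0])],
  [(1,[1,1,0,0,0,0])],
  [(1,[1,1,1,0,0,0])],
  [(1,[1,1,1,1,0,0])],
  [(1,[1,1,1,1,1,0])],
  [(1,[1,1,1,1,1,1])]]

/-- combinations -/
def cc2C : List (List Cb) := [
  [(1,[],0,[2]),(1,[2],0,[]),(1,[],1,[1]),(1,[0],1,[]),(1,[],2,[2])],
  [(1,[],0,[1]),(1,[2],1,[])],
  [(1,[],2,[0]),(1,[0],2,[]),(1,[],2,[1]),(1,[1],2,[])],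
  [(1,[],0,[0,1]),(1,[2],3,[]),(1,[],1,[0,2]),(1,[],1,[1,2]),(1,[0],4,[]),(1,[0],1,[2]),(1,[],2,[2,2]),(1,[],2,[1,1]),(1,[0,1],0,[]),(1,[],5,[1]),(1,[1,0],0,[]),(1,[1],2,[1]),(1,[1],5,[])],
  [(1,[],4,[2]),(1,[2,0],0,[]),(1,[2],2,[1]),(1,[],1,[0,1]),(1,[0],3,[])],
  [(1,[],4,[0,1]),(1,[2,0],3,[]),(1,[],3,[0,2]),(1,[],3,[1,2]),(1,[],5,[0,1]),(1,[1,0],4,[]),(1,[1,0],1,[2]),(1,[1],2,[2,2]),(1,[1],2,[1,1]),(1,[1,0,1],0,[]),(1,[1],5,[1]),(1,[1,1],4,[]),(1,[1,1],1,[2]),(1,[1,1],2,[1]),(1,[1,1],5,[]),(1,[1],6,[])],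
  [(1,[],7,[2]),(1,[0,1,0],0,[]),(1,[0,1],2,[1]),(1,[],5,[0,1]),(1,[1,1],2,[1]),(1,[1,1],5,[]),(1,[1,1,1],0,[])],
  [(1,[],8,[1]),(1,[1,0,1],5,[]),(1,[1],5,[1,0]),(1,[1],6,[0]),(1,[1,1,1,1],2,[]),(1,[1,1],6,[])],
  [(1,[],2,[0,0,0,0]),(1,[0,1],2,[0,0]),(1,[0,1,0,1],2,[]),(1,[0],8,[]),(1,[0,1],5,[0]),(1,[0,1,1],2,[0]),(1,[],5,[0,1,0]),(1,[],5,[1,1,1]),(1,[1],2,[0,0,0]),(1,[1,0,1],2,[0]),(1,[],8,[0]),(1,[1,0,1,1],2,[]),(1,[1],5,[0,1]),(1,[1],5,[1,0]),(1,[1,1],2,[0,0]),(1,[1,1],2,[1,0]),(1,[1,1,0,1],2,[]),(1,[],6,[0,1]),(1,[1,1],5,[1]),(1,[1,1,1],2,[0]),(1,[1],6,[0]),(1,[1,1],6,[])],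
  [(1,[1],2,[0,0,0]),(1,[1,0,1],2,[0]),(1,[],8,[0]),(1,[1,0,1,1],2,[]),(1,[1],5,[0,1]),(1,[1],5,[1,0]),(1,[1,1],2,[0,0]),(1,[1,1,0,1],2,[]),(1,[],6,[0,1]),(1,[1,1],5,[0]),(1,[1,1,1],2,[0]),(1,[1],9,[]),(1,[],10,[])],
  [(1,[1,1],2,[0,0]),(1,[1,1,0,1],2,[]),(1,[],6,[0,1]),(1,[1,1],5,[0]),(1,[1,1,1],2,[0]),(1,[1,1,1],2,[1]),(1,[1],6,[0]),(1,[1,1,1],5,[]),(1,[1,1,1,1],2,[])],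
  [(1,[1,1,1],2,[0]),(1,[1],6,[0])],
  [(1,[1,1,1,1],2,[]),(1,[1,1],6,[])],
  [(1,[1],9,[]),(1,[],10,[])],
  [(1,[],10,[])]]

theorem cc2_ok : chk 2 cc2S 3 cc2C = true := by decide +kernel

/-- polynomials -/
def cd2S : List Pl := [
  [(1,[2,2]),(1,[2,3])],
  [(1,[]),(1,[0,1]),(1,[1,1]),(1,[3,3])],
  [(1,[]),(1,[0,2]),(1,[2,1])],
  [(1,[0,3]),(1,[3,1])],
  [(1,[0,0]),(1,[0,1]),(1,[1,0])],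
  [(1,[]),(1,[0,0]),(1,[1,0]),(1,[1,1]),(1,[3,3])],
  [(1,[2,3,2]),(1,[2,3,3])],
  [(1,[2]),(1,[2,1,2]),(1,[2,1,3]),(1,[3])],
  [(1,[0]),(1,[1]),(1,[1,1,1]),(1,[1,3,3]),(1,[3,1,3])],
  [(1,[0]),(1,[1,1,2]),(1,[1,2,1]),(1,[2]),(1,[2,1,1]),(1,[3,3,2])],
  [(1,[1,1,3]),(1,[1,3,1]),(1,[3]),(1,[3,1,1]),(1,[3,3,3])],
  [(1,[2,3,3,2]),(1,[2,3,3,3])],
  [(1,[2,1,3,2]),(1,[2,1,3,3]),(1,[3,2]),(1,[3,3])],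
  [(1,[2,3,1,2]),(1,[2,3,1,3])],
  [(1,[]),(1,[1,2]),(1,[1,3]),(1,[2,0])],
  [(1,[2,3]),(1,[2,3,3,0])],
  [(1,[1,3,2]),(1,[1,3,3]),(1,[3])],
  [(1,[2,3]),(1,[3,2]),(1,[3,3])],
  [(1,[3,3,2]),(1,[3,3,3])],
  [(1,[3,2]),(1,[3,3]),(1,[3,3,3,0])],
  [(1,[3,3,3])],
  [(1,[3,2]),(1,[3,3])],
  [(1,[3])],
  [(1,[]),(1,[1,0]),(1,[1,1])],
  [(1,[]),(1,[2,0]),(1,[2,1])],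
  [(1,[2])],
  [(1,[])]]

/-- combinations -/
def cd2C : List (List Cb) := [
  [(1,[],4,[]),(1,[],1,[])],
  [(1,[],0,[2]),(1,[2],0,[]),(1,[],0,[3])],
  [(1,[],2,[2]),(1,[0],0,[]),(1,[],2,[3])],
  [(1,[],5,[1]),(1,[0],1,[]),(1,[],1,[1]),(1,[],3,[3]),(1,[1],1,[])],
  [(1,[],5,[2]),(1,[0],2,[]),(1,[],2,[1]),(1,[1],2,[])],
  [(1,[],5,[3]),(1,[0],3,[]),(1,[],3,[1]),(1,[1],3,[])],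
  [(1,[],6,[2]),(1,[2,3],0,[]),(1,[],6,[3])],
  [(1,[],2,[3,2]),(1,[0],6,[]),(1,[],2,[3,3])],
  [(1,[],0,[1,2]),(1,[2],7,[]),(1,[],0,[1,3]),(1,[],0,[])],
  [(1,[],2,[1,2]),(1,[0],7,[]),(1,[],2,[1,3]),(1,[2],9,[]),(1,[2],10,[]),(1,[],7,[1]),(1,[],0,[1,1]),(1,[],11,[]),(1,[],2,[]),(1,[],3,[]),(1,[],0,[])],
  [(1,[],13,[]),(1,[2,3],14,[]),(1,[],6,[0])],
  [(1,[],14,[2]),(1,[1],0,[]),(1,[],14,[3]),(1,[2],2,[]),(1,[2],3,[]),(1,[],0,[1])],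
  [(1,[],12,[]),(1,[2],16,[])],
  [(1,[],6,[]),(1,[],17,[2]),(1,[],17,[3]),(1,[3],0,[])],
  [(1,[],15,[]),(1,[],17,[3,0]),(1,[3],17,[0]),(1,[],18,[0]),(1,[],17,[])],
  [(1,[],0,[3]),(1,[2],17,[]),(1,[],17,[2]),(1,[3],0,[]),(1,[3],17,[])],
  [(1,[],19,[]),(1,[],20,[0])],
  [(1,[],16,[]),(1,[1],21,[])],
  [(1,[],1,[1,1]),(1,[0],8,[]),(1,[0,1],22,[3]),(1,[0],22,[1,3]),(1,[],8,[1]),(1,[1],22,[3,1]),(1,[],22,[1,3,1]),(1,[],22,[3,1,1]),(1,[],5,[]),(1,[],22,[3])],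
  [(1,[],8,[2]),(1,[1,1],14,[]),(1,[1,1,1],22,[]),(1,[1],14,[0]),(1,[1,1],22,[0]),(1,[],14,[0,0]),(1,[1],22,[0,0]),(1,[1],22,[3,2]),(1,[2],5,[0]),(1,[2],23,[0]),(1,[2],22,[3,0]),(1,[],22,[1,3,2]),(1,[],5,[]),(1,[],2,[]),(1,[],14,[]),(1,[1],22,[]),(1,[],22,[3])],
  [(1,[],0,[0]),(1,[2],24,[]),(1,[],0,[1]),(1,[2],22,[0]),(1,[2],22,[1])],
  [(1,[],2,[]),(1,[0],25,[]),(1,[],25,[1])]]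

theorem cd2_ok : chk 2 cd2S 5 cd2C = true := by decide +kernel

/-- polynomials -/
def ce2S : List Pl := [
  [(1,[0,1]),(1,[1,1]),(1,[2,2])],
  [(1,[2,4]),(1,[3,3])],
  [(1,[]),(1,[2,3]),(1,[3,4]),(1,[4,2]),(1,[4,4])],
  [(1,[]),(1,[0,2]),(1,[2,1])],
  [(1,[]),(1,[0,3]),(1,[3,1])],
  [(1,[0,4]),(1,[4,1])],
  [(1,[0,0]),(1,[0,1]),(1,[1,0])],
  [(1,[0]),(1,[1]),(1,[1,0,2]),(1,[1,1,2]),(1,[2,0,1])],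
  [(1,[0,1,1]),(1,[1,1,1]),(1,[2]),(1,[2,0,2])],
  [(1,[2,0,4]),(1,[3]),(1,[3,0,3])],
  [(1,[1]),(1,[2]),(1,[2,0,3]),(1,[3,0,4]),(1,[4]),(1,[4,0,2]),(1,[4,0,4])],
  [(1,[0,1,1]),(1,[1,1,0])],
  [(1,[]),(1,[1,1,0,1]),(1,[1,1,1,0]),(1,[1,2]),(1,[2,0])],
  [(1,[0,1,0,2]),(1,[1,0]),(1,[1,1]),(1,[1,1,1,2])],
  [(1,[0,1,2,0]),(1,[1,0]),(1,[1,0,1,2]),(1,[1,0,2,0])],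
  [(1,[1,1,0]),(1,[1,1,1]),(1,[1,1,1,0,2]),(1,[1,1,1,1,2]),(1,[1,1,1,2,0])],
  [(1,[0]),(1,[1,2,0])],
  [(1,[0,1]),(1,[1,0,1,2]),(1,[1,0,2,0])],
  [(1,[1,1,1]),(1,[1,1,1,0,2]),(1,[1,1,1,1,2])],
  [(1,[0,3,2,0]),(1,[2,0]),(1,[3,0])],
  [(1,[0,4,2,0]),(1,[4,0])],
  [(1,[0,1]),(1,[1,0]),(1,[1,1]),(1,[1,1,0,2]),(1,[1,1,1,2])],
  [(1,[1,0,1]),(1,[1,1,0])],
  [(1,[]),(1,[1,2]),(1,[2,0])],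
  [(1,[0]),(1,[1]),(1,[1,1,2])],
  [(1,[0,1]),(1,[1,0])],
  [(1,[]),(1,[0,2]),(1,[0,3]),(1,[1,2]),(1,[3,0])],
  [(1,[0,2,3]),(1,[0,2,4]),(1,[1,2,3]),(1,[1,2,4]),(1,[4])],
  [(1,[0,4]),(1,[4,0])],
  [(1,[0]),(1,[1]),(1,[2]),(1,[3]),(1,[4])],
  [(1,[]),(1,[0,2]),(1,[0,3]),(1,[1,1]),(1,[1,2]),(1,[1,3]),(1,[3,2])],
  [(1,[1,1])],
  [(1,[0]),(1,[1]),(1,[2]),(1,[3])],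
  [(1,[1,0])],
  [(1,[]),(1,[0,2]),(1,[1,2])],
  [(1,[0]),(1,[1])],
  [(1,[])]]

/-- combinations -/
def ce2C : List (List Cb) := [
  [(1,[],0,[2]),(1,[2],0,[]),(1,[],3,[1]),(1,[0],3,[]),(1,[],6,[2])],
  [(1,[],0,[1]),(1,[2],3,[])],
  [(1,[],1,[1]),(1,[3],4,[]),(1,[2],5,[])],
  [(1,[],2,[1]),(1,[4],5,[]),(1,[4],3,[]),(1,[3],5,[]),(1,[2],4,[])],
  [(1,[],6,[0]),(1,[0],6,[]),(1,[],6,[1]),(1,[1],6,[])],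
  [(1,[],0,[0,1]),(1,[2],7,[]),(1,[],3,[0,2]),(1,[],3,[1,2]),(1,[0],8,[]),(1,[0],3,[2]),(1,[],6,[2,2]),(1,[],6,[1,1]),(1,[0,1],0,[]),(1,[],11,[1]),(1,[1,0],0,[]),(1,[1],6,[1]),(1,[1],11,[]),(1,[],3,[])],
  [(1,[],8,[2]),(1,[2,0],0,[]),(1,[2],6,[1]),(1,[],3,[0,1]),(1,[0],7,[]),(1,[],0,[]),(1,[],6,[])],
  [(1,[],7,[1]),(1,[2],11,[]),(1,[],3,[1,0]),(1,[0],3,[0]),(1,[],6,[2,0]),(1,[1,0],3,[]),(1,[1],6,[2]),(1,[1,1],3,[]),(1,[],6,[])],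
  [(1,[],3,[1,0,1]),(1,[2],12,[]),(1,[],3,[1,1,0]),(1,[0],3,[0,1]),(1,[0],3,[1,0]),(1,[],6,[2,0,1]),(1,[],6,[2,1,0]),(1,[0,1],7,[]),(1,[0,1],3,[0]),(1,[],13,[0]),(1,[],11,[0,2]),(1,[],11,[1,2]),(1,[1,0],7,[]),(1,[1,0],3,[0]),(1,[1],6,[2,0]),(1,[1],14,[]),(1,[1],13,[]),(1,[1],11,[2]),(1,[1,1],6,[2]),(1,[],12,[2]),(1,[],0,[0]),(1,[],8,[]),(1,[],3,[2]),(1,[0],0,[]),(1,[],11,[]),(1,[1],0,[]),(1,[1],6,[])],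
  [(1,[],12,[1]),(1,[1,1],11,[]),(1,[1],12,[]),(1,[],7,[]),(1,[1],3,[])],
  [(1,[],14,[]),(1,[0],16,[]),(1,[],6,[])],
  [(1,[],15,[]),(1,[1,1],16,[])],
  [(1,[],4,[2,0]),(1,[3],16,[])],
  [(1,[],5,[2,0]),(1,[4],16,[])],
  [(1,[],16,[1]),(1,[1],7,[])],
  [(1,[],18,[]),(1,[1],21,[])],
  [(1,[],12,[]),(1,[1],22,[])],
  [(1,[],7,[]),(1,[],23,[1]),(1,[1],3,[])],
  [(1,[],17,[]),(1,[1,0],23,[])],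
  [(1,[],19,[]),(1,[0,3],23,[]),(1,[0],4,[2]),(1,[],6,[3,2]),(1,[],25,[3,2]),(1,[],23,[])],
  [(1,[],9,[]),(1,[],26,[3]),(1,[],23,[4]),(1,[0],1,[])],
  [(1,[],20,[]),(1,[0,4],23,[]),(1,[0],5,[2]),(1,[],6,[4,2]),(1,[],25,[4,2])],
  [(1,[],10,[]),(1,[],28,[4]),(1,[],28,[2]),(1,[],26,[4]),(1,[],23,[3]),(1,[0],2,[]),(1,[],27,[])],
  [(1,[],2,[]),(1,[],29,[4]),(1,[],29,[2]),(1,[2],29,[]),(1,[],23,[]),(1,[],3,[]),(1,[0],29,[]),(1,[],6,[]),(1,[1],29,[])],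
  [(1,[],5,[]),(1,[],29,[1]),(1,[],4,[]),(1,[],3,[]),(1,[0],29,[]),(1,[],6,[]),(1,[],25,[])],
  [(1,[],27,[]),(1,[0,2],29,[]),(1,[0],0,[]),(1,[0],23,[]),(1,[0],3,[]),(1,[],6,[2]),(1,[],6,[1]),(1,[1,2],29,[]),(1,[1],0,[]),(1,[1],23,[]),(1,[1],3,[]),(1,[],31,[2]),(1,[],31,[1]),(1,[],29,[])],
  [(1,[],1,[]),(1,[],32,[3]),(1,[2],29,[]),(1,[],0,[]),(1,[],23,[]),(1,[],3,[]),(1,[0],32,[]),(1,[],6,[]),(1,[],25,[]),(1,[1],32,[])],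
  [(1,[],30,[]),(1,[],32,[2]),(1,[],0,[]),(1,[0],32,[]),(1,[],6,[]),(1,[],25,[]),(1,[1],32,[]),(1,[],33,[]),(1,[],31,[])],
  [(1,[],24,[]),(1,[],31,[2])],
  [(1,[],34,[]),(1,[],35,[2])]]

theorem ce2_ok : chk 2 ce2S 7 ce2C = true := by decide +kernel

end Pool.Agent.Lib.MP_f6e06e_al
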