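import Mathlib
import Pool.Agent.Lib.MP_f6e06e_al.CertTwo
import Pool.Agent.Lib.MP_f6e06e_al.CertThree

/-!
Consequences of the certificates, in terms of elements of a ring in which `2 = 0` or `3 = 0`.
-/

namespace Pool.Agent.Lib.MP_f6e06e_al

section base

variable {A : Type*} [Ring A]

/-- the assignment given by a list -/
def asg (l : List A) : ℕ → A := fun n => l.getD n 0

theorem coll_four (hp : (2 : A) = 0 ∨ (3 : A) = 0) (a b x y : A)
    (h0 : a * a - a * b = 0)
    (h1 : b * b + x * y + y * y = 1)
    (h2 : x * a - a * y = 1)
    (h3 : x * b - b * y = 0)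
    (h4 : x * x + x * y - y * x = 0) : (1 : A) = 0 := by
  rcases hp with hp | hp
  · have key := ep_chk (V := asg [x, y, a, b]) (p := 2) (by exact_mod_cast hp) (by norm_num)
      cd2S cd2C 5 (by
        intro i hi
        interval_cases i
        · show ep _ [(1,[2,2]),(1,[2,3])] = 0
          simp only [ep_cons, ep_nil, ew_cons, ew_nil, asg, List.getD_cons_zero,
            List.getD_cons_succ, mul_one, Nat.cast_one, one_mul, add_zero]
          linear_combination (norm := noncomm_ring) h0 + hp * (a * b)
        · show ep _ [(1,[]),(1,[0,1]),(1,[1,1]),(1,[3,3])] = 0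
          simp only [ep_cons, ep_nil, ew_cons, ew_nil, asg, List.getD_cons_zero,
            List.getD_cons_succ, mul_one, Nat.cast_one, one_mul, add_zero]
          linear_combination (norm := noncomm_ring) h1 + hp * (1)
        · show ep _ [(1,[]),(1,[0,2]),(1,[2,1])] = 0
          simp only [ep_cons, ep_nil, ew_cons, ew_nil, asg, List.getD_cons_zero,
            List.getD_cons_succ, mul_one, Nat.cast_one, one_mul, add_zero]
          linear_combination (norm := noncomm_ring) h2 + hp * (a * y) + hp * (1)
        · show ep _ [(1,[0,3]),(1,[3,1])] = 0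
          simp only [ep_cons, ep_nil, ew_cons, ew_nil, asg, List.getD_cons_zero,
            List.getD_cons_succ, mul_one, Nat.cast_one, one_mul, add_zero]
          linear_combination (norm := noncomm_ring) h3 + hp * (b * y)
        · show ep _ [(1,[0,0]),(1,[0,1]),(1,[1,0])] = 0
          simp only [ep_cons, ep_nil, ew_cons, ew_nil, asg, List.getD_cons_zero,
            List.getD_cons_succ, mul_one, Nat.cast_one, one_mul, add_zero]
          linear_combination (norm := noncomm_ring) h4 + hp * (y * x)
        ) cd2_ok 26 (by decide)
    have key2 : ep (asg [x, y, a, b]) [(1,[])] = 0 := key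
    simpa using key2
  · have key := ep_chk (V := asg [x, y, a, b]) (p := 3) (by exact_mod_cast hp) (by norm_num)
      cd3S cd3C 5 (by
        intro i hi
        interval_cases i
        · show ep _ [(1,[2,2]),(2,[2,3])] = 0
          simp only [ep_cons, ep_nil, ew_cons, ew_nil, asg, List.getD_cons_zero,
            List.getD_cons_succ, mul_one, Nat.cast_one, one_mul, add_zero, Nat.cast_ofNat]
          linear_combination (norm := noncomm_ring) h0 + hp * (a * b)
        · show ep _ [(2,[]),(1,[0,1]),(1,[1,1]),(1,[3,3])] = 0
          simp only [ep_cons, ep_nil, ew_cons, ew_nil, asg, List.getD_cons_zero,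
            List.getD_cons_succ, mul_one, Nat.cast_one, one_mul, add_zero, Nat.cast_ofNat]
          rw [show (2 : A) = 1 + 1 from one_add_one_eq_two.symm]
          linear_combination (norm := noncomm_ring) h1 + hp * (1)
        · show ep _ [(2,[]),(1,[0,2]),(2,[2,1])] = 0
          simp only [ep_cons, ep_nil, ew_cons, ew_nil, asg, List.getD_cons_zero,
            List.getD_cons_succ, mul_one, Nat.cast_one, one_mul, add_zero, Nat.cast_ofNat]
          rw [show (2 : A) = 1 + 1 from one_add_one_eq_two.symm]
          linear_combination (norm := noncomm_ring) h2 + hp * (a * y) + hp * (1)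
        · show ep _ [(1,[0,3]),(2,[3,1])] = 0
          simp only [ep_cons, ep_nil, ew_cons, ew_nil, asg, List.getD_cons_zero,
            List.getD_cons_succ, mul_one, Nat.cast_one, one_mul, add_zero, Nat.cast_ofNat]
          linear_combination (norm := noncomm_ring) h3 + hp * (b * y)
        · show ep _ [(1,[0,0]),(1,[0,1]),(2,[1,0])] = 0
          simp only [ep_cons, ep_nil, ew_cons, ew_nil, asg, List.getD_cons_zero,
            List.getD_cons_succ, mul_one, Nat.cast_one, one_mul, add_zero, Nat.cast_ofNat]
          linear_combination (norm := noncomm_ring) h4 + hp * (y * x)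
        ) cd3_ok 33 (by decide)
    have key2 : ep (asg [x, y, a, b]) [(1,[])] = 0 := key
    simpa using key2

theorem coll_five (hp : (2 : A) = 0 ∨ (3 : A) = 0) (a b c x y : A)
    (h0 : a * a + x * y + y * y = 0)
    (h1 : b * b - a * c = 0)
    (h2 : c * c - c * a - b * c - a * b = 1)
    (h3 : x * a - a * y = 1)
    (h4 : x * b - b * y = 1)
    (h5 : x * c - c * y = 0)
    (h6 : x * x + x * y - y * x = 0) : (1 : A) = 0 := by
  rcases hp with hp | hp
  · have key := ep_chk (V := asg [x, y, a, b, c]) (p := 2) (by exact_mod_cast hp) (by norm_num)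
      ce2S ce2C 7 (by
        intro i hi
        interval_cases i
        · show ep _ [(1,[0,1]),(1,[1,1]),(1,[2,2])] = 0
          simp only [ep_cons, ep_nil, ew_cons, ew_nil, asg, List.getD_cons_zero,
            List.getD_cons_succ, mul_one, Nat.cast_one, one_mul, add_zero]
          linear_combination (norm := noncomm_ring) h0
        · show ep _ [(1,[2,4]),(1,[3,3])] = 0
          simp only [ep_cons, ep_nil, ew_cons, ew_nil, asg, List.getD_cons_zero,
            List.getD_cons_succ, mul_one, Nat.cast_one, one_mul, add_zero]
          linear_combination (norm := noncomm_ring) h1 + hp * (a * c)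
        · show ep _ [(1,[]),(1,[2,3]),(1,[3,4]),(1,[4,2]),(1,[4,4])] = 0
          simp only [ep_cons, ep_nil, ew_cons, ew_nil, asg, List.getD_cons_zero,
            List.getD_cons_succ, mul_one, Nat.cast_one, one_mul, add_zero]
          linear_combination (norm := noncomm_ring) h2 + hp * (c * a) + hp * (b * c) + hp * (a * b) + hp * (1)
        · show ep _ [(1,[]),(1,[0,2]),(1,[2,1])] = 0
          simp only [ep_cons, ep_nil, ew_cons, ew_nil, asg, List.getD_cons_zero,
            List.getD_cons_succ, mul_one, Nat.cast_one, one_mul, add_zero]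
          linear_combination (norm := noncomm_ring) h3 + hp * (a * y) + hp * (1)
        · show ep _ [(1,[]),(1,[0,3]),(1,[3,1])] = 0
          simp only [ep_cons, ep_nil, ew_cons, ew_nil, asg, List.getD_cons_zero,
            List.getD_cons_succ, mul_one, Nat.cast_one, one_mul, add_zero]
          linear_combination (norm := noncomm_ring) h4 + hp * (b * y) + hp * (1)
        · show ep _ [(1,[0,4]),(1,[4,1])] = 0
          simp only [ep_cons, ep_nil, ew_cons, ew_nil, asg, List.getD_cons_zero,
            List.getD_cons_succ, mul_one, Nat.cast_one, one_mul, add_zero]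
          linear_combination (norm := noncomm_ring) h5 + hp * (c * y)
        · show ep _ [(1,[0,0]),(1,[0,1]),(1,[1,0])] = 0
          simp only [ep_cons, ep_nil, ew_cons, ew_nil, asg, List.getD_cons_zero,
            List.getD_cons_succ, mul_one, Nat.cast_one, one_mul, add_zero]
          linear_combination (norm := noncomm_ring) h6 + hp * (y * x)
        ) ce2_ok 36 (by decide)
    have key2 : ep (asg [x, y, a, b, c]) [(1,[])] = 0 := key
    simpa using key2
  · have key := ep_chk (V := asg [x, y, a, b, c]) (p := 3) (by exact_mod_cast hp) (by norm_num)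
      ce3S ce3C 7 (by
        intro i hi
        interval_cases i
        · show ep _ [(1,[0,1]),(1,[1,1]),(1,[2,2])] = 0
          simp only [ep_cons, ep_nil, ew_cons, ew_nil, asg, List.getD_cons_zero,
            List.getD_cons_succ, mul_one, Nat.cast_one, one_mul, add_zero]
          linear_combination (norm := noncomm_ring) h0
        · show ep _ [(2,[2,4]),(1,[3,3])] = 0
          simp only [ep_cons, ep_nil, ew_cons, ew_nil, asg, List.getD_cons_zero,
            List.getD_cons_succ, mul_one, Nat.cast_one, one_mul, add_zero, Nat.cast_ofNat]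
          linear_combination (norm := noncomm_ring) h1 + hp * (a * c)
        · show ep _ [(2,[]),(2,[2,3]),(2,[3,4]),(2,[4,2]),(1,[4,4])] = 0
          simp only [ep_cons, ep_nil, ew_cons, ew_nil, asg, List.getD_cons_zero,
            List.getD_cons_succ, mul_one, Nat.cast_one, one_mul, add_zero, Nat.cast_ofNat]
          rw [show (2 : A) = 1 + 1 from one_add_one_eq_two.symm]
          linear_combination (norm := noncomm_ring) h2 + hp * (c * a) + hp * (b * c) + hp * (a * b) + hp * (1)
        · show ep _ [(2,[]),(1,[0,2]),(2,[2,1])] = 0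
          simp only [ep_cons, ep_nil, ew_cons, ew_nil, asg, List.getD_cons_zero,
            List.getD_cons_succ, mul_one, Nat.cast_one, one_mul, add_zero, Nat.cast_ofNat]
          rw [show (2 : A) = 1 + 1 from one_add_one_eq_two.symm]
          linear_combination (norm := noncomm_ring) h3 + hp * (a * y) + hp * (1)
        · show ep _ [(2,[]),(1,[0,3]),(2,[3,1])] = 0
          simp only [ep_cons, ep_nil, ew_cons, ew_nil, asg, List.getD_cons_zero,
            List.getD_cons_succ, mul_one, Nat.cast_one, one_mul, add_zero, Nat.cast_ofNat]
          rw [show (2 : A) = 1 + 1 from one_add_one_eq_two.symm]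
          linear_combination (norm := noncomm_ring) h4 + hp * (b * y) + hp * (1)
        · show ep _ [(1,[0,4]),(2,[4,1])] = 0
          simp only [ep_cons, ep_nil, ew_cons, ew_nil, asg, List.getD_cons_zero,
            List.getD_cons_succ, mul_one, Nat.cast_one, one_mul, add_zero, Nat.cast_ofNat]
          linear_combination (norm := noncomm_ring) h5 + hp * (c * y)
        · show ep _ [(1,[0,0]),(1,[0,1]),(2,[1,0])] = 0
          simp only [ep_cons, ep_nil, ew_cons, ew_nil, asg, List.getD_cons_zero,
            List.getD_cons_succ, mul_one, Nat.cast_one, one_mul, add_zero, Nat.cast_ofNat]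
          linear_combination (norm := noncomm_ring) h6 + hp * (y * x)
        ) ce3_ok 53 (by decide)
    have key2 : ep (asg [x, y, a, b, c]) [(1,[])] = 0 := key
    simpa using key2

theorem xy_six (hp : (2 : A) = 0 ∨ (3 : A) = 0) (w x y : A)
    (h0 : w * w + x * y + y * y = 0)
    (h1 : x * w - w * y = 0)
    (h2 : x * x + x * y - y * x = 0) (a b : ℕ) (hab : a + b = 6) : y ^ a * x ^ b = 0 := by
  have ha : a ≤ 6 := by omega
  obtain rfl : b = 6 - a := by omega
  clear hab
  rcases hp with hp | hp
  · have key := ep_chk (V := asg [x, y, w]) (p := 2) (by exact_mod_cast hp) (by norm_num)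
      cc2S cc2C 3 (by
        intro i hi
        interval_cases i
        · show ep _ [(1,[0,1]),(1,[1,1]),(1,[2,2])] = 0
          simp only [ep_cons, ep_nil, ew_cons, ew_nil, asg, List.getD_cons_zero,
            List.getD_cons_succ, mul_one, Nat.cast_one, one_mul, add_zero]
          linear_combination (norm := noncomm_ring) h0
        · show ep _ [(1,[0,2]),(1,[2,1])] = 0
          simp only [ep_cons, ep_nil, ew_cons, ew_nil, asg, List.getD_cons_zero,
            List.getD_cons_succ, mul_one, Nat.cast_one, one_mul, add_zero]
          linear_combination (norm := noncomm_ring) h1 + hp * (w * y)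
        · show ep _ [(1,[0,0]),(1,[0,1]),(1,[1,0])] = 0
          simp only [ep_cons, ep_nil, ew_cons, ew_nil, asg, List.getD_cons_zero,
            List.getD_cons_succ, mul_one, Nat.cast_one, one_mul, add_zero]
          linear_combination (norm := noncomm_ring) h2 + hp * (y * x)
        ) cc2_ok
    interval_cases a
    · have key2 : ep (asg [x, y, w]) [(1,[0,0,0,0,0,0])] = 0 := key 11 (by decide)
      simpa [asg, pow_succ, mul_assoc] using key2
    · have key2 : ep (asg [x, y, w]) [(1,[1,0,0,0,0,0])] = 0 := key 12 (by decide)
      simpa [asg, pow_succ, mul_assoc] using key2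
    · have key2 : ep (asg [x, y, w]) [(1,[1,1,0,0,0,0])] = 0 := key 13 (by decide)
      simpa [asg, pow_succ, mul_assoc] using key2
    · have key2 : ep (asg [x, y, w]) [(1,[1,1,1,0,0,0])] = 0 := key 14 (by decide)
      simpa [asg, pow_succ, mul_assoc] using key2
    · have key2 : ep (asg [x, y, w]) [(1,[1,1,1,1,0,0])] = 0 := key 15 (by decide)
      simpa [asg, pow_succ, mul_assoc] using key2
    · have key2 : ep (asg [x, y, w]) [(1,[1,1,1,1,1,0])] = 0 := key 16 (by decide)
      simpa [asg, pow_succ, mul_assoc] using key2
    · have key2 : ep (asg [x, y, w]) [(1,[1,1,1,1,1,1])] = 0 := key 17 (by decide)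
      simpa [asg, pow_succ, mul_assoc] using key2
  · have key := ep_chk (V := asg [x, y, w]) (p := 3) (by exact_mod_cast hp) (by norm_num)
      cc3S cc3C 3 (by
        intro i hi
        interval_cases i
        · show ep _ [(1,[0,1]),(1,[1,1]),(1,[2,2])] = 0
          simp only [ep_cons, ep_nil, ew_cons, ew_nil, asg, List.getD_cons_zero,
            List.getD_cons_succ, mul_one, Nat.cast_one, one_mul, add_zero]
          linear_combination (norm := noncomm_ring) h0
        · show ep _ [(1,[0,2]),(2,[2,1])] = 0
          simp only [ep_cons, ep_nil, ew_cons, ew_nil, asg, List.getD_cons_zero,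
            List.getD_cons_succ, mul_one, Nat.cast_one, one_mul, add_zero, Nat.cast_ofNat]
          linear_combination (norm := noncomm_ring) h1 + hp * (w * y)
        · show ep _ [(1,[0,0]),(1,[0,1]),(2,[1,0])] = 0
          simp only [ep_cons, ep_nil, ew_cons, ew_nil, asg, List.getD_cons_zero,
            List.getD_cons_succ, mul_one, Nat.cast_one, one_mul, add_zero, Nat.cast_ofNat]
          linear_combination (norm := noncomm_ring) h2 + hp * (y * x)
        ) cc3_ok
    interval_cases a
    · have key2 : ep (asg [x, y, w]) [(1,[0,0,0,0,0,0])] = 0 := key 14 (by decide)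
      simpa [asg, pow_succ, mul_assoc] using key2
    · have key2 : ep (asg [x, y, w]) [(1,[1,0,0,0,0,0])] = 0 := key 15 (by decide)
      simpa [asg, pow_succ, mul_assoc] using key2
    · have key2 : ep (asg [x, y, w]) [(1,[1,1,0,0,0,0])] = 0 := key 16 (by decide)
      simpa [asg, pow_succ, mul_assoc] using key2
    · have key2 : ep (asg [x, y, w]) [(1,[1,1,1,0,0,0])] = 0 := key 17 (by decide)
      simpa [asg, pow_succ, mul_assoc] using key2
    · have key2 : ep (asg [x, y, w]) [(1,[1,1,1,1,0,0])] = 0 := key 18 (by decide)
      simpa [asg, pow_succ, mul_assoc] using key2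
    · have key2 : ep (asg [x, y, w]) [(1,[1,1,1,1,1,0])] = 0 := key 19 (by decide)
      simpa [asg, pow_succ, mul_assoc] using key2
    · have key2 : ep (asg [x, y, w]) [(1,[1,1,1,1,1,1])] = 0 := key 20 (by decide)
      simpa [asg, pow_succ, mul_assoc] using key2

theorem nil_two (hp : (2 : A) = 0 ∨ (3 : A) = 0) (V : Fin 2 → A)
    (h0 : V 0 * V 0 - V 0 * V 1 = 0)
    (h1 : V 1 * V 1 = 0) (l : List (Fin 2))
    (hl : l.length = 4) : (l.map V).prod = 0 := by
  have e : (l.map V).prod = ew (asg [V 0, V 1]) (l.map Fin.val) := by
    rw [ew, List.map_map]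
    congr 2
    funext i
    fin_cases i <;> rfl
  rw [e]
  have hm : ∀ i ∈ l.map Fin.val, i < 2 := by
    intro i hi
    obtain ⟨j, _, rfl⟩ := List.mem_map.1 hi
    exact j.2
  rcases hp with hp | hp
  · exact ew_eq_zero_of_nilChk (p := 2) (by exact_mod_cast hp) (by norm_num) ca2S 2 2 ca2C
      ca2_ok (by decide) (by
        intro i hi
        interval_cases i
        · show ep _ [(1,[0,0]),(1,[0,1])] = 0
          simp only [ep_cons, ep_nil, ew_cons, ew_nil, asg, List.getD_cons_zero,
            List.getD_cons_succ, mul_one, Nat.cast_one, one_mul, add_zero]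
          linear_combination (norm := noncomm_ring) h0 + hp * (V 0 * V 1)
        · show ep _ [(1,[1,1])] = 0
          simp only [ep_cons, ep_nil, ew_cons, ew_nil, asg, List.getD_cons_zero,
            List.getD_cons_succ, mul_one, Nat.cast_one, one_mul, add_zero]
          linear_combination (norm := noncomm_ring) h1
        ) ca2L ca2_lv _ hm (by rw [List.length_map, hl]; decide)
  · exact ew_eq_zero_of_nilChk (p := 3) (by exact_mod_cast hp) (by norm_num) ca3S 2 2 ca3C
      ca3_ok (by decide) (by
        intro i hi
        interval_cases i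
        · show ep _ [(1,[0,0]),(2,[0,1])] = 0
          simp only [ep_cons, ep_nil, ew_cons, ew_nil, asg, List.getD_cons_zero,
            List.getD_cons_succ, mul_one, Nat.cast_one, one_mul, add_zero, Nat.cast_ofNat]
          linear_combination (norm := noncomm_ring) h0 + hp * (V 0 * V 1)
        · show ep _ [(1,[1,1])] = 0
          simp only [ep_cons, ep_nil, ew_cons, ew_nil, asg, List.getD_cons_zero,
            List.getD_cons_succ, mul_one, Nat.cast_one, one_mul, add_zero]
          linear_combination (norm := noncomm_ring) h1
        ) ca3L ca3_lv _ hm (by rw [List.length_map, hl]; decide)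

theorem nil_three (hp : (2 : A) = 0 ∨ (3 : A) = 0) (V : Fin 3 → A)
    (h0 : V 0 * V 0 = 0)
    (h1 : V 1 * V 1 - V 0 * V 2 = 0)
    (h2 : V 2 * V 2 - V 2 * V 0 - V 1 * V 2 - V 0 * V 1 = 0) (l : List (Fin 3))
    (hl : l.length = 9) : (l.map V).prod = 0 := by
  have e : (l.map V).prod = ew (asg [V 0, V 1, V 2]) (l.map Fin.val) := by
    rw [ew, List.map_map]
    congr 2
    funext i
    fin_cases i <;> rfl
  rw [e]
  have hm : ∀ i ∈ l.map Fin.val, i < 3 := by
    intro i hi
    obtain ⟨j, _, rfl⟩ := List.mem_map.1 hi
    exact j.2
  rcases hp with hp | hp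
  · exact ew_eq_zero_of_nilChk (p := 2) (by exact_mod_cast hp) (by norm_num) cb2S 3 3 cb2C
      cb2_ok (by decide) (by
        intro i hi
        interval_cases i
        · show ep _ [(1,[0,0])] = 0
          simp only [ep_cons, ep_nil, ew_cons, ew_nil, asg, List.getD_cons_zero,
            List.getD_cons_succ, mul_one, Nat.cast_one, one_mul, add_zero]
          linear_combination (norm := noncomm_ring) h0
        · show ep _ [(1,[0,2]),(1,[1,1])] = 0
          simp only [ep_cons, ep_nil, ew_cons, ew_nil, asg, List.getD_cons_zero,
            List.getD_cons_succ, mul_one, Nat.cast_one, one_mul, add_zero]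
          linear_combination (norm := noncomm_ring) h1 + hp * (V 0 * V 2)
        · show ep _ [(1,[0,1]),(1,[1,2]),(1,[2,0]),(1,[2,2])] = 0
          simp only [ep_cons, ep_nil, ew_cons, ew_nil, asg, List.getD_cons_zero,
            List.getD_cons_succ, mul_one, Nat.cast_one, one_mul, add_zero]
          linear_combination (norm := noncomm_ring) h2 + hp * (V 2 * V 0) + hp * (V 1 * V 2) + hp * (V 0 * V 1)
        ) cb2L cb2_lv _ hm (by rw [List.length_map, hl]; decide)
  · exact ew_eq_zero_of_nilChk (p := 3) (by exact_mod_cast hp) (by norm_num) cb3S 3 3 cb3C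
      cb3_ok (by decide) (by
        intro i hi
        interval_cases i
        · show ep _ [(1,[0,0])] = 0
          simp only [ep_cons, ep_nil, ew_cons, ew_nil, asg, List.getD_cons_zero,
            List.getD_cons_succ, mul_one, Nat.cast_one, one_mul, add_zero]
          linear_combination (norm := noncomm_ring) h0
        · show ep _ [(2,[0,2]),(1,[1,1])] = 0
          simp only [ep_cons, ep_nil, ew_cons, ew_nil, asg, List.getD_cons_zero,
            List.getD_cons_succ, mul_one, Nat.cast_one, one_mul, add_zero, Nat.cast_ofNat]
          linear_combination (norm := noncomm_ring) h1 + hp * (V 0 * V 2)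
        · show ep _ [(2,[0,1]),(2,[1,2]),(2,[2,0]),(1,[2,2])] = 0
          simp only [ep_cons, ep_nil, ew_cons, ew_nil, asg, List.getD_cons_zero,
            List.getD_cons_succ, mul_one, Nat.cast_one, one_mul, add_zero, Nat.cast_ofNat]
          linear_combination (norm := noncomm_ring) h2 + hp * (V 2 * V 0) + hp * (V 1 * V 2) + hp * (V 0 * V 1)
        ) cb3L cb3_lv _ hm (by rw [List.length_map, hl]; decide)

end base

end Pool.Agent.Lib.MP_f6e06e_al
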