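import Mathlib
import Pool.Agent.Lib.MP_f6e06e_al.NilD

/-!
A checker for nilpotency certificates of quadratic algebras with at most 8 generators, over fields
of small characteristic `p`.  A word of length `k` in the letters `0, …, 7` is a natural number
`< 8 ^ k` (base 8 digits, first letter = most significant digit).
-/

namespace Pool.Agent.Lib.MP_f6e06e_al.Chk

universe u

/-- binary tree -/
inductive Tr (α : Type) : Type
  | nil : Tr α
  | nd (l : Tr α) (a : α) (r : Tr α) : Tr α

/-- the entry number `i` (`i ≥ 1`) -/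
def Tr.get {α : Type} : Tr α → ℕ → Option α
  | .nil, _ => none
  | .nd l a r, i =>
    match Nat.beq i 1 with
    | true => some a
    | false =>
      match Nat.beq (i % 2) 0 with
      | true => l.get (i / 2)
      | false => r.get (i / 2)

/-- set the entry number `i` -/
def Tr.set {α : Type} : Tr α → ℕ → α → Tr α
  | .nil, _, b => .nd .nil b .nil
  | .nd l a r, i, b =>
    match Nat.beq i 1 with
    | true => .nd l b r
    | false =>
      match Nat.beq (i % 2) 0 with
      | true => .nd (l.set (i / 2) b) a r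
      | false => .nd l a (r.set (i / 2) b)

/-- all entries satisfy `P` -/
def Tr.All {α : Type} (P : α → Prop) : Tr α → Prop
  | .nil => True
  | .nd l a r => l.All P ∧ P a ∧ r.All P

theorem Tr.All.get {α : Type} {P : α → Prop} : ∀ {t : Tr α}, t.All P → ∀ {i : ℕ} {a : α},
    t.get i = some a → P a
  | .nil, _, i, a, h => by simp [Tr.get] at h
  | .nd l b r, ht, i, a, h => by
    unfold Tr.get at h
    cases h1 : Nat.beq i 1 with
    | true => rw [h1] at h; simp at h; rw [← h]; exact ht.2.1
    | false =>
      rw [h1] at h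
      cases h2 : Nat.beq (i % 2) 0 with
      | true => rw [h2] at h; exact ht.1.get h
      | false => rw [h2] at h; exact ht.2.2.get h

theorem Tr.All.set {α : Type} {P : α → Prop} : ∀ {t : Tr α}, t.All P → ∀ (i : ℕ) {a : α},
    P a → (t.set i a).All P
  | .nil, _, i, a, h => ⟨trivial, h, trivial⟩
  | .nd l b r, ht, i, a, h => by
    unfold Tr.set
    cases h1 : Nat.beq i 1 with
    | true => exact ⟨ht.1, h, ht.2.2⟩
    | false =>
      cases h2 : Nat.beq (i % 2) 0 with
      | true => exact ⟨ht.1.set _ h, ht.2.1, ht.2.2⟩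
      | false => exact ⟨ht.1, ht.2.1, ht.2.2.set _ h⟩

/-- a relation: length of its words, list of pairs (word, coefficient) -/
structure Rule where
  len : ℕ
  poly : List (ℕ × ℕ)

/-- insert one term -/
def addGo (p w c : ℕ) (k : List (ℕ × ℕ) → List (ℕ × ℕ)) : List (ℕ × ℕ) → List (ℕ × ℕ)
  | [] => (w, c) :: k []
  | (w', c') :: g =>
    match Nat.beq w w' with
    | true =>
      match Nat.beq ((c + c') % p) 0 with
      | true => k g
      | false => (w, (c + c') % p) :: k g
    | false =>
      match Nat.ble w w' with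
      | true => (w', c') :: addGo p w c k g
      | false => (w, c) :: k ((w', c') :: g)

/-- sum of two polynomials (decreasing order of words) -/
def addP (p : ℕ) : List (ℕ × ℕ) → List (ℕ × ℕ) → List (ℕ × ℕ)
  | [], g => g
  | (w, c) :: f, g => addGo p w c (addP p f) g

/-- product of a scalar, a word on the left, the polynomial and a word on the right -/
def mulP (p S T c : ℕ) : List (ℕ × ℕ) → List (ℕ × ℕ)
  | [] => []
  | (w, d) :: f => (w * S + T, (c * d) % p) :: mulP p S T c f

/-- one step -/
def stepP (p k : ℕ) (t : Tr Rule) (x : ℕ) (acc : List (ℕ × ℕ)) : Option (List (ℕ × ℕ)) :=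
  match t.get (x / 4 % 2048) with
  | none => none
  | some r =>
    match Nat.ble (r.len + x / 8192 % 16) k && Nat.blt (x / 131072) (8 ^ k) &&
      Nat.blt (x / 131072 % 8 ^ (r.len + x / 8192 % 16)) (8 ^ (x / 8192 % 16)) with
    | true => some (addP p acc (mulP p (8 ^ (x / 8192 % 16)) (x / 131072) (x % 4) r.poly))
    | false => none

/-- several steps, packed in one number -/
def runSteps (p k : ℕ) (t : Tr Rule) : ℕ → ℕ → List (ℕ × ℕ) → Option (List (ℕ × ℕ))
  | 0, _, acc => some acc
  | m + 1, x, acc =>
    match stepP p k t (x % 2 ^ 64) acc with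
    | none => none
    | some acc' => runSteps p k t m (x / 2 ^ 64) acc'

/-- process the certificates of all rules -/
def build (p : ℕ) : List (ℕ × ℕ × ℕ) → ℕ → Tr Rule → Option (Tr Rule)
  | [], _, t => some t
  | (k, m, x) :: cs, i, t =>
    match runSteps p k t m x [] with
    | none => none
    | some f => build p cs (i + 1) (t.set i ⟨k, f⟩)

/-- the original relations -/
def origT : List (List (ℕ × ℕ)) → ℕ → Tr Rule → Tr Rule
  | [], _, t => t
  | f :: fs, i, t => origT fs (i + 1) (t.set i ⟨2, f⟩)

/-- words of the tail are smaller than `w` -/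
def tailLt (w : ℕ) : List (ℕ × ℕ) → Bool
  | [] => true
  | (w', _) :: f => Nat.blt w' w && tailLt w f

/-- a state: rank, length, value, packed transitions -/
structure St where
  rank : ℕ
  len : ℕ
  val : ℕ
  tr : ℕ

/-- check of one transition.  `y` is `2 i` (dead, because of the rule `i`) or `2 i + 1`
(state `i`) -/
def trans (t : Tr Rule) (ss : Tr St) (s : St) (d y : ℕ) : Bool :=
  match Nat.beq (y % 2) 0 with
  | true =>
    match t.get (y / 2) with
    | some r =>
      match r.poly with
      | (w, c) :: f =>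
        Nat.beq c 1 && Nat.ble r.len (s.len + 1) && Nat.beq ((s.val * 8 + d) % 8 ^ r.len) w &&
          tailLt w f
      | [] => false
    | none => false
  | false =>
    match ss.get (y / 2) with
    | some s' =>
      Nat.blt s'.rank s.rank && Nat.ble s'.len (s.len + 1) &&
        Nat.beq ((s.val * 8 + d) % 8 ^ s'.len) s'.val
    | none => false

/-- check of the transitions with letters `0, …, m - 1` -/
def transAll (t : Tr Rule) (ss : Tr St) (s : St) : ℕ → ℕ → Bool
  | 0, _ => true
  | m + 1, x => trans t ss s m (x % 4096) && transAll t ss s m (x / 4096)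

/-- all entries of a tree satisfy a test -/
def Tr.allB {α : Type} (f : α → Bool) : Tr α → Bool
  | .nil => true
  | .nd l a r => f a && (l.allB f && r.allB f)

/-- tree of states -/
def stT : List (ℕ × ℕ × ℕ × ℕ) → ℕ → Tr St → Tr St
  | [], _, t => t
  | (a, b, c, d) :: fs, i, t => stT fs (i + 1) (t.set i ⟨a, b, c, d⟩)

/-- words of the original relations have both letters `< n` -/
def wordsOk (n : ℕ) : List (ℕ × ℕ) → Bool
  | [] => true
  | (w, _) :: f => Nat.blt (w / 8) n && Nat.blt (w % 8) n && wordsOk n f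

/-- words of all the original relations have both letters `< n` -/
def origOk (n : ℕ) : List (List (ℕ × ℕ)) → Bool
  | [] => true
  | f :: fs => wordsOk n f && origOk n fs

/-- the complete check -/
def check (p n L : ℕ) (orig : List (List (ℕ × ℕ))) (cert : List (ℕ × ℕ × ℕ))
    (sts : List (ℕ × ℕ × ℕ × ℕ)) : Bool :=
  Nat.ble n 8 && origOk n orig &&
  match build p cert (orig.length + 1) (origT orig 1 .nil) with
  | none => false
  | some t =>
    match (stT sts 1 .nil).get 1 with
    | none => false
    | some s => Nat.beq s.len 0 && Nat.blt s.rank L && Nat.beq s.val 0 &&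
        (stT sts 1 .nil).allB (fun s => transAll t (stT sts 1 .nil) s n s.tr)

/-! ### Soundness -/

section sound

variable {A : Type u} [Ring A] {V : ℕ → A} {p : ℕ}

/-- value of a word -/
def ew (V : ℕ → A) : ℕ → ℕ → A
  | 0, _ => 1
  | k + 1, x => ew V k (x / 8) * V (x % 8)

/-- value of a polynomial -/
def pe (V : ℕ → A) (k : ℕ) : List (ℕ × ℕ) → A
  | [] => 0
  | (w, c) :: f => (c : A) * ew V k w + pe V k f

theorem ew_append (V : ℕ → A) (a u : ℕ) : ∀ (b v : ℕ), v < 8 ^ b →
    ew V (a + b) (u * 8 ^ b + v) = ew V a u * ew V b v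
  | 0, v, hv => by
    have : v = 0 := by simpa using hv
    subst this
    simp [ew]
  | b + 1, v, hv => by
    have h0 : u * 8 ^ (b + 1) = u * 8 ^ b * 8 := by rw [pow_succ]; ring
    have h1 : (u * 8 ^ (b + 1) + v) / 8 = u * 8 ^ b + v / 8 := by
      rw [h0]; generalize u * 8 ^ b = z; omega
    have h2 : (u * 8 ^ (b + 1) + v) % 8 = v % 8 := by
      rw [h0]; generalize u * 8 ^ b = z; omega
    have h3 : v / 8 < 8 ^ b := by
      rw [pow_succ] at hv; omega
    rw [← add_assoc, ew, h1, h2, ew_append V a u b (v / 8) h3, ew, mul_assoc]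

theorem mod_cast_eq (hp : (p : A) = 0) (c : ℕ) : ((c % p : ℕ) : A) = (c : A) := by
  conv_rhs => rw [← Nat.mod_add_div c p]
  rw [Nat.cast_add, Nat.cast_mul, hp, zero_mul, add_zero]

theorem pe_addGo (hp : (p : A) = 0) (k w c : ℕ) (F : List (ℕ × ℕ) → List (ℕ × ℕ)) (s : A)
    (hF : ∀ g, pe V k (F g) = s + pe V k g) :
    ∀ g, pe V k (addGo p w c F g) = (c : A) * ew V k w + s + pe V k g
  | [] => by simp [addGo, pe, hF]
  | (w', c') :: g => by
    unfold addGo
    cases h1 : Nat.beq w w' with
    | true =>
      have hw : w = w' := Nat.eq_of_beq_eq_true h1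
      subst hw
      cases h2 : Nat.beq ((c + c') % p) 0 with
      | true =>
        have h3 : ((c + c' : ℕ) : A) = 0 := by
          rw [← mod_cast_eq hp, Nat.eq_of_beq_eq_true h2, Nat.cast_zero]
        rw [Nat.cast_add] at h3
        show pe V k (F g) = _
        rw [hF, pe]
        have h4 : (c : A) * ew V k w + (c' : A) * ew V k w = 0 := by rw [← add_mul, h3, zero_mul]
        calc s + pe V k g = ((c : A) * ew V k w + (c' : A) * ew V k w) + (s + pe V k g) := by
              rw [h4, zero_add]
          _ = _ := by abel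
      | false =>
        show pe V k ((w, (c + c') % p) :: F g) = _
        rw [pe, pe, hF, mod_cast_eq hp, Nat.cast_add, add_mul]
        abel
    | false =>
      cases h2 : Nat.ble w w' with
      | true =>
        show pe V k ((w', c') :: addGo p w c F g) = _
        rw [pe, pe, pe_addGo hp k w c F s hF g]
        abel
      | false =>
        show pe V k ((w, c) :: F ((w', c') :: g)) = _
        rw [pe, hF]
        abel

theorem pe_addP (hp : (p : A) = 0) (k : ℕ) : ∀ f g, pe V k (addP p f g) = pe V k f + pe V k g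
  | [], g => by simp [addP, pe]
  | (w, c) :: f, g => by
    rw [addP, pe_addGo hp k w c (addP p f) (pe V k f) (pe_addP hp k f) g, pe]

/-- all the words are `< B` -/
def Bdd (B : ℕ) (f : List (ℕ × ℕ)) : Prop := ∀ wc ∈ f, wc.1 < B

theorem bdd_addGo {B : ℕ} (w c : ℕ) (hw : w < B) (F : List (ℕ × ℕ) → List (ℕ × ℕ))
    (hF : ∀ g, Bdd B g → Bdd B (F g)) : ∀ g, Bdd B g → Bdd B (addGo p w c F g)
  | [], _ => by
    intro wc h
    simp only [addGo, List.mem_cons] at h
    rcases h with rfl | h
    · exact hw
    · exact hF [] (by intro x hx; simp at hx) _ h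
  | (w', c') :: g, hg => by
    have hg' : Bdd B g := fun x hx => hg x (List.mem_cons_of_mem _ hx)
    have hw' : w' < B := hg (w', c') List.mem_cons_self
    unfold addGo
    cases h1 : Nat.beq w w' with
    | true =>
      cases h2 : Nat.beq ((c + c') % p) 0 with
      | true => exact hF g hg'
      | false =>
        intro wc h
        rcases List.mem_cons.1 h with rfl | h
        · exact hw
        · exact hF g hg' _ h
    | false =>
      cases h2 : Nat.ble w w' with
      | true =>
        intro wc h
        rcases List.mem_cons.1 h with rfl | h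
        · exact hw'
        · exact bdd_addGo w c hw F hF g hg' _ h
      | false =>
        intro wc h
        rcases List.mem_cons.1 h with rfl | h
        · exact hw
        · exact hF _ hg _ h

theorem bdd_addP {B : ℕ} : ∀ f g, Bdd B f → Bdd B g → Bdd B (addP p f g)
  | [], g, _, hg => hg
  | (w, c) :: f, g, hf, hg => by
    rw [addP]
    exact bdd_addGo w c (hf (w, c) List.mem_cons_self) _
      (fun g' hg' => bdd_addP f g' (fun x hx => hf x (List.mem_cons_of_mem _ hx)) hg') g hg

theorem pe_mulP (hp : (p : A) = 0) (a l b u v c : ℕ) (hv : v < 8 ^ b) :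
    ∀ f, Bdd (8 ^ l) f → pe V (a + l + b) (mulP p (8 ^ b) (u * 8 ^ (l + b) + v) c f) =
      (c : A) * (ew V a u * pe V l f * ew V b v)
  | [], _ => by simp [mulP, pe]
  | (w, d) :: f, hf => by
    have hw : w < 8 ^ l := hf (w, d) List.mem_cons_self
    have e : w * 8 ^ b + (u * 8 ^ (l + b) + v) = (u * 8 ^ l + w) * 8 ^ b + v := by
      rw [pow_add]; ring
    rw [mulP, pe, pe, e, ew_append V (a + l) _ b v hv, ew_append V a u l w hw,
      pe_mulP hp a l b u v c hv f (fun x hx => hf x (List.mem_cons_of_mem _ hx)),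
      mod_cast_eq hp, Nat.cast_mul, mul_add, add_mul, mul_add]
    congr 1
    have h1 : ∀ x : A, ((c : A) * (d : A)) * x = (c : A) * ((d : A) * x) := fun x => mul_assoc _ _ _
    rw [h1]
    congr 1
    rw [← mul_assoc (ew V a u) (d : A), (Nat.cast_commute d (ew V a u)).eq.symm]
    simp only [mul_assoc]

theorem bdd_mulP {S T B B' c : ℕ} (h : ∀ w < B, w * S + T < B') :
    ∀ f, Bdd B f → Bdd B' (mulP p S T c f)
  | [], _ => by intro x hx; simp [mulP] at hx
  | (w, d) :: f, hf => by
    intro x hx
    rw [mulP] at hx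
    rcases List.mem_cons.1 hx with rfl | hx
    · exact h w (hf (w, d) List.mem_cons_self)
    · exact bdd_mulP h f (fun x hx => hf x (List.mem_cons_of_mem _ hx)) _ hx

/-- a rule which holds in `A` -/
def Sound (V : ℕ → A) (r : Rule) : Prop := Bdd (8 ^ r.len) r.poly ∧ pe V r.len r.poly = 0

theorem stepP_sound (hp : (p : A) = 0) {k x : ℕ} {t : Tr Rule} (ht : t.All (Sound V))
    {acc acc' : List (ℕ × ℕ)} (hacc : Bdd (8 ^ k) acc ∧ pe V k acc = 0)
    (h : stepP p k t x acc = some acc') : Bdd (8 ^ k) acc' ∧ pe V k acc' = 0 := by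
  unfold stepP at h
  cases h1 : t.get (x / 4 % 2048) with
  | none => rw [h1] at h; simp at h
  | some r =>
    rw [h1] at h
    obtain ⟨hb, hr⟩ := ht.get h1
    simp only at h
    cases h2 : (Nat.ble (r.len + x / 8192 % 16) k && Nat.blt (x / 131072) (8 ^ k) &&
      Nat.blt (x / 131072 % 8 ^ (r.len + x / 8192 % 16)) (8 ^ (x / 8192 % 16))) with
    | false => rw [h2] at h; simp at h
    | true =>
      rw [h2] at h
      simp only [Option.some.injEq] at h
      rw [Bool.and_eq_true, Bool.and_eq_true] at h2
      obtain ⟨⟨h3, h4⟩, h5⟩ := h2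
      have h3 := Nat.le_of_ble_eq_true h3
      have h4 := Nat.le_of_ble_eq_true h4
      have h5 := Nat.le_of_ble_eq_true h5
      generalize x / 8192 % 16 = b at *
      generalize x / 131072 = T at *
      generalize x % 4 = c at *
      set l := r.len with hl
      have hT : T = (T / 8 ^ (l + b)) * 8 ^ (l + b) + T % 8 ^ (l + b) := by
        have := Nat.div_add_mod T (8 ^ (l + b))
        rw [mul_comm] at this
        exact this.symm
      obtain ⟨a, ha⟩ : ∃ a, k = a + l + b := ⟨k - (l + b), by omega⟩
      rw [← h]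
      have hu : T / 8 ^ (l + b) < 8 ^ a := by
        rw [Nat.div_lt_iff_lt_mul (by positivity), ← pow_add]
        have e : a + (l + b) = k := by omega
        rw [e]; exact h4
      refine ⟨bdd_addP _ _ hacc.1 (bdd_mulP ?_ _ hb), ?_⟩
      · intro w hw
        rw [hT, ha]
        have e1 : w * 8 ^ b + (T / 8 ^ (l + b) * 8 ^ (l + b) + T % 8 ^ (l + b)) =
            ((T / 8 ^ (l + b)) * 8 ^ l + w) * 8 ^ b + T % 8 ^ (l + b) := by
          rw [pow_add 8 l b]; ring
        rw [e1, pow_add 8 (a + l) b, pow_add 8 a l]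
        have e2 : T / 8 ^ (l + b) * 8 ^ l + w + 1 ≤ 8 ^ a * 8 ^ l := by
          have : (T / 8 ^ (l + b) + 1) * 8 ^ l ≤ 8 ^ a * 8 ^ l := Nat.mul_le_mul_right _ hu
          nlinarith
        have e3 : (T / 8 ^ (l + b) * 8 ^ l + w + 1) * 8 ^ b ≤ 8 ^ a * 8 ^ l * 8 ^ b :=
          Nat.mul_le_mul_right _ e2
        rw [Nat.add_mul (T / 8 ^ (l + b) * 8 ^ l + w) 1 (8 ^ b), one_mul] at e3
        generalize (T / 8 ^ (l + b) * 8 ^ l + w) * 8 ^ b = Z at *
        generalize 8 ^ a * 8 ^ l * 8 ^ b = Z' at *
        omega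
      · rw [pe_addP hp, hacc.2, zero_add, ha]
        conv_lhs => rw [hT]
        rw [pe_mulP hp a l b _ _ c h5 _ hb, hr]
        simp

theorem runSteps_sound (hp : (p : A) = 0) {k : ℕ} {t : Tr Rule} (ht : t.All (Sound V)) :
    ∀ (m x : ℕ) (acc acc' : List (ℕ × ℕ)), (Bdd (8 ^ k) acc ∧ pe V k acc = 0) →
    runSteps p k t m x acc = some acc' → Bdd (8 ^ k) acc' ∧ pe V k acc' = 0
  | 0, x, acc, acc', hacc, h => by
    simp only [runSteps, Option.some.injEq] at h
    rw [← h]; exact hacc
  | m + 1, x, acc, acc', hacc, h => by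
    unfold runSteps at h
    cases h1 : stepP p k t (x % 2 ^ 64) acc with
    | none => rw [h1] at h; simp at h
    | some acc1 =>
      rw [h1] at h
      exact runSteps_sound hp ht m _ acc1 acc' (stepP_sound hp ht hacc h1) h

theorem build_sound (hp : (p : A) = 0) : ∀ (cs : List (ℕ × ℕ × ℕ)) (i : ℕ) (t t' : Tr Rule),
    t.All (Sound V) → build p cs i t = some t' → t'.All (Sound V)
  | [], i, t, t', ht, h => by
    simp only [build, Option.some.injEq] at h
    rw [← h]; exact ht
  | (k, m, x) :: cs, i, t, t', ht, h => by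
    unfold build at h
    cases h1 : runSteps p k t m x [] with
    | none => rw [h1] at h; simp at h
    | some f =>
      rw [h1] at h
      refine build_sound hp cs (i + 1) _ t' (ht.set i ?_) h
      exact runSteps_sound hp ht m x [] f ⟨by intro y hy; simp at hy, rfl⟩ h1

theorem origT_sound : ∀ (fs : List (List (ℕ × ℕ))) (i : ℕ) (t : Tr Rule),
    (∀ f ∈ fs, Sound V ⟨2, f⟩) → t.All (Sound V) → (origT fs i t).All (Sound V)
  | [], i, t, _, ht => ht
  | f :: fs, i, t, h, ht =>
    origT_sound fs (i + 1) _ (fun g hg => h g (List.mem_cons_of_mem _ hg))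
      (ht.set i (h f List.mem_cons_self))

theorem Tr.allB_get {α : Type} {f : α → Bool} : ∀ {t : Tr α}, t.allB f = true →
    ∀ {i : ℕ} {a : α}, t.get i = some a → f a = true
  | .nil, _, i, a, h => by simp [Tr.get] at h
  | .nd l b r, ht, i, a, h => by
    rw [Tr.allB, Bool.and_eq_true, Bool.and_eq_true] at ht
    unfold Tr.get at h
    cases h1 : Nat.beq i 1 with
    | true => rw [h1] at h; simp at h; rw [← h]; exact ht.1
    | false =>
      rw [h1] at h
      cases h2 : Nat.beq (i % 2) 0 with
      | true => rw [h2] at h; exact Tr.allB_get ht.2.1 h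
      | false => rw [h2] at h; exact Tr.allB_get ht.2.2 h

theorem transAll_sound {t : Tr Rule} {ss : Tr St} {s : St} : ∀ (m x : ℕ),
    transAll t ss s m x = true → ∀ d < m, ∃ y, trans t ss s d y = true
  | 0, _, _, d, hd => by omega
  | m + 1, x, h, d, hd => by
    rw [transAll, Bool.and_eq_true] at h
    rcases Nat.lt_succ_iff_lt_or_eq.1 hd with h1 | h1
    · exact transAll_sound m _ h.2 d h1
    · rw [h1]; exact ⟨_, h.1⟩

theorem tailLt_sound {w : ℕ} : ∀ {f : List (ℕ × ℕ)}, tailLt w f = true → Bdd w f
  | [], _ => by intro x hx; simp at hx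
  | (w', c) :: f, h => by
    rw [tailLt, Bool.and_eq_true] at h
    intro x hx
    rcases List.mem_cons.1 hx with rfl | hx
    · exact Nat.le_of_ble_eq_true h.1
    · exact tailLt_sound h.2 x hx

/-- every word of sufficient length contains a leading word -/
theorem exists_lead {n : ℕ} {t : Tr Rule} {ss : Tr St} (ht : t.All (Sound V))
    (hs : ss.allB (fun s => transAll t ss s n s.tr) = true) : ∀ (m : ℕ) (i : ℕ) (s : St),
    ss.get i = some s → s.rank < m → ∀ (j y v : ℕ), y % 8 ^ s.len = s.val → s.len ≤ j →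
    v < 8 ^ m → (∀ e < m, v / 8 ^ e % 8 < n) →
    ∃ (r : Rule) (w : ℕ) (f : List (ℕ × ℕ)) (u b v' : ℕ), Sound V r ∧ r.poly = (w, 1) :: f ∧
      Bdd w f ∧ y * 8 ^ m + v = (u * 8 ^ r.len + w) * 8 ^ b + v' ∧ v' < 8 ^ b ∧
      r.len + b ≤ j + m
  | 0, i, s, _, hr, _, _, _, _, _, _, _ => by omega
  | m + 1, i, s, hi, hr, j, y, v, hy, hj, hv, hd => by
    have h1 := Tr.allB_get hs hi
    have hdm := hd m (by omega)
    have hvm : v / 8 ^ m < 8 := by
      rw [Nat.div_lt_iff_lt_mul (by positivity)]
      rw [pow_succ] at hv; omega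
    rw [Nat.mod_eq_of_lt hvm] at hdm
    obtain ⟨z, hz⟩ := transAll_sound n s.tr h1 _ hdm
    set d := v / 8 ^ m with hdd
    have hv1 : v % 8 ^ m < 8 ^ m := Nat.mod_lt _ (by positivity)
    have hv2 : v = d * 8 ^ m + v % 8 ^ m := by
      have := Nat.div_add_mod v (8 ^ m)
      rw [mul_comm] at this
      exact this.symm
    have e0 : y * 8 ^ (m + 1) + v = (y * 8 + d) * 8 ^ m + v % 8 ^ m := by
      conv_lhs => rw [hv2]
      rw [pow_succ]; ring
    -- the last `l` letters are determined
    have e1 : ∀ l, l ≤ s.len + 1 → (y * 8 + d) % 8 ^ l = (s.val * 8 + d) % 8 ^ l := by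
      intro l hl
      have e2 : y * 8 + d = (y / 8 ^ s.len) * 8 ^ (s.len + 1) + (s.val * 8 + d) := by
        have := Nat.div_add_mod y (8 ^ s.len)
        rw [hy] at this
        conv_lhs => rw [← this]
        rw [pow_succ]; ring
      rw [e2]
      obtain ⟨e, he⟩ := Nat.exists_eq_add_of_le hl
      rw [he, pow_add, mul_comm (8 ^ l) (8 ^ e), ← mul_assoc, Nat.mul_add_mod']
    unfold trans at hz
    cases hz1 : Nat.beq (z % 2) 0 with
    | true =>
      rw [hz1] at hz
      cases hz2 : t.get (z / 2) with
      | none => rw [hz2] at hz; simp at hz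
      | some r =>
        rw [hz2] at hz
        simp only at hz
        cases hz3 : r.poly with
        | nil => rw [hz3] at hz; simp at hz
        | cons wc f =>
          obtain ⟨w, c⟩ := wc
          rw [hz3] at hz
          simp only [Bool.and_eq_true] at hz
          obtain ⟨⟨⟨h5, h6⟩, h7⟩, h8⟩ := hz
          have h5 := Nat.eq_of_beq_eq_true h5
          have h6 := Nat.le_of_ble_eq_true h6
          have h7 := Nat.eq_of_beq_eq_true h7
          refine ⟨r, w, f, (y * 8 + d) / 8 ^ r.len, m, v % 8 ^ m, ht.get hz2, ?_,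
            tailLt_sound h8, ?_, hv1, by omega⟩
          · rw [hz3, h5]
          · rw [e0, ← h7, ← e1 _ h6]
            congr 2
            have := Nat.div_add_mod (y * 8 + d) (8 ^ r.len)
            rw [mul_comm] at this
            exact this.symm
    | false =>
      rw [hz1] at hz
      cases hz2 : ss.get (z / 2) with
      | none => rw [hz2] at hz; simp at hz
      | some s' =>
        rw [hz2] at hz
        simp only [Bool.and_eq_true] at hz
        obtain ⟨⟨h5, h6⟩, h7⟩ := hz
        have h5 := Nat.le_of_ble_eq_true h5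
        have h6 := Nat.le_of_ble_eq_true h6
        have h7 := Nat.eq_of_beq_eq_true h7
        obtain ⟨r, w, f, u, b, v', g1, g2, g3, g4, g5, g6⟩ :=
          exists_lead ht hs m (z / 2) s' hz2 (by omega) (j + 1) (y * 8 + d) (v % 8 ^ m)
            (by rw [e1 _ h6]; exact h7) (by omega) hv1 (by
              intro e he
              have := hd e (by omega)
              have e3 : v / 8 ^ e % 8 = (v % 8 ^ m) / 8 ^ e % 8 := by
                obtain ⟨e', he'⟩ := Nat.exists_eq_add_of_lt he
                have e4 : v = d * 8 ^ e' * 8 * 8 ^ e + v % 8 ^ m := by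
                  conv_lhs => rw [hv2]
                  rw [he']; ring
                conv_lhs => rw [e4]
                rw [mul_comm (d * 8 ^ e' * 8) (8 ^ e), Nat.mul_add_div (by positivity),
                  Nat.mul_add_mod']
              rw [← e3]; exact this)
        exact ⟨r, w, f, u, b, v', g1, g2, g3, by rw [e0]; exact g4, g5, by omega⟩

theorem ew_eq_zero_of_digit {n : ℕ} (hV : ∀ d, n ≤ d → V d = 0) : ∀ (k x e : ℕ), e < k →
    n ≤ x / 8 ^ e % 8 → ew V k x = 0
  | 0, x, e, he, _ => by omega
  | k + 1, x, 0, _, h => by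
    rw [ew, hV (x % 8) (by simpa using h), mul_zero]
  | k + 1, x, e + 1, he, h => by
    rw [ew, ew_eq_zero_of_digit hV k (x / 8) e (by omega) (by
      rw [Nat.div_div_eq_div_mul, ← pow_succ']; exact h), zero_mul]

theorem pe_left_right (k l b u v : ℕ) (hv : v < 8 ^ b) (f : List (ℕ × ℕ)) (hf : Bdd (8 ^ l) f)
    (h0 : ∀ wc ∈ f, ew V (k + l + b) ((u * 8 ^ l + wc.1) * 8 ^ b + v) = 0) :
    ew V k u * pe V l f * ew V b v = 0 := by
  induction f with
  | nil => simp [pe]
  | cons wc f ih =>
    obtain ⟨w, c⟩ := wc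
    have h1 := h0 (w, c) List.mem_cons_self
    have hw : w < 8 ^ l := hf (w, c) List.mem_cons_self
    rw [ew_append V (k + l) _ b v hv, ew_append V k u l w hw] at h1
    have ih' := ih (fun x hx => hf x (List.mem_cons_of_mem _ hx))
      (fun x hx => h0 x (List.mem_cons_of_mem _ hx))
    rw [pe, mul_add, add_mul, ih', add_zero, ← mul_assoc (ew V k u) (c : A),
      (Nat.cast_commute c (ew V k u)).eq.symm]
    have : (c : A) * ew V k u * ew V l w * ew V b v =
        (c : A) * (ew V k u * ew V l w * ew V b v) := by simp only [mul_assoc]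
    rw [this, h1, mul_zero]

theorem ew_eq_zero {n L : ℕ} {t : Tr Rule} {ss : Tr St} (ht : t.All (Sound V))
    (hV : ∀ d, n ≤ d → V d = 0)
    (hs : ss.allB (fun s => transAll t ss s n s.tr) = true) {s : St} (hs1 : ss.get 1 = some s)
    (hs2 : s.len = 0) (hs3 : s.val = 0) (hs4 : s.rank < L) :
    ∀ x < 8 ^ L, ew V L x = 0 := by
  intro x
  induction x using Nat.strong_induction_on with
  | _ x ih =>
    intro hx
    by_cases hd : ∀ e < L, x / 8 ^ e % 8 < n
    · obtain ⟨r, w, f, u, b, v', g1, g2, g3, g4, g5, g6⟩ :=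
        exists_lead ht hs L 1 s hs1 hs4 0 0 x (by rw [hs2, hs3]; simp) (by omega) hx hd
      rw [zero_mul, zero_add] at g4
      have hk : L = (L - r.len - b) + r.len + b := by omega
      obtain ⟨hb, hr⟩ := g1
      rw [g2] at hb hr
      have hw : w < 8 ^ r.len := hb (w, 1) List.mem_cons_self
      have hf : Bdd (8 ^ r.len) f := fun x hx => hb x (List.mem_cons_of_mem _ hx)
      rw [pe, Nat.cast_one, one_mul] at hr
      have h2 := pe_left_right (V := V) (L - r.len - b) r.len b u v' g5 f hf (by
        intro wc hwc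
        rw [← hk]
        have h3 := g3 wc hwc
        have h4 : (u * 8 ^ r.len + wc.1) * 8 ^ b + v' < x := by
          rw [g4]
          have : (u * 8 ^ r.len + wc.1) * 8 ^ b < (u * 8 ^ r.len + w) * 8 ^ b :=
            Nat.mul_lt_mul_of_pos_right (by omega) (by positivity)
          omega
        exact ih _ h4 (by omega))
      rw [g4, hk, ew_append V _ _ b v' g5, ew_append V _ u _ w hw,
        eq_neg_of_add_eq_zero_left hr, mul_neg, neg_mul, h2, neg_zero]
    · push Not at hd
      obtain ⟨e, he, h⟩ := hd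
      exact ew_eq_zero_of_digit hV L x e he h

end sound

section final

variable {K : Type u} [Field K]

/-- the coefficient matrix of an original relation -/
def qOf (K : Type u) [Field K] (n : ℕ) (f : List (ℕ × ℕ)) : Fin n → Fin n → K :=
  fun i j => (f.map (fun wc => if wc.1 = 8 * i.1 + j.1 then (wc.2 : K) else 0)).sum

/-- extension of a family by zero -/
def extV {A : Type u} [Ring A] {n : ℕ} (V : Fin n → A) (d : ℕ) : A :=
  if h : d < n then V ⟨d, h⟩ else 0

theorem ev_qOf {A : Type u} [Ring A] [Algebra K A] {n : ℕ} (hn : n ≤ 8) (V : Fin n → A) :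
    ∀ f : List (ℕ × ℕ), wordsOk n f = true →
    ev (qOf K n f) V = pe (extV V) 2 f
  | [], _ => by simp [ev, qOf, pe]
  | (w, c) :: f, h => by
    rw [wordsOk, Bool.and_eq_true, Bool.and_eq_true] at h
    obtain ⟨⟨h1, h2⟩, h3⟩ := h
    have h1 : w / 8 < n := Nat.le_of_ble_eq_true h1
    have h2 : w % 8 < n := Nat.le_of_ble_eq_true h2
    rw [pe, ← ev_qOf hn V f h3]
    have e1 : ew (extV V) 2 w = V ⟨w / 8, h1⟩ * V ⟨w % 8, h2⟩ := by
      simp only [ew, one_mul, extV]
      rw [dif_pos h2, dif_pos (by omega : w / 8 % 8 < n)]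
      congr 2
      have : w / 8 % 8 = w / 8 := by omega
      simp only [this]
    have e2 : ∀ i j : Fin n, qOf K n ((w, c) :: f) i j =
        (if w = 8 * i.1 + j.1 then (c : K) else 0) + qOf K n f i j := by
      intro i j; simp [qOf]
    simp only [ev, e2, add_smul, Finset.sum_add_distrib]
    congr 1
    rw [Finset.sum_eq_single (⟨w / 8, h1⟩ : Fin n)]
    · rw [Finset.sum_eq_single (⟨w % 8, h2⟩ : Fin n)]
      · rw [if_pos (by simp only; omega), e1, ← map_natCast (algebraMap K A) c, Algebra.smul_def]
      · intro b _ hb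
        rw [if_neg, zero_smul]
        intro h
        apply hb
        ext
        simp only at h ⊢
        omega
      · simp
    · intro a _ ha
      refine Finset.sum_eq_zero fun b _ => ?_
      rw [if_neg, zero_smul]
      intro h
      apply ha
      ext
      have := b.2
      simp only at h ⊢
      omega
    · simp

theorem ew_list {A : Type u} [Ring A] {n : ℕ} (hn : n ≤ 8) (V : Fin n → A) (l : List (Fin n)) :
    ∃ x < 8 ^ l.length, ew (extV V) l.length x = (l.map V).prod := by
  induction l using List.reverseRecOn with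
  | nil => exact ⟨0, by simp, rfl⟩
  | append_singleton l a ih =>
    obtain ⟨x, hx, h⟩ := ih
    have ha := a.2
    refine ⟨x * 8 + a.1, ?_, ?_⟩
    · rw [List.length_append, List.length_singleton, pow_succ]; omega
    · rw [List.length_append, List.length_singleton, ew]
      have h1 : (x * 8 + a.1) / 8 = x := by omega
      have h2 : (x * 8 + a.1) % 8 = a.1 := by omega
      rw [h1, h2, h, List.map_append, List.prod_append]
      simp [extV, ha]

theorem origOk_mem {n : ℕ} : ∀ {fs : List (List (ℕ × ℕ))}, origOk n fs = true →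
    ∀ f ∈ fs, wordsOk n f = true
  | [], _, f, hf => by simp at hf
  | g :: fs, h, f, hf => by
    rw [origOk, Bool.and_eq_true] at h
    rcases List.mem_cons.1 hf with rfl | hf
    · exact h.1
    · exact origOk_mem h.2 f hf

theorem wordsOk_bdd {n : ℕ} (hn : n ≤ 8) : ∀ {f : List (ℕ × ℕ)}, wordsOk n f = true →
    Bdd (8 ^ 2) f
  | [], _ => by intro x hx; simp at hx
  | (w, c) :: f, h => by
    rw [wordsOk, Bool.and_eq_true, Bool.and_eq_true] at h
    obtain ⟨⟨h1, h2⟩, h3⟩ := h
    have h1 : w / 8 < n := Nat.le_of_ble_eq_true h1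
    intro x hx
    rcases List.mem_cons.1 hx with rfl | hx
    · simp only; omega
    · exact wordsOk_bdd hn h3 x hx

theorem goodD_of_check (p n L : ℕ) (hp : (p : K) = 0) (orig : List (List (ℕ × ℕ)))
    (cert : List (ℕ × ℕ × ℕ)) (sts : List (ℕ × ℕ × ℕ × ℕ))
    (h : check p n L orig cert sts = true) : GoodD K n orig.length := by
  unfold check at h
  rw [Bool.and_eq_true, Bool.and_eq_true] at h
  obtain ⟨⟨hn, ho⟩, h⟩ := h
  have hn : n ≤ 8 := Nat.le_of_ble_eq_true hn
  refine ⟨Fin n, Fin orig.length, inferInstance, inferInstance,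
    fun k => qOf K n (orig.get k), L, by simp, by simp, ?_⟩
  intro A _ _ V hV l hl
  have hpA : (p : A) = 0 := by
    have := congrArg (algebraMap K A) hp
    simpa using this
  have hor : ∀ f ∈ orig, Sound (extV V) ⟨2, f⟩ := by
    intro f hf
    obtain ⟨k, hk⟩ := List.get_of_mem hf
    have h1 := hV k
    simp only [hk] at h1
    rw [ev_qOf hn V f (origOk_mem ho f hf)] at h1
    exact ⟨wordsOk_bdd hn (origOk_mem ho f hf), h1⟩
  cases h1 : build p cert (orig.length + 1) (origT orig 1 .nil) with
  | none => rw [h1] at h; simp at h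
  | some t =>
    rw [h1] at h
    simp only at h
    have ht : t.All (Sound (extV V)) :=
      build_sound hpA cert _ _ t (origT_sound orig 1 .nil hor trivial) h1
    cases h2 : (stT sts 1 .nil).get 1 with
    | none => rw [h2] at h; simp at h
    | some s =>
      rw [h2] at h
      simp only [Bool.and_eq_true] at h
      obtain ⟨⟨⟨h3, h4⟩, h5⟩, h6⟩ := h
      have h3 := Nat.eq_of_beq_eq_true h3
      have h4 := Nat.le_of_ble_eq_true h4
      have h5 := Nat.eq_of_beq_eq_true h5
      obtain ⟨x, hx, hx2⟩ := ew_list hn V l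
      rw [hl] at hx hx2
      rw [← hx2]
      exact ew_eq_zero ht (fun d hd => dif_neg (by omega)) h6 h2 h3 h5 h4 x hx

end final

end Pool.Agent.Lib.MP_f6e06e_al.Chk
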