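import Mathlib
import Pool.Agent.Lib.MP_f6e06e_al.Checker

/-!
Certificate: a nilpotent quadratic algebra with 3 generators and 3 relations in characteristic 2.
-/

namespace Pool.Agent.Lib.MP_f6e06e_al.C33p2

open Pool.Agent.Lib.MP_f6e06e_al

universe u

/-- the relations -/
def orig : List (List (ℕ × ℕ)) :=
  [[(17, 1), (10, 1), (9, 1)],
   [(8, 1), (2, 1)],
   [(18, 1), (10, 1), (0, 1)]]

/-- derivations of the rules -/
def cert : List (ℕ × ℕ × ℕ) :=
  [(2, 1, 9),
   (2, 1, 5),
   (2, 1, 13),
   (3, 3, 91997719873644160476053039731377469808451609),
   (3, 5, 2894802230932906582622560092212505096130097761260671073442680760693885518225429),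
   (3, 6, 17534317577874751837718074101041321674264450225623766937677881483984127346183339128217410424606433305),
   (4, 4, 232252764209310042764455550283787957580922869577606873882657),
   (4, 5, 951463597263027178721185808039068511834679655059122957600432145730613748751802405),
   (4, 9, 549720125127646481103613347931012301705192578311662476412078386383190392896152576033945281626201620088883829223197500262805753071086066358839259629973938209),
   (4, 9, 227932734809024156659377512712136679215517803181909247868365410437529156333166939969640018619965300663969783837392458810903743350449213084587661032844959781),
   (4, 3, 18034965446809738564462744653495483236393),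
   (5, 3, 18034965446809738564093809772021292212277),
   (5, 4, 156927543384667019111207442091633891259019486000462847811637),
   (5, 9, 817876283726498429040634612633193908824609899287974556505751383448412970893360042118454578633293636538182555601980239608412402555157770036372912964878213165),
   (5, 14, 715972597961874449894284057438259406146674627196181574403303754733332821232943282768938552737226667376696330657773797926310556072845134111510299796835463861636235112494981518765398505199195427712925153963292585925509495112029476129534657333869844381725),
   (5, 21, 1519558100421002265989295844536498902453222634455329658141126465857489266532333726458613903007286012213242763870562449729207964823711196306547597130930186756657100152563638554059830865634723502586265082059120354991158830087177659109957677178824966539073790762995865227618956865078813872671521034948606008012682433989540346898770409693474591585701490155763510353694503150886927220525375545),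
   (5, 2, 1346612317380797268033),
   (6, 5, 957021617546418355175971118640190225518368676741275930013976024459836236033433681)]

/-- states of the automaton -/
def sts : List (ℕ × ℕ × ℕ × ℕ) :=
  [(5, 0, 0, 83914761),
   (4, 1, 0, 184602633),
   (3, 1, 1, 134279177),
   (2, 1, 2, 285253644),
   (3, 2, 0, 318853143),
   (2, 2, 1, 134320155),
   (2, 2, 9, 134291485),
   (1, 2, 16, 235008016),
   (2, 3, 0, 553791511),
   (1, 3, 1, 134369307),
   (0, 3, 2, 436248588),
   (1, 3, 9, 134291495),
   (0, 3, 10, 369139724),
   (1, 3, 74, 687906828),
   (0, 3, 129, 134316060),
   (1, 4, 0, 604155927),
   (1, 4, 1, 134381595),
   (0, 4, 9, 134291486),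
   (0, 4, 74, 570466316),
   (0, 4, 592, 235036688),
   (0, 5, 1, 134381610)]

theorem check_true : Chk.check 2 3 6 orig cert sts = true := by decide +kernel

theorem good {K : Type u} [Field K] (h : ((2 : ℕ) : K) = 0) : GoodD K 3 3 :=
  Chk.goodD_of_check 2 3 6 h orig cert sts check_true

end Pool.Agent.Lib.MP_f6e06e_al.C33p2
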