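import Mathlib
import Pool.Agent.Lib.MP_f6e06e_al.Checker

/-!
Certificate: a nilpotent quadratic algebra with 3 generators and 3 relations in characteristic 3.
-/

namespace Pool.Agent.Lib.MP_f6e06e_al.C33p3

open Pool.Agent.Lib.MP_f6e06e_al

universe u

/-- the relations -/
def orig : List (List (ℕ × ℕ)) :=
  [[(2, 1)],
   [(18, 2), (16, 2), (8, 2), (0, 1)],
   [(10, 2), (9, 1)]]

/-- derivations of the rules -/
def cert : List (ℕ × ℕ × ℕ) :=
  [(2, 1, 5),
   (2, 1, 14),
   (2, 1, 10),
   (3, 3, 2793718232420904785034766695616659755114514),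
   (3, 4, 52656283930516771855938613308564415316802333077199052757105123350),
   (3, 6, 38447766646577352819524969092621878428401179193709036989781197331859592385323802386178768896270362),
   (4, 3, 2798822467924720099926904174061000853692450),
   (4, 4, 51635438875290835968895876307011181608378821510597739333828630),
   (4, 2, 848550227390639374377),
   (5, 2, 9903521144386525516122832930),
   (6, 2, 977677435906606260254),
   (6, 4, 364071900652427487108103901809340739715484906909010308915237)]

/-- states of the automaton -/
def sts : List (ℕ × ℕ × ℕ × ℕ) :=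
  [(8, 0, 0, 83914761),
   (7, 1, 0, 184602632),
   (6, 1, 1, 251727882),
   (7, 1, 2, 318853132),
   (6, 2, 0, 385929224),
   (2, 2, 1, 234950666),
   (5, 2, 8, 419483656),
   (1, 2, 9, 453050378),
   (6, 2, 16, 486592520),
   (2, 2, 17, 302059530),
   (5, 3, 0, 520146952),
   (4, 3, 64, 553701384),
   (0, 3, 72, 369197064),
   (5, 3, 128, 587255816),
   (4, 4, 0, 620810248),
   (3, 4, 512, 436260872),
   (4, 4, 1024, 654364680),
   (3, 5, 0, 469815304),
   (3, 5, 8192, 503369736)]

theorem check_true : Chk.check 3 3 9 orig cert sts = true := by decide +kernel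

theorem good {K : Type u} [Field K] (h : ((3 : ℕ) : K) = 0) : GoodD K 3 3 :=
  Chk.goodD_of_check 3 3 9 h orig cert sts check_true

end Pool.Agent.Lib.MP_f6e06e_al.C33p3
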