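import Mathlib

/-!
A small checker for ideal membership certificates in free algebras over `ZMod p` (`p` small).
Words are lists of natural numbers, polynomials are lists of (coefficient, word).
-/

namespace Pool.Agent.Lib.MP_f6e06e_al

/-- words -/
abbrev Wd := List ℕ

/-- polynomials with natural number coefficients -/
abbrev Pl := List (ℕ × Wd)

/-- one summand `c * u * (polynomial number i) * v` of a combination -/
abbrev Cb := ℕ × Wd × ℕ × Wd

/-- comparison of words -/
def wcmp : Wd → Wd → Ordering
  | [], [] => .eq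
  | [], _ :: _ => .lt
  | _ :: _, [] => .gt
  | a :: u, b :: v => bif Nat.blt a b then .lt else bif Nat.blt b a then .gt else wcmp u v

theorem eq_of_wcmp : ∀ u v : Wd, wcmp u v = .eq → u = v
  | [], [], _ => rfl
  | [], _ :: _, h => by simp [wcmp] at h
  | _ :: _, [], h => by simp [wcmp] at h
  | a :: u, b :: v, h => by
    rw [wcmp] at h
    cases h1 : Nat.blt a b
    · cases h2 : Nat.blt b a
      · rw [h1, h2] at h
        have h3 : ¬ a < b := by
          intro h4; rw [← Nat.blt_eq] at h4; rw [h4] at h1; cases h1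
        have h4 : ¬ b < a := by
          intro h4; rw [← Nat.blt_eq] at h4; rw [h4] at h2; cases h2
        have h5 : a = b := by omega
        rw [h5, eq_of_wcmp u v h]
      · rw [h1, h2] at h; cases h
    · rw [h1] at h; cases h

/-- add `c * w` to a polynomial -/
def ins (p c : ℕ) (w : Wd) : Pl → Pl
  | [] => [(c, w)]
  | (d, v) :: f =>
    match wcmp w v with
    | .lt => (c, w) :: (d, v) :: f
    | .gt => (d, v) :: ins p c w f
    | .eq => bif Nat.beq ((c + d) % p) 0 then f else ((c + d) % p, w) :: f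

/-- add `c * u * f * v` to a polynomial -/
def addM (p c : ℕ) (u v : Wd) : Pl → Pl → Pl
  | [], g => g
  | (d, w) :: f, g => addM p c u v f (ins p (c * d % p) (u ++ (w ++ v)) g)

/-- the value of a combination -/
def comb (p : ℕ) (S : List Pl) : List Cb → Pl → Pl
  | [], g => g
  | (c, u, i, v) :: t, g => comb p S t (addM p c u v (S.getD i []) g)

/-- check that `q` is the combination `cs` -/
def stepOk (p : ℕ) (S : List Pl) (k : ℕ) (q : Pl) (cs : List Cb) : Bool :=
  cs.all (fun c => Nat.blt c.2.2.1 k) && (comb p S cs (addM p (p - 1) [] [] q [])).isEmpty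

/-- check a list of steps -/
def chk (p : ℕ) (S : List Pl) : ℕ → List (List Cb) → Bool
  | _, [] => true
  | k, cs :: t => stepOk p S k (S.getD k []) cs && chk p S (k + 1) t

/-- membership in a list of words -/
def wmem (w : Wd) : List Wd → Bool
  | [] => false
  | v :: t => match wcmp w v with
    | .eq => true
    | _ => wmem w t

/-- `f` expresses the word `z` in terms of the words in `N` -/
def redFor (z : Wd) (N : List Wd) : Pl → Bool
  | [] => false
  | (c, w) :: t => Nat.beq c 1 && (match wcmp w z with | .eq => true | _ => false) &&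
      t.all (fun s => wmem s.2 N)

/-- one level -/
def lvChk (p : ℕ) (S : List Pl) (m : ℕ) (N N' : List Wd) (R : List (Pl × List Cb)) : Bool :=
  R.all (fun r => stepOk p S S.length r.1 r.2) &&
    N.all (fun n => (List.range m).all (fun i => wmem (i :: n) N' ||
      R.any (fun r => redFor (i :: n) N' r.1)))

/-- all levels -/
def nilChk (p : ℕ) (S : List Pl) (m : ℕ) : List Wd → List (List Wd × List (Pl × List Cb)) → Bool
  | N, [] => N.isEmpty
  | N, (N', R) :: t => lvChk p S m N N' R && nilChk p S m N' t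

section eval

variable {A : Type*} [Ring A] (V : ℕ → A)

/-- value of a word -/
def ew (w : Wd) : A := (w.map V).prod

/-- value of a polynomial -/
def ep (f : Pl) : A := (f.map (fun t => (t.1 : A) * ew V t.2)).sum

@[simp] theorem ew_nil : ew V [] = 1 := rfl

@[simp] theorem ew_cons (a : ℕ) (w : Wd) : ew V (a :: w) = V a * ew V w := by simp [ew]

@[simp] theorem ew_append (u v : Wd) : ew V (u ++ v) = ew V u * ew V v := by simp [ew]

@[simp] theorem ep_nil : ep V [] = 0 := rfl

@[simp] theorem ep_cons (t : ℕ × Wd) (f : Pl) :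
    ep V (t :: f) = (t.1 : A) * ew V t.2 + ep V f := by simp [ep]

variable {V} {p : ℕ}

theorem cast_mod (hp : (p : A) = 0) (c : ℕ) : ((c % p : ℕ) : A) = (c : A) := by
  conv_rhs => rw [← Nat.div_add_mod c p]
  push_cast
  rw [hp, zero_mul, zero_add]

theorem ep_ins (hp : (p : A) = 0) (c : ℕ) (w : Wd) : ∀ f : Pl,
    ep V (ins p c w f) = (c : A) * ew V w + ep V f
  | [] => by simp [ins]
  | (d, v) :: f => by
    rw [ins]
    cases h : wcmp w v
    · simp
    · have h1 := eq_of_wcmp w v h
      subst h1
      have h2 := cast_mod (A := A) hp (c + d)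
      cases h3 : Nat.beq ((c + d) % p) 0
      · simp only [cond_false, ep_cons]
        rw [h2]; push_cast; noncomm_ring
      · have h4 : (c + d) % p = 0 := Nat.eq_of_beq_eq_true h3
        rw [h4] at h2
        simp only [cond_true, ep_cons]
        have h5 : ((c : A) + (d : A)) = 0 := by rw [← Nat.cast_add, ← h2]; simp
        rw [← add_assoc, ← add_mul, h5]; simp
    · simp only [ep_cons]
      rw [ep_ins hp c w f, ← add_assoc, ← add_assoc, add_comm ((d : A) * ew V v)]

theorem ep_addM (hp : (p : A) = 0) (c : ℕ) (u v : Wd) : ∀ f g : Pl,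
    ep V (addM p c u v f g) = (c : A) * (ew V u * ep V f * ew V v) + ep V g
  | [], g => by simp [addM]
  | (d, w) :: f, g => by
    rw [addM, ep_addM hp c u v f, ep_ins hp, cast_mod hp]
    simp only [ep_cons, ew_append]
    push_cast
    have hd : ∀ x : A, ew V u * ((d : A) * x) = (d : A) * (ew V u * x) := by
      intro x
      rw [← mul_assoc, ← (Nat.cast_commute d (ew V u)).eq, mul_assoc]
    rw [mul_add, add_mul, mul_add, hd]
    simp only [mul_assoc]
    rw [← add_assoc]
    congr 1
    rw [add_comm]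

theorem ep_comb (hp : (p : A) = 0) (S : List Pl) (k : ℕ)
    (hS : ∀ i < k, ep V (S.getD i []) = 0) : ∀ (cs : List Cb) (g : Pl),
    (cs.all (fun c => Nat.blt c.2.2.1 k) = true) → ep V (comb p S cs g) = ep V g
  | [], g, _ => by simp [comb]
  | (c, u, i, v) :: t, g, h => by
    rw [List.all_cons, Bool.and_eq_true] at h
    rw [comb, ep_comb hp S k hS t _ h.2, ep_addM hp, hS i (by simpa [Nat.blt_eq] using h.1)]
    simp

theorem ep_stepOk (hp : (p : A) = 0) (hp1 : 1 ≤ p) (S : List Pl) (k : ℕ)
    (hS : ∀ i < k, ep V (S.getD i []) = 0) (q : Pl) (cs : List Cb)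
    (h : stepOk p S k q cs = true) : ep V q = 0 := by
  rw [stepOk, Bool.and_eq_true, List.isEmpty_iff] at h
  have h1 := ep_comb hp S k hS cs (addM p (p - 1) [] [] q []) h.1
  rw [h.2, ep_addM hp] at h1
  have h2 : ((p - 1 : ℕ) : A) = -1 := by
    rw [Nat.cast_sub hp1, hp]; simp
  rw [h2] at h1
  simpa using h1.symm

theorem ep_chk (hp : (p : A) = 0) (hp1 : 1 ≤ p) (S : List Pl) : ∀ (t : List (List Cb)) (k : ℕ),
    (∀ i < k, ep V (S.getD i []) = 0) → chk p S k t = true →
    ∀ i < k + t.length, ep V (S.getD i []) = 0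
  | [], k, hS, _ => by simpa using hS
  | cs :: t, k, hS, h => by
    rw [chk, Bool.and_eq_true] at h
    have h1 := ep_stepOk hp hp1 S k hS _ cs h.1
    have h2 := ep_chk hp hp1 S t (k + 1) (by
      intro i hi
      rcases Nat.lt_succ_iff_lt_or_eq.1 hi with h3 | h3
      · exact hS i h3
      · rw [h3]; exact h1) h.2
    intro i hi
    exact h2 i (by rw [List.length_cons] at hi; omega)

theorem mem_of_wmem (w : Wd) : ∀ l : List Wd, wmem w l = true → w ∈ l
  | [], h => by simp [wmem] at h
  | v :: t, h => by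
    rw [wmem] at h
    cases h1 : wcmp w v
    · rw [h1] at h
      exact List.mem_cons_of_mem _ (mem_of_wmem w t h)
    · rw [eq_of_wcmp w v h1]; exact List.mem_cons_self
    · rw [h1] at h
      exact List.mem_cons_of_mem _ (mem_of_wmem w t h)

/-- additive group generated by the values of the words in `N` -/
def wspan (V : ℕ → A) (N : List Wd) : AddSubgroup A :=
  AddSubgroup.closure {x | ∃ w ∈ N, ew V w = x}

theorem ep_mem_wspan (N : List Wd) : ∀ t : Pl, (t.all (fun s => wmem s.2 N) = true) →
    ep V t ∈ wspan V N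
  | [], _ => by simp
  | (c, w) :: t, h => by
    rw [List.all_cons, Bool.and_eq_true] at h
    rw [ep_cons]
    refine add_mem ?_ (ep_mem_wspan N t h.2)
    have h1 : ew V w ∈ wspan V N := AddSubgroup.subset_closure ⟨w, mem_of_wmem w N h.1, rfl⟩
    rw [← nsmul_eq_mul]
    exact AddSubgroup.nsmul_mem _ h1 c

theorem ew_mem_of_redFor (z : Wd) (N : List Wd) (f : Pl) (h : redFor z N f = true)
    (hf : ep V f = 0) : ew V z ∈ wspan V N := by
  match f, h with
  | (c, w) :: t, h =>
    rw [redFor, Bool.and_eq_true, Bool.and_eq_true] at h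
    have hc : c = 1 := Nat.eq_of_beq_eq_true h.1.1
    have hw : w = z := by
      cases h1 : wcmp w z
      · rw [h1] at h; simp at h
      · exact eq_of_wcmp w z h1
      · rw [h1] at h; simp at h
    subst hc hw
    rw [ep_cons] at hf
    have h2 := ep_mem_wspan (V := V) N t h.2
    have h3 : ew V w = - ep V t := by
      rw [Nat.cast_one, one_mul] at hf
      exact eq_neg_of_add_eq_zero_left hf
    rw [h3]
    exact neg_mem h2

theorem mul_mem_of_lvChk (hp : (p : A) = 0) (hp1 : 1 ≤ p) (S : List Pl) (m : ℕ)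
    (hS : ∀ i < S.length, ep V (S.getD i []) = 0) (N N' : List Wd) (R : List (Pl × List Cb))
    (h : lvChk p S m N N' R = true) (i : ℕ) (hi : i < m) (x : A) (hx : x ∈ wspan V N) :
    V i * x ∈ wspan V N' := by
  rw [lvChk, Bool.and_eq_true, List.all_eq_true, List.all_eq_true] at h
  refine AddSubgroup.closure_induction ?_ ?_ ?_ ?_ hx
  · rintro x ⟨n, hn, rfl⟩
    have h1 := h.2 n hn
    rw [List.all_eq_true] at h1
    have h2 := h1 i (List.mem_range.2 hi)
    rw [Bool.or_eq_true, List.any_eq_true] at h2
    rw [← ew_cons]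
    rcases h2 with h2 | ⟨r, hr, h2⟩
    · exact AddSubgroup.subset_closure ⟨_, mem_of_wmem _ _ h2, rfl⟩
    · exact ew_mem_of_redFor _ _ _ h2 (ep_stepOk hp hp1 S _ hS _ _ (h.1 r hr))
  · simp
  · intro a b _ _ ha hb
    rw [mul_add]; exact add_mem ha hb
  · intro a _ ha
    rw [mul_neg]; exact neg_mem ha

theorem ew_mem_of_nilChk (hp : (p : A) = 0) (hp1 : 1 ≤ p) (S : List Pl) (m : ℕ)
    (hS : ∀ i < S.length, ep V (S.getD i []) = 0) :
    ∀ (L : List (List Wd × List (Pl × List Cb))) (N : List Wd), nilChk p S m N L = true →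
    ∀ x ∈ wspan V N, ∀ u : Wd, (∀ i ∈ u, i < m) → u.length = L.length → ew V u * x = 0
  | [], N, h, x, hx, u, _, hu => by
    rw [nilChk, List.isEmpty_iff] at h
    subst h
    have : x = 0 := by
      have h1 : wspan V ([] : List Wd) = ⊥ := by
        rw [wspan, AddSubgroup.closure_eq_bot_iff]
        rintro x ⟨w, hw, _⟩
        simp at hw
      rw [h1] at hx
      exact AddSubgroup.mem_bot.1 hx
    rw [this, mul_zero]
  | (N', R) :: t, N, h, x, hx, u, hm, hu => by
    rw [nilChk, Bool.and_eq_true] at h
    rcases List.eq_nil_or_concat u with rfl | ⟨u', i, rfl⟩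
    · simp at hu
    · rw [List.concat_eq_append, ew_append, ew_cons, ew_nil, mul_one, mul_assoc]
      refine ew_mem_of_nilChk hp hp1 S m hS t N' h.2 _
        (mul_mem_of_lvChk hp hp1 S m hS N N' R h.1 i (hm i (by simp)) x hx) u'
        (fun k hk => hm k (by simp [hk])) (by simpa using hu)

theorem ew_eq_zero_of_nilChk (hp : (p : A) = 0) (hp1 : 1 ≤ p) (S : List Pl) (m k : ℕ)
    (C : List (List Cb)) (hC : chk p S k C = true) (hlen : S.length = k + C.length)
    (hS : ∀ i < k, ep V (S.getD i []) = 0)
    (L : List (List Wd × List (Pl × List Cb))) (h : nilChk p S m [[]] L = true)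
    (u : Wd) (hm : ∀ i ∈ u, i < m) (hu : u.length = L.length) : ew V u = 0 := by
  have h1 := ep_chk hp hp1 S C k hS hC
  have h3 : (1 : A) ∈ wspan V [[]] := AddSubgroup.subset_closure ⟨[], by simp, rfl⟩
  have h2 := ew_mem_of_nilChk hp hp1 S m (by rw [hlen]; exact h1) L [[]] h 1 h3 u hm hu
  simpa using h2

end eval

end Pool.Agent.Lib.MP_f6e06e_al
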