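import Mathlib
import Pool.Agent.Lib.MP_f6e06e_al.Basic

/-!
Reduction of words with many letters from `W`, when gaps between such letters may be moved out.
Letters: `inl a` (`a : W`), `inr false` (the letter `x`) and `inr true` (the letter `y`).
-/

namespace Pool.Agent.Lib.MP_f6e06e_al

universe u

section fill

variable {W : Type}

/-- `fill hs z u`: the word `h₁ u₁ h₂ u₂ … h_k u_k z` -/
def fill : List (List Bool) → List (W ⊕ Bool) → List W → List (W ⊕ Bool)
  | h :: hs, z, v :: u => h.map Sum.inr ++ Sum.inl v :: fill hs z u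
  | _, z, _ => z

@[simp] theorem fill_cons (h : List Bool) (hs : List (List Bool)) (z : List (W ⊕ Bool)) (v : W)
    (u : List W) : fill (h :: hs) z (v :: u) = h.map Sum.inr ++ Sum.inl v :: fill hs z u := rfl

@[simp] theorem fill_nil (z : List (W ⊕ Bool)) (u : List W) : fill [] z u = z := by
  cases u <;> rfl

theorem fill_append (z : List (W ⊕ Bool)) : ∀ (u₁ : List W) (hs₁ : List (List Bool)),
    hs₁.length = u₁.length → ∀ (hs₂ : List (List Bool)) (u₂ : List W),
    fill (hs₁ ++ hs₂) z (u₁ ++ u₂) = fill hs₁ [] u₁ ++ fill hs₂ z u₂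
  | [], [], _, hs₂, u₂ => by simp
  | [], _ :: _, h, _, _ => by simp at h
  | _ :: _, [], h, _, _ => by simp at h
  | v :: u₁, h :: hs₁, hlen, hs₂, u₂ => by
    have := fill_append z u₁ hs₁ (by simpa using hlen) hs₂ u₂
    simp [this]

/-- the number of letters of `W` in a word -/
def cnt (l : List (W ⊕ Bool)) : ℕ := l.countP Sum.isLeft

@[simp] theorem cnt_nil : cnt ([] : List (W ⊕ Bool)) = 0 := rfl

@[simp] theorem cnt_append (l₁ l₂ : List (W ⊕ Bool)) : cnt (l₁ ++ l₂) = cnt l₁ + cnt l₂ := by
  simp [cnt]

@[simp] theorem cnt_inl (a : W) (l : List (W ⊕ Bool)) : cnt (Sum.inl a :: l) = cnt l + 1 := by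
  simp [cnt, List.countP_cons]

@[simp] theorem cnt_inr (b : Bool) (l : List (W ⊕ Bool)) : cnt (Sum.inr b :: l) = cnt l := by
  simp [cnt]

@[simp] theorem cnt_map_inr (h : List Bool) : cnt (h.map (Sum.inr : Bool → W ⊕ Bool)) = 0 := by
  induction h with
  | nil => rfl
  | cons b h ih => simp [ih]

@[simp] theorem cnt_replicate (b : Bool) (n : ℕ) :
    cnt (List.replicate n (Sum.inr b : W ⊕ Bool)) = 0 := by
  induction n with
  | zero => rfl
  | succ n ih => simp [List.replicate_succ, ih]

theorem exists_fill : ∀ (N : ℕ) (l : List (W ⊕ Bool)), N ≤ cnt l →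
    ∃ (hs : List (List Bool)) (z : List (W ⊕ Bool)) (u : List W),
      hs.length = N ∧ u.length = N ∧ l = fill hs z u
  | 0, l, _ => ⟨[], l, [], rfl, rfl, by simp⟩
  | N + 1, [], h => by simp at h
  | N + 1, Sum.inl a :: l, h => by
    obtain ⟨hs, z, u, h1, h2, h3⟩ := exists_fill N l (by simpa using h)
    exact ⟨[] :: hs, z, a :: u, by simp [h1], by simp [h2], by simp [h3]⟩
  | N + 1, Sum.inr b :: l, h => by
    obtain ⟨hs, z, u, h1, h2, h3⟩ := exists_fill (N + 1) l (by simpa using h)
    match hs, u, h1, h2 with
    | h0 :: hs, v :: u, h1, h2 =>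
      exact ⟨(b :: h0) :: hs, z, v :: u, by simpa using h1, by simpa using h2, by simp [h3]⟩

theorem length_fill (z : List (W ⊕ Bool)) : ∀ (u : List W) (hs : List (List Bool)),
    hs.length = u.length →
    (fill hs z u).length = (hs.map List.length).sum + u.length + z.length
  | [], [], _ => by simp
  | [], _ :: _, h => by simp at h
  | _ :: _, [], h => by simp at h
  | v :: u, h :: hs, hlen => by
    have := length_fill z u hs (by simpa using hlen)
    simp [this]; omega

theorem cnt_fill (z : List (W ⊕ Bool)) : ∀ (u : List W) (hs : List (List Bool)),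
    hs.length = u.length → cnt (fill hs z u) = u.length + cnt z
  | [], [], _ => by simp
  | [], _ :: _, h => by simp at h
  | _ :: _, [], h => by simp at h
  | v :: u, h :: hs, hlen => by
    have := cnt_fill z u hs (by simpa using hlen)
    simp [this]; omega

end fill

section words

variable {K : Type u} [Field K] {W J : Type} {A : Type u} [Ring A] [Algebra K A]

/-- value of a word -/
def val (V : W ⊕ Bool → A) (l : List (W ⊕ Bool)) : A := (l.map V).prod

@[simp] theorem val_nil (V : W ⊕ Bool → A) : val V [] = 1 := rfl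

@[simp] theorem val_cons (V : W ⊕ Bool → A) (s : W ⊕ Bool) (l : List (W ⊕ Bool)) :
    val V (s :: l) = V s * val V l := by simp [val]

@[simp] theorem val_append (V : W ⊕ Bool → A) (l₁ l₂ : List (W ⊕ Bool)) :
    val V (l₁ ++ l₂) = val V l₁ * val V l₂ := by simp [val]

@[simp] theorem val_replicate (V : W ⊕ Bool → A) (s : W ⊕ Bool) (n : ℕ) :
    val V (List.replicate n s) = V s ^ n := by simp [val]

/-- span of the words of length `L` with less than `k` letters of `W` -/
def lower (K : Type u) [Field K] [Algebra K A] (V : W ⊕ Bool → A) (L k : ℕ) : Submodule K A :=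
  Submodule.span K {p | ∃ l : List (W ⊕ Bool), l.length = L ∧ cnt l < k ∧ val V l = p}

/-- One reduction step.  `hgap`: insertion of a word `h` in the letters `x, y` inside a relation
gives zero, or, for the special relation `r`, a combination of words in `x, y` of the right
length. -/
theorem mem_lower_of_le [Fintype W] {ρ : J → W → W → K} {r : W → W → K} {N : ℕ} (hN : Nil2 ρ r N)
    (V : W ⊕ Bool → A)
    (hρ : ∀ j (h : List Bool), gap (ρ j) (fun a => V (Sum.inl a)) (val V (h.map Sum.inr)) = 0)
    (hr : ∀ (h : List Bool), gap r (fun a => V (Sum.inl a)) (val V (h.map Sum.inr)) ∈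
      Submodule.span K {p | ∃ g : List Bool, g.length = h.length + 2 ∧
        val V (g.map Sum.inr) = p})
    (l : List (W ⊕ Bool)) (hl : N ≤ cnt l) (L k : ℕ) (hL : l.length = L) (hk : cnt l = k) :
    val V l ∈ lower K V L k := by
  obtain ⟨hs, z, u, h1, h2, rfl⟩ := exists_fill N l hl
  rw [length_fill z u hs (by omega)] at hL
  rw [cnt_fill z u hs (by omega)] at hk
  have key := hN (A ⧸ lower K V L k) (fun u => (lower K V L k).mkQ (val V (fill hs z u)))
    (by
      intro j u₁ u₂ hu
      obtain ⟨hs₁, h, h', hs₂, rfl, hl1, hl2⟩ : ∃ hs₁ h h' hs₂, hs = hs₁ ++ h :: h' :: hs₂ ∧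
          hs₁.length = u₁.length ∧ hs₂.length = u₂.length := by
        have e1 : hs = hs.take u₁.length ++ hs.drop u₁.length := (List.take_append_drop _ _).symm
        have e2 : (hs.drop u₁.length).length = u₂.length + 2 := by
          rw [List.length_drop]; omega
        match hd : hs.drop u₁.length, e2 with
        | h :: h' :: hs₂, e2 =>
          rw [hd] at e1
          refine ⟨hs.take u₁.length, h, h', hs₂, e1, ?_, by simpa using e2⟩
          rw [List.length_take]; omega
      have e3 : ∀ a b : W, val V (fill (hs₁ ++ h :: h' :: hs₂) z (u₁ ++ a :: b :: u₂)) =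
          (val V (fill hs₁ [] u₁) * val V (h.map Sum.inr)) * V (Sum.inl a) *
            val V (h'.map Sum.inr) * V (Sum.inl b) * val V (fill hs₂ z u₂) := by
        intro a b
        rw [fill_append _ _ _ hl1]
        simp [mul_assoc]
      simp only [e3, ← map_smul, ← map_sum]
      rw [← mul_gap_mul (ρ j) (fun a => V (Sum.inl a)), hρ]
      simp)
    (by
      intro u₁ u₂ hu
      obtain ⟨hs₁, h, h', hs₂, rfl, hl1, hl2⟩ : ∃ hs₁ h h' hs₂, hs = hs₁ ++ h :: h' :: hs₂ ∧
          hs₁.length = u₁.length ∧ hs₂.length = u₂.length := by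
        have e1 : hs = hs.take u₁.length ++ hs.drop u₁.length := (List.take_append_drop _ _).symm
        have e2 : (hs.drop u₁.length).length = u₂.length + 2 := by
          rw [List.length_drop]; omega
        match hd : hs.drop u₁.length, e2 with
        | h :: h' :: hs₂, e2 =>
          rw [hd] at e1
          refine ⟨hs.take u₁.length, h, h', hs₂, e1, ?_, by simpa using e2⟩
          rw [List.length_take]; omega
      have e3 : ∀ a b : W, val V (fill (hs₁ ++ h :: h' :: hs₂) z (u₁ ++ a :: b :: u₂)) =
          (val V (fill hs₁ [] u₁) * val V (h.map Sum.inr)) * V (Sum.inl a) *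
            val V (h'.map Sum.inr) * V (Sum.inl b) * val V (fill hs₂ z u₂) := by
        intro a b
        rw [fill_append _ _ _ hl1]
        simp [mul_assoc]
      simp only [e3, ← map_smul, ← map_sum]
      rw [← mul_gap_mul r (fun a => V (Sum.inl a)), Submodule.mkQ_apply,
        Submodule.Quotient.mk_eq_zero]
      have h4 := hr h'
      generalize gap r (fun a => V (Sum.inl a)) (val V (List.map Sum.inr h')) = G at h4 ⊢
      induction h4 using Submodule.span_induction with
      | mem p hp =>
        obtain ⟨g, hg, rfl⟩ := hp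
        refine Submodule.subset_span ⟨fill hs₁ [] u₁ ++ h.map Sum.inr ++ g.map Sum.inr ++
          fill hs₂ z u₂, ?_, ?_, ?_⟩
        · have t1 := length_fill (W := W) [] u₁ hs₁ hl1
          have t2 := length_fill (W := W) z u₂ hs₂ hl2
          simp only [List.length_append, List.length_map, t1, t2, hg, List.length_nil]
          simp only [List.map_append, List.map_cons, List.sum_append, List.sum_cons] at hL
          omega
        · have t1 := cnt_fill (W := W) [] u₁ hs₁ hl1
          have t2 := cnt_fill (W := W) z u₂ hs₂ hl2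
          simp only [cnt_append, cnt_map_inr, t1, t2, cnt_nil]
          omega
        · simp [mul_assoc]
      | zero => simp
      | add x y _ _ hx hy => simpa [mul_add, add_mul] using add_mem hx hy
      | smul c x _ hx => simpa [mul_smul_comm, smul_mul_assoc] using Submodule.smul_mem _ c hx)
    u h2
  rwa [Submodule.mkQ_apply, Submodule.Quotient.mk_eq_zero] at key

theorem lower_le [Fintype W] {ρ : J → W → W → K} {r : W → W → K} {N : ℕ} (hN : Nil2 ρ r N)
    (V : W ⊕ Bool → A)
    (hρ : ∀ j (h : List Bool), gap (ρ j) (fun a => V (Sum.inl a)) (val V (h.map Sum.inr)) = 0)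
    (hr : ∀ (h : List Bool), gap r (fun a => V (Sum.inl a)) (val V (h.map Sum.inr)) ∈
      Submodule.span K {p | ∃ g : List Bool, g.length = h.length + 2 ∧
        val V (g.map Sum.inr) = p})
    (L : ℕ) : ∀ m, lower K V L (N + m) ≤ lower K V L N
  | 0 => le_rfl
  | m + 1 => by
    refine le_trans ?_ (lower_le hN V hρ hr L m)
    rw [lower, Submodule.span_le]
    rintro p ⟨l, hl, hc, rfl⟩
    by_cases hcc : cnt l < N + m
    · exact Submodule.subset_span ⟨l, hl, hcc, rfl⟩
    · exact mem_lower_of_le hN V hρ hr l (by omega) L (N + m) hl (by omega)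

theorem split_run : ∀ (l : List (W ⊕ Bool)), (∃ h : List Bool, l = h.map Sum.inr) ∨
    ∃ (h : List Bool) (a : W) (l' : List (W ⊕ Bool)), l = h.map Sum.inr ++ Sum.inl a :: l'
  | [] => Or.inl ⟨[], rfl⟩
  | Sum.inl a :: l => Or.inr ⟨[], a, l, rfl⟩
  | Sum.inr b :: l => by
    rcases split_run l with ⟨h, rfl⟩ | ⟨h, a, l', rfl⟩
    · exact Or.inl ⟨b :: h, rfl⟩
    · exact Or.inr ⟨b :: h, a, l', rfl⟩

/-- a word with few letters of `W` and large length vanishes -/
theorem val_eq_zero (V : W ⊕ Bool → A) (L₀ : ℕ)
    (h0 : ∀ h : List Bool, L₀ ≤ h.length → val V (h.map Sum.inr) = 0) :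
    ∀ (k : ℕ) (l : List (W ⊕ Bool)), cnt l < k → k * L₀ + k ≤ l.length → val V l = 0
  | 0, l, hl, _ => by omega
  | k + 1, l, hl, hlen => by
    rcases split_run l with ⟨h, rfl⟩ | ⟨h, a, l', rfl⟩
    · refine h0 h ?_
      rw [List.length_map] at hlen
      nlinarith [Nat.zero_le (k * L₀)]
    · by_cases hh : L₀ ≤ h.length
      · rw [val_append, h0 h hh, zero_mul]
      · have : val V l' = 0 := by
          refine val_eq_zero V L₀ h0 k l' ?_ ?_
          · simp at hl; omega
          · simp only [List.length_append, List.length_map, List.length_cons] at hlen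
            have : (k + 1) * L₀ = k * L₀ + L₀ := by ring
            omega
        rw [val_append, val_cons, this, mul_zero, mul_zero]

end words

end Pool.Agent.Lib.MP_f6e06e_al
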