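import Mathlib
import Pool.Agent.Lib.MP_f6e06e_al.Words

/-!
The step from `n` to `n + 2` generators over a field with an element `c`, `c ≠ 0`, `c ^ 2 ≠ 1`.
-/

namespace Pool.Agent.Lib.MP_f6e06e_al

universe u

section step

variable {K : Type u} [Field K] {W J : Type} [Fintype W] {A : Type u} [Ring A] [Algebra K A]

/-- the relations of the new algebra, in terms of elements of an algebra -/
structure StepRel (ρ : J → W → W → K) (r : W → W → K) (c : K) (V : W → A) (X Y : A) : Prop where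
  hρ : ∀ j, ev (ρ j) V = 0
  hr : ev r V = - (Y * Y)
  hX : ∀ a, X * V a = V a * Y
  hXY : X * Y = c • (X * X)

variable {ρ : J → W → W → K} {r : W → W → K} {c : K} {V : W → A} {X Y : A}

omit [Fintype W] in
theorem pow_mul_of_comm (hX : ∀ a, X * V a = V a * Y) (a : W) : ∀ p : ℕ,
    X ^ p * V a = V a * Y ^ p
  | 0 => by simp
  | p + 1 => by
    rw [pow_succ, mul_assoc, hX, ← mul_assoc, pow_mul_of_comm hX a p, mul_assoc, ← pow_succ]

theorem gap_pow (hX : ∀ a, X * V a = V a * Y) (q : W → W → K) (p s : ℕ) :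
    gap q V (Y ^ p * X ^ s) = X ^ p * ev q V * Y ^ s := by
  rw [mul_ev_mul, gap]
  refine Finset.sum_congr rfl fun a _ => Finset.sum_congr rfl fun b _ => ?_
  congr 1
  rw [← mul_assoc (V a), ← pow_mul_of_comm hX]
  simp only [mul_assoc]
  rw [pow_mul_of_comm hX b s]

theorem X_mul_Y_pow (hXY : X * Y = c • (X * X)) : ∀ p : ℕ, X * Y ^ p = c ^ p • X ^ (p + 1)
  | 0 => by simp
  | p + 1 => by
    rw [pow_succ, ← mul_assoc, X_mul_Y_pow hXY p, smul_mul_assoc, pow_succ X p, mul_assoc, hXY,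
      mul_smul_comm, smul_smul, ← pow_succ, pow_succ X (p + 1), pow_succ X p, mul_assoc]

/-- the product `V u₁ w X V u₂ w X …` with `w = Y - c X` -/
def bigP (c : K) (V : W → A) (X Y : A) (l : List W) : A :=
  (l.map (fun a => V a * ((Y - c • X) * X))).prod

omit [Fintype W] in
theorem bigP_append (l₁ l₂ : List W) :
    bigP c V X Y (l₁ ++ l₂) = bigP c V X Y l₁ * bigP c V X Y l₂ := by simp [bigP]

omit [Fintype W] in
theorem bigP_cons (a : W) (l : List W) :
    bigP c V X Y (a :: l) = V a * ((Y - c • X) * X) * bigP c V X Y l := by simp [bigP]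

omit [Fintype W] in
theorem exists_bigP (l : List W) : ∃ z : A, X * bigP c V X Y l = z * X := by
  rcases List.eq_nil_or_concat l with rfl | ⟨l', a, rfl⟩
  · exact ⟨1, by simp [bigP]⟩
  · refine ⟨X * bigP c V X Y l' * V a * (Y - c • X), ?_⟩
    rw [List.concat_eq_append, bigP_append, bigP_cons]
    simp [bigP, mul_assoc]

theorem gap_w (h : StepRel ρ r c V X Y) (q : W → W → K) (j : ℕ) :
    gap q V ((Y - c • X) * X ^ (j + 1)) =
      X * ev q V * Y ^ (j + 1) - c • (ev q V * Y ^ (j + 2)) := by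
  have e : (Y - c • X) * X ^ (j + 1) = Y ^ 1 * X ^ (j + 1) - c • (Y ^ 0 * X ^ (j + 2)) := by
    rw [sub_mul, smul_mul_assoc, ← pow_succ' X (j + 1)]; simp
  rw [e, gap_sub, gap_smul, gap_pow h.hX, gap_pow h.hX]
  simp

theorem gap_w_r (h : StepRel ρ r c V X Y) (j : ℕ) :
    gap r V ((Y - c • X) * X ^ (j + 1)) = c • Y ^ (j + 4) - X * Y ^ (j + 3) := by
  rw [gap_w h, h.hr]
  have e1 : (Y * Y) * Y ^ (j + 1) = Y ^ (j + 3) := by
    rw [← pow_two, ← pow_add]; congr 1; omega
  have e2 : (Y * Y) * Y ^ (j + 2) = Y ^ (j + 4) := by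
    rw [← pow_two, ← pow_add]; congr 1; omega
  rw [mul_neg, neg_mul, neg_mul, mul_assoc X, e1, e2, smul_neg]
  abel

/-- the first vanishing statement -/
theorem X_mul_bigP_eq_zero (h : StepRel ρ r c V X Y) {N : ℕ} (hN : Nil2 ρ r N) (l : List W)
    (hl : l.length = N) : X * bigP c V X Y l = 0 := by
  refine hN A (fun l => X * bigP c V X Y l) ?_ ?_ l hl
  · intro j u₁ u₂ _
    have e : ∀ a b : W, X * bigP c V X Y (u₁ ++ a :: b :: u₂) =
        (X * bigP c V X Y u₁) * V a * ((Y - c • X) * X ^ (0 + 1)) * V b *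
          (((Y - c • X) * X) * bigP c V X Y u₂) := by
      intro a b
      rw [bigP_append, bigP_cons, bigP_cons]
      simp only [mul_assoc, zero_add, pow_one]
    simp only [e]
    rw [← mul_gap_mul, gap_w h, h.hρ]
    simp
  · intro u₁ u₂ _
    have e : ∀ a b : W, X * bigP c V X Y (u₁ ++ a :: b :: u₂) =
        (X * bigP c V X Y u₁) * V a * ((Y - c • X) * X ^ (0 + 1)) * V b *
          (((Y - c • X) * X) * bigP c V X Y u₂) := by
      intro a b
      rw [bigP_append, bigP_cons, bigP_cons]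
      simp only [mul_assoc, zero_add, pow_one]
    simp only [e]
    rw [← mul_gap_mul, gap_w_r h]
    obtain ⟨z, hz⟩ := exists_bigP (c := c) (V := V) (X := X) (Y := Y) u₁
    rw [hz]
    have e2 : z * X * (c • Y ^ (0 + 4) - X * Y ^ (0 + 3)) =
        (c ^ 5 - c ^ 3) • (z * X ^ 5) := by
      rw [mul_sub, mul_smul_comm, mul_assoc z, X_mul_Y_pow h.hXY, mul_assoc z,
        X_mul_Y_pow h.hXY, mul_smul_comm, mul_smul_comm, mul_smul_comm, ← pow_succ' X, smul_smul,
        sub_smul]
      congr 2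
      ring
    have e3 : X ^ 5 * ((Y - c • X) * X) = 0 := by
      rw [← mul_assoc, pow_succ X 4, mul_assoc (X ^ 4), mul_sub, h.hXY, mul_smul_comm, sub_self]
      simp
    rw [← mul_assoc, e2, smul_mul_assoc, mul_assoc z, e3]
    simp

theorem bigP_step (h : StepRel ρ r c V X Y) (hc : c ≠ 0) (hc2 : c ^ 2 ≠ 1) (k j : ℕ)
    (hk : ∀ l : List W, l.length = k + 1 → X * bigP c V X Y l * X ^ j = 0)
    (l : List W) (hl : l.length = k) : X * bigP c V X Y l * X ^ (j + 4) = 0 := by
  have e1 : ∀ a b : W, (X * bigP c V X Y l) * V a * ((Y - c • X) * X ^ (j + 1)) * V b * 1 = 0 := by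
    intro a b
    have := hk (l ++ [a]) (by simp [hl])
    rw [bigP_append, bigP_cons] at this
    have e : (X * bigP c V X Y l) * V a * ((Y - c • X) * X ^ (j + 1)) =
        X * (bigP c V X Y l * (V a * ((Y - c • X) * X) * bigP c V X Y [])) * X ^ j := by
      rw [pow_succ' X j]
      simp [bigP, mul_assoc]
    rw [e, this]
    simp
  have e2 := mul_gap_mul r V ((Y - c • X) * X ^ (j + 1)) (X * bigP c V X Y l) 1
  simp only [e1, smul_zero, Finset.sum_const_zero, mul_one] at e2
  rw [gap_w_r h] at e2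
  obtain ⟨z, hz⟩ := exists_bigP (c := c) (V := V) (X := X) (Y := Y) l
  rw [hz] at e2 ⊢
  have e3 : z * X * (c • Y ^ (j + 4) - X * Y ^ (j + 3)) =
      (c ^ (j + 3) * (c ^ 2 - 1)) • (z * X * X ^ (j + 4)) := by
    rw [mul_sub, mul_smul_comm, mul_assoc z, X_mul_Y_pow h.hXY, mul_assoc z,
      X_mul_Y_pow h.hXY, mul_smul_comm, mul_smul_comm, mul_smul_comm, ← pow_succ' X, smul_smul,
      mul_assoc z, ← pow_succ' X, ← sub_smul]
    congr 1
    ring
  rw [e3] at e2
  have hne : c ^ (j + 3) * (c ^ 2 - 1) ≠ 0 := mul_ne_zero (pow_ne_zero _ hc) (sub_ne_zero.2 hc2)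
  exact (smul_eq_zero.1 e2).resolve_left hne

theorem X_pow_eq_zero (h : StepRel ρ r c V X Y) (hc : c ≠ 0) (hc2 : c ^ 2 ≠ 1) {N : ℕ}
    (hN : Nil2 ρ r N) : X ^ (4 * N + 1) = 0 := by
  have key : ∀ m, m ≤ N → ∀ l : List W, l.length = N - m →
      X * bigP c V X Y l * X ^ (4 * m) = 0 := by
    intro m
    induction m with
    | zero =>
      intro _ l hl
      rw [X_mul_bigP_eq_zero h hN l (by omega)]
      simp
    | succ m ih =>
      intro hm l hl
      have := bigP_step h hc hc2 (N - (m + 1)) (4 * m)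
        (fun l' hl' => ih (by omega) l' (by omega)) l hl
      have e : 4 * (m + 1) = 4 * m + 4 := by ring
      rw [e]; exact this
  have := key N le_rfl [] (by simp)
  simpa [bigP, ← pow_succ'] using this

theorem Y_pow_eq_zero (h : StepRel ρ r c V X Y) (M : ℕ) (hM : X ^ M = 0) : Y ^ (M + 2) = 0 := by
  have e1 : ∀ a : W, V a * Y ^ M = 0 := by
    intro a
    rw [← pow_mul_of_comm h.hX, hM, zero_mul]
  have e2 : ev r V * Y ^ M = 0 := by
    have := mul_ev_mul r V 1 (Y ^ M)
    rw [one_mul] at this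
    rw [this]
    simp only [mul_assoc, e1, mul_zero, smul_zero, Finset.sum_const_zero]
  rw [h.hr, neg_mul, neg_eq_zero] at e2
  rw [add_comm, pow_add, pow_two]
  exact e2

omit [Fintype W] in
/-- words in `x, y` -/
theorem exists_normal (hXY : X * Y = c • (X * X)) (V : W → A) : ∀ h : List Bool,
    ∃ (d : K) (p s : ℕ), p + s = h.length ∧
      val (Sum.elim V (fun b => if b then Y else X)) (h.map Sum.inr) = d • (Y ^ p * X ^ s)
  | [] => ⟨1, 0, 0, rfl, by simp⟩
  | true :: h => by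
    obtain ⟨d, p, s, h1, h2⟩ := exists_normal hXY V h
    refine ⟨d, p + 1, s, by simp; omega, ?_⟩
    rw [List.map_cons, val_cons, h2]
    simp [pow_succ', mul_assoc]
  | false :: h => by
    obtain ⟨d, p, s, h1, h2⟩ := exists_normal hXY V h
    refine ⟨d * c ^ p, 0, p + 1 + s, by simp; omega, ?_⟩
    rw [List.map_cons, val_cons, h2]
    simp only [Sum.elim_inr, Bool.false_eq_true, if_false, mul_smul_comm]
    rw [← mul_assoc, X_mul_Y_pow hXY, smul_mul_assoc, smul_smul, ← pow_add]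
    simp

theorem gap_word (h : StepRel ρ r c V X Y) (q : W → W → K) (g : List Bool) :
    ∃ (d : K) (p s : ℕ), p + s = g.length ∧
      gap q V (val (Sum.elim V (fun b => if b then Y else X)) (g.map Sum.inr)) =
        d • (X ^ p * ev q V * Y ^ s) := by
  obtain ⟨d, p, s, h1, h2⟩ := exists_normal h.hXY V g
  exact ⟨d, p, s, h1, by rw [h2, gap_smul, gap_pow h.hX]⟩

theorem words_vanish (h : StepRel ρ r c V X Y) (hc : c ≠ 0) (hc2 : c ^ 2 ≠ 1) {N : ℕ}
    (hN : Nil2 ρ r N) (l : List (W ⊕ Bool))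
    (hl : N * (8 * N + 4) + N ≤ l.length) :
    val (Sum.elim V (fun b => if b then Y else X)) l = 0 := by
  set V' : W ⊕ Bool → A := Sum.elim V (fun b => if b then Y else X) with hV'
  have hXn := X_pow_eq_zero h hc hc2 hN
  have hYn := Y_pow_eq_zero h _ hXn
  have h0 : ∀ g : List Bool, 8 * N + 4 ≤ g.length → val V' (g.map Sum.inr) = 0 := by
    intro g hg
    obtain ⟨d, p, s, h1, h2⟩ := exists_normal h.hXY V g
    rw [h2]
    by_cases hp : 4 * N + 1 + 2 ≤ p
    · rw [pow_eq_zero_of_le hp hYn]; simp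
    · rw [pow_eq_zero_of_le (by omega : 4 * N + 1 ≤ s) hXn]; simp
  have hmem : val V' l ∈ lower K V' l.length N := by
    have := lower_le (K := K) hN V' (by
      intro j g
      obtain ⟨d, p, s, _, h2⟩ := gap_word h (ρ j) g
      have h3 : gap (ρ j) (fun a => V' (Sum.inl a)) (val V' (g.map Sum.inr)) = _ := h2
      rw [h3, h.hρ]; simp) (by
      intro g
      obtain ⟨d, p, s, h1, h2⟩ := gap_word h r g
      have h3 : gap r (fun a => V' (Sum.inl a)) (val V' (g.map Sum.inr)) = _ := h2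
      rw [h3, h.hr]
      have h4 : d • (X ^ p * -(Y * Y) * Y ^ s) = (-d) • (X ^ p * Y ^ (s + 2)) := by
        rw [mul_neg, neg_mul, smul_neg, neg_smul, mul_assoc, ← pow_two, ← pow_add, add_comm 2 s]
      rw [h4]
      refine Submodule.smul_mem _ _ (Submodule.subset_span
        ⟨List.replicate p false ++ List.replicate (s + 2) true, ?_, ?_⟩)
      · simp; omega
      · simp [hV']) l.length (cnt l + 1)
    exact this (Submodule.subset_span ⟨l, rfl, by omega, rfl⟩)
  have hzero : lower K V' l.length N = ⊥ := by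
    rw [lower, Submodule.span_eq_bot]
    rintro p ⟨l', h1, h2, rfl⟩
    exact val_eq_zero V' (8 * N + 4) h0 N l' h2 (by omega)
  rw [hzero] at hmem
  simpa using hmem

end step

end Pool.Agent.Lib.MP_f6e06e_al
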