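import Mathlib
import Pool.Agent.Lib.MP_f6e06e_al.Step
import Pool.Agent.Lib.MP_f6e06e_al.Forms

/-!
Nilpotent quadratic algebras with `n` generators and `n ^ 2 / 4 + 1` relations, over every field with
at least four elements (the recursion `n → n + 2`, found and formalised by helper75).
-/

namespace Pool.Agent.Lib.MP_f6e06e_al

universe u

theorem good_step {K : Type u} [Field K] {c : K} (hc : c ≠ 0) (hc2 : c ^ 2 ≠ 1) {n m : ℕ}
    (h : Good K n m) : Good K (n + 2) (m + n + 1) := by
  obtain ⟨W, J, _, _, ρ, r, N, hW, hJ, hN⟩ := h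
  refine ⟨W ⊕ Bool, J ⊕ W ⊕ Unit, inferInstance, inferInstance,
    Sum.elim (fun j => ext0 (ρ j)) (Sum.elim
      (fun a => mono K (Sum.inr false) (Sum.inl a) - mono K (Sum.inl a) (Sum.inr true))
      (fun _ => mono K (Sum.inr false) (Sum.inr true) -
        c • mono K (Sum.inr false) (Sum.inr false))),
    ext0 r + mono K (Sum.inr true) (Sum.inr true), N * (8 * N + 4) + N, ?_, ?_, ?_⟩
  · simp [hW]
  · simp [hJ, hW]; omega
  · intro A _ _ V hρ hr l hl
    have hrel : StepRel ρ r c (fun a => V (Sum.inl a)) (V (Sum.inr false)) (V (Sum.inr true)) := by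
      refine ⟨fun j => ?_, ?_, fun a => ?_, ?_⟩
      · have := hρ (Sum.inl j)
        simpa [ev_ext0] using this
      · have := hr
        rw [ev_add, ev_ext0, ev_mono] at this
        exact eq_neg_of_add_eq_zero_left this
      · have := hρ (Sum.inr (Sum.inl a))
        simp only [Sum.elim_inr, Sum.elim_inl, ev_sub, ev_mono] at this
        exact sub_eq_zero.1 this
      · have := hρ (Sum.inr (Sum.inr ()))
        simp only [Sum.elim_inr, ev_sub, ev_mono, ev_smul] at this
        exact sub_eq_zero.1 this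
    have h1 := words_vanish hrel hc hc2 hN.nil2 l (by omega)
    have h2 : (Sum.elim (fun a => V (Sum.inl a))
        (fun b => if b then V (Sum.inr true) else V (Sum.inr false)) : W ⊕ Bool → A) = V := by
      funext s
      rcases s with a | b
      · rfl
      · cases b <;> rfl
    rw [h2] at h1
    exact h1

theorem good_all {K : Type u} [Field K] {c : K} (hc : c ≠ 0) (hc2 : c ^ 2 ≠ 1) :
    ∀ n : ℕ, Good K n (n ^ 2 / 4)
  | 0 => good_zero
  | 1 => good_one
  | n + 2 => by
    have h := good_step hc hc2 (good_all hc hc2 n)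
    have e : (n + 2) ^ 2 / 4 = n ^ 2 / 4 + n + 1 := by
      have : (n + 2) ^ 2 = n ^ 2 + (n + 1) * 4 := by ring
      rw [this, Nat.add_mul_div_right _ _ (by norm_num)]
      ring
    rwa [e]

/-- a field in which every `c ≠ 0` has `c ^ 2 = 1` has characteristic 2 or 3 -/
theorem exists_elt_or (K : Type u) [Field K] :
    (∃ c : K, c ≠ 0 ∧ c ^ 2 ≠ 1) ∨ (2 : K) = 0 ∨ (3 : K) = 0 := by
  by_cases h2 : (2 : K) = 0
  · exact Or.inr (Or.inl h2)
  · by_cases h3 : (3 : K) = 0
    · exact Or.inr (Or.inr h3)
    · refine Or.inl ⟨2, h2, fun h => h3 ?_⟩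
      linear_combination h

end Pool.Agent.Lib.MP_f6e06e_al
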