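import Mathlib
import Pool.Agent.Lib.MP_f6e06e_al.Words

/-!
A variant of the word reduction in which every relation may have a nonzero gap value.
-/

namespace Pool.Agent.Lib.MP_f6e06e_al

universe u

section wordsTwo

variable {K : Type u} [Field K] {W J : Type} {A : Type u} [Ring A] [Algebra K A] [Fintype W]

/-- the insertion of words in `x, y` in the middle of `q` gives combinations of words in `x, y` -/
def GapOk (q : W → W → K) (V : W ⊕ Bool → A) : Prop :=
  ∀ (h : List Bool), gap q (fun a => V (Sum.inl a)) (val V (h.map Sum.inr)) ∈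
      Submodule.span K {p | ∃ g : List Bool, g.length = h.length + 2 ∧
        val V (g.map Sum.inr) = p}

theorem sum_mkQ_eq_zero (q : W → W → K) (V : W ⊕ Bool → A) (hq : GapOk q V)
    (hs : List (List Bool)) (z : List (W ⊕ Bool)) (u₁ u₂ : List W) (L k : ℕ)
    (hu : u₁.length + u₂.length + 2 = hs.length)
    (hL : (hs.map List.length).sum + hs.length + z.length = L)
    (hk : hs.length + cnt z = k) :
    ∑ a, ∑ b, q a b • (lower K V L k).mkQ (val V (fill hs z (u₁ ++ a :: b :: u₂))) = 0 := by
  obtain ⟨hs₁, h, h', hs₂, rfl, hl1, hl2⟩ : ∃ hs₁ h h' hs₂, hs = hs₁ ++ h :: h' :: hs₂ ∧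
      hs₁.length = u₁.length ∧ hs₂.length = u₂.length := by
    have e1 : hs = hs.take u₁.length ++ hs.drop u₁.length := (List.take_append_drop _ _).symm
    have e2 : (hs.drop u₁.length).length = u₂.length + 2 := by
      rw [List.length_drop]; omega
    match hd : hs.drop u₁.length, e2 with
    | h :: h' :: hs₂, e2 =>
      rw [hd] at e1
      refine ⟨hs.take u₁.length, h, h', hs₂, e1, ?_, by simpa using e2⟩
      rw [List.length_take]; omega
  have e3 : ∀ a b : W, val V (fill (hs₁ ++ h :: h' :: hs₂) z (u₁ ++ a :: b :: u₂)) =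
      (val V (fill hs₁ [] u₁) * val V (h.map Sum.inr)) * V (Sum.inl a) *
        val V (h'.map Sum.inr) * V (Sum.inl b) * val V (fill hs₂ z u₂) := by
    intro a b
    rw [fill_append _ _ _ hl1]
    simp [mul_assoc]
  simp only [e3, ← map_smul, ← map_sum]
  rw [← mul_gap_mul q (fun a => V (Sum.inl a)), Submodule.mkQ_apply,
    Submodule.Quotient.mk_eq_zero]
  have h4 := hq h'
  generalize gap q (fun a => V (Sum.inl a)) (val V (List.map Sum.inr h')) = G at h4 ⊢
  induction h4 using Submodule.span_induction with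
  | mem p hp =>
    obtain ⟨g, hg, rfl⟩ := hp
    refine Submodule.subset_span ⟨fill hs₁ [] u₁ ++ h.map Sum.inr ++ g.map Sum.inr ++
      fill hs₂ z u₂, ?_, ?_, ?_⟩
    · have t1 := length_fill (W := W) [] u₁ hs₁ hl1
      have t2 := length_fill (W := W) z u₂ hs₂ hl2
      simp only [List.length_append, List.length_map, t1, t2, hg, List.length_nil]
      simp only [List.map_append, List.map_cons, List.sum_append, List.sum_cons,
        List.length_append, List.length_cons] at hL hu
      omega
    · have t1 := cnt_fill (W := W) [] u₁ hs₁ hl1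
      have t2 := cnt_fill (W := W) z u₂ hs₂ hl2
      simp only [List.length_append, List.length_cons] at hk
      simp only [cnt_append, cnt_map_inr, t1, t2, cnt_nil]
      omega
    · simp [mul_assoc]
  | zero => simp
  | add x y _ _ hx hy => simpa [mul_add, add_mul] using add_mem hx hy
  | smul c x _ hx => simpa [mul_smul_comm, smul_mul_assoc] using Submodule.smul_mem _ c hx

theorem mem_lower_two {ρ : J → W → W → K} {r : W → W → K} {N : ℕ} (hN : Nil2 ρ r N)
    (V : W ⊕ Bool → A) (hρ : ∀ j, GapOk (ρ j) V) (hr : GapOk r V)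
    (l : List (W ⊕ Bool)) (hl : N ≤ cnt l) (L k : ℕ) (hL : l.length = L) (hk : cnt l = k) :
    val V l ∈ lower K V L k := by
  obtain ⟨hs, z, u, h1, h2, rfl⟩ := exists_fill N l hl
  rw [length_fill z u hs (by omega)] at hL
  rw [cnt_fill z u hs (by omega)] at hk
  have key := hN (A ⧸ lower K V L k) (fun u => (lower K V L k).mkQ (val V (fill hs z u)))
    (fun j u₁ u₂ hu => sum_mkQ_eq_zero (ρ j) V (hρ j) hs z u₁ u₂ L k (by omega) (by omega)
      (by omega))
    (fun u₁ u₂ hu => sum_mkQ_eq_zero r V hr hs z u₁ u₂ L k (by omega) (by omega) (by omega))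
    u h2
  rwa [Submodule.mkQ_apply, Submodule.Quotient.mk_eq_zero] at key

theorem lower_le_two {ρ : J → W → W → K} {r : W → W → K} {N : ℕ} (hN : Nil2 ρ r N)
    (V : W ⊕ Bool → A) (hρ : ∀ j, GapOk (ρ j) V) (hr : GapOk r V)
    (L : ℕ) : ∀ m, lower K V L (N + m) ≤ lower K V L N
  | 0 => le_rfl
  | m + 1 => by
    refine le_trans ?_ (lower_le_two hN V hρ hr L m)
    rw [lower, Submodule.span_le]
    rintro p ⟨l, hl, hc, rfl⟩
    by_cases hcc : cnt l < N + m
    · exact Submodule.subset_span ⟨l, hl, hcc, rfl⟩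
    · exact mem_lower_two hN V hρ hr l (by omega) L (N + m) hl (by omega)

/-- all long words vanish -/
theorem words_vanish_two {ρ : J → W → W → K} {r : W → W → K} {N : ℕ} (hN : Nil2 ρ r N)
    (V : W ⊕ Bool → A) (hρ : ∀ j, GapOk (ρ j) V) (hr : GapOk r V) (L₀ : ℕ)
    (h0 : ∀ h : List Bool, L₀ ≤ h.length → val V (h.map Sum.inr) = 0)
    (l : List (W ⊕ Bool)) (hl : N * L₀ + N ≤ l.length) : val V l = 0 := by
  have hmem : val V l ∈ lower K V l.length N :=
    lower_le_two hN V hρ hr l.length (cnt l + 1) (Submodule.subset_span ⟨l, rfl, by omega, rfl⟩)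
  have hzero : lower K V l.length N = ⊥ := by
    rw [lower, Submodule.span_eq_bot]
    rintro p ⟨l', h1, h2, rfl⟩
    exact val_eq_zero V L₀ h0 N l' h2 (by omega)
  rw [hzero] at hmem
  simpa using hmem

end wordsTwo

end Pool.Agent.Lib.MP_f6e06e_al
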