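import Mathlib
import Pool.Agent.Lib.MP_f6e06e_al.Step
import Pool.Agent.Lib.MP_f6e06e_al.WordsTwo

/-!
The step with `x y = x ^ 2`, which works over every field if a certain inhomogeneous quotient
of the old algebra is trivial.
-/

namespace Pool.Agent.Lib.MP_f6e06e_al

universe u

section coll

variable {K : Type u} [Field K] {W J : Type} [Fintype W]

/-- the algebra with the relations `ρ j = lam j` is trivial -/
def Coll (ρ : J → W → W → K) (lam : J → K) : Prop :=
  ∀ (A : Type u) [Ring A] [Algebra K A] (V : W → A), (∀ j, ev (ρ j) V = lam j • (1 : A)) →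
    (1 : A) = 0

/-- functions on words compatible with the relations `ρ j = lam j` -/
def compatL (ρ : J → W → W → K) (lam : J → K) (E : Type u) [AddCommGroup E] [Module K E] :
    Submodule K (List W → E) where
  carrier := {g | ∀ j u₁ u₂, ∑ a, ∑ b, ρ j a b • g (u₁ ++ a :: b :: u₂) = lam j • g (u₁ ++ u₂)}
  add_mem' := by
    rintro g h hg hh j u₁ u₂
    simp only [Pi.add_apply, smul_add, Finset.sum_add_distrib, hg j u₁ u₂, hh j u₁ u₂]
  zero_mem' := by
    intro j u₁ u₂; simp
  smul_mem' := by
    rintro c g hg j u₁ u₂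
    simp only [Pi.smul_apply, smul_comm _ c, ← Finset.smul_sum, hg j u₁ u₂]

/-- right shift -/
def shiftL (ρ : J → W → W → K) (lam : J → K) (E : Type u) [AddCommGroup E] [Module K E]
    (a : W) : Module.End K (compatL ρ lam E) :=
  (LinearMap.funLeft K E (fun u : List W => u ++ [a])).restrict (by
    rintro g hg j u₁ u₂
    have := hg j u₁ (u₂ ++ [a])
    simpa [LinearMap.funLeft_apply] using this)

theorem shiftL_apply (ρ : J → W → W → K) (lam : J → K) (E : Type u) [AddCommGroup E]
    [Module K E] (a : W) (g : compatL ρ lam E) (u : List W) :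
    (shiftL ρ lam E a g : List W → E) u = (g : List W → E) (u ++ [a]) := rfl

theorem compatL_sum (ρ : J → W → W → K) (lam : J → K) (E : Type u) [AddCommGroup E]
    [Module K E] (q : W → W → K) (g : compatL ρ lam E) (u : List W) :
    (ev q (shiftL ρ lam E) g : List W → E) u =
      ∑ a, ∑ b, q a b • (g : List W → E) (u ++ a :: b :: []) := by
  simp only [ev, LinearMap.sum_apply, LinearMap.smul_apply, Module.End.mul_apply,
    Submodule.coe_sum, Submodule.coe_smul, Finset.sum_apply, Pi.smul_apply, shiftL_apply,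
    List.append_assoc, List.cons_append, List.nil_append]

/-- in terms of functions on words -/
theorem Coll.fun_eq_zero {ρ : J → W → W → K} {lam : J → K} (h : Coll ρ lam) (E : Type u)
    [AddCommGroup E] [Module K E] (g : List W → E)
    (hg : ∀ j u₁ u₂, ∑ a, ∑ b, ρ j a b • g (u₁ ++ a :: b :: u₂) = lam j • g (u₁ ++ u₂))
    (u : List W) : g u = 0 := by
  have key := h (Module.End K (compatL ρ lam E)) (shiftL ρ lam E) (by
    intro j
    ext g u
    rw [compatL_sum]
    have := g.2 j u []
    simpa using this)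
  have h1 : ((1 : Module.End K (compatL ρ lam E)) ⟨g, hg⟩ : List W → E) u = 0 := by
    rw [key]; rfl
  simpa using h1

/-- sequences which vanish eventually -/
def evZero (K : Type u) [Field K] (E : Type u) [AddCommGroup E] [Module K E] :
    Submodule K (ℕ → E) where
  carrier := {s | ∃ n₀, ∀ n, n₀ ≤ n → s n = 0}
  add_mem' := by
    rintro s t ⟨n, hn⟩ ⟨m, hm⟩
    refine ⟨max n m, fun k hk => ?_⟩
    rw [Pi.add_apply, hn k (le_trans (le_max_left _ _) hk), hm k (le_trans (le_max_right _ _) hk),
      add_zero]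
  zero_mem' := ⟨0, fun _ _ => rfl⟩
  smul_mem' := by
    rintro c s ⟨n, hn⟩
    exact ⟨n, fun k hk => by rw [Pi.smul_apply, hn k hk, smul_zero]⟩

/-- the homogenised form -/
theorem Coll.eventually {ρ : J → W → W → K} {lam : J → K} (h : Coll ρ lam) (E : Type u)
    [AddCommGroup E] [Module K E] (f : List W → ℕ → E)
    (hf : ∀ j u₁ u₂ n, ∑ a, ∑ b, ρ j a b • f (u₁ ++ a :: b :: u₂) n =
      lam j • f (u₁ ++ u₂) (n + 4)) : ∃ n₀, ∀ n, n₀ ≤ n → f [] n = 0 := by
  have key := h.fun_eq_zero ((ℕ → E) ⧸ evZero K E)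
    (fun u => (evZero K E).mkQ (fun n => f u (n - 2 * u.length))) (by
      intro j u₁ u₂
      simp only [← map_smul, ← map_sum]
      rw [← sub_eq_zero, ← map_sub, Submodule.mkQ_apply, Submodule.Quotient.mk_eq_zero]
      refine ⟨2 * (u₁.length + u₂.length) + 4, fun n hn => ?_⟩
      have e1 : ∀ a b : W, (u₁ ++ a :: b :: u₂).length = u₁.length + u₂.length + 2 := by
        intro a b; simp only [List.length_append, List.length_cons]; omega
      simp only [Pi.sub_apply, Finset.sum_apply, Pi.smul_apply, e1, List.length_append]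
      rw [hf j u₁ u₂, sub_eq_zero]
      have e2 : n - 2 * (u₁.length + u₂.length + 2) + 4 = n - 2 * (u₁.length + u₂.length) := by
        omega
      rw [e2]) []
  rw [Submodule.mkQ_apply, Submodule.Quotient.mk_eq_zero] at key
  obtain ⟨n₀, hn⟩ := key
  exact ⟨n₀, fun n hn' => by simpa using hn n hn'⟩

theorem Coll.exists_ne {ρ : J → W → W → K} {lam : J → K} (h : Coll ρ lam) : ∃ j, lam j ≠ 0 := by
  by_contra hcon
  push Not at hcon
  have := h K (fun _ => 0) (by intro j; simp [ev, hcon j])
  exact one_ne_zero this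

end coll

section stepOne

variable {K : Type u} [Field K] {W J : Type} [Fintype W] {A : Type u} [Ring A] [Algebra K A]

/-- the relations of the new algebra -/
structure RelOne (ρ : J → W → W → K) (lam : J → K) (V : W → A) (X Y : A) : Prop where
  hρ : ∀ j, ev (ρ j) V = lam j • (Y * Y)
  hX : ∀ a, X * V a = V a * Y
  hXY : X * Y = X * X

variable {ρ : J → W → W → K} {lam : J → K} {V : W → A} {X Y : A}

omit [Algebra K A] in
theorem X_mul_Y_pow_one (hXY : X * Y = X * X) : ∀ p : ℕ, X * Y ^ p = X ^ (p + 1)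
  | 0 => by simp
  | p + 1 => by
    rw [pow_succ, ← mul_assoc, X_mul_Y_pow_one hXY p, pow_succ X p, mul_assoc, hXY,
      ← mul_assoc, ← pow_succ, ← pow_succ]

/-- gap factors -/
def gv (X Y : A) (g : Bool × ℕ) : A := (if g.1 then Y - X else 1) * X ^ (g.2 + 1)

/-- letter with gap factor -/
def tv (V : W → A) (X Y : A) (t : W × Bool × ℕ) : A := V t.1 * gv X Y t.2

/-- product of letters with gap factors -/
def tp (V : W → A) (X Y : A) (l : List (W × Bool × ℕ)) : A := (l.map (tv V X Y)).prod

/-- number of special gaps -/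
def eps (l : List (W × Bool × ℕ)) : ℕ := l.countP (fun t => t.2.1)

omit [Fintype W] in
@[simp] theorem tp_nil : tp V X Y [] = 1 := rfl

omit [Fintype W] in
@[simp] theorem tp_cons (t : W × Bool × ℕ) (l : List (W × Bool × ℕ)) :
    tp V X Y (t :: l) = V t.1 * gv X Y t.2 * tp V X Y l := by simp [tp, tv]

omit [Fintype W] in
@[simp] theorem tp_append (l₁ l₂ : List (W × Bool × ℕ)) :
    tp V X Y (l₁ ++ l₂) = tp V X Y l₁ * tp V X Y l₂ := by simp [tp]

omit [Fintype W] in
@[simp] theorem eps_nil : eps ([] : List (W × Bool × ℕ)) = 0 := rfl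

omit [Fintype W] in
@[simp] theorem eps_append (l₁ l₂ : List (W × Bool × ℕ)) :
    eps (l₁ ++ l₂) = eps l₁ + eps l₂ := by simp [eps]

omit [Fintype W] in
@[simp] theorem eps_cons_true (a : W) (m : ℕ) (l : List (W × Bool × ℕ)) :
    eps ((a, true, m) :: l) = eps l + 1 := by simp [eps]

omit [Fintype W] in
@[simp] theorem eps_cons_false (a : W) (m : ℕ) (l : List (W × Bool × ℕ)) :
    eps ((a, false, m) :: l) = eps l := by simp [eps]

omit [Fintype W] in
theorem absorb (l : List (W × Bool × ℕ)) (m e : ℕ) :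
    ∃ l' : List (W × Bool × ℕ), ∃ m' : ℕ, l'.length = l.length ∧ eps l' = eps l ∧
      X ^ (m + 1) * tp V X Y l * X ^ e = X ^ (m' + 1) * tp V X Y l' := by
  rcases List.eq_nil_or_concat l with rfl | ⟨l', ⟨a, ε, k⟩, rfl⟩
  · exact ⟨[], m + e, rfl, rfl, by simp [← pow_add]; congr 1; omega⟩
  · refine ⟨l' ++ [(a, ε, k + e)], m, by simp, ?_, ?_⟩
    · cases ε <;> simp [List.concat_eq_append]
    · rw [List.concat_eq_append]
      simp only [tp_append, tp_cons, tp_nil, gv, mul_assoc, mul_one]
      rw [← pow_add]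
      congr 5
      omega

omit [Fintype W] in
theorem ends_X (l : List (W × Bool × ℕ)) (m : ℕ) :
    ∃ z : A, X ^ (m + 1) * tp V X Y l = z * X := by
  rcases List.eq_nil_or_concat l with rfl | ⟨l', ⟨a, ε, k⟩, rfl⟩
  · exact ⟨X ^ m, by simp [pow_succ]⟩
  · refine ⟨X ^ (m + 1) * tp V X Y l' * V a * (if ε then Y - X else 1) * X ^ k, ?_⟩
    rw [List.concat_eq_append]
    simp only [tp_append, tp_cons, tp_nil, gv, mul_assoc, mul_one, pow_succ X k]

theorem gap_one (h : RelOne ρ lam V X Y) (j : J) (m : ℕ) :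
    gap (ρ j) V (X ^ (m + 1)) = lam j • Y ^ (m + 3) := by
  have e := gap_pow h.hX (ρ j) 0 (m + 1)
  rw [pow_zero, one_mul, pow_zero, one_mul, h.hρ, smul_mul_assoc, ← pow_two, ← pow_add] at e
  rw [e]
  congr 2
  omega

theorem gap_w_one (h : RelOne ρ lam V X Y) (j : J) (m : ℕ) :
    gap (ρ j) V ((Y - X) * X ^ (m + 1)) = lam j • (X * Y ^ (m + 3) - Y ^ (m + 4)) := by
  have e : (Y - X) * X ^ (m + 1) = Y ^ 1 * X ^ (m + 1) - X ^ (m + 1 + 1) := by
    rw [sub_mul, ← pow_succ' X (m + 1)]; simp
  rw [e, gap_sub, gap_pow h.hX, gap_one h, h.hρ, pow_one, mul_smul_comm, smul_mul_assoc,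
    ← smul_sub, mul_assoc, ← pow_two, ← pow_add]
  congr 3
  · congr 1; omega

theorem count_lemma (h : RelOne ρ lam V X Y) {N : ℕ} (hN : ∀ n, N ≤ n → Nil2 ρ 0 n) :
    ∀ (n : ℕ) (l : List (W × Bool × ℕ)) (m : ℕ), l.length = n → N ≤ eps l →
      X ^ (m + 1) * tp V X Y l = 0 := by
  intro n
  induction n using Nat.strong_induction_on with
  | _ n ih =>
    intro l m hl hε
    have hle : eps l ≤ l.length := List.countP_le_length
    have hNn := hN n (by omega)
    -- fix the gaps
    set gs : List (Bool × ℕ) := l.map Prod.snd with hgs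
    have hgl : gs.length = n := by simp [hgs, hl]
    have hzip : l = List.zip (l.map Prod.fst) gs := by
      rw [hgs, List.zip_map', List.map_id'']
      intro x; rfl
    have hepsz : ∀ (u : List W) (g : List (Bool × ℕ)), u.length = g.length →
        eps (List.zip u g) = g.countP (fun t => t.1) := by
      intro u g hug
      have : List.countP (fun t : Bool × ℕ => t.1) ((List.zip u g).map Prod.snd) =
          eps (List.zip u g) := by
        rw [List.countP_map]; rfl
      rw [← this, List.map_snd_zip (by omega)]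
    have hgc : N ≤ gs.countP (fun t => t.1) := by
      rw [← hepsz (l.map Prod.fst) gs (by simp [hgs]), ← hzip]; exact hε
    have hzero := hNn A (fun u => X ^ (m + 1) * tp V X Y (List.zip u gs)) ?_ ?_
      (l.map Prod.fst) (by simpa using hl)
    · rw [hzip]; exact hzero
    · intro j u₁ u₂ hu
      obtain ⟨gs₁, ⟨ε, k⟩, ⟨ε', k'⟩, gs₂, hgs', hl1, hl2⟩ : ∃ gs₁ h h' gs₂,
          gs = gs₁ ++ h :: h' :: gs₂ ∧ gs₁.length = u₁.length ∧ gs₂.length = u₂.length := by
        have e1 : gs = gs.take u₁.length ++ gs.drop u₁.length :=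
          (List.take_append_drop _ _).symm
        have e2 : (gs.drop u₁.length).length = u₂.length + 2 := by
          rw [List.length_drop]; omega
        match hd : gs.drop u₁.length, e2 with
        | h :: h' :: hs₂, e2 =>
          rw [hd] at e1
          refine ⟨gs.take u₁.length, h, h', hs₂, e1, ?_, by simpa using e2⟩
          rw [List.length_take]; omega
      have e3 : ∀ a b : W, X ^ (m + 1) * tp V X Y (List.zip (u₁ ++ a :: b :: u₂) gs) =
          (X ^ (m + 1) * tp V X Y (List.zip u₁ gs₁)) * V a * gv X Y (ε, k) * V b *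
            (gv X Y (ε', k') * tp V X Y (List.zip u₂ gs₂)) := by
        intro a b
        rw [hgs', List.zip_append hl1.symm]
        simp [mul_assoc]
      simp only [e3]
      rw [← mul_gap_mul]
      obtain ⟨z, hz⟩ := ends_X (V := V) (X := X) (Y := Y) (List.zip u₁ gs₁) m
      cases ε with
      | true =>
        have e4 : gap (ρ j) V (gv X Y (true, k)) = lam j • (X * Y ^ (k + 3) - Y ^ (k + 4)) := by
          rw [← gap_w_one h]; simp [gv]
        rw [e4, hz]
        have e5 : z * X * (lam j • (X * Y ^ (k + 3) - Y ^ (k + 4))) = 0 := by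
          rw [mul_smul_comm, mul_sub, mul_assoc z, mul_assoc z,
            X_mul_Y_pow_one h.hXY, X_mul_Y_pow_one h.hXY, ← pow_succ' X, sub_self,
            smul_zero]
        rw [e5, zero_mul]
      | false =>
        have e4 : gap (ρ j) V (gv X Y (false, k)) = lam j • Y ^ (k + 3) := by
          rw [← gap_one h]; simp [gv]
        have e5 : (X ^ (m + 1) * tp V X Y (List.zip u₁ gs₁)) * Y ^ (k + 3) =
            (X ^ (m + 1) * tp V X Y (List.zip u₁ gs₁)) * X ^ (k + 3) := by
          rw [hz, mul_assoc, X_mul_Y_pow_one h.hXY, mul_assoc, ← pow_succ' X]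
        rw [e4, mul_smul_comm, e5]
        cases ε' with
        | true =>
          have e6 : X ^ (k + 3) * (gv X Y (true, k') * tp V X Y (List.zip u₂ gs₂)) = 0 := by
            have : X ^ (k + 3) * (Y - X) = 0 := by
              rw [pow_succ X (k + 2), mul_assoc, mul_sub, h.hXY, sub_self, mul_zero]
            simp only [gv, if_true]
            rw [← mul_assoc, ← mul_assoc, this]; simp
          rw [smul_mul_assoc, mul_assoc, e6, mul_zero, smul_zero]
        | false =>
          have e6 : X ^ (k + 3) * (gv X Y (false, k') * tp V X Y (List.zip u₂ gs₂)) =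
              X ^ (k + 3 + k' + 1) * tp V X Y (List.zip u₂ gs₂) := by
            simp only [gv, Bool.false_eq_true, if_false, one_mul]
            rw [← mul_assoc, ← pow_add]
            congr 2
          rw [smul_mul_assoc, mul_assoc, e6, ← mul_assoc]
          obtain ⟨l', m', h1, h2, h3⟩ := absorb (V := V) (X := X) (Y := Y)
            (List.zip u₁ gs₁) m (k + 3 + k' + 1)
          rw [h3, mul_assoc, ← tp_append]
          have h4 := ih (l' ++ List.zip u₂ gs₂).length (by
            rw [List.length_append, h1, List.length_zip, List.length_zip]; omega)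
            (l' ++ List.zip u₂ gs₂) m' rfl (by
              rw [eps_append, h2, hepsz u₁ gs₁ hl1.symm, hepsz u₂ gs₂ hl2.symm]
              rw [hgs'] at hgc
              simpa using hgc)
          rw [h4, smul_zero]
    · intro u₁ u₂ _
      simp

/-- span of the products with at least `k` special gaps -/
def Fil (K : Type u) [Field K] [Algebra K A] (V : W → A) (X Y : A) (k : ℕ) : Submodule K A :=
  Submodule.span K {p | ∃ (m : ℕ) (l : List (W × Bool × ℕ)), k ≤ eps l ∧
    X ^ (m + 1) * tp V X Y l = p}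

omit [Fintype W] in
theorem fil_mul_X {k : ℕ} {p : A} (hp : p ∈ Fil K V X Y k) : p * X ∈ Fil K V X Y k := by
  induction hp using Submodule.span_induction with
  | mem p hp =>
    obtain ⟨m, l, hl, rfl⟩ := hp
    obtain ⟨l', m', _, h2, h3⟩ := absorb (V := V) (X := X) (Y := Y) l m 1
    rw [pow_one] at h3
    exact Submodule.subset_span ⟨m', l', by omega, h3.symm⟩
  | zero => simp
  | add x y _ _ hx hy => rw [add_mul]; exact add_mem hx hy
  | smul c x _ hx => rw [smul_mul_assoc]; exact Submodule.smul_mem _ c hx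

omit [Fintype W] in
theorem fil_mul_X_pow {k : ℕ} {p : A} (hp : p ∈ Fil K V X Y k) : ∀ n : ℕ,
    p * X ^ n ∈ Fil K V X Y k
  | 0 => by simpa using hp
  | n + 1 => by
    rw [pow_succ, ← mul_assoc]
    exact fil_mul_X (fil_mul_X_pow hp n)

omit [Fintype W] in
theorem fil_mul_VX {k : ℕ} {p : A} (hp : p ∈ Fil K V X Y k) (a : W) :
    p * (V a * X) ∈ Fil K V X Y k := by
  induction hp using Submodule.span_induction with
  | mem p hp =>
    obtain ⟨m, l, hl, rfl⟩ := hp
    exact Submodule.subset_span ⟨m, l ++ [(a, false, 0)], by simpa using hl,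
      by simp [gv, mul_assoc]⟩
  | zero => simp
  | add x y _ _ hx hy => rw [add_mul]; exact add_mem hx hy
  | smul c x _ hx => rw [smul_mul_assoc]; exact Submodule.smul_mem _ c hx

omit [Fintype W] in
theorem fil_mul_VwX {k : ℕ} {p : A} (hp : p ∈ Fil K V X Y k) (a : W) :
    p * (V a * ((Y - X) * X)) ∈ Fil K V X Y (k + 1) := by
  induction hp using Submodule.span_induction with
  | mem p hp =>
    obtain ⟨m, l, hl, rfl⟩ := hp
    exact Submodule.subset_span ⟨m, l ++ [(a, true, 0)], by simp; omega,
      by simp [gv, mul_assoc]⟩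
  | zero => simp
  | add x y _ _ hx hy => rw [add_mul]; exact add_mem hx hy
  | smul c x _ hx => rw [smul_mul_assoc]; exact Submodule.smul_mem _ c hx

omit [Fintype W] in
theorem fil_mul_Y {k : ℕ} {p : A} (hXY : X * Y = X * X) (hp : p ∈ Fil K V X Y k) :
    p * Y = p * X := by
  induction hp using Submodule.span_induction with
  | mem p hp =>
    obtain ⟨m, l, hl, rfl⟩ := hp
    obtain ⟨z, hz⟩ := ends_X (V := V) (X := X) (Y := Y) l m
    rw [hz, mul_assoc, hXY, mul_assoc]
  | zero => simp
  | add x y _ _ hx hy => rw [add_mul, add_mul, hx, hy]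
  | smul c x _ hx => rw [smul_mul_assoc, smul_mul_assoc, hx]

omit [Fintype W] in
theorem fil_mul_Y_pow {k : ℕ} {p : A} (hXY : X * Y = X * X) (hp : p ∈ Fil K V X Y k) :
    ∀ n : ℕ, p * Y ^ n = p * X ^ n
  | 0 => by simp
  | n + 1 => by
    rw [pow_succ, ← mul_assoc, fil_mul_Y_pow hXY hp n, pow_succ X, ← mul_assoc]
    exact fil_mul_Y hXY (fil_mul_X_pow hp n)

omit [Fintype W] in
theorem fil_mul_VX_prod {k : ℕ} (u : List W) : ∀ {p : A}, p ∈ Fil K V X Y k →
    p * (u.map (fun a => V a * X)).prod ∈ Fil K V X Y k := by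
  induction u with
  | nil => intro p hp; simpa using hp
  | cons a u ih =>
    intro p hp
    rw [List.map_cons, List.prod_cons, ← mul_assoc]
    exact ih (fil_mul_VX hp a)

omit [Fintype W] in
/-- powers of `X` move to the right modulo the next filtration step -/
theorem fil_comm (hX : ∀ a, X * V a = V a * Y) {k : ℕ} (u : List W) : ∀ {p : A},
    p ∈ Fil K V X Y k →
    p * X * (u.map (fun a => V a * X)).prod - p * (u.map (fun a => V a * X)).prod * X ∈
      Fil K V X Y (k + 1) := by
  induction u with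
  | nil => intro p hp; simp
  | cons a u ih =>
    intro p hp
    rw [List.map_cons, List.prod_cons]
    set P := (u.map (fun a => V a * X)).prod with hP
    have e : p * X * (V a * X * P) - p * (V a * X * P) * X =
        p * (V a * ((Y - X) * X)) * P + (p * (V a * X) * X * P - p * (V a * X) * P * X) := by
      have : p * X * (V a * X * P) = p * (V a * (Y * X)) * P := by
        rw [← mul_assoc, ← mul_assoc, mul_assoc p X, hX]
        simp only [mul_assoc]
      rw [this]
      noncomm_ring
    rw [e]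
    exact add_mem (fil_mul_VX_prod u (fil_mul_VwX hp a)) (ih (fil_mul_VX hp a))

omit [Fintype W] in
theorem fil_comm_pow (hX : ∀ a, X * V a = V a * Y) {k : ℕ} (u : List W) {p : A}
    (hp : p ∈ Fil K V X Y k) (n : ℕ) : ∀ e : ℕ,
    p * X ^ e * (u.map (fun a => V a * X)).prod * X ^ n -
      p * (u.map (fun a => V a * X)).prod * X ^ (n + e) ∈ Fil K V X Y (k + 1)
  | 0 => by simp
  | e + 1 => by
    set P := (u.map (fun a => V a * X)).prod with hP
    have h1 := fil_comm_pow hX u hp (n + 1) e
    have h2 := fil_mul_X_pow (fil_comm (V := V) (X := X) (Y := Y) hX u (fil_mul_X_pow hp e)) n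
    have e1 : p * X ^ (e + 1) * P * X ^ n - p * P * X ^ (n + (e + 1)) =
        (p * X ^ e * X * P - p * X ^ e * P * X) * X ^ n +
          (p * X ^ e * P * X ^ (n + 1) - p * P * X ^ (n + 1 + e)) := by
      have : n + (e + 1) = n + 1 + e := by omega
      rw [this, pow_succ X e, pow_succ' X n]
      noncomm_ring
    rw [e1]
    exact add_mem h2 h1

theorem exists_pow_mem (h : RelOne ρ lam V X Y) (hE : Coll ρ lam) : ∀ k : ℕ,
    ∃ M : ℕ, X ^ (M + 1) ∈ Fil K V X Y k
  | 0 => ⟨0, Submodule.subset_span ⟨0, [], by simp, by simp⟩⟩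
  | k + 1 => by
    obtain ⟨M, hM⟩ := exists_pow_mem h hE k
    obtain ⟨n₀, hn⟩ := hE.eventually (A ⧸ Fil K V X Y (k + 1))
      (fun u n => (Fil K V X Y (k + 1)).mkQ
        (X ^ (M + 1) * (u.map (fun a => V a * X)).prod * X ^ n)) (by
        intro j u₁ u₂ n
        set p := X ^ (M + 1) * (u₁.map (fun a => V a * X)).prod with hp
        have hpF : p ∈ Fil K V X Y k := fil_mul_VX_prod u₁ hM
        have e3 : ∀ a b : W, X ^ (M + 1) *
            ((u₁ ++ a :: b :: u₂).map (fun a => V a * X)).prod * X ^ n =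
            p * V a * X ^ (0 + 1) * V b * (X * (u₂.map (fun a => V a * X)).prod * X ^ n) := by
          intro a b
          simp [hp, mul_assoc]
        simp only [e3, ← map_smul, ← map_sum]
        rw [← mul_gap_mul, gap_one h, mul_smul_comm, smul_mul_assoc, map_smul, map_smul]
        rw [fil_mul_Y_pow h.hXY hpF]
        have e4 : p * X ^ (0 + 3) * (X * (u₂.map (fun a => V a * X)).prod * X ^ n) =
            p * X ^ 4 * (u₂.map (fun a => V a * X)).prod * X ^ n := by
          simp only [← mul_assoc]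
          rw [mul_assoc p, ← pow_succ]
        rw [e4]
        congr 1
        rw [← sub_eq_zero, ← map_sub, Submodule.mkQ_apply, Submodule.Quotient.mk_eq_zero]
        have h5 := fil_comm_pow h.hX u₂ hpF n 4
        have e5 : X ^ (M + 1) * ((u₁ ++ u₂).map (fun a => V a * X)).prod * X ^ (n + 4) =
            p * (u₂.map (fun a => V a * X)).prod * X ^ (n + 4) := by
          simp [hp, mul_assoc]
        rw [e5]
        exact h5)
    refine ⟨M + n₀, ?_⟩
    have := hn n₀ le_rfl
    rw [Submodule.mkQ_apply, Submodule.Quotient.mk_eq_zero] at this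
    have e : M + n₀ + 1 = M + 1 + n₀ := by omega
    rw [e, pow_add]
    simpa using this

theorem exists_pow_eq_zero (h : RelOne ρ lam V X Y) (hE : Coll ρ lam) {N : ℕ}
    (hN : ∀ n, N ≤ n → Nil2 ρ 0 n) : ∃ M, X ^ M = 0 := by
  obtain ⟨M, hM⟩ := exists_pow_mem h hE N
  refine ⟨M + 1, ?_⟩
  have hzero : Fil K V X Y N = ⊥ := by
    rw [Fil, Submodule.span_eq_bot]
    rintro p ⟨m, l, hl, rfl⟩
    exact count_lemma h hN l.length l m rfl hl
  rw [hzero] at hM
  simpa using hM

theorem Y_pow_eq_zero_one (h : RelOne ρ lam V X Y) (hE : Coll ρ lam) (M : ℕ) (hM : X ^ M = 0) :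
    Y ^ (M + 2) = 0 := by
  obtain ⟨j, hj⟩ := hE.exists_ne
  have e1 : ∀ a : W, V a * Y ^ M = 0 := by
    intro a
    rw [← pow_mul_of_comm h.hX, hM, zero_mul]
  have e2 : ev (ρ j) V * Y ^ M = 0 := by
    have := mul_ev_mul (ρ j) V 1 (Y ^ M)
    rw [one_mul] at this
    rw [this]
    simp only [mul_assoc, e1, mul_zero, smul_zero, Finset.sum_const_zero]
  rw [h.hρ, smul_mul_assoc, smul_eq_zero] at e2
  rw [add_comm, pow_add, pow_two]
  exact e2.resolve_left hj

omit [Fintype W] in
theorem exists_normal_one (hXY : X * Y = X * X) (V : W → A) (g : List Bool) :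
    ∃ (p s : ℕ), p + s = g.length ∧
      val (Sum.elim V (fun b => if b then Y else X)) (g.map Sum.inr) = Y ^ p * X ^ s := by
  induction g with
  | nil => exact ⟨0, 0, rfl, by simp⟩
  | cons b g ih =>
    obtain ⟨p, s, h1, h2⟩ := ih
    cases b with
    | true =>
      refine ⟨p + 1, s, by simp; omega, ?_⟩
      rw [List.map_cons, val_cons, h2]
      simp [pow_succ', mul_assoc]
    | false =>
      refine ⟨0, p + 1 + s, by simp; omega, ?_⟩
      rw [List.map_cons, val_cons, h2]
      simp only [Sum.elim_inr, Bool.false_eq_true, if_false]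
      rw [← mul_assoc, X_mul_Y_pow_one hXY, ← pow_add]
      simp

theorem words_vanish_one (h : RelOne ρ lam V X Y) (hE : Coll ρ lam) {N : ℕ}
    (hN : ∀ n, N ≤ n → Nil2 ρ 0 n) : ∃ L, ∀ l : List (W ⊕ Bool), L ≤ l.length →
      val (Sum.elim V (fun b => if b then Y else X)) l = 0 := by
  obtain ⟨M, hXn⟩ := exists_pow_eq_zero h hE hN
  have hYn := Y_pow_eq_zero_one h hE _ hXn
  set V' : W ⊕ Bool → A := Sum.elim V (fun b => if b then Y else X) with hV'
  refine ⟨N * (M + 2 + M) + N, fun l hl => ?_⟩
  refine words_vanish_two (hN N le_rfl) V' (fun j g => ?_) (fun g => ?_) (M + 2 + M) ?_ l hl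
  · obtain ⟨p, s, h1, h2⟩ := exists_normal_one h.hXY V g
    rw [h2]
    have e : gap (ρ j) (fun a => V' (Sum.inl a)) (Y ^ p * X ^ s) = _ := gap_pow h.hX (ρ j) p s
    rw [e, h.hρ, mul_smul_comm, smul_mul_assoc]
    refine Submodule.smul_mem _ _ (Submodule.subset_span
      ⟨List.replicate p false ++ List.replicate (s + 2) true, ?_, ?_⟩)
    · simp; omega
    · rw [List.map_append, List.map_replicate, List.map_replicate, val_append, val_replicate,
        val_replicate, add_comm s 2, pow_add, pow_two]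
      simp [hV', mul_assoc]
  · simp [gap]
  · intro g hg
    obtain ⟨p, s, h1, h2⟩ := exists_normal_one h.hXY V g
    rw [h2]
    by_cases hp : M + 2 ≤ p
    · rw [pow_eq_zero_of_le hp hYn]; simp
    · rw [pow_eq_zero_of_le (by omega : M ≤ s) hXn]; simp

end stepOne

end Pool.Agent.Lib.MP_f6e06e_al
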