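import Mathlib
import Pool.Agent.Lib.MP_f6e06e_al.StepOne
import Pool.Agent.Lib.MP_f6e06e_al.Forms

/-!
The tower of algebras with `n`, `n + 2`, `n + 4`, ... generators.
-/

namespace Pool.Agent.Lib.MP_f6e06e_al

universe u

section uniform

variable {K : Type u} [Field K] {W J : Type} [Fintype W]

theorem Nil1.mono {ρ : J → W → W → K} {r : W → W → K} {N n : ℕ} (h : Nil1 ρ r N) (hn : N ≤ n) :
    Nil1 ρ r n := by
  intro A _ _ V hρ hr l hl
  rw [← List.take_append_drop N l, List.map_append, List.prod_append,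
    h A V hρ hr (l.take N) (by rw [List.length_take]; omega), zero_mul]

/-- a uniform bound exists as soon as every single algebra has a bound -/
theorem nil1_of_exists {ρ : J → W → W → K} {r : W → W → K}
    (h : ∀ (A : Type u) [Ring A] [Algebra K A] (V : W → A), (∀ j, ev (ρ j) V = 0) →
      ev r V = 0 → ∃ L, ∀ l : List W, L ≤ l.length → (l.map V).prod = 0) : ∃ N, Nil1 ρ r N := by
  by_contra hcon
  simp only [Nil1] at hcon
  push Not at hcon
  choose A iR iA V hρ hr l hl hne using hcon
  obtain ⟨L, hL⟩ := h (∀ n, A n) (fun a n => V n a) (by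
    intro j
    funext n
    have := hρ n j
    simpa [ev, Finset.sum_apply] using this) (by
    funext n
    have := hr n
    simpa [ev, Finset.sum_apply] using this)
  have h1 := hL (l L) (by rw [hl])
  apply hne L
  have h2 := congrArg (Pi.evalRingHom A L) h1
  rw [map_list_prod, List.map_map, map_zero] at h2
  exact h2

end uniform

section fd

variable {K : Type u} [Field K] {W J : Type} [Fintype W]

/-- span of the words of length less than `n` -/
def short (K : Type u) [Field K] {A : Type u} [Ring A] [Algebra K A] (V : W → A) (n : ℕ) :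
    Submodule K A :=
  Submodule.span K ((fun l : List W => (l.map V).prod) '' {l | l.length < n})

theorem word_mem_short {ρ : J → W → W → K} {lam : J → K} {n : ℕ} (hN : Nil2 ρ 0 n)
    {A : Type u} [Ring A] [Algebra K A] (V : W → A) (hV : ∀ j, ev (ρ j) V = lam j • (1 : A))
    (l : List W) (hl : l.length = n) : (l.map V).prod ∈ short K V n := by
  have key := hN (A ⧸ short K V n) (fun u => (short K V n).mkQ ((u.map V).prod)) (by
    intro j u₁ u₂ hu
    have e3 : ∀ a b : W, ((u₁ ++ a :: b :: u₂).map V).prod =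
        (u₁.map V).prod * V a * V b * (u₂.map V).prod := by
      intro a b
      simp [mul_assoc]
    simp only [e3, ← map_smul, ← map_sum]
    rw [← mul_ev_mul, hV, mul_smul_comm, smul_mul_assoc, mul_one, map_smul]
    have : (u₁.map V).prod * (u₂.map V).prod ∈ short K V n :=
      Submodule.subset_span ⟨u₁ ++ u₂, by
        simp only [Set.mem_ofPred_eq, List.length_append]; omega, by simp⟩
    rw [Submodule.mkQ_apply, (Submodule.Quotient.mk_eq_zero _).2 this, smul_zero]) (by
    intro u₁ u₂ _
    simp) l hl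
  rwa [Submodule.mkQ_apply, Submodule.Quotient.mk_eq_zero] at key

/-- it is enough to consider finite-dimensional algebras -/
theorem coll_of_fd {ρ : J → W → W → K} {lam : J → K} {N : ℕ} (hN : Nil1 ρ 0 N)
    (h : ∀ (A : Type u) [Ring A] [Algebra K A] [FiniteDimensional K A] (V : W → A),
      (∀ j, ev (ρ j) V = lam j • (1 : A)) → (1 : A) = 0) : Coll ρ lam := by
  intro B _ _ V hV
  have hN1 : Nil2 ρ 0 (N + 1) := (hN.mono (Nat.le_succ N)).nil2
  set T := short K V (N + 1) with hT
  have h1T : (1 : B) ∈ T := Submodule.subset_span ⟨[], by simp, by simp⟩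
  have hVT : ∀ a : W, ∀ t ∈ T, V a * t ∈ T := by
    intro a t ht
    rw [hT, short] at ht
    induction ht using Submodule.span_induction with
    | mem t ht =>
      obtain ⟨l, hl, rfl⟩ := ht
      simp only [Set.mem_ofPred_eq] at hl
      have e : V a * (l.map V).prod = ((a :: l).map V).prod := by simp
      simp only [e]
      by_cases h1 : l.length < N
      · exact Submodule.subset_span ⟨a :: l, by
          simp only [Set.mem_ofPred_eq, List.length_cons]; omega, rfl⟩
      · exact word_mem_short hN1 V hV (a :: l) (by simp; omega)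
    | zero => simp
    | add x y _ _ hx hy => rw [mul_add]; exact add_mem hx hy
    | smul c x _ hx => rw [mul_smul_comm]; exact Submodule.smul_mem _ c hx
  set S := Algebra.adjoin K (Set.range V) with hS
  have hST : ∀ x ∈ S, ∀ t ∈ T, x * t ∈ T := by
    intro x hx
    induction hx using Algebra.adjoin_induction with
    | mem x hx =>
      obtain ⟨a, rfl⟩ := hx
      exact hVT a
    | algebraMap r =>
      intro t ht
      rw [← Algebra.smul_def]
      exact Submodule.smul_mem _ _ ht
    | add x y _ _ hx hy =>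
      intro t ht
      rw [add_mul]
      exact add_mem (hx t ht) (hy t ht)
    | mul x y _ _ hx hy =>
      intro t ht
      rw [mul_assoc]
      exact hx _ (hy _ ht)
  have hle : Subalgebra.toSubmodule S ≤ T := by
    intro x hx
    have := hST x hx 1 h1T
    simpa using this
  have hfin : FiniteDimensional K T := by
    have hf : ({l : List W | l.length < N + 1}).Finite := List.finite_length_lt W (N + 1)
    exact FiniteDimensional.span_of_finite K (hf.image _)
  have hfinS : FiniteDimensional K (Subalgebra.toSubmodule S) :=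
    Submodule.finiteDimensional_of_le hle
  have hfinS' : FiniteDimensional K S := hfinS
  have := h S (fun a => ⟨V a, Algebra.subset_adjoin ⟨a, rfl⟩⟩) (by
    intro j
    apply Subtype.ext
    have := hV j
    simp only [ev] at this ⊢
    push_cast
    simpa using this)
  have h2 := congrArg (Subtype.val) this
  simpa using h2

/-- one-sided inverses are inverses -/
theorem mul_one_symm {A : Type u} [Ring A] [Algebra K A] [FiniteDimensional K A] {a b : A}
    (h : a * b = 1) : b * a = 1 := by
  have hinj : Function.Injective (LinearMap.mulLeft K b) := by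
    intro x y hxy
    simp only [LinearMap.mulLeft_apply] at hxy
    have := congrArg (a * ·) hxy
    simpa [← mul_assoc, h] using this
  obtain ⟨c, hc⟩ := LinearMap.surjective_of_injective hinj 1
  rw [LinearMap.mulLeft_apply] at hc
  have : c = a := by
    have := congrArg (a * ·) hc
    simpa [← mul_assoc, h] using this
  rwa [this] at hc

end fd

section tower

variable {K : Type u} [Field K] {W J : Type} [Fintype W]

/-- the relations of the new level -/
noncomputable def newRel (ρ : J → W → W → K) (lam : J → K) :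
    (J ⊕ W ⊕ Unit) → (W ⊕ Bool) → (W ⊕ Bool) → K :=
  Sum.elim (fun j => ext0 (ρ j) - lam j • mono K (Sum.inr true) (Sum.inr true)) (Sum.elim
      (fun a => mono K (Sum.inr false) (Sum.inl a) - mono K (Sum.inl a) (Sum.inr true))
      (fun _ => mono K (Sum.inr false) (Sum.inr true) -
        mono K (Sum.inr false) (Sum.inr false)))

theorem ev_newRel_inl (ρ : J → W → W → K) (lam : J → K) {A : Type*} [Ring A] [Algebra K A]
    (V : W ⊕ Bool → A) (j : J) : ev (newRel ρ lam (Sum.inl j)) V =
      ev (ρ j) (fun a => V (Sum.inl a)) - lam j • (V (Sum.inr true) * V (Sum.inr true)) := by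
  simp [newRel, ev_sub, ev_ext0, ev_smul, ev_mono]

theorem ev_newRel_inr_inl (ρ : J → W → W → K) (lam : J → K) {A : Type*} [Ring A] [Algebra K A]
    (V : W ⊕ Bool → A) (a : W) : ev (newRel ρ lam (Sum.inr (Sum.inl a))) V =
      V (Sum.inr false) * V (Sum.inl a) - V (Sum.inl a) * V (Sum.inr true) := by
  simp [newRel, ev_sub, ev_mono]

theorem ev_newRel_inr_inr (ρ : J → W → W → K) (lam : J → K) {A : Type*} [Ring A] [Algebra K A]
    (V : W ⊕ Bool → A) (i : Unit) : ev (newRel ρ lam (Sum.inr (Sum.inr i))) V =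
      V (Sum.inr false) * V (Sum.inr true) - V (Sum.inr false) * V (Sum.inr false) := by
  simp [newRel, ev_sub, ev_mono]

omit [Fintype W] in
theorem elim_V {A : Type*} (V : W ⊕ Bool → A) : (Sum.elim (fun a => V (Sum.inl a))
      (fun b => if b then V (Sum.inr true) else V (Sum.inr false)) : W ⊕ Bool → A) = V := by
  funext s
  rcases s with a | b
  · rfl
  · cases b <;> rfl

theorem nil_newRel {ρ : J → W → W → K} {lam : J → K} (hN : ∃ N, Nil1 ρ 0 N)
    (hE : Coll ρ lam) : ∃ N, Nil1 (newRel ρ lam) 0 N := by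
  obtain ⟨N, hN⟩ := hN
  refine nil1_of_exists ?_
  intro A _ _ V hρ _
  have hrel : RelOne ρ lam (fun a => V (Sum.inl a)) (V (Sum.inr false)) (V (Sum.inr true)) := by
    refine ⟨fun j => ?_, fun a => ?_, ?_⟩
    · have := hρ (Sum.inl j)
      rw [ev_newRel_inl] at this
      exact sub_eq_zero.1 this
    · have := hρ (Sum.inr (Sum.inl a))
      rw [ev_newRel_inr_inl] at this
      exact sub_eq_zero.1 this
    · have := hρ (Sum.inr (Sum.inr ()))
      rw [ev_newRel_inr_inr] at this
      exact sub_eq_zero.1 this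
  obtain ⟨L, hL⟩ := words_vanish_one hrel hE (N := N) (fun n hn => (hN.mono hn).nil2)
  refine ⟨L, fun l hl => ?_⟩
  have := hL l hl
  rw [elim_V V] at this
  exact this

end tower

section state

variable {K : Type u} [Field K] {W J : Type} [Fintype W]

/-- the data needed to build the next level; the letters `x`, `y` are `inr false`, `inr true` -/
structure St (ρ : J → (W ⊕ Bool) → (W ⊕ Bool) → K) (lam : J → K) (j₁ j₂ : J) : Prop where
  nil : ∃ N, Nil1 ρ 0 N
  coll : Coll ρ lam
  exch : ∀ a : W, ∃ j, ρ j = mono K (Sum.inr false) (Sum.inl a) - mono K (Sum.inl a) (Sum.inr true)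
  old : ∃ q : W → W → K, ρ j₁ = ext0 q
  lam₁ : lam j₁ = 0
  lam₂ : lam j₂ = 0
  ne : j₂ ≠ j₁

/-- the new constants -/
noncomputable def newLam (j₁ : J) : (J ⊕ (W ⊕ Bool) ⊕ Unit) → K :=
  open Classical in
  Sum.elim (fun j => if j = j₁ then 1 else 0) (Sum.elim (Sum.elim (fun _ => 0)
    (fun b => if b then 0 else 1)) (fun _ => 1))

theorem coll_new_fd {ρ : J → (W ⊕ Bool) → (W ⊕ Bool) → K} {lam : J → K} {j₁ j₂ : J}
    (h : St ρ lam j₁ j₂) (A : Type u) [Ring A] [Algebra K A] [FiniteDimensional K A]
    (V : (W ⊕ Bool) ⊕ Bool → A)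
    (hV : ∀ j, ev (newRel ρ lam j) V = newLam (K := K) (W := W) j₁ j • (1 : A)) :
    (1 : A) = 0 := by
  classical
  obtain ⟨q, hq⟩ := h.old
  set X := V (Sum.inr false) with hX
  set Y := V (Sum.inr true) with hY
  set x := V (Sum.inl (Sum.inr false)) with hx
  set y := V (Sum.inl (Sum.inr true)) with hy
  set v : W → A := fun a => V (Sum.inl (Sum.inl a)) with hv
  -- the relations
  have r1 : ev q v = 1 := by
    have := hV (Sum.inl j₁)
    rw [ev_newRel_inl, hq, h.lam₁, zero_smul, sub_zero, ev_ext0] at this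
    simpa [newLam] using this
  have r2 : ∀ a, ∃ c : K, x * v a - v a * y = c • (Y * Y) := by
    intro a
    obtain ⟨j, hj⟩ := h.exch a
    have hne : j ≠ j₁ := by
      rintro rfl
      rw [hq] at hj
      have := congrFun (congrFun hj (Sum.inr false)) (Sum.inl a)
      simp [ext0, mono] at this
    refine ⟨lam j, ?_⟩
    have := hV (Sum.inl j)
    rw [ev_newRel_inl, hj, ev_sub, ev_mono, ev_mono] at this
    simp only [newLam, Sum.elim_inl, if_neg hne, zero_smul] at this
    exact sub_eq_zero.1 this
  have r3 : ∀ a, X * v a = v a * Y := by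
    intro a
    have := hV (Sum.inr (Sum.inl (Sum.inl a)))
    rw [ev_newRel_inr_inl] at this
    simp only [newLam, Sum.elim_inl, Sum.elim_inr, zero_smul] at this
    exact sub_eq_zero.1 this
  have r4 : X * x - x * Y = 1 := by
    have := hV (Sum.inr (Sum.inl (Sum.inr false)))
    rw [ev_newRel_inr_inl] at this
    simpa [newLam] using this
  have r5 : X * y = y * Y := by
    have := hV (Sum.inr (Sum.inl (Sum.inr true)))
    rw [ev_newRel_inr_inl] at this
    simp only [newLam, Sum.elim_inl, Sum.elim_inr, if_true, zero_smul] at this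
    exact sub_eq_zero.1 this
  have r6 : X * Y - X * X = 1 := by
    have := hV (Sum.inr (Sum.inr ()))
    rw [ev_newRel_inr_inr] at this
    simpa [newLam] using this
  -- the computation
  set w := Y - X with hw
  have e1 : X * w = 1 := by rw [hw, mul_sub, r6]
  have e2 : w * X = 1 := mul_one_symm (K := K) e1
  have e3 : ev q v = gap q v w * Y := by
    have h3 := mul_gap_mul q v w 1 Y
    rw [one_mul] at h3
    rw [h3, ev]
    refine Finset.sum_congr rfl fun a _ => Finset.sum_congr rfl fun b _ => ?_
    congr 1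
    rw [one_mul, mul_assoc (v a * w), ← r3, mul_assoc, ← mul_assoc w, e2, one_mul]
  set Z := gap q v w with hZ
  have e4 : Z * Y = 1 := by rw [← e3, r1]
  have e5 : Y * Z = 1 := mul_one_symm (K := K) e4
  have e6 : X = Y + Z := by
    have h6 : X = gap q v Y := by
      have h7 := mul_ev_mul q v X 1
      rw [r1, mul_one, mul_one] at h7
      rw [h7, gap]
      refine Finset.sum_congr rfl fun a _ => Finset.sum_congr rfl fun b _ => ?_
      congr 1
      rw [mul_one, r3]
    have h8 : Y = X + w := by rw [hw]; abel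
    have h9 : gap q v Y = gap q v X + Z := by
      conv_lhs => rw [h8]
      rw [gap_add]
    have h10 : gap q v X = Y := by
      have h11 := mul_ev_mul q v 1 Y
      rw [r1, mul_one, one_mul] at h11
      rw [h11, gap]
      refine Finset.sum_congr rfl fun a _ => Finset.sum_congr rfl fun b _ => ?_
      congr 1
      rw [one_mul, mul_assoc, r3, mul_assoc]
    rw [h10] at h9
    rw [← h9, ← h6]
  have e7 : Y = -X := by
    have h1 : Y * w = -1 := by
      have : w = -Z := by rw [hw, e6]; abel
      rw [this, mul_neg, e5]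
    have h2 : (X + Y) * w = 0 := by rw [add_mul, e1, h1]; simp
    have h3 : (X + Y) * w * X = 0 := by rw [h2, zero_mul]
    rw [mul_assoc, e2, mul_one] at h3
    exact eq_neg_of_add_eq_zero_right h3
  have e8 : ∀ a, v a = 0 := by
    intro a
    obtain ⟨c, hc⟩ := r2 a
    have h1 : X * (x * v a - v a * y) - (x * v a - v a * y) * X = 0 := by
      rw [hc, e7]
      simp [mul_assoc]
    have h2 : X * (x * v a - v a * y) - (x * v a - v a * y) * X = v a := by
      have r3' : X * v a = - (v a * X) := by rw [r3, e7, mul_neg]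
      have r4' : X * x = 1 - x * X := by
        rw [← r4, e7]; simp
      have r5' : X * y = - (y * X) := by rw [r5, e7, mul_neg]
      have t1 : X * (x * v a) = v a + x * v a * X := by
        rw [← mul_assoc, r4', sub_mul, one_mul, mul_assoc, r3']
        simp [mul_assoc]
      have t2 : X * (v a * y) = v a * y * X := by
        rw [← mul_assoc, r3', neg_mul, mul_assoc, r5']
        simp [mul_assoc]
      rw [mul_sub, t1, t2, sub_mul]
      abel
    rw [← h2, h1]
  rw [← r1]
  simp [ev, e8]

theorem St.next {ρ : J → (W ⊕ Bool) → (W ⊕ Bool) → K} {lam : J → K} {j₁ j₂ : J}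
    (h : St ρ lam j₁ j₂) :
    St (newRel ρ lam) (newLam (K := K) (W := W) j₁) (Sum.inl j₂)
      (Sum.inr (Sum.inl (Sum.inr true))) := by
  classical
  have hnil := nil_newRel h.nil h.coll
  obtain ⟨N, hN⟩ := hnil
  refine ⟨⟨N, hN⟩, coll_of_fd hN (fun A _ _ _ V hV => coll_new_fd h A V hV), ?_, ?_, ?_, ?_, ?_⟩
  · intro a
    exact ⟨Sum.inr (Sum.inl a), rfl⟩
  · refine ⟨ρ j₂, ?_⟩
    simp [newRel, h.lam₂]
  · simp [newLam, h.ne]
  · simp [newLam]
  · simp

/-- a state exists, with `n` generators and `m` relations -/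
def HasSt (K : Type u) [Field K] (n m : ℕ) : Prop :=
  ∃ (W J : Type) (_ : Fintype W) (_ : Fintype J) (ρ : J → (W ⊕ Bool) → (W ⊕ Bool) → K)
    (lam : J → K) (j₁ j₂ : J), Fintype.card W + 2 = n ∧ Fintype.card J = m ∧ St ρ lam j₁ j₂

theorem HasSt.next {n m : ℕ} (h : HasSt K n m) : HasSt K (n + 2) (m + n + 1) := by
  obtain ⟨W, J, _, _, ρ, lam, j₁, j₂, hW, hJ, h⟩ := h
  refine ⟨W ⊕ Bool, J ⊕ (W ⊕ Bool) ⊕ Unit, inferInstance, inferInstance, _, _, _, _, ?_, ?_,
    h.next⟩
  · simp [hW]
  · simp [hJ]; omega

/-- there is a nilpotent quadratic algebra with `n` generators and `m` relations -/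
def GoodTwo (K : Type u) [Field K] (n m : ℕ) : Prop :=
  ∃ (W J : Type) (_ : Fintype W) (_ : Fintype J) (ρ : J → W → W → K) (N : ℕ),
    Fintype.card W = n ∧ Fintype.card J = m ∧ Nil1 ρ 0 N

theorem HasSt.goodTwo {n m : ℕ} (h : HasSt K n m) : GoodTwo K n m := by
  obtain ⟨W, J, _, _, ρ, lam, j₁, j₂, hW, hJ, h⟩ := h
  obtain ⟨N, hN⟩ := h.nil
  exact ⟨W ⊕ Bool, J, inferInstance, inferInstance, ρ, N, by simp [← hW], hJ, hN⟩

theorem GoodTwo.exists_finite {n m : ℕ} (h : GoodTwo K n m) (d : ℕ) (hd : m ≤ d) :
    ∃ q : Fin d → Fin n → Fin n → K,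
      FiniteDimensional K (RingQuot (fun a b : FreeAlgebra K (Fin n) =>
        (∃ k, a = ∑ i, ∑ j, q k i j • (FreeAlgebra.ι K i * FreeAlgebra.ι K j)) ∧ b = 0)) := by
  classical
  obtain ⟨W, J, _, _, ρ, N, hW, hJ, hN⟩ := h
  let e : W ≃ Fin n := Fintype.equivFinOfCardEq hW
  have hcard : Fintype.card J ≤ Fintype.card (Fin d) := by
    rw [hJ, Fintype.card_fin]; omega
  obtain ⟨emb⟩ := Function.Embedding.nonempty_of_card_le hcard
  let q0 : J → Fin n → Fin n → K := fun o i j => ρ o (e.symm i) (e.symm j)
  let q : Fin d → Fin n → Fin n → K := Function.extend emb q0 0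
  have hq : ∀ o, q (emb o) = q0 o := fun o => emb.injective.extend_apply q0 0 o
  refine ⟨q, ?_⟩
  set rel : FreeAlgebra K (Fin n) → FreeAlgebra K (Fin n) → Prop := fun a b =>
        (∃ k, a = ∑ i, ∑ j, q k i j • (FreeAlgebra.ι K i * FreeAlgebra.ι K j)) ∧ b = 0 with hrel
  refine finite_of_words rel N ?_
  intro l hl
  have hev : ∀ o : J, ev (ρ o)
      (fun a => RingQuot.mkAlgHom K rel (FreeAlgebra.ι K (e a))) = 0 := by
    intro o
    have h1 : rel (∑ i, ∑ j, q (emb o) i j • (FreeAlgebra.ι K i * FreeAlgebra.ι K j)) 0 :=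
      ⟨⟨emb o, rfl⟩, rfl⟩
    have h2 := RingQuot.mkAlgHom_rel K h1
    rw [map_zero, hq] at h2
    simp only [map_sum, map_smul, map_mul] at h2
    rw [ev, ← h2]
    rw [← Equiv.sum_comp e]
    refine Finset.sum_congr rfl fun a _ => ?_
    rw [← Equiv.sum_comp e]
    refine Finset.sum_congr rfl fun b _ => ?_
    simp [q0]
  have := hN (RingQuot rel) (fun a => RingQuot.mkAlgHom K rel (FreeAlgebra.ι K (e a)))
    hev (by simp [ev]) (l.map e.symm) (by simpa using hl)
  simpa [Function.comp_def] using this

theorem Good.goodTwo {n m : ℕ} (h : Good K n m) : GoodTwo K n (m + 1) := by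
  obtain ⟨W, J, _, _, ρ, r, N, hW, hJ, hN⟩ := h
  refine ⟨W, Option J, inferInstance, inferInstance, fun o => o.elim r ρ, N, hW, by simp [hJ], ?_⟩
  intro A _ _ V hρ _ l hl
  exact hN A V (fun j => hρ (some j)) (hρ none) l hl

end state

end Pool.Agent.Lib.MP_f6e06e_al
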