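import Mathlib
import Pool.Agent.Lib.MP_f6e06e_al.Tower
import Pool.Agent.Lib.MP_f6e06e_al.Base

/-!
The bottom of the tower: algebras with `4` and `5` generators over fields of characteristic
`2` or `3`.
-/

namespace Pool.Agent.Lib.MP_f6e06e_al

universe u

theorem char_alg {K : Type u} [Field K] (hp : (2 : K) = 0 ∨ (3 : K) = 0) (A : Type*) [Ring A]
    [Algebra K A] : (2 : A) = 0 ∨ (3 : A) = 0 := by
  rcases hp with hp | hp
  · left
    rw [← map_ofNat (algebraMap K A) 2, hp, map_zero]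
  · right
    rw [← map_ofNat (algebraMap K A) 3, hp, map_zero]

section jordan

variable {K : Type u} [Field K] {A : Type u} [Ring A] [Algebra K A] {X Y : A}

/-- span of the products `Y ^ p * X ^ s` with `p + s = n` -/
def yx (K : Type u) [Field K] [Algebra K A] (X Y : A) (n : ℕ) : Submodule K A :=
  Submodule.span K {t | ∃ p s : ℕ, p + s = n ∧ Y ^ p * X ^ s = t}

theorem yx_mul_X {n : ℕ} {t : A} (ht : t ∈ yx K X Y n) : t * X ∈ yx K X Y (n + 1) := by
  rw [yx] at ht
  induction ht using Submodule.span_induction with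
  | mem t ht =>
    obtain ⟨p, s, h, rfl⟩ := ht
    exact Submodule.subset_span ⟨p, s + 1, by omega, by rw [pow_succ X, mul_assoc]⟩
  | zero => simp
  | add x y _ _ hx hy => rw [add_mul]; exact add_mem hx hy
  | smul c x _ hx => rw [smul_mul_assoc]; exact Submodule.smul_mem _ c hx

theorem yx_mul_X_pow {n : ℕ} {t : A} (ht : t ∈ yx K X Y n) : ∀ s, t * X ^ s ∈ yx K X Y (n + s)
  | 0 => by simpa using ht
  | s + 1 => by
    rw [pow_succ, ← mul_assoc, ← add_assoc]
    exact yx_mul_X (yx_mul_X_pow ht s)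

theorem Y_mul_yx {n : ℕ} {t : A} (ht : t ∈ yx K X Y n) : Y * t ∈ yx K X Y (n + 1) := by
  rw [yx] at ht
  induction ht using Submodule.span_induction with
  | mem t ht =>
    obtain ⟨p, s, h, rfl⟩ := ht
    exact Submodule.subset_span ⟨p + 1, s, by omega, by rw [pow_succ' Y, mul_assoc]⟩
  | zero => simp
  | add x y _ _ hx hy => rw [mul_add]; exact add_mem hx hy
  | smul c x _ hx => rw [mul_smul_comm]; exact Submodule.smul_mem _ c hx

theorem X_mul_yx_of {n : ℕ} (h : ∀ p, p ≤ n → ∃ t ∈ yx K X Y p, X * Y ^ p = t * X) {t : A}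
    (ht : t ∈ yx K X Y n) : X * t ∈ yx K X Y (n + 1) := by
  rw [yx] at ht
  induction ht using Submodule.span_induction with
  | mem t ht =>
    obtain ⟨p, s, hps, rfl⟩ := ht
    obtain ⟨t, ht, h1⟩ := h p (by omega)
    rw [← mul_assoc, h1, mul_assoc, ← pow_succ']
    have := yx_mul_X_pow ht (s + 1)
    rwa [← add_assoc, hps] at this
  | zero => simp
  | add x y _ _ hx hy => rw [mul_add]; exact add_mem hx hy
  | smul c x _ hx => rw [mul_smul_comm]; exact Submodule.smul_mem _ c hx

theorem X_mul_Y_pow_mem (h : X * X + X * Y - Y * X = 0) (p : ℕ) :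
    ∃ t ∈ yx K X Y p, X * Y ^ p = t * X := by
  induction p using Nat.strong_induction_on with
  | _ p ih =>
    match p, ih with
    | 0, _ => exact ⟨1, Submodule.subset_span ⟨0, 0, rfl, by simp⟩, by simp⟩
    | p + 1, ih =>
      obtain ⟨t, ht, h1⟩ := ih p (by omega)
      have h2 := X_mul_yx_of (fun q hq => ih q (by omega)) ht
      refine ⟨Y * t - X * t, sub_mem (Y_mul_yx ht) h2, ?_⟩
      have h3 : X * Y = Y * X - X * X := by
        have : X * Y - (Y * X - X * X) = X * X + X * Y - Y * X := by abel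
        rw [← sub_eq_zero, this, h]
      rw [pow_succ', ← mul_assoc, h3, sub_mul, mul_assoc, mul_assoc, h1, sub_mul, mul_assoc,
        mul_assoc]

theorem X_mul_yx (h : X * X + X * Y - Y * X = 0) {n : ℕ} {t : A}
    (ht : t ∈ yx K X Y n) : X * t ∈ yx K X Y (n + 1) :=
  X_mul_yx_of (fun p _ => X_mul_Y_pow_mem h p) ht

theorem word_mem_yx {W : Type} (V : W ⊕ Bool → A)
    (h : V (Sum.inr false) * V (Sum.inr false) + V (Sum.inr false) * V (Sum.inr true) -
      V (Sum.inr true) * V (Sum.inr false) = 0) : ∀ g : List Bool,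
    val V (g.map Sum.inr) ∈ yx K (V (Sum.inr false)) (V (Sum.inr true)) g.length
  | [] => Submodule.subset_span ⟨0, 0, rfl, by simp⟩
  | true :: g => by
    rw [List.map_cons, val_cons, List.length_cons]
    exact Y_mul_yx (word_mem_yx V h g)
  | false :: g => by
    rw [List.map_cons, val_cons, List.length_cons]
    exact X_mul_yx h (word_mem_yx V h g)

theorem yx_eq_bot (h6 : ∀ a b : ℕ, a + b = 6 → Y ^ a * X ^ b = 0) (n : ℕ) (hn : 6 ≤ n) :
    yx K X Y n = ⊥ := by
  rw [yx, Submodule.span_eq_bot]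
  rintro t ⟨p, s, hps, rfl⟩
  obtain ⟨a, b, hab, ha, hb⟩ : ∃ a b : ℕ, a + b = 6 ∧ a ≤ p ∧ b ≤ s :=
    ⟨min p 6, 6 - min p 6, by omega, by omega, by omega⟩
  have e : Y ^ p * X ^ s = Y ^ (p - a) * (Y ^ a * X ^ b) * X ^ (s - b) := by
    have e1 : Y ^ p = Y ^ (p - a) * Y ^ a := by rw [← pow_add]; congr 1; omega
    have e2 : X ^ s = X ^ b * X ^ (s - b) := by rw [← pow_add]; congr 1; omega
    rw [e1, e2]
    simp only [mul_assoc]
  rw [e, h6 a b hab, mul_zero, zero_mul]

end jordan

section square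

variable {K : Type u} [Field K] {W J : Type} [Fintype W]

/-- the monomial `s t` -/
noncomputable def monW (K : Type u) [Field K] (s t : W) : W → W → K :=
  open Classical in fun s' t' => if s' = s ∧ t' = t then 1 else 0

theorem ev_monW {A : Type*} [Ring A] [Algebra K A] (s t : W) (V : W → A) :
    ev (monW K s t) V = V s * V t := by
  classical
  simp only [ev, monW, ite_and, ite_smul, one_smul, zero_smul]
  rw [Finset.sum_eq_single s]
  · simp
  · intro b _ hb
    simp [hb]
  · simp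

/-- the relations of the bottom algebras -/
noncomputable def sqRel (ρ : J → W → W → K) (c : W) :
    (J ⊕ Unit ⊕ W ⊕ Unit) → (W ⊕ Bool) → (W ⊕ Bool) → K :=
  Sum.elim (fun j => ext0 (ρ j)) (Sum.elim
    (fun _ => mono K (Sum.inl c) (Sum.inl c) + mono K (Sum.inr false) (Sum.inr true) +
      mono K (Sum.inr true) (Sum.inr true))
    (Sum.elim
      (fun a => mono K (Sum.inr false) (Sum.inl a) - mono K (Sum.inl a) (Sum.inr true))
      (fun _ => mono K (Sum.inr false) (Sum.inr false) + mono K (Sum.inr false) (Sum.inr true) -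
        mono K (Sum.inr true) (Sum.inr false))))

variable {A : Type u} [Ring A] [Algebra K A]

theorem ev_sqRel_rho (ρ : J → W → W → K) (c : W) (V : W ⊕ Bool → A) (j : J) :
    ev (sqRel ρ c (Sum.inl j)) V = ev (ρ j) (fun a => V (Sum.inl a)) := by
  simp [sqRel, ev_ext0]

theorem ev_sqRel_sq (ρ : J → W → W → K) (c : W) (V : W ⊕ Bool → A) (i : Unit) :
    ev (sqRel ρ c (Sum.inr (Sum.inl i))) V = V (Sum.inl c) * V (Sum.inl c) +
      V (Sum.inr false) * V (Sum.inr true) + V (Sum.inr true) * V (Sum.inr true) := by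
  simp [sqRel, ev_add, ev_mono]

theorem ev_sqRel_exch (ρ : J → W → W → K) (c : W) (V : W ⊕ Bool → A) (a : W) :
    ev (sqRel ρ c (Sum.inr (Sum.inr (Sum.inl a)))) V =
      V (Sum.inr false) * V (Sum.inl a) - V (Sum.inl a) * V (Sum.inr true) := by
  simp [sqRel, ev_sub, ev_mono]

theorem ev_sqRel_jordan (ρ : J → W → W → K) (c : W) (V : W ⊕ Bool → A) (i : Unit) :
    ev (sqRel ρ c (Sum.inr (Sum.inr (Sum.inr i)))) V =
      V (Sum.inr false) * V (Sum.inr false) + V (Sum.inr false) * V (Sum.inr true) -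
        V (Sum.inr true) * V (Sum.inr false) := by
  simp [sqRel, ev_sub, ev_add, ev_mono]

theorem gap_mem_of (V : W ⊕ Bool → A)
    (hX : ∀ a, V (Sum.inr false) * V (Sum.inl a) = V (Sum.inl a) * V (Sum.inr true))
    (q : W → W → K) (T : ℕ → Submodule K A)
    (hT : ∀ p s, V (Sum.inr false) ^ p * ev q (fun a => V (Sum.inl a)) * V (Sum.inr true) ^ s ∈
      T (p + s)) (n : ℕ) (t : A)
    (ht : t ∈ yx K (V (Sum.inr false)) (V (Sum.inr true)) n) :
    gap q (fun a => V (Sum.inl a)) t ∈ T n := by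
  rw [yx] at ht
  induction ht using Submodule.span_induction with
  | mem t ht =>
    obtain ⟨p, s, h, rfl⟩ := ht
    rw [gap_pow hX, ← h]
    exact hT p s
  | zero =>
    have : gap q (fun a => V (Sum.inl a)) (0 : A) = 0 := by simp [gap]
    rw [this]; exact zero_mem _
  | add x y _ _ hx hy => rw [gap_add]; exact add_mem hx hy
  | smul c x _ hx => rw [gap_smul]; exact Submodule.smul_mem _ c hx

theorem nil_sqRel (hp : (2 : K) = 0 ∨ (3 : K) = 0) {ρ : J → W → W → K} {c : W} {N : ℕ}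
    (hN : Nil1 ρ (monW K c c) N) : ∃ N, Nil1 (sqRel ρ c) 0 N := by
  refine nil1_of_exists ?_
  intro A _ _ V hρ _
  have hpA := char_alg hp A
  have r1 : ∀ j, ev (ρ j) (fun a => V (Sum.inl a)) = 0 := by
    intro j
    have := hρ (Sum.inl j)
    rwa [ev_sqRel_rho] at this
  have r2 := hρ (Sum.inr (Sum.inl ()))
  rw [ev_sqRel_sq] at r2
  have r3 : ∀ a, V (Sum.inr false) * V (Sum.inl a) = V (Sum.inl a) * V (Sum.inr true) := by
    intro a
    have := hρ (Sum.inr (Sum.inr (Sum.inl a)))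
    rw [ev_sqRel_exch] at this
    exact sub_eq_zero.1 this
  have r4 := hρ (Sum.inr (Sum.inr (Sum.inr ())))
  rw [ev_sqRel_jordan] at r4
  have h6 := xy_six hpA (V (Sum.inl c)) (V (Sum.inr false)) (V (Sum.inr true)) r2
    (sub_eq_zero.2 (r3 c)) r4
  have hword := word_mem_yx (K := K) V r4
  refine ⟨N * 6 + N, fun l hl => words_vanish_two hN.nil2 V ?_ ?_ 6 ?_ l hl⟩
  · intro j g
    have := gap_mem_of V r3 (ρ j) (fun _ => ⊥) (by
      intro p s
      rw [r1]; simp) _ _ (hword g)
    rw [Submodule.mem_bot] at this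
    rw [this]; exact zero_mem _
  · intro g
    refine gap_mem_of V r3 (monW K c c) (fun n => Submodule.span K {p | ∃ g : List Bool,
      g.length = n + 2 ∧ val V (g.map Sum.inr) = p}) ?_ _ _ (hword g)
    intro p s
    have e : V (Sum.inl c) * V (Sum.inl c) = - (V (Sum.inr false) * V (Sum.inr true)) -
        V (Sum.inr true) * V (Sum.inr true) := by
      rw [← sub_eq_zero, ← r2]; abel
    rw [ev_monW, e, mul_sub, sub_mul, mul_neg, neg_mul]
    refine sub_mem (neg_mem (Submodule.subset_span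
      ⟨List.replicate p false ++ false :: true :: List.replicate s true, ?_, ?_⟩))
      (Submodule.subset_span
        ⟨List.replicate p false ++ true :: true :: List.replicate s true, ?_, ?_⟩)
    · simp; omega
    · simp [mul_assoc]
    · simp; omega
    · simp [mul_assoc]
  · intro g hg
    have := hword g
    rw [yx_eq_bot h6 _ hg, Submodule.mem_bot] at this
    exact this

end square

section base

variable {K : Type u} [Field K]

/-- two generators `a, b`: the relation `a a = a b` -/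
noncomputable def relTwo (K : Type u) [Field K] : Unit → Fin 2 → Fin 2 → K :=
  fun _ => monW K 0 0 - monW K 0 1

/-- three generators `a, b, c`: the relations `b b = a c` and `c c = c a + b c + a b` -/
noncomputable def relThree (K : Type u) [Field K] : Bool → Fin 3 → Fin 3 → K :=
  fun i => if i then monW K 2 2 - monW K 2 0 - monW K 1 2 - monW K 0 1
    else monW K 1 1 - monW K 0 2

theorem ev_subW {W : Type} [Fintype W] {A : Type*} [Ring A] [Algebra K A] (p q : W → W → K)
    (V : W → A) : ev (p - q) V = ev p V - ev q V := by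
  simp only [ev, Pi.sub_apply, sub_smul, Finset.sum_sub_distrib]

theorem nil_relTwo (hp : (2 : K) = 0 ∨ (3 : K) = 0) : Nil1 (relTwo K) (monW K 1 1) 4 := by
  intro A _ _ V hρ hr l hl
  have h0 := hρ ()
  rw [relTwo, ev_subW, ev_monW, ev_monW] at h0
  rw [ev_monW] at hr
  exact nil_two (char_alg hp A) V h0 hr l hl

theorem nil_relThree (hp : (2 : K) = 0 ∨ (3 : K) = 0) :
    Nil1 (relThree K) (monW K 0 0) 9 := by
  intro A _ _ V hρ hr l hl
  have h0 := hρ false
  have h1 := hρ true
  simp only [relThree, Bool.false_eq_true, if_false, if_true, ev_subW, ev_monW] at h0 h1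
  rw [ev_monW] at hr
  exact nil_three (char_alg hp A) V hr h0 h1 l hl

theorem coll_of_four (hp : (2 : K) = 0 ∨ (3 : K) = 0) : Coll (sqRel (relTwo K) 1)
    (Sum.elim (fun _ => 0) (Sum.elim (fun _ => 1) (Sum.elim (fun a => if a = 0 then 1 else 0)
      (fun _ => 0)))) := by
  intro A _ _ V hV
  have h0 := hV (Sum.inl ())
  have h1 := hV (Sum.inr (Sum.inl ()))
  have h2 := hV (Sum.inr (Sum.inr (Sum.inl 0)))
  have h3 := hV (Sum.inr (Sum.inr (Sum.inl 1)))
  have h4 := hV (Sum.inr (Sum.inr (Sum.inr ())))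
  rw [ev_sqRel_rho, relTwo, ev_subW, ev_monW, ev_monW] at h0
  rw [ev_sqRel_sq] at h1
  rw [ev_sqRel_exch] at h2 h3
  rw [ev_sqRel_jordan] at h4
  exact coll_four (char_alg hp A) (V (Sum.inl 0)) (V (Sum.inl 1)) (V (Sum.inr false))
    (V (Sum.inr true)) (by simpa using h0) (by simpa using h1) (by simpa using h2)
    (by simpa using h3) (by simpa using h4)

theorem coll_of_five (hp : (2 : K) = 0 ∨ (3 : K) = 0) : Coll (sqRel (relThree K) 0)
    (Sum.elim (fun i => if i then 1 else 0) (Sum.elim (fun _ => 0)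
      (Sum.elim (fun a => if a = 2 then 0 else 1) (fun _ => 0)))) := by
  intro A _ _ V hV
  have h0 := hV (Sum.inr (Sum.inl ()))
  have h1 := hV (Sum.inl false)
  have h2 := hV (Sum.inl true)
  have h3 := hV (Sum.inr (Sum.inr (Sum.inl 0)))
  have h4 := hV (Sum.inr (Sum.inr (Sum.inl 1)))
  have h5 := hV (Sum.inr (Sum.inr (Sum.inl 2)))
  have h6 := hV (Sum.inr (Sum.inr (Sum.inr ())))
  rw [ev_sqRel_sq] at h0
  rw [ev_sqRel_rho] at h1 h2
  rw [ev_sqRel_exch] at h3 h4 h5
  rw [ev_sqRel_jordan] at h6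
  simp only [relThree, Bool.false_eq_true, if_false, if_true, ev_subW, ev_monW] at h1 h2
  exact coll_five (char_alg hp A) (V (Sum.inl 0)) (V (Sum.inl 1)) (V (Sum.inl 2))
    (V (Sum.inr false)) (V (Sum.inr true)) (by simpa using h0) (by simpa using h1)
    (by simpa using h2) (by simpa using h3) (by simpa using h4) (by simpa using h5)
    (by simpa using h6)

theorem hasSt_four (hp : (2 : K) = 0 ∨ (3 : K) = 0) : HasSt K 4 5 := by
  refine ⟨Fin 2, Unit ⊕ Unit ⊕ Fin 2 ⊕ Unit, inferInstance, inferInstance,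
    sqRel (relTwo K) 1, _, Sum.inl (), Sum.inr (Sum.inr (Sum.inr ())), rfl, rfl,
    nil_sqRel hp (nil_relTwo hp), coll_of_four hp, ?_, ⟨relTwo K (), rfl⟩, rfl, rfl, by simp⟩
  intro a
  exact ⟨Sum.inr (Sum.inr (Sum.inl a)), rfl⟩

theorem hasSt_five (hp : (2 : K) = 0 ∨ (3 : K) = 0) : HasSt K 5 7 := by
  refine ⟨Fin 3, Bool ⊕ Unit ⊕ Fin 3 ⊕ Unit, inferInstance, inferInstance,
    sqRel (relThree K) 0, _, Sum.inl false, Sum.inr (Sum.inr (Sum.inr ())), rfl, rfl,
    nil_sqRel hp (nil_relThree hp), coll_of_five hp, ?_, ⟨relThree K false, rfl⟩, rfl, rfl,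
    by simp⟩
  intro a
  exact ⟨Sum.inr (Sum.inr (Sum.inl a)), rfl⟩

theorem hasSt_all (hp : (2 : K) = 0 ∨ (3 : K) = 0) : ∀ n : ℕ,
    HasSt K (n + 4) ((n + 4) ^ 2 / 4 + 1)
  | 0 => hasSt_four hp
  | 1 => hasSt_five hp
  | n + 2 => by
    have h := (hasSt_all hp n).next
    have e : (n + 2 + 4) ^ 2 / 4 + 1 = (n + 4) ^ 2 / 4 + 1 + (n + 4) + 1 := by
      have : (n + 2 + 4) ^ 2 = (n + 4) ^ 2 + (n + 5) * 4 := by ring
      rw [this, Nat.add_mul_div_right _ _ (by norm_num)]
      ring
    rwa [e]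

theorem goodTwo_small (hp : (2 : K) = 0 ∨ (3 : K) = 0) : ∀ n : ℕ, GoodTwo K n (n ^ 2 / 4 + 1)
  | 0 => good_zero.goodTwo
  | 1 => good_one.goodTwo
  | 2 => Good.goodTwo ⟨Fin 2, Unit, inferInstance, inferInstance, relTwo K, monW K 1 1, 4, rfl, rfl,
      nil_relTwo hp⟩
  | 3 => Good.goodTwo ⟨Fin 3, Bool, inferInstance, inferInstance, relThree K, monW K 0 0, 9, rfl,
      rfl, nil_relThree hp⟩
  | n + 4 => (hasSt_all hp n).goodTwo

end base

end Pool.Agent.Lib.MP_f6e06e_al
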